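import Pool.Agent.HTwo.Targets
import Pool.Agent.HLow.Low3

set_option autoImplicit false

namespace Pool.Agent.HTwo

open Finset Pool.Agent.HLow

theorem BOOT_num (K z ρ al EZZ ERR EZR : ℝ) (hK : 1 ≤ K) (hz : 0 ≤ z) (hρ : 990 * K ^ 4 ≤ ρ)
    (hal : al * ρ = z + z * K⁻¹) (h1 : EZZ ≤ z ^ 2) (h2 : ERR ≤ ρ ^ 2)
    (h3 : z * (ρ - 10 * K ^ 3) ≤ EZR)
    (h : -(K * (1 ^ 2 * z + (z * K⁻¹) ^ 2 * 1 + (-al) ^ 2 * ρ))
      ≤ 1 ^ 2 * EZZ + (z * K⁻¹) ^ 2 * 0 + (-al) ^ 2 * ERR
        + 2 * 1 * (z * K⁻¹) * 0 + 2 * 1 * (-al) * EZR + 2 * (z * K⁻¹) * (-al) * ρ) :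
    z ≤ 2 * K ^ 2 := by
  have hK0 : 0 < K := by linarith
  obtain ⟨κ, hκ⟩ : ∃ κ : ℝ, κ = K⁻¹ := ⟨_, rfl⟩
  rw [← hκ] at hal h
  have hKκ : K * κ = 1 := by rw [hκ]; exact mul_inv_cancel₀ hK0.ne'
  have hκ0 : 0 < κ := by rw [hκ]; positivity
  have hκ1 : κ ≤ 1 := by nlinarith
  have hK4 : 0 < K ^ 4 := by positivity
  have hρ0 : 0 < ρ := by linarith
  have hal0 : 0 ≤ al := by
    by_contra hcon
    push Not at hcon
    have h4 : al * ρ < 0 := mul_neg_of_neg_of_pos hcon hρ0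
    have h5 : 0 ≤ z + z * κ := by positivity
    linarith
  have hzκ : z * κ ≤ z := by nlinarith
  -- bound of `al * K ^ 4`
  have ha4 : al * K ^ 4 * 990 ≤ 2 * z := by
    have h4 : al * (990 * K ^ 4) ≤ al * ρ := mul_le_mul_of_nonneg_left hρ hal0
    linarith
  have ha3 : al * K ^ 3 * 990 ≤ 2 * z * κ := by
    have h4 : al * K ^ 3 = al * K ^ 4 * κ := by
      have : al * K ^ 4 * κ = al * K ^ 3 * (K * κ) := by ring
      rw [this, hKκ, mul_one]
    rw [h4]
    have h5 := mul_le_mul_of_nonneg_right ha4 hκ0.le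
    linarith
  have e1 : (-al) ^ 2 * ERR ≤ (z + z * κ) ^ 2 := by
    have h4 : (-al) ^ 2 * ERR ≤ (-al) ^ 2 * ρ ^ 2 := mul_le_mul_of_nonneg_left h2 (sq_nonneg _)
    have h5 : (-al) ^ 2 * ρ ^ 2 = (al * ρ) ^ 2 := by ring
    rw [h5, hal] at h4
    exact h4
  have e2 : 2 * 1 * (-al) * EZR ≤ -2 * z * (z + z * κ) + 20 * z * (al * K ^ 3) := by
    have h4 : al * (z * (ρ - 10 * K ^ 3)) ≤ al * EZR := mul_le_mul_of_nonneg_left h3 hal0
    have h5 : al * (z * (ρ - 10 * K ^ 3)) = z * (al * ρ) - 10 * z * (al * K ^ 3) := by ring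
    rw [h5, hal] at h4
    linarith
  have e3 : 2 * (z * κ) * (-al) * ρ = -2 * (z * κ) * (z + z * κ) := by
    have : 2 * (z * κ) * (-al) * ρ = -2 * (z * κ) * (al * ρ) := by ring
    rw [this, hal]
  have e4 : K * ((-al) ^ 2 * ρ) = K * al * (z + z * κ) := by
    have : K * ((-al) ^ 2 * ρ) = K * al * (al * ρ) := by ring
    rw [this, hal]
  have e5 : K * (z * κ) ^ 2 = z ^ 2 * κ := by
    have : K * (z * κ) ^ 2 = z ^ 2 * κ * (K * κ) := by ring
    rw [this, hKκ, mul_one]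
  have e6 : z ^ 2 * κ ≤ K * z + K * al * (z + z * κ) + 20 * z * (al * K ^ 3) := by
    have h4 : 0 ≤ (z * κ) ^ 2 := sq_nonneg _
    nlinarith [h, e1, e2, e3, e4, e5, h1]
  have e7 : K * al * (z + z * κ) ≤ 2 * z * (al * K ^ 3) := by
    have h4 : K * al ≤ al * K ^ 3 := by
      have h5 : K ≤ K ^ 3 := by nlinarith [sq_nonneg (K - 1), mul_pos hK0 hK0]
      nlinarith
    have h5 : 0 ≤ K * al := by positivity
    calc K * al * (z + z * κ) ≤ K * al * (2 * z) := mul_le_mul_of_nonneg_left (by linarith) h5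
      _ ≤ al * K ^ 3 * (2 * z) := mul_le_mul_of_nonneg_right h4 (by linarith)
      _ = 2 * z * (al * K ^ 3) := by ring
  have e8 : 22 * z * (al * K ^ 3) * 990 ≤ 22 * z * (2 * z * κ) := by
    have := mul_le_mul_of_nonneg_left ha3 (by linarith : 0 ≤ 22 * z)
    linarith
  have e9 : z ^ 2 * κ * 946 ≤ 990 * (K * z) := by nlinarith
  have e10 : z ^ 2 * 946 ≤ 990 * K ^ 2 * z := by
    have h4 := mul_le_mul_of_nonneg_left e9 hK0.le
    have h5 : K * (z ^ 2 * κ * 946) = z ^ 2 * 946 * (K * κ) := by ring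
    rw [h5, hKκ] at h4
    linarith
  rcases hz.eq_or_lt with h0 | h0
  · rw [← h0]; positivity
  · have h4 : z * (z * 946) ≤ z * (990 * K ^ 2) := by linarith
    have h5 := le_of_mul_le_mul_left h4 h0
    have h6 : 0 ≤ K ^ 2 := sq_nonneg _
    linarith

theorem p_BOOT : T_BOOT := by
  classical
  intro V _ _ A K hA hL hK S hS hcard w hw
  set Z : Finset V := S.filter (fun z => z ≠ w ∧ A w z = 0) with hZ
  set R : Finset V := S.filter (fun z => z ≠ w ∧ A w z ≠ 0) with hR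
  have hZR : Disjoint Z R := by
    rw [Finset.disjoint_left]
    intro x hx hx'
    exact (mem_filter.1 hx').2.2 (mem_filter.1 hx).2.2
  have hZw : Disjoint Z {w} := by
    rw [Finset.disjoint_singleton_right]
    intro h
    exact (mem_filter.1 h).2.1 rfl
  have hwR : Disjoint {w} R := by
    rw [Finset.disjoint_singleton_left]
    intro h
    exact (mem_filter.1 h).2.1 rfl
  have hunion : insert w Z ∪ R = S := by
    ext x
    simp only [mem_union, mem_insert, hZ, hR, mem_filter]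
    constructor
    · rintro ((rfl | h) | h)
      · exact hw
      · exact h.1
      · exact h.1
    · intro hx
      by_cases h1 : x = w
      · exact Or.inl (Or.inl h1)
      · by_cases h2 : A w x = 0
        · exact Or.inl (Or.inr ⟨hx, h1, h2⟩)
        · exact Or.inr ⟨hx, h1, h2⟩
  have hwZ : w ∉ Z := fun h => (mem_filter.1 h).2.1 rfl
  have hcardS : (S.card : ℝ) = Z.card + 1 + R.card := by
    have h1 : Disjoint (insert w Z) R := by
      rw [Finset.disjoint_insert_left]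
      exact ⟨fun h => (mem_filter.1 h).2.1 rfl, hZR⟩
    have h2 : S.card = (insert w Z).card + R.card := by
      rw [← hunion, card_union_of_disjoint h1]
    rw [card_insert_of_notMem hwZ] at h2
    rw [h2]
    push_cast
    ring
  have hZsub : insert w Z ⊆ S.filter (fun z => A w z = 0) := by
    intro x hx
    rcases mem_insert.1 hx with rfl | hx
    · exact mem_filter.2 ⟨hw, hA.dg _⟩
    · exact mem_filter.2 ⟨(mem_filter.1 hx).1, (mem_filter.1 hx).2.2⟩
  have hz1 : (Z.card : ℝ) + 1 ≤ 10 * K ^ 3 := by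
    have h1 := card_le_card hZsub
    rw [card_insert_of_notMem hwZ] at h1
    have h2 : ((Z.card + 1 : ℕ) : ℝ) ≤ ((S.filter (fun z => A w z = 0)).card : ℝ) := by
      exact_mod_cast h1
    push_cast at h2
    exact h2.trans (hS w hw)
  have hK34 : K ^ 3 ≤ K ^ 4 := by
    have h1 : 0 ≤ K ^ 3 := by positivity
    nlinarith
  have hρ : 990 * K ^ 4 ≤ (R.card : ℝ) := by linarith
  have hρ0 : 0 < (R.card : ℝ) := by
    have : 0 < K ^ 4 := by positivity
    linarith
  have h1 : ee A Z Z ≤ (Z.card : ℝ) ^ 2 := by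
    rw [pow_two]; exact ee_le hA Z Z
  have h2 : ee A R R ≤ (R.card : ℝ) ^ 2 := by
    rw [pow_two]; exact ee_le hA R R
  have h3 : (Z.card : ℝ) * ((R.card : ℝ) - 10 * K ^ 3) ≤ ee A Z R := by
    unfold ee
    rw [← nsmul_eq_mul, ← sum_const]
    refine sum_le_sum fun x hx => ?_
    have hxS : x ∈ S := (mem_filter.1 hx).1
    have h4 : ∑ v ∈ R, A x v = (R.card : ℝ) - ((R.filter (fun v => A x v = 0)).card : ℝ) := by
      have h5 : ∀ v ∈ R, A x v = 1 - (if A x v = 0 then 1 else 0) := by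
        intro v _
        rcases hA.zo x v with e | e
        · rw [e]; simp
        · rw [e]; simp
      rw [sum_congr rfl h5, sum_sub_distrib, sum_const, nsmul_eq_mul, mul_one, ← sum_filter,
        sum_const, nsmul_eq_mul, mul_one]
    rw [h4]
    have h6 : ((R.filter (fun v => A x v = 0)).card : ℝ) ≤ 10 * K ^ 3 := by
      refine le_trans ?_ (hS x hxS)
      have : R.filter (fun v => A x v = 0) ⊆ S.filter (fun z => A x z = 0) := by
        intro v hv
        exact mem_filter.2 ⟨(mem_filter.1 (mem_filter.1 hv).1).1, (mem_filter.1 hv).2⟩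
      exact_mod_cast card_le_card this
    linarith
  have h4 : ee A {w} {w} = 0 := by
    unfold ee
    rw [sum_singleton, sum_singleton, hA.dg]
  have h5 : ee A Z {w} = 0 := by
    unfold ee
    refine sum_eq_zero fun x hx => ?_
    rw [sum_singleton, hA.sym]
    exact (mem_filter.1 hx).2.2
  have h6 : ee A {w} R = (R.card : ℝ) := by
    unfold ee
    rw [sum_singleton]
    rw [sum_congr rfl fun v hv => (hA.zo w v).resolve_left (mem_filter.1 hv).2.2, sum_const,
      nsmul_eq_mul, mul_one]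
  have key := low3 hA.sym hL Z {w} R hZw hZR hwR 1 ((Z.card : ℝ) * K⁻¹)
    (-(((Z.card : ℝ) + (Z.card : ℝ) * K⁻¹) / (R.card : ℝ)))
  rw [h4, h5, h6, card_singleton, Nat.cast_one] at key
  exact BOOT_num K (Z.card : ℝ) (R.card : ℝ) _ _ _ _ hK (Nat.cast_nonneg _) hρ
    (div_mul_cancel₀ _ hρ0.ne') h1 h2 h3 key

end Pool.Agent.HTwo
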