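import Mathlib
import Pool.Agent.HLow.Targets

set_option autoImplicit false

namespace Pool.Agent.HTwo

open Finset Pool.Agent.HLow

variable {V : Type} [Fintype V] [DecidableEq V]

/-- `A + diag D` is positive semidefinite -/
def LowD (A : V → V → ℝ) (D : V → ℝ) : Prop :=
  ∀ x : V → ℝ, 0 ≤ ∑ u, D u * x u ^ 2 + ∑ u, ∑ v, A u v * (x u * x v)

/-- a graph (density `p`, `A + K I` positive semidefinite) such that no subset has larger
potential `density ^ a * size` -/
structure Ctx (A : V → V → ℝ) (K p a : ℝ) : Prop where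
  adj : Adj A
  low : Low A K
  hN : 1 ≤ Fintype.card V
  hK : 1 ≤ K
  ha : 1 < a
  hp : 0 < p
  he : ee A univ univ = p * (Fintype.card V : ℝ) ^ 2
  mx : ∀ T : Finset V,
    ee A T T ≤ p * (Fintype.card V : ℝ) ^ (1 / a) * (T.card : ℝ) ^ (2 - 1 / a)

/-- diagonal entry at `u` of the part of `A` above `τ` -/
noncomputable def lu (lam : V → ℝ) (v : V → V → ℝ) (τ : ℝ) (u : V) : ℝ :=
  ∑ i, if τ ≤ lam i then lam i * v i u ^ 2 else 0

/-- number of elements of `c` before `j` -/
def cpos (pos : V → ℕ) (c : Finset V) (j : V) : ℕ := (c.filter (fun w => pos w < pos j)).card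

/-- number of neighbours of `u` at distance at least `R`, measured by `cp` -/
noncomputable def long (A : V → V → ℝ) (cp : V → ℕ) (R : ℕ) (u : V) : ℕ :=
  (univ.filter (fun j => A u j ≠ 0 ∧ (R : ℝ) ≤ |(cp u : ℝ) - (cp j : ℝ)|)).card

lemma Ctx.p_le {A : V → V → ℝ} {K p a : ℝ} (h : Ctx A K p a) : p ≤ 1 := by
  have h1 := ee_le h.adj univ univ
  rw [h.he, card_univ] at h1
  have h2 : (1 : ℝ) ≤ (Fintype.card V : ℝ) := by exact_mod_cast h.hN
  have h3 : 0 < (Fintype.card V : ℝ) ^ 2 := by positivity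
  by_contra hcon
  push Not at hcon
  nlinarith

lemma LowD.low {A : V → V → ℝ} {D : V → ℝ} {K : ℝ} (h : LowD A D) (hD : ∀ u, D u ≤ K) :
    Low A K := by
  intro x
  have h1 := h x
  have h2 : ∑ u, D u * x u ^ 2 ≤ K * ∑ u, x u ^ 2 := by
    rw [mul_sum]
    exact sum_le_sum (fun u _ => mul_le_mul_of_nonneg_right (hD u) (sq_nonneg _))
  linarith

lemma LowD.of_low {A : V → V → ℝ} {K : ℝ} (h : Low A K) : LowD A (fun _ => K) := by
  intro x
  have h1 := h x
  rw [← mul_sum]
  linarith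

end Pool.Agent.HTwo
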