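import Mathlib
import Pool.Agent.HTwo.Defs

set_option autoImplicit false

namespace Pool.Agent.HTwo

open Finset Pool.Agent.HLow

/-! ### Part A: near cliques in graphs with `A + K I` positive semidefinite -/

/-- Schur product theorem -/
def T_SCH : Prop := ∀ (V : Type) [Fintype V] [DecidableEq V] (X Y : V → V → ℝ),
  (∀ u v, X u v = X v u) → (∀ u v, Y u v = Y v u) → Low X 0 → Low Y 0 →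
  Low (fun u v => X u v * Y u v) 0

/-- Cauchy-Schwarz for two sets -/
def T_CS : Prop := ∀ (V : Type) [Fintype V] [DecidableEq V] (A : V → V → ℝ) (D : V → ℝ),
  (∀ u v, A u v = A v u) → LowD A D → ∀ S T : Finset V,
  (ee A S T + ∑ u ∈ S ∩ T, D u) ^ 2
    ≤ (ee A S S + ∑ u ∈ S, D u) * (ee A T T + ∑ u ∈ T, D u)

/-- few vertices of large degree -/
def T_UH : Prop := ∀ (V : Type) [Fintype V] [DecidableEq V] (A : V → V → ℝ) (K p a : ℝ),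
  Ctx A K p a → K ≤ p * (Fintype.card V : ℝ) → ∀ h : ℝ, 0 < h →
  ((univ.filter (fun u => h * p * (Fintype.card V : ℝ) ≤ ((nb A u).card : ℝ))).card : ℝ)
      ≤ (4 / h ^ 2) ^ a * (Fintype.card V : ℝ) ∨
  ((univ.filter (fun u => h * p * (Fintype.card V : ℝ) ≤ ((nb A u).card : ℝ))).card : ℝ)
      ≤ 4 * K / (h ^ 2 * p)

/-- near regularity -/
def T_NREG : Prop := ∀ a : ℝ, 1 < a → ∃ C : ℝ, 1 ≤ C ∧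
  ∀ (V : Type) [Fintype V] [DecidableEq V] (A : V → V → ℝ) (K p : ℝ),
  Ctx A K p a → K ≤ p ^ a * (Fintype.card V : ℝ) →
  ∑ u, ((nb A u).card : ℝ) ^ 2 ≤ C * p ^ 2 * (Fintype.card V : ℝ) ^ 3

/-- few triangles -/
def T_THIRD : Prop := ∀ a C0 : ℝ, 1 < a → 1 ≤ C0 → ∃ C : ℝ, 1 ≤ C ∧
  ∀ (V : Type) [Fintype V] [DecidableEq V] (A : V → V → ℝ) (K p : ℝ), Ctx A K p a →
  ∑ u, ((nb A u).card : ℝ) ^ 2 ≤ C0 * p ^ 2 * (Fintype.card V : ℝ) ^ 3 →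
  ∑ u, ee A (nb A u) (nb A u) ≤ C * p ^ (3 - 1 / a) * (Fintype.card V : ℝ) ^ 3

/-- a dyadic level of the spectrum carrying a large part of the trace of `A ^ 2` -/
def T_LVL : Prop := ∀ δ : ℝ, 0 < δ → δ ≤ 1 / 2 → ∃ c : ℝ, 0 < c ∧ c ≤ 1 ∧
  ∀ (V : Type) [Fintype V] [DecidableEq V] (lam : V → ℝ) (K p : ℝ),
  1 ≤ Fintype.card V → 1 ≤ K → 0 < p → (∀ i, -K ≤ lam i) → ∑ i, lam i = 0 →
  ∑ i, lam i ^ 2 = p * (Fintype.card V : ℝ) ^ 2 → 16 * K ^ 2 ≤ p * (Fintype.card V : ℝ) →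
  ∃ i : ℕ, c * (2 : ℝ) ^ (-(δ * i)) * (p * (Fintype.card V : ℝ) ^ 2)
      ≤ ∑ j, (if p * (Fintype.card V : ℝ) / 2 ^ i ≤ lam j then lam j ^ 2 else 0) ∧
    (i ≠ 0 → c * (2 : ℝ) ^ ((1 - δ) * i) * (Fintype.card V : ℝ)
      ≤ TT lam (p * (Fintype.card V : ℝ) / 2 ^ i))

/-- the scale `τ` and `T = TT lam τ / N` -/
def T_SCALE : Prop := ∀ a δ : ℝ, 1 < a → 0 < δ → δ ≤ 1 / 4 → ∃ c : ℝ, 0 < c ∧ c ≤ 1 ∧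
  ∀ (V : Type) [Fintype V] [DecidableEq V] (A : V → V → ℝ) (K p : ℝ) (lam : V → ℝ)
    (v : V → V → ℝ), Ctx A K p a → Spec A K lam v → K ^ 4 ≤ p ^ a * (Fintype.card V : ℝ) →
  16 * K ^ 2 ≤ p * (Fintype.card V : ℝ) →
  ∃ τ : ℝ, 0 < τ ∧
    c * p ^ (-((a - 1) / a - δ)) ≤ TT lam τ / (Fintype.card V : ℝ) ∧
    c * (p * (Fintype.card V : ℝ)) ≤ τ * (max (TT lam τ / (Fintype.card V : ℝ)) 1) ^ (1 + δ)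

/-- many vertices have large `lu` -/
def T_FLAT : Prop := ∀ (V : Type) [Fintype V] [DecidableEq V] (A : V → V → ℝ) (K : ℝ)
  (lam : V → ℝ) (v : V → V → ℝ) (τ t0 : ℝ), Adj A → Spec A K lam v → 0 < τ → 0 ≤ t0 →
  2 * t0 * (Fintype.card V : ℝ) ≤ TT lam τ →
  (Fintype.card V : ℝ) ^ 2 * t0 ^ 2 * τ ^ 2 ≤ (∑ u, ((nb A u).card : ℝ) ^ 2)
    * ((univ.filter (fun u => t0 ≤ lu lam v τ u)).card : ℝ)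

/-- Ky Fan -/
def T_KF : Prop := ∀ (V : Type) [Fintype V] [DecidableEq V] (lam ω : V → ℝ) (s : ℕ),
  (∀ i, 0 ≤ ω i ∧ ω i ≤ 1) → ∑ i, ω i ≤ s →
  ∃ I : Finset V, I.card ≤ s ∧ (∀ i ∈ I, 0 ≤ lam i) ∧ ∑ i, lam i * ω i ≤ ∑ i ∈ I, lam i

/-- a Gram matrix of rank at most `r` below `A + K I` -/
def T_INIT : Prop := ∀ (V : Type) [Fintype V] [DecidableEq V] (A : V → V → ℝ) (K : ℝ)
  (lam : V → ℝ) (v : V → V → ℝ) (r : ℕ) (g : Fin r → V → ℝ), Adj A → Spec A K lam v → 1 ≤ K →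
  (∀ x : V → ℝ, ∑ k, (∑ u, g k u * x u) ^ 2
    ≤ ∑ u, ∑ w, A u w * (x u * x w) + K * ∑ u, x u ^ 2) →
  ∃ I : Finset V, I.card ≤ r ∧ (∀ i ∈ I, 0 ≤ lam i) ∧
    ∑ k, ∑ u, g k u ^ 2 - K * r ≤ ∑ i ∈ I, lam i

/-- the product step -/
def T_PROD : Prop := ∀ (V : Type) [Fintype V] [DecidableEq V] (A : V → V → ℝ) (K t0 : ℝ)
  (lam : V → ℝ) (v : V → V → ℝ) (r : ℕ) (g : Fin r → V → ℝ) (I : Finset V),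
  Adj A → Spec A K lam v → 1 ≤ K →
  (∀ x : V → ℝ, ∑ k, (∑ u, g k u * x u) ^ 2
    ≤ ∑ u, ∑ w, A u w * (x u * x w) + K * ∑ u, x u ^ 2) →
  0 ≤ t0 → (∀ u, t0 ≤ ∑ k, g k u ^ 2) → (∀ i ∈ I, 0 ≤ lam i) →
  ∃ I' : Finset V, I'.card ≤ r * I.card ∧ (∀ i ∈ I', 0 ≤ lam i) ∧
    t0 * ∑ i ∈ I, lam i - K ^ 2 * ((r * I.card : ℕ) : ℝ) ≤ ∑ i ∈ I', lam i

/-- the product chain -/
def T_CHAIN : Prop := ∀ (V : Type) [Fintype V] [DecidableEq V] (A : V → V → ℝ) (K t0 : ℝ)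
  (lam : V → ℝ) (v : V → V → ℝ) (r : ℕ) (g : Fin r → V → ℝ),
  Adj A → Spec A K lam v → 1 ≤ K → 1 ≤ Fintype.card V →
  (∀ x : V → ℝ, ∑ k, (∑ u, g k u * x u) ^ 2
    ≤ ∑ u, ∑ w, A u w * (x u * x w) + K * ∑ u, x u ^ 2) →
  0 < t0 → t0 / 2 ≤ r → (∀ u, t0 ≤ ∑ k, g k u ^ 2) →
  ∀ j : ℕ, 1 ≤ j → K ^ 2 * (r : ℝ) ^ j ≤ (t0 / 2) ^ j * (Fintype.card V : ℝ) → (t0 / 2) ^ j ≤ K

/-- the product chain on the set where `lu` is large -/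
def T_CHAINU : Prop := ∀ (V : Type) [Fintype V] [DecidableEq V] (A : V → V → ℝ) (K t0 τ : ℝ)
  (lam : V → ℝ) (v : V → V → ℝ), Adj A → Low A K → Spec A K lam v → 1 ≤ K →
  0 < τ → 0 < t0 → t0 / 2 ≤ RR lam τ →
  ∀ j : ℕ, 1 ≤ j → 1 ≤ (univ.filter (fun u => t0 ≤ lu lam v τ u)).card →
  K ^ 2 * (RR lam τ) ^ j
    ≤ (t0 / 2) ^ j * ((univ.filter (fun u => t0 ≤ lu lam v τ u)).card : ℝ) →
  (t0 / 2) ^ j ≤ K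

/-- real numbers only -/
def T_NUM1 : Prop := ∀ a ε : ℝ, 1 < a → 0 < ε → ∃ δ : ℝ, 0 < δ ∧ δ ≤ 1 / 4 ∧
  ∀ c : ℝ, 0 < c → c ≤ 1 → ∃ C pst : ℝ, 1 ≤ C ∧ 0 < pst ∧ pst < 1 ∧
  ∀ p K N T r nU : ℝ, 0 < p → p ≤ 1 → 1 ≤ K → 1 ≤ N → 0 ≤ r → 0 ≤ nU →
  c * p ^ (-((a - 1) / a - δ)) ≤ T → T ≤ K → c * p * r ≤ (max T 1) ^ (2 + δ) → T / 4 ≤ r →
  c * N * T ^ 2 ≤ nU * (max T 1) ^ (2 + 2 * δ) →
  (∀ j : ℕ, 1 ≤ j → K ^ 2 * r ^ j ≤ (T / 4) ^ j * nU → (T / 4) ^ j ≤ K) →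
  C * K ^ ((4 * a - 3) / (a - 1) + ε) ≤ p ^ a * N → pst ≤ p

/-- first stage: constant density -/
def T_NC1 : Prop := ∀ a ε : ℝ, 1 < a → 0 < ε → ∃ C pst : ℝ, 1 ≤ C ∧ 0 < pst ∧ pst < 1 ∧
  ∀ (V : Type) [Fintype V] [DecidableEq V] (A : V → V → ℝ) (K p : ℝ), Ctx A K p a →
  C * K ^ ((4 * a - 3) / (a - 1) + ε) ≤ p ^ a * (Fintype.card V : ℝ) → pst ≤ p

/-- bounds of the sums of eigenvalues -/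
def T_TX2 : Prop := ∀ (V : Type) [Fintype V] [DecidableEq V] (A : V → V → ℝ) (K η : ℝ)
  (lam : V → ℝ) (v : V → V → ℝ), Adj A → Spec A K lam v → 1 ≤ K →
  1 ≤ Fintype.card V → 0 < η → η < 1 →
  K ≤ (Real.sqrt ((Fintype.card V : ℝ) * 4) / K) ^ η →
  (∀ x, 1 ≤ x → TT lam ((Fintype.card V : ℝ) / x)
      ≤ (Fintype.card V : ℝ) * (2 * (4 * x) ^ η)) ∧
  (∀ x, 1 ≤ x → TL lam ((Fintype.card V : ℝ) / x)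
      ≤ (Fintype.card V : ℝ) ^ 2 * (16 / (1 - (2 : ℝ) ^ (η - 1)) * x ^ (η - 1)))

/-- rounding of a multiaffine function -/
def T_MAFF : Prop := ∀ (V : Type) [Fintype V] [DecidableEq V] (A : V → V → ℝ) (p κ : ℝ),
  Adj A → 0 ≤ p → (∀ T : Finset V, ee A T T ≤ p * (T.card : ℝ) ^ 2 + κ) →
  ∀ f : V → ℝ, (∀ u, 0 ≤ f u ∧ f u ≤ 1) →
  ∑ u, ∑ w, A u w * (f u * f w) ≤ p * (∑ u, f u) ^ 2 + p * (Fintype.card V : ℝ) / 4 + κ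

def T_GBD : Prop := ∀ (V : Type) [Fintype V] [DecidableEq V] (A : V → V → ℝ) (p κ : ℝ),
  Adj A → 0 ≤ p → (∀ T : Finset V, ee A T T ≤ p * (T.card : ℝ) ^ 2 + κ) →
  ee A univ univ = p * (Fintype.card V : ℝ) ^ 2 →
  ∀ g : V → ℝ, (∀ u, |g u| ≤ 1) →
  ∑ u, ∑ w, A u w * (g u * g w)
    ≤ p * (∑ u, g u) ^ 2 + p * (Fintype.card V : ℝ) + 4 * κ

/-- bound of a large eigenvalue -/
def T_EIGB : Prop := ∀ (V : Type) [Fintype V] [DecidableEq V] (A : V → V → ℝ) (K p κ x : ℝ)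
  (lam : V → ℝ) (v : V → V → ℝ), Adj A → Spec A K lam v → 1 ≤ Fintype.card V → 0 ≤ p →
  (∀ T : Finset V, ee A T T ≤ p * (T.card : ℝ) ^ 2 + κ) →
  ee A univ univ = p * (Fintype.card V : ℝ) ^ 2 → 0 < x →
  ∀ i, (Fintype.card V : ℝ) / x ≤ lam i →
  lam i ≤ p * (∑ u, v i u) ^ 2 + x ^ 2 * (p + 4 * κ / (Fintype.card V : ℝ))

/-- second stage: density close to 1 -/
def T_DNS : Prop := ∀ η pst : ℝ, 0 < η → η < 1 → 0 < pst → pst < 1 →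
  ∃ M C : ℝ, 1 ≤ M ∧ 1 ≤ C ∧ ∀ (V : Type) [Fintype V] [DecidableEq V] (A : V → V → ℝ)
  (K p : ℝ), Adj A → Low A K → 1 ≤ K → 1 ≤ Fintype.card V →
  ee A univ univ = p * (Fintype.card V : ℝ) ^ 2 →
  (∀ T : Finset V, ee A T T ≤ p * (T.card : ℝ) ^ 2 + (Fintype.card V : ℝ) ^ 2 / M) →
  K ≤ (Real.sqrt ((Fintype.card V : ℝ) * 4) / K) ^ η → C * K ^ 2 ≤ (Fintype.card V : ℝ) →
  pst ≤ p → 1 - 1 / 400 ≤ p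

/-- near clique with at most `10 K ^ 3` non-neighbours -/
def T_NCL : Prop := ∀ (V : Type) [Fintype V] [DecidableEq V] (A : V → V → ℝ) (K : ℝ),
  Adj A → Low A K → 1 ≤ K → 1000 * K ^ 3 ≤ (Fintype.card V : ℝ) →
  (1 - 1 / 400) * (Fintype.card V : ℝ) ^ 2 ≤ ee A univ univ →
  ∃ S : Finset V, (Fintype.card V : ℝ) ≤ 4 * (S.card : ℝ) ∧
    ∀ u ∈ S, ((S.filter (fun z => A u z = 0)).card : ℝ) ≤ 10 * K ^ 3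

/-- at most `2 K ^ 2` non-neighbours -/
def T_BOOT : Prop := ∀ (V : Type) [Fintype V] [DecidableEq V] (A : V → V → ℝ) (K : ℝ),
  Adj A → Low A K → 1 ≤ K → ∀ S : Finset V,
  (∀ u ∈ S, ((S.filter (fun z => A u z = 0)).card : ℝ) ≤ 10 * K ^ 3) →
  1000 * K ^ 4 ≤ (S.card : ℝ) →
  ∀ u ∈ S, ((S.filter (fun z => z ≠ u ∧ A u z = 0)).card : ℝ) ≤ 2 * K ^ 2

/-- a subset of maximal potential -/
def T_SEL : Prop := ∀ (V : Type) [Fintype V] [DecidableEq V] (A : V → V → ℝ) (a : ℝ),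
  Adj A → 1 ≤ a → ∀ W : Finset V, 0 < ee A W W →
  ∃ S ⊆ W, S.Nonempty ∧ 0 < ee A S S ∧
    (ee A W W / (W.card : ℝ) ^ 2) ^ a * (W.card : ℝ)
      ≤ (ee A S S / (S.card : ℝ) ^ 2) ^ a * (S.card : ℝ) ∧
    ee A W W / (W.card : ℝ) ^ 2 ≤ ee A S S / (S.card : ℝ) ^ 2 ∧
    ∀ T ⊆ S, ee A T T ≤ ee A S S / (S.card : ℝ) ^ 2 * (S.card : ℝ) ^ (1 / a)
      * (T.card : ℝ) ^ (2 - 1 / a)

/-- near cliques (NC) -/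
def T_NC : Prop := ∀ a ε : ℝ, 1 < a → 0 < ε → ∃ C : ℝ, 1 ≤ C ∧
  ∀ (V : Type) [Fintype V] [DecidableEq V] (A : V → V → ℝ) (K : ℝ), Adj A → Low A K → 1 ≤ K →
  ∀ W : Finset V, 0 < ee A W W →
  C * K ^ ((4 * a - 3) / (a - 1) + ε) ≤ (ee A W W / (W.card : ℝ) ^ 2) ^ a * (W.card : ℝ) →
  ∃ Q ⊆ W, (ee A W W / (W.card : ℝ) ^ 2) ^ a * (W.card : ℝ) ≤ C * (Q.card : ℝ) ∧
    ∀ u ∈ Q, ((Q.filter (fun z => z ≠ u ∧ A u z = 0)).card : ℝ) ≤ 2 * K ^ 2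

/-! ### Part B: digraphs -/

/-- ranks -/
def T_RANK : Prop := ∀ (V : Type) [Fintype V] [DecidableEq V] (pos : V → ℕ),
  Function.Injective pos → ∀ Q F : Finset V, Q ⊆ F →
  ((Q.card : ℝ) ^ 2 - 1) / 2 ≤ ∑ i ∈ Q, |((F.filter (fun j => pos i < pos j)).card : ℝ)
    - ((F.filter (fun j => pos j < pos i)).card : ℝ)|

/-- a vertex outside a near clique has few neighbours or few non-neighbours in it -/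
def T_MINJ : Prop := ∀ (V : Type) [Fintype V] [DecidableEq V] (A : V → V → ℝ) (D : V → ℝ)
  (K : ℝ), Adj A → LowD A D → 1 ≤ K → (∀ u, 1 ≤ D u) → ∀ Q : Finset V, (∀ u ∈ Q, D u ≤ K) →
  (∀ u ∈ Q, ((Q.filter (fun z => z ≠ u ∧ A u z = 0)).card : ℝ) ≤ 2 * K ^ 2) →
  ∀ j, j ∉ Q → min ((Q.filter (fun z => A j z ≠ 0)).card : ℝ)
    ((Q.filter (fun z => A j z = 0)).card : ℝ) ≤ 8 * K ^ 2 * D j

/-- the balance inequality for a near clique -/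
def T_FC : Prop := ∀ (V : Type) [Fintype V] [DecidableEq V] (a : V → V → ℝ) (pos : V → ℕ)
  (D : V → ℝ) (K : ℝ), Dg a pos → LowD (sy a) D → 1 ≤ K → (∀ u, 1 ≤ D u) →
  ∀ Q J : Finset V, Q ⊆ J → (∀ u ∈ Q, D u ≤ K) →
  (∀ u ∈ Q, ((Q.filter (fun z => z ≠ u ∧ sy a u z = 0)).card : ℝ) ≤ 2 * K ^ 2) →
  ((Q.card : ℝ) ^ 2 - 1) / 2 ≤ ∑ i ∈ Q, |dp a i - dm a i|
    + ∑ i ∈ Q, ((univ.filter (fun j => j ∉ J ∧ sy a i j ≠ 0)).card : ℝ)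
    + 2 * K ^ 2 * (Q.card : ℝ) + 8 * K ^ 2 * ∑ j ∈ J, D j

/-- a class of vertices with almost constant degree and almost constant `D` -/
def T_CLS : Prop := ∃ C : ℝ, 1 ≤ C ∧ ∀ (V : Type) [Fintype V] [DecidableEq V]
  (A : V → V → ℝ) (D : V → ℝ) (γ m : ℝ), Adj A → LowD A D → (∀ u, 1 ≤ D u) →
  ∑ u, D u ≤ γ → ee A univ univ = 2 * m → 1 ≤ m → C * (1 + Real.log m) ^ 4 * γ ≤ m →
  ∃ (c : Finset V) (d K : ℝ), 1 ≤ d ∧ 1 ≤ K ∧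
    (∀ u ∈ c, d ≤ ((nb A u).card : ℝ) ∧ ((nb A u).card : ℝ) ≤ 2 * d ∧ K ≤ D u ∧ D u ≤ 2 * K) ∧
    m ≤ C * (1 + Real.log m) ^ 4 * ee A c c

/-- total length of the arcs, measured by the positions in `c` -/
def T_LENC : Prop := ∀ (V : Type) [Fintype V] [DecidableEq V] (a : V → V → ℝ) (pos : V → ℕ)
  (G m : ℝ), Dg a pos → (∀ x : V → ℝ, (∀ v, |x v| ≤ 1) → Dicut.Gf a x ≤ G) →
  ∑ u, dp a u = m → 0 < m → ∀ c : Finset V,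
  ∑ u, ∑ v, a u v * ((cpos pos c v : ℝ) - (cpos pos c u : ℝ))
    ≤ (c.card : ℝ) * Real.sqrt (G * m)

/-- choice of a window -/
def T_WIN : Prop := ∀ (V : Type) [Fintype V] [DecidableEq V] (A : V → V → ℝ) (cp : V → ℕ)
  (D : V → ℝ) (C0 : Finset V) (W R : ℕ) (E n γ : ℝ), Adj A → (∀ u, 0 ≤ D u) →
  (∀ u ∈ C0, ∀ v ∈ C0, cp u = cp v → u = v) → 1 ≤ W → 0 < E → 0 < n → 0 < γ →
  (C0.card : ℝ) ≤ n → ∑ u, D u ≤ γ →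
  E ≤ ∑ u ∈ C0, ∑ v ∈ C0, (if |(cp u : ℝ) - (cp v : ℝ)| < W then A u v else 0) →
  ∃ I J : Finset V, I ⊆ C0 ∧ I ⊆ J ∧ (I.card : ℝ) ≤ 2 * W ∧ 0 < ee A I I ∧
    (∀ i ∈ I, ∀ j, j ∉ J → (R : ℝ) ≤ |(cp i : ℝ) - (cp j : ℝ)|) ∧
    E / (8 * n) * (I.card : ℝ) ≤ ee A I I ∧
    E * ∑ j ∈ J, D j ≤ 8 * (3 + 2 * (R : ℝ) / W) * γ * ee A I I

/-- removal of the vertices with large imbalance or many long arcs -/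
def T_GOOD : Prop := ∀ (V : Type) [Fintype V] [DecidableEq V] (a : V → V → ℝ) (pos : V → ℕ)
  (G m d q : ℝ) (R W : ℕ) (c : Finset V), Dg a pos →
  (∀ x : V → ℝ, (∀ v, |x v| ≤ 1) → Dicut.Gf a x ≤ G) → ∑ u, dp a u = m → 0 < m →
  0 < d → 0 < q → 1 ≤ R → 1 ≤ W → (∀ u ∈ c, ((nb (sy a) u).card : ℝ) ≤ 2 * d) →
  16 * (c.card : ℝ) * Real.sqrt (G * m) ≤ ee (sy a) c c * W →
  1024 * d * (c.card : ℝ) * Real.sqrt (G * m) ≤ q * ee (sy a) c c * R →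
  32768 * d ^ 2 * G ≤ q ^ 2 * ee (sy a) c c →
  ∃ C0 ⊆ c, (∀ u ∈ C0, |dp a u - dm a u| ≤ q / 16) ∧
    (∀ u ∈ C0, (long (sy a) (cpos pos c) R u : ℝ) ≤ q / 16) ∧
    ee (sy a) c c / 2 ≤ ∑ u ∈ C0, ∑ v ∈ C0,
      (if |(cpos pos c u : ℝ) - (cpos pos c v : ℝ)| < W then sy a u v else 0)

/-- windows are at least as long as the average degree -/
def T_DIG0 : Prop := ∀ (V : Type) [Fintype V] [DecidableEq V] (a : V → V → ℝ) (pos : V → ℕ)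
  (G m : ℝ) (W : ℕ) (c : Finset V), Dg a pos →
  (∀ x : V → ℝ, (∀ v, |x v| ≤ 1) → Dicut.Gf a x ≤ G) → ∑ u, dp a u = m → 0 < m → 1 ≤ W →
  0 < ee (sy a) c c → 16 * (c.card : ℝ) * Real.sqrt (G * m) ≤ ee (sy a) c c * W →
  ee (sy a) c c ≤ 32 * (c.card : ℝ) * W

/-- no digraph satisfies all these conditions -/
def T_DIG : Prop := ∀ a0 ε : ℝ, 1 < a0 → 0 < ε → ∃ C : ℝ, 1 ≤ C ∧
  ∀ (V : Type) [Fintype V] [DecidableEq V] (a : V → V → ℝ) (pos : V → ℕ) (D : V → ℝ)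
    (G m γ d K q : ℝ) (R W : ℕ) (c : Finset V), Dg a pos →
  (∀ x : V → ℝ, (∀ v, |x v| ≤ 1) → Dicut.Gf a x ≤ G) → ∑ u, dp a u = m → 0 < m →
  LowD (sy a) D → (∀ u, 1 ≤ D u) → ∑ u, D u ≤ γ → 1 ≤ d → 1 ≤ K →
  (∀ u ∈ c, ((nb (sy a) u).card : ℝ) ≤ 2 * d ∧ D u ≤ 2 * K) →
  0 < ee (sy a) c c → 1 ≤ R → 1 ≤ W → 0 < q →
  16 * (c.card : ℝ) * Real.sqrt (G * m) ≤ ee (sy a) c c * W →
  1024 * d * (c.card : ℝ) * Real.sqrt (G * m) ≤ q * ee (sy a) c c * R →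
  32768 * d ^ 2 * G ≤ q ^ 2 * ee (sy a) c c →
  C * q ≤ (ee (sy a) c c / (16 * (c.card : ℝ))) ^ a0 * (2 * (W : ℝ)) ^ (1 - a0) →
  C * K ^ ((4 * a0 - 3) / (a0 - 1) + ε)
    ≤ (ee (sy a) c c / (16 * (c.card : ℝ))) ^ a0 * (2 * (W : ℝ)) ^ (1 - a0) →
  C * K ^ 2 * ((W : ℝ) + R) * γ * d ≤ q ^ 2 * ee (sy a) c c → False

/-- real numbers only: size of the window -/
def T_NUMA : Prop := ∀ C : ℝ, 1 ≤ C → ∃ C' m0 : ℝ, 1 ≤ C' ∧ 1 ≤ m0 ∧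
  ∀ m n γ E d K : ℝ, m0 ≤ m →
  0 < n → 1 ≤ K → K * n ≤ γ → γ ≤ C * (1 + Real.log m) * m ^ (2 / 3 : ℝ) →
  m ≤ C * (1 + Real.log m) ^ 4 * E → 1 ≤ d → d * n ≤ 2 * m →
  (∀ W : ℕ, 1 ≤ W → 16 * n * Real.sqrt (m ^ (2 / 3 : ℝ) * m) ≤ E * W → E ≤ 32 * n * W) →
  ∃ (t : ℝ) (W : ℕ), 1 ≤ W ∧ 1 ≤ t ∧ K ≤ t ∧
    t ≤ C' * (1 + Real.log m) ^ 5 * m ^ (1 / 12 : ℝ) ∧
    16 * n * Real.sqrt (m ^ (2 / 3 : ℝ) * m) ≤ E * W ∧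
    γ * d ≤ 2 * m * t ∧ d ≤ 2 * m ^ (1 / 3 : ℝ) * t ∧
    (W : ℝ) * t ≤ C' * (1 + Real.log m) ^ 5 * m ^ (1 / 2 : ℝ) ∧
    ∀ a : ℝ, 1 ≤ a → a ≤ 3 → m ^ (1 / 2 - a / 6 : ℝ) * t ^ (2 * a - 1)
      ≤ C' * (1 + Real.log m) ^ 25 * ((E / (16 * n)) ^ a * (2 * (W : ℝ)) ^ (1 - a))

/-- real numbers only: choice of `a` -/
def T_NUMB : Prop := ∀ C : ℝ, 1 ≤ C → ∃ m0 : ℝ, 1 ≤ m0 ∧ ∀ m t : ℝ, m0 ≤ m → 1 ≤ t →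
  ∃ a : ℝ, (a = 13 / 10 ∨ a = 3 / 2 ∨ a = 2 ∨ a = 3) ∧
    C * (1 + Real.log m) ^ 100 * t ^ ((4 * a - 3) / (a - 1) + 1 / 100)
      ≤ m ^ (1 / 2 - a / 6 : ℝ) * t ^ (2 * a - 1) ∧
    C * (1 + Real.log m) ^ 100 * (t * m ^ (5 / 18 : ℝ))
      ≤ m ^ (1 / 2 - a / 6 : ℝ) * t ^ (2 * a - 1)

/-- real numbers only: choice of the parameters -/
def T_NUM2 : Prop := ∀ C : ℝ, 1 ≤ C → ∃ m0 : ℝ, 1 ≤ m0 ∧ ∀ m n γ E d K : ℝ, m0 ≤ m →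
  0 < n → 1 ≤ K → K * n ≤ γ → γ ≤ C * (1 + Real.log m) * m ^ (2 / 3 : ℝ) →
  m ≤ C * (1 + Real.log m) ^ 4 * E → 1 ≤ d → d * n ≤ 2 * m →
  (∀ W : ℕ, 1 ≤ W → 16 * n * Real.sqrt (m ^ (2 / 3 : ℝ) * m) ≤ E * W → E ≤ 32 * n * W) →
  ∃ (a0 q : ℝ) (R W : ℕ), (a0 = 13 / 10 ∨ a0 = 3 / 2 ∨ a0 = 2 ∨ a0 = 3) ∧
    0 < q ∧ 1 ≤ R ∧ 1 ≤ W ∧
    16 * n * Real.sqrt (m ^ (2 / 3 : ℝ) * m) ≤ E * W ∧
    1024 * d * n * Real.sqrt (m ^ (2 / 3 : ℝ) * m) ≤ q * E * R ∧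
    32768 * d ^ 2 * m ^ (2 / 3 : ℝ) ≤ q ^ 2 * E ∧
    C * q ≤ (E / (16 * n)) ^ a0 * (2 * (W : ℝ)) ^ (1 - a0) ∧
    C * K ^ ((4 * a0 - 3) / (a0 - 1) + 1 / 100)
      ≤ (E / (16 * n)) ^ a0 * (2 * (W : ℝ)) ^ (1 - a0) ∧
    C * K ^ 2 * ((W : ℝ) + R) * γ * d ≤ q ^ 2 * E

/-- conclusion for digraphs without isolated vertices -/
def T_FIN2 : Prop := ∃ m0 : ℝ, 1 ≤ m0 ∧ ∀ (V : Type) [Fintype V] [DecidableEq V]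
  (a : V → V → ℝ) (pos : V → ℕ) (m : ℝ), Dg a pos → ∑ u, dp a u = m → m0 ≤ m →
  (Fintype.card V : ℝ) ≤ 3 * m ^ (2 / 3 : ℝ) →
  ¬ (∀ x : V → ℝ, (∀ v, |x v| ≤ 1) → Dicut.Gf a x ≤ m ^ (2 / 3 : ℝ))

def T_FIN3 : Prop := ∃ m0 : ℝ, 1 ≤ m0 ∧ ∀ (V : Type) [Fintype V] [DecidableEq V]
  (a : V → V → ℝ) (m : ℝ), (∀ u v, a u v = 0 ∨ a u v = 1) → ∑ u, dp a u = m → m0 ≤ m →
  ¬ Dicut.WData a (m ^ (2 / 3 : ℝ))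

def T_MAIN2 : Prop := ∃ c : ℝ, 0 < c ∧ ∀ m : ℕ, 1 ≤ m →
  (m : ℝ) / 4 + c * (m : ℝ) ^ (2 / 3 : ℝ) ≤ (Dicut.h m : ℝ)

end Pool.Agent.HTwo
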