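import Mathlib
import Pool.Agent.HTwo.Targets
import Pool.Agent.HLow.TR

set_option autoImplicit false

namespace Pool.Agent.HTwo

open Finset Pool.Agent.HLow

theorem p_CHAIN (hINIT : T_INIT) (hPROD : T_PROD) : T_CHAIN := by
  intro V _ _ A K t0 lam v r g hA hS hK hN hg ht0 htr hgu j hj hyp
  have hNr : (1 : ℝ) ≤ (Fintype.card V : ℝ) := by exact_mod_cast hN
  have hr : (0 : ℝ) < r := by linarith
  have ht2 : 0 < t0 / 2 := by linarith
  have key : ∀ j : ℕ, 1 ≤ j → K ^ 2 * (r : ℝ) ^ j ≤ (t0 / 2) ^ j * (Fintype.card V : ℝ) →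
      ∃ I : Finset V, I.card ≤ r ^ j ∧ (∀ i ∈ I, 0 ≤ lam i) ∧
        (t0 / 2) ^ j * (Fintype.card V : ℝ) ≤ ∑ i ∈ I, lam i := by
    intro j hj
    induction j, hj using Nat.le_induction with
    | base =>
      intro h
      rw [pow_one, pow_one] at h
      obtain ⟨I, hI1, hI2, hI3⟩ := hINIT V A K lam v r g hA hS hK hg
      refine ⟨I, by rwa [pow_one], hI2, ?_⟩
      have h1 : t0 * (Fintype.card V : ℝ) ≤ ∑ k, ∑ u, g k u ^ 2 := by
        rw [sum_comm]
        calc t0 * (Fintype.card V : ℝ) = ∑ _u : V, t0 := by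
              rw [sum_const, card_univ, nsmul_eq_mul, mul_comm]
          _ ≤ _ := sum_le_sum fun u _ => hgu u
      have h2 : K * r ≤ K ^ 2 * r := by
        apply mul_le_mul_of_nonneg_right _ hr.le
        nlinarith
      rw [pow_one]
      linarith
    | succ j hj ih =>
      intro h
      have h0 : K ^ 2 * (r : ℝ) ^ j ≤ (t0 / 2) ^ j * (Fintype.card V : ℝ) := by
        have h1 : K ^ 2 * (r : ℝ) ^ j * r ≤ (t0 / 2) ^ j * (Fintype.card V : ℝ) * r := by
          calc K ^ 2 * (r : ℝ) ^ j * r = K ^ 2 * (r : ℝ) ^ (j + 1) := by ring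
            _ ≤ (t0 / 2) ^ (j + 1) * (Fintype.card V : ℝ) := h
            _ = (t0 / 2) ^ j * (Fintype.card V : ℝ) * (t0 / 2) := by ring
            _ ≤ (t0 / 2) ^ j * (Fintype.card V : ℝ) * r :=
              mul_le_mul_of_nonneg_left htr (by positivity)
        exact le_of_mul_le_mul_right h1 hr
      obtain ⟨I, hI1, hI2, hI3⟩ := ih h0
      obtain ⟨I', hI'1, hI'2, hI'3⟩ := hPROD V A K t0 lam v r g I hA hS hK hg ht0.le hgu hI2
      refine ⟨I', ?_, hI'2, ?_⟩
      · calc I'.card ≤ r * I.card := hI'1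
          _ ≤ r * r ^ j := Nat.mul_le_mul_left _ hI1
          _ = r ^ (j + 1) := by ring
      · have h1 : ((r * I.card : ℕ) : ℝ) ≤ (r : ℝ) ^ (j + 1) := by
          have : r * I.card ≤ r ^ (j + 1) := by
            calc r * I.card ≤ r * r ^ j := Nat.mul_le_mul_left _ hI1
              _ = r ^ (j + 1) := by ring
          exact_mod_cast this
        have h2 : K ^ 2 * ((r * I.card : ℕ) : ℝ) ≤ K ^ 2 * (r : ℝ) ^ (j + 1) :=
          mul_le_mul_of_nonneg_left h1 (sq_nonneg _)
        have h3 : t0 * ((t0 / 2) ^ j * (Fintype.card V : ℝ)) ≤ t0 * ∑ i ∈ I, lam i :=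
          mul_le_mul_of_nonneg_left hI3 ht0.le
        have h4 : t0 * ((t0 / 2) ^ j * (Fintype.card V : ℝ))
            = 2 * ((t0 / 2) ^ (j + 1) * (Fintype.card V : ℝ)) := by
          rw [pow_succ]; ring
        linarith
  obtain ⟨I, -, hI2, hI3⟩ := key j hj hyp
  have htr0 := (p_TR V A K lam v hA hS).1
  have h1 : ∑ i ∈ I, lam i ≤ ∑ i, (lam i + K) := by
    calc ∑ i ∈ I, lam i ≤ ∑ i ∈ I, (lam i + K) :=
          sum_le_sum fun i _ => by linarith
      _ ≤ ∑ i, (lam i + K) :=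
          sum_le_sum_of_subset_of_nonneg (subset_univ I) fun i _ _ => by
            linarith [hS.low i]
  rw [sum_add_distrib, htr0, zero_add, sum_const, card_univ, nsmul_eq_mul] at h1
  have h2 : (t0 / 2) ^ j * (Fintype.card V : ℝ) ≤ K * (Fintype.card V : ℝ) := by linarith
  exact le_of_mul_le_mul_right h2 (by linarith)

end Pool.Agent.HTwo
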