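import Pool.Agent.HTwo.Targets
import Pool.Agent.HLow.CLQ
import Pool.Agent.HLow.SPEC

set_option autoImplicit false

/-!
Project HTW, piece CHAINU: the product chain on the set where `lu` is large.
-/

namespace Pool.Agent.HTwo

open Finset Pool.Agent.HLow

lemma CHAINU_RR {V : Type} [Fintype V] [DecidableEq V] (lam : V → ℝ) (τ : ℝ) :
    RR lam τ = ((univ.filter (fun i => τ ≤ lam i)).card : ℝ) := by
  unfold RR
  rw [← Finset.sum_filter]
  simp

lemma CHAINU_quad {V : Type} [Fintype V] [DecidableEq V] (A : V → V → ℝ) (K : ℝ)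
    (lam : V → ℝ) (v : V → V → ℝ) (hS : Spec A K lam v) (X : V → ℝ) :
    ∑ i, lam i * (∑ u, v i u * X u) ^ 2 = ∑ u, ∑ w, A u w * (X u * X w) := by
  have e1 : ∀ i, lam i * (∑ u, v i u * X u) ^ 2 =
      ∑ u, ∑ w, lam i * (v i u * v i w) * (X u * X w) := by
    intro i
    rw [pow_two, sum_mul_sum, mul_sum]
    refine sum_congr rfl (fun u _ => ?_)
    rw [mul_sum]
    refine sum_congr rfl (fun w _ => ?_)
    ring
  rw [sum_congr rfl (fun i _ => e1 i), sum_comm]
  refine sum_congr rfl (fun u _ => ?_)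
  rw [sum_comm]
  refine sum_congr rfl (fun w _ => ?_)
  rw [← sum_mul, hS.dec]

lemma CHAINU_norm {V : Type} [Fintype V] [DecidableEq V] (A : V → V → ℝ) (K : ℝ)
    (lam : V → ℝ) (v : V → V → ℝ) (hS : Spec A K lam v) (X : V → ℝ) :
    ∑ i, (∑ u, v i u * X u) ^ 2 = ∑ u, X u ^ 2 := by
  have e1 : ∀ i, (∑ u, v i u * X u) ^ 2 =
      ∑ u, ∑ w, (v i u * v i w) * (X u * X w) := by
    intro i
    rw [pow_two, sum_mul_sum]
    refine sum_congr rfl (fun u _ => ?_)
    refine sum_congr rfl (fun w _ => ?_)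
    ring
  rw [sum_congr rfl (fun i _ => e1 i), sum_comm]
  refine sum_congr rfl (fun u _ => ?_)
  rw [sum_comm]
  have e2 : ∀ w, ∑ i, (v i u * v i w) * (X u * X w) = if u = w then X u * X w else 0 := by
    intro w
    rw [← sum_mul, hS.col]
    split_ifs <;> ring
  rw [sum_congr rfl (fun w _ => e2 w)]
  simp [pow_two]

theorem p_CHAINU (hC : T_CHAIN) : T_CHAINU := by
  intro V _ _ A K t0 τ lam v hA hLow hS hK hτ ht0 hr j hj hU hle
  set U : Finset V := univ.filter (fun u => t0 ≤ lu lam v τ u) with hUdef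
  set S0 : Finset V := univ.filter (fun i => τ ≤ lam i) with hS0
  have hRR : RR lam τ = (S0.card : ℝ) := CHAINU_RR lam τ
  obtain ⟨lam', v', hSp⟩ := p_SPEC U (fun u w : U => A u w) K (fun u w => hA.sym u w)
    (CLQ_low A K hLow U)
  let e : Fin S0.card ≃ S0 := S0.equivFin.symm
  have hsum : ∀ F : V → ℝ, ∑ k : Fin S0.card, F (e k) = ∑ i ∈ S0, F i := by
    intro F
    rw [← Finset.sum_coe_sort S0 F]
    exact Equiv.sum_comp e (fun i : S0 => F i)
  have hpos : ∀ i ∈ S0, 0 ≤ lam i := by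
    intro i hi
    rw [hS0, mem_filter] at hi
    linarith [hi.2]
  let g : Fin S0.card → U → ℝ := fun k u => Real.sqrt (lam (e k)) * v (e k) u
  have hcard : Fintype.card U = U.card := Fintype.card_coe U
  have hmain := hC U (fun u w : U => A u w) K t0 lam' v' S0.card g (CLQ_adj A hA U) hSp hK
    (by rw [hcard]; exact hU) ?_ ht0 (by rw [← hRR]; exact hr) ?_ j hj
    (by rw [hcard, ← hRR]; exact hle)
  · exact hmain
  · intro x
    set X : V → ℝ := CLQ_ext U x with hX
    have e0 : ∀ k : Fin S0.card, (∑ u : U, g k u * x u) ^ 2 =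
        (fun i => lam i * (∑ u, v i u * X u) ^ 2) (e k : V) := by
      intro k
      have a1 : ∑ u : U, g k u * x u = Real.sqrt (lam (e k)) * ∑ u, v (e k) u * X u := by
        rw [CLQ_sum U (fun u => v (e k) u * X u)
          (fun u hu => by rw [hX, CLQ_ext_out U x u hu]; ring), mul_sum]
        refine sum_congr rfl (fun u _ => ?_)
        rw [hX, CLQ_ext_coe]
        simp only [g]
        ring
      rw [a1, mul_pow, Real.sq_sqrt (hpos _ (e k).2)]
    rw [sum_congr rfl (fun k _ => e0 k), hsum (fun i => lam i * (∑ u, v i u * X u) ^ 2)]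
    have e1 : ∑ u, X u ^ 2 = ∑ u : U, x u ^ 2 := by
      rw [CLQ_sum U _ (fun u hu => by rw [hX, CLQ_ext_out U x u hu]; norm_num)]
      exact sum_congr rfl (fun u _ => by rw [hX, CLQ_ext_coe])
    have e2 : ∑ u, ∑ w, A u w * (X u * X w) =
        ∑ u : U, ∑ w : U, A u w * (x u * x w) := by
      rw [CLQ_sum U _ (fun u hu => sum_eq_zero (fun w _ => by
        rw [hX, CLQ_ext_out U x u hu]; ring))]
      refine sum_congr rfl (fun u _ => ?_)
      rw [CLQ_sum U _ (fun w hw => by rw [hX, CLQ_ext_out U x w hw]; ring)]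
      exact sum_congr rfl (fun w _ => by rw [hX, CLQ_ext_coe, CLQ_ext_coe])
    rw [← e1, ← e2, ← CHAINU_quad A K lam v hS X, ← CHAINU_norm A K lam v hS X, mul_sum,
      ← sum_add_distrib]
    calc ∑ i ∈ S0, lam i * (∑ u, v i u * X u) ^ 2
        ≤ ∑ i ∈ S0, (lam i * (∑ u, v i u * X u) ^ 2 + K * (∑ u, v i u * X u) ^ 2) := by
          refine sum_le_sum (fun i _ => ?_)
          have : 0 ≤ K * (∑ u, v i u * X u) ^ 2 := by positivity
          linarith
      _ ≤ ∑ i, (lam i * (∑ u, v i u * X u) ^ 2 + K * (∑ u, v i u * X u) ^ 2) := by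
          refine sum_le_sum_of_subset_of_nonneg (subset_univ _) (fun i _ _ => ?_)
          have h1 := hS.low i
          have h2 : 0 ≤ (lam i + K) * (∑ u, v i u * X u) ^ 2 :=
            mul_nonneg (by linarith) (sq_nonneg _)
          linarith
  · intro u
    have h1 : t0 ≤ lu lam v τ u := by
      have h2 : (u : V) ∈ univ.filter (fun u => t0 ≤ lu lam v τ u) := u.2
      exact (mem_filter.mp h2).2
    have e0 : ∀ k : Fin S0.card, g k u ^ 2 = (fun i => lam i * v i u ^ 2) (e k : V) := by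
      intro k
      simp only [g]
      rw [mul_pow, Real.sq_sqrt (hpos _ (e k).2)]
    rw [sum_congr rfl (fun k _ => e0 k), hsum (fun i => lam i * v i u ^ 2)]
    unfold lu at h1
    rw [← sum_filter] at h1
    exact h1

end Pool.Agent.HTwo
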