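import Pool.Agent.HTwo.Targets

/-! CLS: dyadic classes of vertices. -/

set_option autoImplicit false

namespace Pool.Agent.HTwo

open Finset Pool.Agent.HLow

theorem CLS_ee_nonneg {V : Type} [Fintype V] [DecidableEq V] {A : V → V → ℝ} (hA : Adj A)
    (S T : Finset V) : 0 ≤ ee A S T := by
  unfold ee
  refine sum_nonneg fun u _ => sum_nonneg fun v _ => ?_
  rcases hA.zo u v with h | h <;> rw [h]
  norm_num

theorem CLS_deg {V : Type} [Fintype V] [DecidableEq V] {A : V → V → ℝ} (hA : Adj A) (u : V) :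
    ((nb A u).card : ℝ) = ∑ v, A u v := by
  unfold nb
  rw [card_filter]
  push_cast
  refine sum_congr rfl fun v _ => ?_
  rcases hA.zo u v with h | h <;> rw [h] <;> simp

/-- twice the degree is at most the sum of all entries -/
theorem CLS_deg_le {V : Type} [Fintype V] [DecidableEq V] {A : V → V → ℝ} (hA : Adj A) (u : V) :
    2 * ((nb A u).card : ℝ) ≤ ee A univ univ := by
  have hnn : ∀ a b, 0 ≤ A a b := by
    intro a b
    rcases hA.zo a b with h | h <;> rw [h]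
    norm_num
  have h1 : ee A univ univ = ∑ v, A u v + ∑ w ∈ univ.erase u, ∑ v, A w v := by
    unfold ee
    rw [← add_sum_erase univ _ (mem_univ u)]
  have h2 : ∑ w ∈ univ.erase u, A w u ≤ ∑ w ∈ univ.erase u, ∑ v, A w v :=
    sum_le_sum fun w _ => single_le_sum (fun v _ => hnn w v) (mem_univ u)
  have h3 : ∑ w ∈ univ.erase u, A w u = ∑ v, A u v := by
    have h4 : A u u + ∑ w ∈ univ.erase u, A w u = ∑ w, A w u :=
      add_sum_erase univ (fun w => A w u) (mem_univ u)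
    rw [hA.dg u, zero_add] at h4
    rw [h4]
    exact sum_congr rfl fun w _ => hA.sym w u
  rw [h1, CLS_deg hA u]
  linarith

theorem p_CLS (hCS : T_CS) : T_CLS := by
  refine ⟨5, by norm_num, ?_⟩
  intro V _ _ A D γ m hA hLow hD hγ he hm hC
  classical
  -- the logarithm
  have hlog0 : 0 ≤ Real.log m := Real.log_nonneg hm
  obtain ⟨L, hLdef⟩ : ∃ L : ℕ, L = Nat.log 2 ⌊m⌋₊ := ⟨_, rfl⟩
  have hfl : 1 ≤ ⌊m⌋₊ := Nat.le_floor (by exact_mod_cast hm)
  have hL2 : ((2 : ℝ)) ^ L ≤ m := by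
    have h1 : 2 ^ L ≤ ⌊m⌋₊ := by
      rw [hLdef]
      exact Nat.pow_log_le_self 2 (by omega)
    calc (2 : ℝ) ^ L = ((2 ^ L : ℕ) : ℝ) := by push_cast; rfl
      _ ≤ (⌊m⌋₊ : ℝ) := by exact_mod_cast h1
      _ ≤ m := Nat.floor_le (by linarith)
  have hLlog : (L : ℝ) * Real.log 2 ≤ Real.log m := by
    rw [← Real.log_pow]
    exact Real.log_le_log (by positivity) hL2
  have hlog2 : (0.6931 : ℝ) ≤ Real.log 2 := by
    have := Real.log_two_gt_d9
    linarith
  have hL4 : ((L : ℝ) + 1) ^ 4 ≤ 5 * (1 + Real.log m) ^ 4 := by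
    have h1 : ((L : ℝ) + 1) * 0.6931 ≤ 1 + Real.log m := by
      have : (L : ℝ) * 0.6931 ≤ (L : ℝ) * Real.log 2 :=
        mul_le_mul_of_nonneg_left hlog2 (Nat.cast_nonneg L)
      linarith
    have h2 : (((L : ℝ) + 1) * 0.6931) ^ 4 ≤ (1 + Real.log m) ^ 4 :=
      pow_le_pow_left₀ (by positivity) h1 4
    rw [mul_pow] at h2
    have h3 : (0 : ℝ) ≤ ((L : ℝ) + 1) ^ 4 := by positivity
    have h4 : (1 : ℝ) / 5 ≤ 0.6931 ^ 4 := by norm_num
    have h5 : ((L : ℝ) + 1) ^ 4 * (1 / 5) ≤ ((L : ℝ) + 1) ^ 4 * 0.6931 ^ 4 :=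
      mul_le_mul_of_nonneg_left h4 h3
    linarith
  have hγ0 : 0 ≤ γ := le_trans (sum_nonneg fun u _ => by linarith [hD u]) hγ
  have hγm : γ ≤ m := by
    have h1 : 1 ≤ (1 + Real.log m) ^ 4 := one_le_pow₀ (by linarith)
    nlinarith
  have hlγ : ((L : ℝ) + 1) ^ 4 * γ ≤ m :=
    le_trans (mul_le_mul_of_nonneg_right hL4 hγ0) hC
  -- classes
  obtain ⟨cl, hcl⟩ : ∃ cl : ℕ × ℕ → Finset V, ∀ p, cl p = univ.filter
      (fun u => (nb A u).card ≠ 0 ∧ Nat.log 2 (nb A u).card = p.1 ∧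
        Nat.log 2 ⌊D u⌋₊ = p.2) := ⟨_, fun _ => rfl⟩
  obtain ⟨I, hI⟩ : ∃ I : Finset (ℕ × ℕ), I = range (L + 1) ×ˢ range (L + 1) := ⟨_, rfl⟩
  have hIcard : (I.card : ℝ) = ((L : ℝ) + 1) ^ 2 := by
    rw [hI, card_product, card_range]
    push_cast
    ring
  have hIne : I.Nonempty := by
    rw [hI]
    exact ⟨(0, 0), by simp⟩
  have hDle : ∀ u, D u ≤ m := by
    intro u
    have h1 : D u ≤ ∑ u, D u :=
      single_le_sum (f := D) (fun v _ => by linarith [hD v]) (mem_univ u)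
    linarith
  have hdegle : ∀ u, ((nb A u).card : ℝ) ≤ m := by
    intro u
    have h1 := CLS_deg_le hA u
    rw [he] at h1
    linarith
  have hkey : ∀ f : V → ℝ, (∀ u, (nb A u).card = 0 → f u = 0) →
      ∑ u, f u = ∑ p ∈ I, ∑ u ∈ cl p, f u := by
    intro f hf
    have h1 : ∑ u, f u = ∑ u ∈ univ.filter (fun u => (nb A u).card ≠ 0), f u := by
      rw [sum_filter]
      refine sum_congr rfl fun u _ => ?_
      by_cases h : (nb A u).card = 0
      · rw [if_neg (not_not.mpr h), hf u h]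
      · rw [if_pos h]
    have h2 : ∀ u ∈ univ.filter (fun u => (nb A u).card ≠ 0),
        (Nat.log 2 (nb A u).card, Nat.log 2 ⌊D u⌋₊) ∈ I := by
      intro u _
      rw [hI, mem_product, mem_range, mem_range, Nat.lt_succ_iff, Nat.lt_succ_iff, hLdef]
      constructor
      · have := Nat.log_mono_right (b := 2) (Nat.le_floor (hdegle u))
        exact this
      · have := Nat.log_mono_right (b := 2) (Nat.floor_le_floor (hDle u))
        exact this
    rw [h1, ← sum_fiberwise_of_maps_to h2]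
    refine sum_congr rfl fun p _ => ?_
    refine sum_congr ?_ fun _ _ => rfl
    rw [hcl]
    ext u
    simp only [mem_filter, mem_univ, true_and]
    constructor
    · rintro ⟨h3, h4⟩
      rw [← h4]
      exact ⟨h3, rfl, rfl⟩
    · rintro ⟨h3, h4, h5⟩
      exact ⟨h3, by rw [h4, h5]⟩
  have hzero : ∀ u, (nb A u).card = 0 → ∀ v, A u v = 0 := by
    intro u hu v
    by_contra hne
    have : v ∈ nb A u := by
      unfold nb
      simp [hne]
    rw [card_eq_zero.mp hu] at this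
    exact absurd this (notMem_empty v)
  have hsplit : ee A univ univ = ∑ p ∈ I, ∑ q ∈ I, ee A (cl p) (cl q) := by
    unfold ee
    rw [hkey (fun u => ∑ v, A u v) (fun u hu => sum_eq_zero fun v _ => hzero u hu v)]
    refine sum_congr rfl fun p _ => ?_
    rw [sum_comm (s := I)]
    refine sum_congr rfl fun u _ => ?_
    exact hkey (fun v => A u v) (fun v hv => by rw [hA.sym u v]; exact hzero v hv u)
  -- a rich pair
  obtain ⟨pq, hpq, hrich⟩ : ∃ pq ∈ I ×ˢ I,
      2 * m / ((L : ℝ) + 1) ^ 4 ≤ ee A (cl pq.1) (cl pq.2) := by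
    apply exists_le_of_sum_le (hIne.product hIne)
    have e1 : ∑ x ∈ I ×ˢ I, ee A (cl x.1) (cl x.2) = 2 * m := by
      rw [sum_product, ← hsplit, he]
    have e2 : ∑ _x ∈ I ×ˢ I, 2 * m / ((L : ℝ) + 1) ^ 4 = 2 * m := by
      rw [sum_const, card_product, nsmul_eq_mul]
      push_cast
      rw [hIcard]
      field_simp
    rw [e1, e2]
  obtain ⟨p, q⟩ := pq
  simp only at hrich
  have hl0 : (0 : ℝ) < ((L : ℝ) + 1) ^ 4 := by positivity
  have hsub : ∀ S : Finset V, ∑ u ∈ S, D u ≤ γ := fun S =>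
    le_trans (sum_le_sum_of_subset_of_nonneg (subset_univ S) fun u _ _ => by linarith [hD u]) hγ
  have hsub0 : ∀ S : Finset V, 0 ≤ ∑ u ∈ S, D u := fun S =>
    sum_nonneg fun u _ => by linarith [hD u]
  have hmain : ∃ r, m / ((L : ℝ) + 1) ^ 4 ≤ ee A (cl r) (cl r) := by
    have h1 := hCS V A D hA.sym hLow (cl p) (cl q)
    have hx0 : 0 ≤ 2 * m / ((L : ℝ) + 1) ^ 4 := by positivity
    have h2 : (2 * m / ((L : ℝ) + 1) ^ 4) ^ 2 ≤
        (ee A (cl p) (cl p) + γ) * (ee A (cl q) (cl q) + γ) := by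
      refine le_trans (pow_le_pow_left₀ hx0 ?_ 2) (le_trans h1 ?_)
      · linarith [hsub0 (cl p ∩ cl q)]
      · apply mul_le_mul
        · linarith [hsub (cl p)]
        · linarith [hsub (cl q)]
        · linarith [CLS_ee_nonneg hA (cl q) (cl q), hsub0 (cl q)]
        · linarith [CLS_ee_nonneg hA (cl p) (cl p)]
    have h3 : γ ≤ m / ((L : ℝ) + 1) ^ 4 := by
      rw [le_div_iff₀ hl0]
      linarith
    have h4 : 2 * m / ((L : ℝ) + 1) ^ 4 = m / ((L : ℝ) + 1) ^ 4 + m / ((L : ℝ) + 1) ^ 4 := by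
      ring
    by_contra hcon
    push Not at hcon
    have hp := hcon p
    have hq := hcon q
    have h5 : ee A (cl p) (cl p) + γ < 2 * m / ((L : ℝ) + 1) ^ 4 := by rw [h4]; linarith
    have h6 : ee A (cl q) (cl q) + γ < 2 * m / ((L : ℝ) + 1) ^ 4 := by rw [h4]; linarith
    have h7 : 0 ≤ ee A (cl p) (cl p) + γ := by linarith [CLS_ee_nonneg hA (cl p) (cl p)]
    have h8 : 0 ≤ ee A (cl q) (cl q) + γ := by linarith [CLS_ee_nonneg hA (cl q) (cl q)]
    nlinarith
  obtain ⟨r, hr⟩ := hmain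
  have hr0 : 0 ≤ ee A (cl r) (cl r) := CLS_ee_nonneg hA _ _
  refine ⟨cl r, 2 ^ r.1, 2 ^ r.2, one_le_pow₀ (by norm_num), one_le_pow₀ (by norm_num), ?_, ?_⟩
  · intro u hu
    rw [hcl, mem_filter] at hu
    obtain ⟨-, h0, h1, h2⟩ := hu
    have hD1 : 1 ≤ ⌊D u⌋₊ := Nat.le_floor (by exact_mod_cast hD u)
    refine ⟨?_, ?_, ?_, ?_⟩
    · have h3 : 2 ^ r.1 ≤ (nb A u).card := by
        rw [← h1]
        exact Nat.pow_log_le_self 2 h0
      exact_mod_cast h3
    · have h3 : (nb A u).card < 2 ^ (r.1 + 1) := by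
        rw [← h1]
        exact Nat.lt_pow_succ_log_self (by norm_num) _
      have h4 : ((nb A u).card : ℝ) < 2 ^ (r.1 + 1) := by exact_mod_cast h3
      rw [pow_succ] at h4
      linarith
    · have h3 : 2 ^ r.2 ≤ ⌊D u⌋₊ := by
        rw [← h2]
        exact Nat.pow_log_le_self 2 (by omega)
      have h4 : (2 : ℝ) ^ r.2 ≤ (⌊D u⌋₊ : ℝ) := by exact_mod_cast h3
      exact le_trans h4 (Nat.floor_le (by linarith [hD u]))
    · have h3 : ⌊D u⌋₊ < 2 ^ (r.2 + 1) := by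
        rw [← h2]
        exact Nat.lt_pow_succ_log_self (by norm_num) _
      have h4 : (⌊D u⌋₊ : ℝ) + 1 ≤ 2 ^ (r.2 + 1) := by exact_mod_cast h3
      have h5 := Nat.lt_floor_add_one (D u)
      rw [pow_succ] at h4
      linarith
  · rw [div_le_iff₀ hl0] at hr
    have h1 : ee A (cl r) (cl r) * ((L : ℝ) + 1) ^ 4 ≤
        ee A (cl r) (cl r) * (5 * (1 + Real.log m) ^ 4) :=
      mul_le_mul_of_nonneg_left hL4 hr0
    linarith

end Pool.Agent.HTwo
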