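import Mathlib
import Pool.Agent.HTwo.Targets

set_option autoImplicit false

/-!
# CS: Cauchy-Schwarz for a positive semidefinite form
-/

namespace Pool.Agent.HTwo

open Finset Pool.Agent.HLow

variable {V : Type} [Fintype V] [DecidableEq V]

lemma CS_one (D : V → ℝ) (S : Finset V) :
    ∑ u, D u * (if u ∈ S then (1 : ℝ) else 0) = ∑ u ∈ S, D u := by
  simp only [mul_ite, mul_one, mul_zero, Finset.sum_ite_mem, Finset.univ_inter]

lemma CS_two (A : V → V → ℝ) (S T : Finset V) :
    ∑ u, ∑ v, A u v * ((if u ∈ S then (1 : ℝ) else 0) * (if v ∈ T then 1 else 0)) = ee A S T := by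
  unfold ee
  rw [← CS_one (fun u => ∑ v ∈ T, A u v) S]
  refine Finset.sum_congr rfl fun u _ => ?_
  rw [← CS_one (fun v => A u v) T, Finset.sum_mul]
  refine Finset.sum_congr rfl fun v _ => ?_
  ring

theorem p_CS : T_CS := by
  intro V _ _ A D hA hlow S T
  have hsym : ee A T S = ee A S T := by
    unfold ee
    rw [Finset.sum_comm]
    exact Finset.sum_congr rfl fun u _ => Finset.sum_congr rfl fun v _ => hA v u
  have key : ∀ s : ℝ, 0 ≤ (ee A T T + ∑ u ∈ T, D u) * (s * s) +
      (-2 * (ee A S T + ∑ u ∈ S ∩ T, D u)) * s + (ee A S S + ∑ u ∈ S, D u) := by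
    intro s
    have h := hlow (fun u => (if u ∈ S then (1 : ℝ) else 0) - s * (if u ∈ T then 1 else 0))
    have e1 : ∑ u, D u * ((if u ∈ S then (1 : ℝ) else 0) - s * (if u ∈ T then 1 else 0)) ^ 2 =
        ∑ u ∈ S, D u - 2 * s * ∑ u ∈ S ∩ T, D u + s ^ 2 * ∑ u ∈ T, D u := by
      rw [← CS_one D S, ← CS_one D (S ∩ T), ← CS_one D T, Finset.mul_sum, Finset.mul_sum,
        ← Finset.sum_sub_distrib, ← Finset.sum_add_distrib]
      refine Finset.sum_congr rfl fun u _ => ?_
      by_cases h1 : u ∈ S <;> by_cases h2 : u ∈ T <;> simp [h1, h2] <;> ring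
    have e2 : ∑ u, ∑ v, A u v *
        (((if u ∈ S then (1 : ℝ) else 0) - s * (if u ∈ T then 1 else 0)) *
          ((if v ∈ S then (1 : ℝ) else 0) - s * (if v ∈ T then 1 else 0))) =
        ee A S S - s * ee A S T - s * ee A T S + s ^ 2 * ee A T T := by
      rw [← CS_two A S S, ← CS_two A S T, ← CS_two A T S, ← CS_two A T T]
      simp only [Finset.mul_sum, ← Finset.sum_sub_distrib, ← Finset.sum_add_distrib]
      refine Finset.sum_congr rfl fun u _ => Finset.sum_congr rfl fun v _ => ?_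
      ring
    rw [e1, e2, hsym] at h
    refine h.trans (le_of_eq ?_)
    ring
  have hd := discrim_le_zero key
  unfold discrim at hd
  nlinarith

end Pool.Agent.HTwo
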