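import Pool.Agent.HTwo.Targets
import Pool.Agent.HLow.CLQ

set_option autoImplicit false

namespace Pool.Agent.HTwo

open Finset Pool.Agent.HLow

/-- restriction of `LowD` to a subset where `D ≤ K` -/
lemma DIG_low {V : Type} [Fintype V] [DecidableEq V] (A : V → V → ℝ) (D : V → ℝ) (K : ℝ)
    (h : LowD A D) (S : Finset V) (hD : ∀ u ∈ S, D u ≤ K) :
    Low (fun u v : S => A u v) K := by
  intro x
  have h1 := h (CLQ_ext S x)
  have e1 : ∑ u, D u * CLQ_ext S x u ^ 2 = ∑ u : S, D u * x u ^ 2 := by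
    rw [CLQ_sum S _ (fun v hv => by rw [CLQ_ext_out S x v hv]; norm_num)]
    exact sum_congr rfl (fun v _ => by rw [CLQ_ext_coe])
  have e2 : ∑ u, ∑ v, A u v * (CLQ_ext S x u * CLQ_ext S x v) =
      ∑ u : S, ∑ v : S, A u v * (x u * x v) := by
    rw [CLQ_sum S _ (fun u hu => sum_eq_zero (fun v _ => by
      rw [CLQ_ext_out S x u hu]; ring))]
    refine sum_congr rfl (fun u _ => ?_)
    rw [CLQ_sum S _ (fun v hv => by rw [CLQ_ext_out S x v hv]; ring)]
    exact sum_congr rfl (fun v _ => by rw [CLQ_ext_coe, CLQ_ext_coe])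
  rw [e1, e2] at h1
  have h2 : ∑ u : S, D u * x u ^ 2 ≤ K * ∑ u : S, x u ^ 2 := by
    rw [mul_sum]
    exact sum_le_sum (fun u _ => mul_le_mul_of_nonneg_right (hD u u.2) (sq_nonneg _))
  linarith

lemma DIG_inj {V : Type} [Fintype V] [DecidableEq V] (pos : V → ℕ)
    (hp : Function.Injective pos) (c : Finset V) : ∀ u ∈ c, ∀ v ∈ c,
    cpos pos c u = cpos pos c v → u = v := by
  have key : ∀ u ∈ c, ∀ v ∈ c, pos u < pos v → cpos pos c u < cpos pos c v := by
    intro u hu v hv huv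
    unfold cpos
    apply card_lt_card
    rw [ssubset_iff_of_subset]
    · exact ⟨u, mem_filter.mpr ⟨hu, huv⟩, fun h => lt_irrefl _ (mem_filter.mp h).2⟩
    · intro w hw
      rw [mem_filter] at hw ⊢
      exact ⟨hw.1, hw.2.trans huv⟩
  intro u hu v hv huv
  rcases lt_trichotomy (pos u) (pos v) with h | h | h
  · exact absurd huv (key u hu v hv h).ne
  · exact hp h
  · exact absurd huv (key v hv u hu h).ne'

/-- near cliques in a subset of `c` -/
lemma DIG_nc {V : Type} [Fintype V] [DecidableEq V] (A : V → V → ℝ) (D : V → ℝ) (K C a E : ℝ)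
    (hA : Adj A) (hL : LowD A D) (c I : Finset V) (hI : I ⊆ c) (hD : ∀ u ∈ c, D u ≤ K)
    (hK : 1 ≤ K)
    (H : ∀ (V : Type) [Fintype V] [DecidableEq V] (A : V → V → ℝ) (K : ℝ), Adj A → Low A K →
      1 ≤ K → ∀ W : Finset V, 0 < ee A W W →
      C * K ^ E ≤ (ee A W W / (W.card : ℝ) ^ 2) ^ a * (W.card : ℝ) →
      ∃ Q ⊆ W, (ee A W W / (W.card : ℝ) ^ 2) ^ a * (W.card : ℝ) ≤ C * (Q.card : ℝ) ∧
      ∀ u ∈ Q, ((Q.filter (fun z => z ≠ u ∧ A u z = 0)).card : ℝ) ≤ 2 * K ^ 2)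
    (he : 0 < ee A I I)
    (hb : C * K ^ E ≤ (ee A I I / (I.card : ℝ) ^ 2) ^ a * (I.card : ℝ)) :
    ∃ Q ⊆ I, (ee A I I / (I.card : ℝ) ^ 2) ^ a * (I.card : ℝ) ≤ C * (Q.card : ℝ) ∧
      ∀ u ∈ Q, ((Q.filter (fun z => z ≠ u ∧ A u z = 0)).card : ℝ) ≤ 2 * K ^ 2 := by
  obtain ⟨I', hI'⟩ : ∃ I' : Finset c, I'.map (Function.Embedding.subtype _) = I := by
    refine ⟨I.subtype (· ∈ c), ?_⟩
    ext v
    simp only [mem_map, mem_subtype, Function.Embedding.coe_subtype, Subtype.exists,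
      exists_and_right, exists_eq_right]
    constructor
    · rintro ⟨_, h⟩; exact h
    · intro h; exact ⟨hI h, h⟩
  have hcard : I'.card = I.card := by rw [← hI', card_map]
  have hee : ee (fun u v : c => A u v) I' I' = ee A I I := by rw [CLQ_ee, hI']
  obtain ⟨Q', hQ', hQc, hQn⟩ := H c (fun u v : c => A u v) K (CLQ_adj A hA c)
    (DIG_low A D K hL c hD) hK I' (by rw [hee]; exact he) (by rw [hee, hcard]; exact hb)
  refine ⟨Q'.map (Function.Embedding.subtype _), ?_, ?_, ?_⟩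
  · rw [← hI']; exact map_subset_map.mpr hQ'
  · rw [card_map]; rw [hee, hcard] at hQc; exact hQc
  · intro u hu
    rw [mem_map] at hu
    obtain ⟨u', hu', rfl⟩ := hu
    have h1 := hQn u' hu'
    have h2 : ((Q'.map (Function.Embedding.subtype _)).filter
        (fun z => z ≠ (Function.Embedding.subtype _) u' ∧
          A ((Function.Embedding.subtype _) u') z = 0)) =
        (Q'.filter (fun z => z ≠ u' ∧ A u' z = 0)).map (Function.Embedding.subtype _) := by
      rw [filter_map]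
      congr 1
      apply filter_congr
      intro z _
      show (z.1 ≠ u'.1 ∧ A u'.1 z.1 = 0) ↔ (z ≠ u' ∧ A u'.1 z.1 = 0)
      rw [Ne, Ne, Subtype.ext_iff]
    rw [h2, card_map]
    exact h1

theorem p_DIG (hG : T_GOOD) (hW : T_WIN) (hN : T_NC) (hF : T_FC) : T_DIG := by
  intro a0 ε ha0 hε
  obtain ⟨CN, hCN, HN⟩ := hN a0 ε ha0 hε
  set E' : ℝ := (4 * a0 - 3) / (a0 - 1) + ε with hE'
  have hE2 : 2 ≤ E' := by
    have h0 : 0 < a0 - 1 := by linarith
    have h1 : 2 ≤ (4 * a0 - 3) / (a0 - 1) := by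
      rw [le_div_iff₀ h0]; linarith
    linarith
  have h2E : (1 : ℝ) ≤ 2 ^ E' := Real.one_le_rpow (by norm_num) (by linarith)
  refine ⟨200000 * CN * 2 ^ E', ?_, ?_⟩
  · nlinarith [mul_le_mul hCN h2E (by norm_num) (by linarith)]
  intro V _ _ a pos D G m γ d K q R W c hDg hGf hm hm0 hLD hD1 hDs hd hK hc hE hR hWW hq h1 h2 h3
    h4 h5 h6
  set C : ℝ := 200000 * CN * 2 ^ E' with hC
  have hCN1 : 200000 * CN ≤ C := by
    rw [hC]; nlinarith
  have hC0 : 0 < C := by linarith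
  set A := sy a with hAdef
  have hA : Adj A := hDg.adj
  set E : ℝ := ee A c c with hEdef
  set n : ℝ := (c.card : ℝ) with hn
  have hcne : c.Nonempty := by
    by_contra hcon
    rw [not_nonempty_iff_eq_empty] at hcon
    rw [hEdef, hcon] at hE
    simp [ee] at hE
  have hn0 : 0 < n := by rw [hn]; exact_mod_cast card_pos.mpr hcne
  have hW1 : (1 : ℝ) ≤ (W : ℝ) := by exact_mod_cast hWW
  have hR1 : (1 : ℝ) ≤ (R : ℝ) := by exact_mod_cast hR
  obtain ⟨C0, hC0c, hC0a, hC0l, hC0e⟩ := hG V a pos G m d q R W c hDg hGf hm hm0 (by linarith)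
    hq hR hWW (fun u hu => (hc u hu).1) h1 h2 h3
  have hγ : 0 < γ := by
    obtain ⟨u, hu⟩ := hcne
    have e1 : D u ≤ ∑ u, D u := single_le_sum (f := D) (fun i _ => by linarith [hD1 i])
      (mem_univ u)
    linarith [hD1 u]
  obtain ⟨I, J, hIC, hIJ, hIc, hIe, hIR, hId, hIs⟩ := hW V A (cpos pos c) D C0 W R (E / 2) n γ hA
    (fun u => by linarith [hD1 u])
    (fun u hu v hv => DIG_inj pos hDg.inj c u (hC0c hu) v (hC0c hv)) hWW (by linarith) hn0 hγ
    (by rw [hn]; exact_mod_cast card_le_card hC0c) hDs hC0e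
  set Phi : ℝ := (E / (16 * n)) ^ a0 * (2 * (W : ℝ)) ^ (1 - a0) with hPhi
  have hIcne : 0 < (I.card : ℝ) := by
    rw [Nat.cast_pos, card_pos]
    by_contra hcon
    rw [not_nonempty_iff_eq_empty] at hcon
    rw [hcon] at hIe
    simp [ee] at hIe
  have hPhiI : Phi ≤ (ee A I I / (I.card : ℝ) ^ 2) ^ a0 * (I.card : ℝ) := by
    have e1 : (E / (16 * n)) / (I.card : ℝ) ≤ ee A I I / (I.card : ℝ) ^ 2 := by
      rw [div_le_div_iff₀ hIcne (by positivity)]
      have e2 : E / (16 * n) * (I.card : ℝ) ≤ ee A I I := by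
        have : E / 2 / (8 * n) = E / (16 * n) := by
          rw [div_div]; congr 1; ring
        rw [this] at hId
        exact hId
      nlinarith [mul_le_mul_of_nonneg_right e2 hIcne.le]
    have e3 : ((E / (16 * n)) / (I.card : ℝ)) ^ a0 * (I.card : ℝ) ≤
        (ee A I I / (I.card : ℝ) ^ 2) ^ a0 * (I.card : ℝ) := by
      apply mul_le_mul_of_nonneg_right _ hIcne.le
      exact Real.rpow_le_rpow (by positivity) e1 (by linarith)
    refine le_trans ?_ e3
    have e4 : ((E / (16 * n)) / (I.card : ℝ)) ^ a0 * (I.card : ℝ) =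
        (E / (16 * n)) ^ a0 * (I.card : ℝ) ^ (1 - a0) := by
      rw [Real.div_rpow (by positivity) hIcne.le, Real.rpow_sub hIcne, Real.rpow_one]
      field_simp
    rw [e4, hPhi]
    apply mul_le_mul_of_nonneg_left _ (by positivity)
    exact Real.rpow_le_rpow_of_nonpos hIcne hIc (by linarith)
  have hKE : CN * (2 * K) ^ E' ≤ Phi := by
    refine le_trans ?_ h5
    rw [Real.mul_rpow (by norm_num) (by linarith), hC]
    have : 0 ≤ CN * (2 ^ E' * K ^ E') := by positivity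
    nlinarith
  obtain ⟨Q, hQI, hQc, hQn⟩ := DIG_nc A D (2 * K) CN a0 E' hA hLD c I (hIC.trans hC0c)
    (fun u hu => (hc u hu).2) (by linarith) HN hIe (hKE.trans hPhiI)
  have hPQ : Phi ≤ CN * (Q.card : ℝ) := hPhiI.trans hQc
  set y : ℝ := (Q.card : ℝ) with hy
  have hyq : 200000 * q ≤ y := by
    have e1 : CN * (200000 * q) ≤ CN * y := by
      have : 200000 * CN * q ≤ C * q := mul_le_mul_of_nonneg_right hCN1 hq.le
      linarith
    exact le_of_mul_le_mul_left e1 (by linarith)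
  have hyK : 256 * K ^ 2 ≤ y := by
    have e1 : K ^ 2 ≤ K ^ E' := by
      have := Real.rpow_le_rpow_of_exponent_le hK hE2
      rw [← Real.rpow_natCast]; exact_mod_cast this
    have e2 : C * K ^ 2 ≤ CN * y := (mul_le_mul_of_nonneg_left e1 hC0.le).trans (h5.trans hPQ)
    have e3 : CN * (256 * K ^ 2) ≤ CN * y := by
      have : 200000 * CN * K ^ 2 ≤ C * K ^ 2 := mul_le_mul_of_nonneg_right hCN1 (sq_nonneg _)
      have h0 : 0 ≤ CN * K ^ 2 := by positivity
      linarith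
    exact le_of_mul_le_mul_left e3 (by linarith)
  have hfc := hF V a pos D (2 * K) hDg hLD (by linarith) hD1 Q J (hQI.trans hIJ)
    (fun u hu => (hc u (hC0c (hIC (hQI hu)))).2) hQn
  have s1 : ∑ i ∈ Q, |dp a i - dm a i| ≤ y * (q / 16) := by
    calc ∑ i ∈ Q, |dp a i - dm a i| ≤ ∑ i ∈ Q, (q / 16) :=
          sum_le_sum (fun i hi => hC0a i (hIC (hQI hi)))
      _ = _ := by rw [sum_const, nsmul_eq_mul]
  have s2 : ∑ i ∈ Q, ((univ.filter (fun j => j ∉ J ∧ sy a i j ≠ 0)).card : ℝ)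
      ≤ y * (q / 16) := by
    calc ∑ i ∈ Q, ((univ.filter (fun j => j ∉ J ∧ sy a i j ≠ 0)).card : ℝ)
        ≤ ∑ i ∈ Q, (q / 16) := by
          apply sum_le_sum
          intro i hi
          refine le_trans ?_ (hC0l i (hIC (hQI hi)))
          unfold long
          apply Nat.cast_le.mpr
          apply card_le_card
          intro j hj
          rw [mem_filter] at hj ⊢
          exact ⟨hj.1, hj.2.2, hIR i (hQI hi) j hj.2.1⟩
      _ = _ := by rw [sum_const, nsmul_eq_mul]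
  have s3 : ee A I I ≤ 4 * W * d := by
    have e1 : ee A I I ≤ ∑ u ∈ I, (2 * d) := by
      unfold ee
      apply sum_le_sum
      intro u hu
      calc ∑ v ∈ I, A u v ≤ ∑ v, A u v :=
            sum_le_sum_of_subset_of_nonneg (subset_univ _) (fun v _ _ => hA.nonneg u v)
        _ = ((nb A u).card : ℝ) := hA.deg u
        _ ≤ 2 * d := (hc u (hC0c (hIC hu))).1
    rw [sum_const, nsmul_eq_mul] at e1
    have e2 : (I.card : ℝ) * (2 * d) ≤ 2 * W * (2 * d) :=
      mul_le_mul_of_nonneg_right hIc (by linarith)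
    linarith
  set SJ : ℝ := ∑ j ∈ J, D j with hSJ
  have s4 : E * SJ ≤ 192 * (W + R) * γ * d := by
    have e0 : 8 * (3 + 2 * (R : ℝ) / W) * γ * ee A I I
        ≤ 8 * (3 + 2 * (R : ℝ) / W) * γ * (4 * W * d) :=
      mul_le_mul_of_nonneg_left s3 (by positivity)
    have e1 : 8 * (3 + 2 * (R : ℝ) / W) * γ * (4 * W * d) = 32 * (3 * W + 2 * R) * γ * d := by
      field_simp
      ring
    have e2 : 32 * (3 * W + 2 * R) * γ * d ≤ 96 * (W + R) * γ * d := by
      have : 0 ≤ (R : ℝ) * γ * d := by positivity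
      nlinarith
    linarith
  have s5 : 8 * (2 * K) ^ 2 * SJ ≤ y ^ 2 / 32 := by
    have e1 : C * (K ^ 2 * SJ) * E ≤ 192 * q ^ 2 * E := by
      have : C * K ^ 2 * (E * SJ) ≤ C * K ^ 2 * (192 * (W + R) * γ * d) :=
        mul_le_mul_of_nonneg_left s4 (by positivity)
      nlinarith
    have e2 : C * (K ^ 2 * SJ) ≤ 192 * q ^ 2 := le_of_mul_le_mul_right e1 hE
    have e3 : 0 ≤ K ^ 2 * SJ := by
      apply mul_nonneg (sq_nonneg _)
      exact sum_nonneg (fun j _ => by linarith [hD1 j])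
    have e4 : 200000 * (K ^ 2 * SJ) ≤ 192 * q ^ 2 := by
      have : 200000 * (K ^ 2 * SJ) ≤ C * (K ^ 2 * SJ) :=
        mul_le_mul_of_nonneg_right (by linarith) e3
      linarith
    have e5 : q ^ 2 ≤ y ^ 2 := pow_le_pow_left₀ hq.le (by linarith) 2
    nlinarith
  have s6 : 2 * (2 * K) ^ 2 * y ≤ y ^ 2 / 32 := by nlinarith [hyK, sq_nonneg K]
  have hy256 : 256 ≤ y := by nlinarith [hyK, hK]
  have s7 : y * (q / 16) ≤ y ^ 2 / 16 := by nlinarith
  nlinarith [hfc, s1, s2, s5, s6, s7, hy256]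

end Pool.Agent.HTwo
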