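import Pool.Agent.HTwo.Targets

set_option autoImplicit false

/-!
# DIG0: windows are at least as long as the average degree
-/

namespace Pool.Agent.HTwo

open Finset Pool.Agent.HLow

theorem dig0_mono {V : Type} [Fintype V] [DecidableEq V] (pos : V → ℕ) (c : Finset V) (u v : V)
    (h : pos u < pos v) : cpos pos c u ≤ cpos pos c v := by
  unfold cpos
  apply card_le_card
  intro w hw
  rw [mem_filter] at hw ⊢
  exact ⟨hw.1, hw.2.trans h⟩

theorem dig0_inj {V : Type} [Fintype V] [DecidableEq V] (pos : V → ℕ) (c : Finset V) (u v : V)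
    (hu : u ∈ c) (h : pos u < pos v) : cpos pos c u < cpos pos c v := by
  unfold cpos
  apply card_lt_card
  rw [Finset.ssubset_iff_of_subset]
  · refine ⟨u, ?_, ?_⟩
    · rw [mem_filter]
      exact ⟨hu, h⟩
    · rw [mem_filter]
      exact fun h' => absurd h'.2 (lt_irrefl _)
  · intro w hw
    rw [mem_filter] at hw ⊢
    exact ⟨hw.1, hw.2.trans h⟩

theorem p_DIG0 (hL : T_LENC) (hW : T_WIN) : T_DIG0 := by
  intro V _ _ a pos G m W c hD hG hm hm0 hW1 hE hgap
  have hadj := hD.adj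
  set E := ee (sy a) c c with hEd
  have hWpos : (0 : ℝ) < W := by exact_mod_cast hW1
  have hlen := hL V a pos G m hD hG hm hm0 c
  set cp := cpos pos c with hcp
  -- positivity of arcs
  have harc : ∀ u v, 0 ≤ a u v * ((cp v : ℝ) - (cp u : ℝ)) := by
    intro u v
    by_cases h : a u v = 0
    · rw [h, zero_mul]
    · refine mul_nonneg (hD.nonneg u v) ?_
      have := dig0_mono pos c u v (hD.lt u v h)
      have h' : (cp u : ℝ) ≤ (cp v : ℝ) := by exact_mod_cast this
      linarith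
  have habs : ∀ u v, a u v * |(cp u : ℝ) - (cp v : ℝ)| = a u v * ((cp v : ℝ) - (cp u : ℝ)) := by
    intro u v
    by_cases h : a u v = 0
    · rw [h, zero_mul, zero_mul]
    · have := dig0_mono pos c u v (hD.lt u v h)
      have h' : (cp u : ℝ) ≤ (cp v : ℝ) := by exact_mod_cast this
      rw [abs_sub_comm, abs_of_nonneg (by linarith)]
  -- total length
  have htot : ∑ u, ∑ v, sy a u v * |(cp u : ℝ) - (cp v : ℝ)| =
      2 * ∑ u, ∑ v, a u v * ((cp v : ℝ) - (cp u : ℝ)) := by
    have e1 : ∀ u v, sy a u v * |(cp u : ℝ) - (cp v : ℝ)| =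
        a u v * ((cp v : ℝ) - (cp u : ℝ)) + a v u * ((cp u : ℝ) - (cp v : ℝ)) := by
      intro u v
      unfold sy
      rw [add_mul, habs u v, abs_sub_comm, habs v u]
    simp only [e1, sum_add_distrib]
    rw [sum_comm (f := fun u v => a v u * ((cp u : ℝ) - (cp v : ℝ)))]
    ring
  -- far pairs
  have hfar : ∑ u ∈ c, ∑ v ∈ c, (if |(cp u : ℝ) - (cp v : ℝ)| < W then 0 else sy a u v) ≤ E / 8 := by
    have h1 : ∀ u v, (if |(cp u : ℝ) - (cp v : ℝ)| < W then 0 else sy a u v) ≤
        sy a u v * |(cp u : ℝ) - (cp v : ℝ)| / W := by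
      intro u v
      split_ifs with h
      · exact div_nonneg (mul_nonneg (hadj.nonneg u v) (abs_nonneg _)) hWpos.le
      · rw [not_lt] at h
        rw [le_div_iff₀ hWpos]
        exact mul_le_mul_of_nonneg_left h (hadj.nonneg u v)
    have h2 : ∑ u ∈ c, ∑ v ∈ c, (if |(cp u : ℝ) - (cp v : ℝ)| < W then 0 else sy a u v) ≤
        ∑ u, ∑ v, sy a u v * |(cp u : ℝ) - (cp v : ℝ)| / W := by
      have hnn : ∀ u v, 0 ≤ sy a u v * |(cp u : ℝ) - (cp v : ℝ)| / W := fun u v =>
        div_nonneg (mul_nonneg (hadj.nonneg u v) (abs_nonneg _)) hWpos.le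
      calc ∑ u ∈ c, ∑ v ∈ c, (if |(cp u : ℝ) - (cp v : ℝ)| < W then 0 else sy a u v)
          ≤ ∑ u ∈ c, ∑ v ∈ c, sy a u v * |(cp u : ℝ) - (cp v : ℝ)| / W :=
            sum_le_sum fun u _ => sum_le_sum fun v _ => h1 u v
        _ ≤ ∑ u ∈ c, ∑ v, sy a u v * |(cp u : ℝ) - (cp v : ℝ)| / W :=
            sum_le_sum fun u _ => sum_le_univ_sum_of_nonneg fun v => hnn u v
        _ ≤ ∑ u, ∑ v, sy a u v * |(cp u : ℝ) - (cp v : ℝ)| / W :=
            sum_le_univ_sum_of_nonneg fun u => sum_nonneg fun v _ => hnn u v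
    have h3 : ∑ u, ∑ v, sy a u v * |(cp u : ℝ) - (cp v : ℝ)| / W =
        2 * (∑ u, ∑ v, a u v * ((cp v : ℝ) - (cp u : ℝ))) / W := by
      rw [← htot, sum_div]
      refine sum_congr rfl fun u _ => ?_
      rw [sum_div]
    rw [h3] at h2
    refine h2.trans ?_
    rw [div_le_iff₀ hWpos]
    have h4 : 2 * (∑ u, ∑ v, a u v * ((cp v : ℝ) - (cp u : ℝ))) ≤
        2 * ((c.card : ℝ) * Real.sqrt (G * m)) := by linarith
    nlinarith
  have hnear : E / 2 ≤ ∑ u ∈ c, ∑ v ∈ c,
      (if |(cp u : ℝ) - (cp v : ℝ)| < W then sy a u v else 0) := by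
    have hsum : E = ∑ u ∈ c, ∑ v ∈ c, (if |(cp u : ℝ) - (cp v : ℝ)| < W then sy a u v else 0) +
        ∑ u ∈ c, ∑ v ∈ c, (if |(cp u : ℝ) - (cp v : ℝ)| < W then 0 else sy a u v) := by
      rw [hEd]
      unfold ee
      rw [← sum_add_distrib]
      refine sum_congr rfl fun u _ => ?_
      rw [← sum_add_distrib]
      refine sum_congr rfl fun v _ => ?_
      split_ifs <;> simp
    linarith
  have hcne : c.Nonempty := by
    rw [Finset.nonempty_iff_ne_empty]
    rintro rfl
    rw [hEd] at hE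
    unfold ee at hE
    simp at hE
  have hn : (0 : ℝ) < (c.card : ℝ) := by exact_mod_cast hcne.card_pos
  obtain ⟨I, J, hIc, -, hI2, hIpos, -, hdens, -⟩ := hW V (sy a) cp (fun _ => 0) c W 0 (E / 2)
    (c.card : ℝ) 1 hadj (fun _ => le_rfl)
    (by
      intro u hu v hv huv
      by_contra hne
      rcases lt_trichotomy (pos u) (pos v) with h | h | h
      · exact absurd huv (dig0_inj pos c u v hu h).ne
      · exact hne (hD.inj h)
      · exact absurd huv (dig0_inj pos c v u hv h).ne')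
    hW1 (by linarith) hn one_pos le_rfl (by simp) hnear
  have hIne : I.Nonempty := by
    rw [Finset.nonempty_iff_ne_empty]
    rintro rfl
    unfold ee at hIpos
    simp at hIpos
  have hI0 : (0 : ℝ) < (I.card : ℝ) := by exact_mod_cast hIne.card_pos
  have h5 := hdens.trans (ee_le hadj I I)
  have h6 : E / 2 / (8 * (c.card : ℝ)) ≤ (I.card : ℝ) := le_of_mul_le_mul_right h5 hI0
  rw [div_le_iff₀ (by positivity)] at h6
  nlinarith

end Pool.Agent.HTwo
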