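import Mathlib
import Pool.Agent.HTwo.Targets
import Pool.Agent.HLow.TR
import Pool.Agent.HLow.BD
import Pool.Agent.HLow.SPEC

set_option autoImplicit false
set_option linter.unusedSectionVars false
set_option linter.unusedVariables false
set_option maxHeartbeats 1000000

namespace Pool.Agent.HTwo

open Finset Pool.Agent.HLow

section

variable {V : Type} [Fintype V] [DecidableEq V]

/-- the sum of `(lam i + K) * (v i, 1)²` is `1ᵀ A 1 + K N` -/
lemma DNS_total {A : V → V → ℝ} {K : ℝ} {lam : V → ℝ} {v : V → V → ℝ} (hS : Spec A K lam v) :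
    ∑ i, (lam i + K) * (∑ u, v i u) ^ 2 = ee A univ univ + K * (Fintype.card V : ℝ) := by
  have h1 : ∑ i, lam i * (∑ u, v i u) ^ 2 = ee A univ univ := by
    unfold ee
    have e : ∀ i, lam i * (∑ u, v i u) ^ 2 = ∑ u, ∑ w, lam i * (v i u * v i w) := by
      intro i
      rw [sq, sum_mul_sum, mul_sum]
      exact sum_congr rfl fun u _ => mul_sum _ _ _
    rw [sum_congr rfl fun i _ => e i, sum_comm]
    refine sum_congr rfl fun u _ => ?_
    rw [sum_comm]
    exact sum_congr rfl fun w _ => (hS.dec u w).symm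
  have h2 : ∑ i, (∑ u, v i u) ^ 2 = (Fintype.card V : ℝ) := by
    have e : ∀ i, (∑ u, v i u) ^ 2 = ∑ u, ∑ w, v i u * v i w := by
      intro i
      rw [sq, sum_mul_sum]
    rw [sum_congr rfl fun i _ => e i, sum_comm]
    have e2 : ∀ u, ∑ i, ∑ w, v i u * v i w = 1 := by
      intro u
      rw [sum_comm, sum_congr rfl fun w _ => hS.col u w]
      simp
    rw [sum_congr rfl fun u _ => e2 u]
    simp
  calc ∑ i, (lam i + K) * (∑ u, v i u) ^ 2
      = ∑ i, lam i * (∑ u, v i u) ^ 2 + K * ∑ i, (∑ u, v i u) ^ 2 := by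
        rw [mul_sum, ← sum_add_distrib]
        exact sum_congr rfl fun i _ => by ring
    _ = _ := by rw [h1, h2]

lemma DNS_split (lam : V → ℝ) {τ : ℝ} (hτ : 0 < τ) :
    ∑ i, lam i ^ 2 = ∑ i, (if τ ≤ lam i then lam i ^ 2 else 0) + TL lam τ
      + ∑ i, (if lam i < 0 then lam i ^ 2 else 0) := by
  unfold TL
  rw [← sum_add_distrib, ← sum_add_distrib]
  refine sum_congr rfl fun i _ => ?_
  by_cases h1 : τ ≤ lam i
  · have h2 : ¬ (0 < lam i ∧ lam i < τ) := fun h => absurd h.2 (not_lt.2 h1)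
    have h3 : ¬ lam i < 0 := not_lt.2 (hτ.le.trans h1)
    rw [if_pos h1, if_neg h2, if_neg h3]; ring
  · rw [if_neg h1]
    push Not at h1
    rcases lt_trichotomy (lam i) 0 with h | h | h
    · rw [if_neg (fun h' => absurd h'.1 (not_lt.2 h.le)), if_pos h]; ring
    · rw [h]; simp
    · rw [if_pos ⟨h, h1⟩, if_neg (not_lt.2 h.le)]; ring

/-- the main inequality before division -/
lemma DNS_main (hTX : T_TX2) (hEIG : T_EIGB) {A : V → V → ℝ} {K p η M x : ℝ}
    (hA : Adj A) (hL : Low A K) (hK : 1 ≤ K) (hN : 1 ≤ Fintype.card V)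
    (hη : 0 < η) (hη1 : η < 1) (hM : 1 ≤ M) (hx : 1 ≤ x) (hp : 0 ≤ p) (hp1 : p ≤ 1)
    (he : ee A univ univ = p * (Fintype.card V : ℝ) ^ 2)
    (hT : ∀ T : Finset V, ee A T T ≤ p * (T.card : ℝ) ^ 2 + (Fintype.card V : ℝ) ^ 2 / M)
    (hKN : K ≤ (Real.sqrt ((Fintype.card V : ℝ) * 4) / K) ^ η) :
    p * (Fintype.card V : ℝ) ^ 2 ≤ p * (p * (Fintype.card V : ℝ) ^ 2 + K * (Fintype.card V : ℝ))
      + x ^ 2 * (p + 4 * (Fintype.card V : ℝ) / M) * (8 * (Fintype.card V : ℝ) * x)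
      + (Fintype.card V : ℝ) ^ 2 * (16 / (1 - (2 : ℝ) ^ (η - 1)) * x ^ (η - 1))
      + K ^ 2 * (Fintype.card V : ℝ) := by
  obtain ⟨lam, v, hS⟩ := p_SPEC V A K hA.sym hL
  obtain ⟨htr1, htr2, -⟩ := p_TR V A K lam v hA hS
  obtain ⟨hTT, hTL⟩ := hTX V A K η lam v hA hS hK hN hη hη1 hKN
  have hBD := p_BD V lam K (by linarith) hS.low htr1
  set N : ℝ := (Fintype.card V : ℝ) with hNdef
  have hN1 : 1 ≤ N := by rw [hNdef]; exact_mod_cast hN
  have hN0 : 0 < N := by linarith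
  have hx0 : 0 < x := by linarith
  have hτ : 0 < N / x := by positivity
  have h1 := DNS_split lam hτ
  rw [htr2, he] at h1
  have h2 := hBD.2.2.2.2
  have h3 := hTL x hx
  have h4 : TT lam (N / x) ≤ 8 * N * x := by
    refine (hTT x hx).trans ?_
    have h5 : (4 * x) ^ η ≤ 4 * x := by
      calc (4 * x) ^ η ≤ (4 * x) ^ (1 : ℝ) :=
            Real.rpow_le_rpow_of_exponent_le (by linarith) hη1.le
        _ = 4 * x := Real.rpow_one _
    nlinarith
  have h5 : ∑ i, (if N / x ≤ lam i then lam i ^ 2 else 0) ≤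
      p * ∑ i, (lam i + K) * (∑ u, v i u) ^ 2
        + x ^ 2 * (p + 4 * N / M) * TT lam (N / x) := by
    unfold TT
    rw [mul_sum, mul_sum, ← sum_add_distrib]
    refine sum_le_sum fun i _ => ?_
    by_cases h : N / x ≤ lam i
    · rw [if_pos h, if_pos h]
      have h6 := hEIG V A K p (N ^ 2 / M) x lam v hA hS hN hp hT he hx0 i h
      have h7 : 4 * (N ^ 2 / M) / N = 4 * N / M := by
        have : M ≠ 0 := by positivity
        field_simp
      rw [← hNdef, h7] at h6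
      have h8 : 0 ≤ lam i := hτ.le.trans h
      have h9 : lam i ^ 2 ≤ lam i * (p * (∑ u, v i u) ^ 2 + x ^ 2 * (p + 4 * N / M)) := by
        rw [sq]
        exact mul_le_mul_of_nonneg_left h6 h8
      have h10 : 0 ≤ p * (K * (∑ u, v i u) ^ 2) := by positivity
      nlinarith
    · rw [if_neg h, if_neg h, mul_zero, add_zero]
      exact mul_nonneg hp (mul_nonneg (by linarith [hS.low i]) (sq_nonneg _))
  rw [DNS_total hS, he] at h5
  have h6 : x ^ 2 * (p + 4 * N / M) * TT lam (N / x) ≤ x ^ 2 * (p + 4 * N / M) * (8 * N * x) :=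
    mul_le_mul_of_nonneg_left h4 (by positivity)
  linarith

end

lemma DNS_c2 {x p M N K e : ℝ} (hM0 : 0 < M) (hN0 : 0 < N) (hx0 : 0 < x)
    (hpK : p ≤ K ^ 2) (b1 : 32 * x ^ 3 ≤ e * M) :
    x ^ 2 * (p + 4 * N / M) * (8 * N * x) ≤ 8 * x ^ 3 * K ^ 2 * N + e * N ^ 2 := by
  have h1 : x ^ 2 * (p + 4 * N / M) * (8 * N * x)
      = 8 * x ^ 3 * p * N + (32 * x ^ 3 / M) * N ^ 2 := by
    ring
  rw [h1]
  have h2 : 32 * x ^ 3 / M ≤ e := by
    rw [div_le_iff₀ hM0]
    exact b1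
  have h3 : 8 * x ^ 3 * p * N ≤ 8 * x ^ 3 * K ^ 2 * N := by
    apply mul_le_mul_of_nonneg_right _ hN0.le
    exact mul_le_mul_of_nonneg_left hpK (by positivity)
  have h4 : 32 * x ^ 3 / M * N ^ 2 ≤ e * N ^ 2 :=
    mul_le_mul_of_nonneg_right h2 (sq_nonneg _)
  linarith

theorem p_DNS (hTX : T_TX2) (hEIG : T_EIGB) : T_DNS := by
  intro η pst hη hη1 hpst hpst1
  set e : ℝ := pst / 2000 with he
  have he0 : 0 < e := by positivity
  have h2η : (2 : ℝ) ^ (η - 1) < 1 :=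
    Real.rpow_lt_one_of_one_lt_of_neg (by norm_num) (by linarith)
  have h2η0 : 0 < (2 : ℝ) ^ (η - 1) := by positivity
  set Cη : ℝ := 16 / (1 - (2 : ℝ) ^ (η - 1)) with hCη
  have hCη1 : 1 ≤ Cη := by
    rw [hCη, le_div_iff₀ (by linarith)]
    linarith
  have hq : 1 ≤ Cη / e := by
    rw [le_div_iff₀ he0]
    linarith
  set x : ℝ := (Cη / e) ^ (1 / (1 - η)) with hx
  have hx1 : 1 ≤ x := Real.one_le_rpow hq (by
    have : 0 < 1 - η := by linarith
    positivity)
  have hx0 : 0 < x := by linarith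
  have hxe : Cη * x ^ (η - 1) = e := by
    have h1 : x ^ (η - 1) = e / Cη := by
      rw [hx, ← Real.rpow_mul (by linarith)]
      have : 1 / (1 - η) * (η - 1) = -1 := by
        have : 1 - η ≠ 0 := by linarith
        field_simp
        ring
      rw [this, Real.rpow_neg_one, inv_div]
    rw [h1]
    field_simp
  refine ⟨1 + 32 * x ^ 3 / e, 1 + (2 + 8 * x ^ 3) / e, ?_, ?_, ?_⟩
  · have : 0 ≤ 32 * x ^ 3 / e := by positivity
    linarith
  · have : 0 ≤ (2 + 8 * x ^ 3) / e := by positivity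
    linarith
  intro V _ _ A K p hA hL hK hN hep hT hKN hCK hp
  set M : ℝ := 1 + 32 * x ^ 3 / e with hM
  have hM1 : 1 ≤ M := by
    have : 0 ≤ 32 * x ^ 3 / e := by positivity
    linarith
  have hp0 : 0 < p := by linarith
  have hN1 : (1 : ℝ) ≤ (Fintype.card V : ℝ) := by exact_mod_cast hN
  have hp1 : p ≤ 1 := by
    have h1 := ee_le hA univ univ
    rw [hep, card_univ] at h1
    have h3 : 0 < (Fintype.card V : ℝ) ^ 2 := by positivity
    by_contra hcon
    push Not at hcon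
    nlinarith
  have hmain := DNS_main hTX hEIG hA hL hK hN hη hη1 hM1 hx1 hp0.le hp1 hep hT hKN
  rw [← hCη] at hmain
  set N : ℝ := (Fintype.card V : ℝ) with hNdef
  have hN0 : 0 < N := by linarith
  -- the error terms
  have hx3 : 0 < x ^ 3 := by positivity
  have b1 : 32 * x ^ 3 ≤ e * M := by
    rw [hM, mul_add, mul_div_cancel₀ _ he0.ne']
    linarith
  have b2 : (2 + 8 * x ^ 3) * K ^ 2 ≤ e * N := by
    have h1 : (2 + 8 * x ^ 3) / e * K ^ 2 ≤ N := by
      have : 0 ≤ K ^ 2 := sq_nonneg _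
      nlinarith
    have h2 := mul_le_mul_of_nonneg_left h1 he0.le
    have h3 : e * ((2 + 8 * x ^ 3) / e * K ^ 2) = (2 + 8 * x ^ 3) * K ^ 2 := by
      field_simp
    rwa [h3] at h2
  have hKK : K ≤ K ^ 2 := by nlinarith
  have hK2 : 1 ≤ K ^ 2 := by nlinarith
  have c1 : p * (K * N) ≤ K ^ 2 * N := by
    have : p * K ≤ K ^ 2 := by nlinarith
    nlinarith
  have c2 : x ^ 2 * (p + 4 * N / M) * (8 * N * x) ≤ 8 * x ^ 3 * K ^ 2 * N + e * N ^ 2 :=
    DNS_c2 (by linarith) hN0 hx0 (by linarith) b1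
  have c3 : N ^ 2 * (Cη * x ^ (η - 1)) = e * N ^ 2 := by rw [hxe]; ring
  have c4 : (2 + 8 * x ^ 3) * K ^ 2 * N ≤ e * N ^ 2 := by
    have := mul_le_mul_of_nonneg_right b2 hN0.le
    linarith
  have d1 : p * N ^ 2 * (1 - p) ≤ 3 * e * N ^ 2 := by
    have f1 : p * (p * N ^ 2 + K * N) = p * (p * N ^ 2) + p * (K * N) := by ring
    have f2 : p * N ^ 2 * (1 - p) = p * N ^ 2 - p * (p * N ^ 2) := by ring
    have f3 : (2 + 8 * x ^ 3) * K ^ 2 * N = K ^ 2 * N + 8 * x ^ 3 * K ^ 2 * N + K ^ 2 * N := by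
      ring
    rw [f1, c3] at hmain
    rw [f3] at c4
    rw [f2]
    linarith
  have hN2 : 0 < N ^ 2 := by positivity
  have d2 : p * (1 - p) ≤ 3 * e := by
    have : p * (1 - p) * N ^ 2 ≤ 3 * e * N ^ 2 := by linarith
    exact le_of_mul_le_mul_right this hN2
  have d3 : p * (1 - p) ≤ p * (1 / 400) := by
    rw [he] at d2
    linarith
  have d4 := le_of_mul_le_mul_left d3 hp0
  linarith

end Pool.Agent.HTwo
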