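import Pool.Agent.HTwo.Targets
import Pool.Agent.HLow.TR

set_option autoImplicit false

namespace Pool.Agent.HTwo

open Finset Pool.Agent.HLow

lemma EIGB_sq {V : Type} [Fintype V] [DecidableEq V] {A : V → V → ℝ} {K x : ℝ}
    {lam : V → ℝ} {v : V → V → ℝ} (hA : Adj A) (hS : Spec A K lam v)
    (hN : 1 ≤ Fintype.card V) (hx : 0 < x) (i : V)
    (hi : (Fintype.card V : ℝ) / x ≤ lam i) (u : V) :
    (Fintype.card V : ℝ) / x ^ 2 * v i u ^ 2 ≤ 1 := by
  have hN1 : (0 : ℝ) < (Fintype.card V : ℝ) := by exact_mod_cast hN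
  have h1 : (lam i * v i u) ^ 2 ≤ (Fintype.card V : ℝ) := by
    rw [← TR_eig hS u i]
    have h2 : ∑ w, v i w ^ 2 = 1 := by
      have := hS.row i i
      rw [if_pos rfl] at this
      rw [← this]
      exact sum_congr rfl fun w _ => by ring
    have h3 : ∑ w, A u w ^ 2 ≤ (Fintype.card V : ℝ) := by
      calc ∑ w, A u w ^ 2 ≤ ∑ _w : V, (1 : ℝ) := by
            refine sum_le_sum fun w _ => ?_
            rcases hA.zo u w with e | e <;> rw [e] <;> norm_num
        _ = _ := by simp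
    calc (∑ w, A u w * v i w) ^ 2 ≤ (∑ w, A u w ^ 2) * ∑ w, v i w ^ 2 :=
          sum_mul_sq_le_sq_mul_sq univ _ _
      _ ≤ _ := by rw [h2, mul_one]; exact h3
  have h4 : 0 < (Fintype.card V : ℝ) / x := by positivity
  have h5 : ((Fintype.card V : ℝ) / x) ^ 2 ≤ lam i ^ 2 := by
    have : 0 ≤ lam i := h4.le.trans hi
    gcongr
  have h6 : ((Fintype.card V : ℝ) / x) ^ 2 * v i u ^ 2 ≤ (Fintype.card V : ℝ) := by
    calc ((Fintype.card V : ℝ) / x) ^ 2 * v i u ^ 2 ≤ lam i ^ 2 * v i u ^ 2 := by gcongr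
      _ = (lam i * v i u) ^ 2 := by ring
      _ ≤ _ := h1
  have h7 : ((Fintype.card V : ℝ) / x) ^ 2 * v i u ^ 2 =
      (Fintype.card V : ℝ) * ((Fintype.card V : ℝ) / x ^ 2 * v i u ^ 2) := by
    field_simp
  rw [h7] at h6
  nlinarith

theorem p_EIGB (hG : T_GBD) : T_EIGB := by
  intro V _ _ A K p κ x lam v hA hS hN hp hT he hx i hi
  have hN1 : (0 : ℝ) < (Fintype.card V : ℝ) := by exact_mod_cast hN
  set N : ℝ := (Fintype.card V : ℝ) with hNdef
  set s : ℝ := Real.sqrt N / x with hs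
  have hs2 : s ^ 2 = N / x ^ 2 := by
    rw [hs, div_pow, Real.sq_sqrt hN1.le]
  have hb : ∀ u, |s * v i u| ≤ 1 := by
    intro u
    rw [← sq_le_one_iff_abs_le_one, mul_pow, hs2]
    exact EIGB_sq hA hS hN hx i hi u
  have h1 := hG V A p κ hA hp hT he (fun u => s * v i u) hb
  have h2 : ∑ u, ∑ w, A u w * (s * v i u * (s * v i w)) = N / x ^ 2 * lam i := by
    have h3 : ∀ u, ∑ w, A u w * (s * v i u * (s * v i w)) =
        s ^ 2 * lam i * (v i u * v i u) := by
      intro u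
      have : ∑ w, A u w * (s * v i u * (s * v i w)) =
          s ^ 2 * v i u * ∑ w, A u w * v i w := by
        rw [mul_sum]
        exact sum_congr rfl fun w _ => by ring
      rw [this, TR_eig hS u i]
      ring
    rw [sum_congr rfl fun u _ => h3 u, ← mul_sum, hS.row i i, if_pos rfl, hs2]
    ring
  have h4 : (∑ u, s * v i u) ^ 2 = N / x ^ 2 * (∑ u, v i u) ^ 2 := by
    rw [← mul_sum, mul_pow, hs2]
  rw [h2, h4] at h1
  have h5 : 0 < x ^ 2 / N := by positivity
  have h6 := mul_le_mul_of_nonneg_left h1 h5.le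
  have h7 : x ^ 2 / N * (N / x ^ 2 * lam i) = lam i := by
    field_simp
  have h8 : x ^ 2 / N * (p * (N / x ^ 2 * (∑ u, v i u) ^ 2) + p * N + 4 * κ) =
      p * (∑ u, v i u) ^ 2 + x ^ 2 * (p + 4 * κ / N) := by
    field_simp
    ring
  rw [h7, h8] at h6
  exact h6

end Pool.Agent.HTwo
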