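import Pool.Agent.HTwo.Targets

set_option autoImplicit false

/-!
# MP_ac065a_co: target FC, the balance inequality for a near clique
-/

namespace Pool.Agent.HTwo

open Finset Pool.Agent.HLow

/-- the sign of the pair of positions -/
noncomputable def FC_s {V : Type} (pos : V → ℕ) (i j : V) : ℝ :=
  (if pos i < pos j then 1 else 0) - (if pos j < pos i then 1 else 0)

lemma FC_abs_s {V : Type} (pos : V → ℕ) (i j : V) : |FC_s pos i j| ≤ 1 := by
  unfold FC_s
  rcases Nat.lt_trichotomy (pos i) (pos j) with h | h | h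
  · rw [if_pos h, if_neg (by omega)]; norm_num
  · rw [if_neg (by omega), if_neg (by omega)]; norm_num
  · rw [if_neg (by omega), if_pos h]; norm_num

lemma FC_s_self {V : Type} (pos : V → ℕ) (i : V) : FC_s pos i i = 0 := by
  unfold FC_s
  simp

lemma FC_dd {V : Type} [Fintype V] [DecidableEq V] {a : V → V → ℝ} {pos : V → ℕ} (h : Dg a pos)
    (i j : V) : a i j - a j i = sy a i j * FC_s pos i j := by
  unfold sy FC_s
  by_cases h1 : a i j = 0
  · by_cases h2 : a j i = 0
    · rw [h1, h2]; ring
    · have h3 := h.lt j i h2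
      rw [h1, (h.zo j i).resolve_left h2, if_neg (by omega), if_pos h3]; ring
  · have h3 := h.lt i j h1
    rw [h.anti i j h1, (h.zo i j).resolve_left h1, if_pos h3, if_neg (by omega)]; ring

lemma FC_card {V : Type} (pos : V → ℕ) (F : Finset V) (i : V) :
    ((F.filter (fun j => pos i < pos j)).card : ℝ) - ((F.filter (fun j => pos j < pos i)).card : ℝ)
      = ∑ j ∈ F, FC_s pos i j := by
  unfold FC_s
  rw [sum_sub_distrib]
  simp only [sum_boole]

/-- FC -/
theorem p_FC (h1 : T_RANK) (h2 : T_MINJ) : T_FC := by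
  intro V _ _ a pos D K hDg hLow hK hD1 Q J hQJ hQD hQ
  have hA : Adj (sy a) := hDg.adj
  set A := sy a with hAdef
  set F : Finset V := Q ∪ (J \ Q).filter (fun j =>
    (Q.filter (fun z => A j z = 0)).card ≤ (Q.filter (fun z => A j z ≠ 0)).card) with hF
  have hQF : Q ⊆ F := subset_union_left
  have hFJ : F ⊆ J := by
    rw [hF]
    apply union_subset hQJ
    exact (filter_subset _ _).trans sdiff_subset
  -- the cost of a pair
  set c : V → V → ℝ := fun i j => if j ∈ F then (if j = i then 0 else 1 - A i j) else A i j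
    with hc
  have hterm : ∀ i j, |(if j ∈ F then FC_s pos i j else 0) - A i j * FC_s pos i j| ≤ c i j := by
    intro i j
    have hs := FC_abs_s pos i j
    have hA0 := hA.nonneg i j
    have hA1 := hA.le_one i j
    simp only [hc]
    by_cases hj : j ∈ F
    · rw [if_pos hj, if_pos hj]
      by_cases hji : j = i
      · rw [if_pos hji, hji, FC_s_self]
        simp
      · rw [if_neg hji]
        have e : FC_s pos i j - A i j * FC_s pos i j = (1 - A i j) * FC_s pos i j := by ring
        rw [e, abs_mul, abs_of_nonneg (by linarith : 0 ≤ 1 - A i j)]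
        exact mul_le_of_le_one_right (by linarith) hs
    · rw [if_neg hj, if_neg hj, zero_sub, abs_neg, abs_mul, abs_of_nonneg hA0]
      exact mul_le_of_le_one_right hA0 hs
  have hrow : ∀ i, |((F.filter (fun j => pos i < pos j)).card : ℝ)
      - ((F.filter (fun j => pos j < pos i)).card : ℝ)| ≤ |dp a i - dm a i| + ∑ j, c i j := by
    intro i
    rw [FC_card]
    have e1 : dp a i - dm a i = ∑ j, A i j * FC_s pos i j := by
      unfold dp dm
      rw [← sum_sub_distrib]
      exact sum_congr rfl (fun j _ => FC_dd hDg i j)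
    have e2 : ∑ j ∈ F, FC_s pos i j = ∑ j, (if j ∈ F then FC_s pos i j else 0) := by
      rw [sum_ite_mem, univ_inter]
    have e3 : ∑ j ∈ F, FC_s pos i j = (dp a i - dm a i) +
        ∑ j, ((if j ∈ F then FC_s pos i j else 0) - A i j * FC_s pos i j) := by
      rw [sum_sub_distrib, ← e1, ← e2]; ring
    rw [e3]
    refine (abs_add_le _ _).trans ?_
    have e4 := abs_sum_le_sum_abs
      (fun j => (if j ∈ F then FC_s pos i j else 0) - A i j * FC_s pos i j) univ
    have e5 := sum_le_sum (fun j (_ : j ∈ (univ : Finset V)) => hterm i j)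
    linarith
  -- decomposition of the cost
  have hsplit : ∀ i, ∑ j, c i j = ∑ j ∈ Q, c i j + ∑ j ∈ J \ Q, c i j + ∑ j ∈ Jᶜ, c i j := by
    intro i
    rw [← sum_add_sum_compl J (fun j => c i j), ← sum_sdiff hQJ]
    ring
  have hp1 : ∀ i ∈ Q, ∑ j ∈ Q, c i j ≤ 2 * K ^ 2 := by
    intro i hi
    refine le_trans (le_of_eq ?_) (hQ i hi)
    have e1 : ∀ j ∈ Q, c i j = if (j ≠ i ∧ A i j = 0) then 1 else 0 := by
      intro j hj
      simp only [hc]
      rw [if_pos (hQF hj)]
      by_cases hji : j = i
      · rw [if_pos hji, if_neg (fun h => h.1 hji)]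
      · rw [if_neg hji]
        rcases hA.zo i j with e | e
        · rw [if_pos ⟨hji, e⟩, e]; ring
        · rw [if_neg (fun h => by rw [e] at h; exact one_ne_zero h.2), e]; ring
    rw [sum_congr rfl e1, sum_boole]
  have hp3 : ∀ i, ∑ j ∈ Jᶜ, c i j =
      ((univ.filter (fun j => j ∉ J ∧ A i j ≠ 0)).card : ℝ) := by
    intro i
    have e1 : ∀ j ∈ Jᶜ, c i j = if A i j ≠ 0 then 1 else 0 := by
      intro j hj
      rw [mem_compl] at hj
      simp only [hc]
      rw [if_neg (fun h => hj (hFJ h))]
      rcases hA.zo i j with e | e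
      · rw [if_neg (fun h => h e), e]
      · rw [if_pos (by rw [e]; exact one_ne_zero), e]
    rw [sum_congr rfl e1, sum_boole]
    congr 2
    ext j
    simp
  have hp2 : ∑ i ∈ Q, ∑ j ∈ J \ Q, c i j ≤ 8 * K ^ 2 * ∑ j ∈ J, D j := by
    rw [sum_comm, mul_sum]
    refine le_trans ?_ (sum_le_sum_of_subset_of_nonneg (sdiff_subset : J \ Q ⊆ J) ?_)
    · apply sum_le_sum
      intro j hj
      have hjQ : j ∉ Q := (mem_sdiff.1 hj).2
      have hm := h2 V A D K hA hLow hK hD1 Q hQD hQ j hjQ
      by_cases hjF : j ∈ F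
      · have hle : (Q.filter (fun z => A j z = 0)).card ≤ (Q.filter (fun z => A j z ≠ 0)).card := by
          rw [hF, mem_union] at hjF
          rcases hjF with h | h
          · exact absurd h hjQ
          · exact (mem_filter.1 h).2
        have hle' : ((Q.filter (fun z => A j z = 0)).card : ℝ) ≤
            ((Q.filter (fun z => A j z ≠ 0)).card : ℝ) := by exact_mod_cast hle
        rw [min_eq_right hle'] at hm
        refine le_trans (le_of_eq ?_) hm
        have e1 : ∀ i ∈ Q, c i j = if A j i = 0 then 1 else 0 := by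
          intro i hi
          simp only [hc]
          rw [if_pos hjF, if_neg (fun h => hjQ (by rw [h]; exact hi)), hA.sym i j]
          rcases hA.zo j i with e | e
          · rw [if_pos e, e]; ring
          · rw [if_neg (by rw [e]; exact one_ne_zero), e]; ring
        rw [sum_congr rfl e1, sum_boole]
      · have hle : (Q.filter (fun z => A j z ≠ 0)).card ≤ (Q.filter (fun z => A j z = 0)).card := by
          by_contra hcon
          rw [not_le] at hcon
          apply hjF
          rw [hF, mem_union]
          exact Or.inr (mem_filter.2 ⟨hj, hcon.le⟩)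
        have hle' : ((Q.filter (fun z => A j z ≠ 0)).card : ℝ) ≤
            ((Q.filter (fun z => A j z = 0)).card : ℝ) := by exact_mod_cast hle
        rw [min_eq_left hle'] at hm
        refine le_trans (le_of_eq ?_) hm
        have e1 : ∀ i ∈ Q, c i j = if A j i ≠ 0 then 1 else 0 := by
          intro i _
          simp only [hc]
          rw [if_neg hjF, hA.sym i j]
          rcases hA.zo j i with e | e
          · rw [if_neg (fun h => h e), e]
          · rw [if_pos (by rw [e]; exact one_ne_zero), e]
        rw [sum_congr rfl e1, sum_boole]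
    · intro j _ _
      have := hD1 j
      positivity
  -- assembly
  have hR := h1 V pos hDg.inj Q F hQF
  have hS := sum_le_sum (fun i (_ : i ∈ Q) => hrow i)
  rw [sum_add_distrib] at hS
  have hT : ∑ i ∈ Q, ∑ j, c i j = ∑ i ∈ Q, ∑ j ∈ Q, c i j + ∑ i ∈ Q, ∑ j ∈ J \ Q, c i j +
      ∑ i ∈ Q, ((univ.filter (fun j => j ∉ J ∧ A i j ≠ 0)).card : ℝ) := by
    rw [← sum_add_distrib, ← sum_add_distrib]
    apply sum_congr rfl
    intro i _
    rw [hsplit i, hp3 i]
  have hU : ∑ i ∈ Q, ∑ j ∈ Q, c i j ≤ 2 * K ^ 2 * (Q.card : ℝ) := by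
    refine (sum_le_sum hp1).trans (le_of_eq ?_)
    rw [sum_const, nsmul_eq_mul]
    ring
  linarith

end Pool.Agent.HTwo
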