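import Pool.Agent.HTwo.Targets
import Pool.Agent.HLow.ROUND
import Pool.Agent.HLow.RAD
import Pool.Agent.HLow.CLIP
import Pool.Agent.HLow.DUAL
import Pool.Agent.HLow.SPEC

/-!
# HTW-FIN2: conclusion for digraphs without isolated vertices
-/

set_option autoImplicit false

namespace Pool.Agent.HTwo

open Finset Pool.Agent.HLow

/-- the conclusion of DIG for one exponent and one constant -/
def FIN2_Dig (a0 C : ℝ) : Prop :=
  ∀ (V : Type) [Fintype V] [DecidableEq V] (a : V → V → ℝ) (pos : V → ℕ) (D : V → ℝ)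
    (G m γ d K q : ℝ) (R W : ℕ) (c : Finset V), Dg a pos →
  (∀ x : V → ℝ, (∀ v, |x v| ≤ 1) → Dicut.Gf a x ≤ G) → ∑ u, dp a u = m → 0 < m →
  LowD (sy a) D → (∀ u, 1 ≤ D u) → ∑ u, D u ≤ γ → 1 ≤ d → 1 ≤ K →
  (∀ u ∈ c, ((nb (sy a) u).card : ℝ) ≤ 2 * d ∧ D u ≤ 2 * K) →
  0 < ee (sy a) c c → 1 ≤ R → 1 ≤ W → 0 < q →
  16 * (c.card : ℝ) * Real.sqrt (G * m) ≤ ee (sy a) c c * W →
  1024 * d * (c.card : ℝ) * Real.sqrt (G * m) ≤ q * ee (sy a) c c * R →
  32768 * d ^ 2 * G ≤ q ^ 2 * ee (sy a) c c →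
  C * q ≤ (ee (sy a) c c / (16 * (c.card : ℝ))) ^ a0 * (2 * (W : ℝ)) ^ (1 - a0) →
  C * K ^ ((4 * a0 - 3) / (a0 - 1) + 1 / 100)
    ≤ (ee (sy a) c c / (16 * (c.card : ℝ))) ^ a0 * (2 * (W : ℝ)) ^ (1 - a0) →
  C * K ^ 2 * ((W : ℝ) + R) * γ * d ≤ q ^ 2 * ee (sy a) c c → False

lemma FIN2_mono {a0 C C' : ℝ} (h : FIN2_Dig a0 C) (hC : C ≤ C') : FIN2_Dig a0 C' := by
  intro V _ _ a pos D G m γ d K q R W c hDg hG hm hm0 hLow hD1 hDγ hd hK hc hE hR hW hq
    h1 h2 h3 h4 h5 h6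
  have hγ : 0 ≤ γ := le_trans (sum_nonneg fun u _ => by linarith [hD1 u]) hDγ
  have hK0 : 0 ≤ K ^ ((4 * a0 - 3) / (a0 - 1) + 1 / 100) :=
    Real.rpow_nonneg (by linarith) _
  have hK2 : 0 ≤ K ^ 2 * ((W : ℝ) + R) * γ * d := by positivity
  refine h V a pos D G m γ d K q R W c hDg hG hm hm0 hLow hD1 hDγ hd hK hc hE hR hW hq
    h1 h2 h3 (le_trans (mul_le_mul_of_nonneg_right hC hq.le) h4)
    (le_trans (mul_le_mul_of_nonneg_right hC hK0) h5) ?_
  calc C * K ^ 2 * ((W : ℝ) + R) * γ * d = C * (K ^ 2 * ((W : ℝ) + R) * γ * d) := by ring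
    _ ≤ C' * (K ^ 2 * ((W : ℝ) + R) * γ * d) := mul_le_mul_of_nonneg_right hC hK2
    _ = C' * K ^ 2 * ((W : ℝ) + R) * γ * d := by ring
    _ ≤ _ := h6

/-- logarithms against powers -/
lemma FIN2_log (C : ℝ) : ∃ m0 : ℝ, ∀ m : ℝ, m0 ≤ m →
    C * (1 + Real.log m) ^ 5 ≤ m ^ (1 / 3 : ℝ) := by
  have h1 : Filter.Tendsto (fun m : ℝ => (1 + Real.log m)) Filter.atTop Filter.atTop :=
    Filter.tendsto_atTop_add_const_left _ _ Real.tendsto_log_atTop
  have h2 : ∀ᶠ y : ℝ in Filter.atTop, C * y ^ 5 ≤ Real.exp ((y - 1) / 3) := by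
    have h3 : (fun y : ℝ => y ^ 5) =o[Filter.atTop] fun y => Real.exp (1 / 3 * y) :=
      isLittleO_pow_exp_pos_mul_atTop (k := 5) (b := 1 / 3) (by norm_num)
    have hε : 0 < Real.exp (-(1 / 3)) / (|C| + 1) := by positivity
    filter_upwards [h3.bound hε] with y hy
    rw [Real.norm_eq_abs, Real.norm_eq_abs, abs_of_pos (Real.exp_pos _)] at hy
    have h5 : C * y ^ 5 ≤ |C| * |y ^ 5| := by
      rw [← abs_mul]
      exact le_abs_self _
    refine h5.trans ?_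
    have h6 : |C| * |y ^ 5| ≤
        (|C| + 1) * (Real.exp (-(1 / 3)) / (|C| + 1) * Real.exp (1 / 3 * y)) :=
      mul_le_mul (by linarith) hy (abs_nonneg _) (by positivity)
    refine h6.trans (le_of_eq ?_)
    have h7 : (|C| + 1) * (Real.exp (-(1 / 3)) / (|C| + 1) * Real.exp (1 / 3 * y)) =
        Real.exp (-(1 / 3)) * Real.exp (1 / 3 * y) := by
      field_simp
    rw [h7, ← Real.exp_add]
    congr 1
    ring
  have h4 := (h1.eventually h2).and (Filter.eventually_gt_atTop (0 : ℝ))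
  obtain ⟨m0, hm0⟩ := Filter.eventually_atTop.1 h4
  refine ⟨m0, fun m hm => ?_⟩
  obtain ⟨h5, h6⟩ := hm0 m hm
  refine h5.trans (le_of_eq ?_)
  rw [Real.rpow_def_of_pos h6]
  congr 1
  ring

theorem p_FIN2 (h1 : T_CLS) (h2 : T_NUM2) (h3 : T_DIG0) (h4 : T_DIG) : T_FIN2 := by
  classical
  obtain ⟨C1, hC1, hcls⟩ := h1
  obtain ⟨Ca, hCa, ha⟩ := h4 (13 / 10) (1 / 100) (by norm_num) (by norm_num)
  obtain ⟨Cb, hCb, hb⟩ := h4 (3 / 2) (1 / 100) (by norm_num) (by norm_num)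
  obtain ⟨Cc, hCc, hc⟩ := h4 2 (1 / 100) (by norm_num) (by norm_num)
  obtain ⟨Cd, hCd, hd⟩ := h4 3 (1 / 100) (by norm_num) (by norm_num)
  set C : ℝ := max (max 20 C1) (max (max Ca Cb) (max Cc Cd)) with hC
  have hC20 : 20 ≤ C := (le_max_left _ _).trans (le_max_left _ _)
  have hCC1 : C1 ≤ C := (le_max_right _ _).trans (le_max_left _ _)
  have hCCa : Ca ≤ C := ((le_max_left _ _).trans (le_max_left _ _)).trans (le_max_right _ _)
  have hCCb : Cb ≤ C := ((le_max_right _ _).trans (le_max_left _ _)).trans (le_max_right _ _)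
  have hCCc : Cc ≤ C := ((le_max_left _ _).trans (le_max_right _ _)).trans (le_max_right _ _)
  have hCCd : Cd ≤ C := ((le_max_right _ _).trans (le_max_right _ _)).trans (le_max_right _ _)
  have hdig : ∀ a0 : ℝ, (a0 = 13 / 10 ∨ a0 = 3 / 2 ∨ a0 = 2 ∨ a0 = 3) → FIN2_Dig a0 C := by
    rintro a0 (rfl | rfl | rfl | rfl)
    · exact FIN2_mono (fun V _ _ => ha V) hCCa
    · exact FIN2_mono (fun V _ _ => hb V) hCCb
    · exact FIN2_mono (fun V _ _ => hc V) hCCc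
    · exact FIN2_mono (fun V _ _ => hd V) hCCd
  obtain ⟨m1, hm1, hnum⟩ := h2 C (by linarith)
  obtain ⟨m2, hm2⟩ := FIN2_log (20 * C1)
  refine ⟨max m1 m2, le_max_of_le_left hm1, ?_⟩
  intro V _ _ a pos m hDg hdp hm hcard hG
  have hmm1 : m1 ≤ m := (le_max_left _ _).trans hm
  have hmm2 : m2 ≤ m := (le_max_right _ _).trans hm
  have hm1' : 1 ≤ m := hm1.trans hmm1
  have hm0 : 0 < m := by linarith
  have hlog : 0 ≤ Real.log m := Real.log_nonneg hm1'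
  set G : ℝ := m ^ (2 / 3 : ℝ) with hGd
  have hG1 : 1 ≤ G := Real.one_le_rpow hm1' (by norm_num)
  have hG0 : 0 ≤ G := by linarith
  -- rounding and duality
  have hr := p_ROUND p_RAD (p_CLIP p_RAD) V a G m hDg.zo hG hG0 hdp hm1'
  obtain ⟨D0, hD0, hD0s, hD0l⟩ := p_DUAL p_SPEC V (sy a) ((8 * Real.log m + 2) * G + 8)
    hDg.adj.sym (by positivity) hr
  set D : V → ℝ := fun u => max (D0 u) 1 with hDd
  have hDge : ∀ u, D0 u ≤ D u := fun u => le_max_left _ _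
  have hD1 : ∀ u, 1 ≤ D u := fun u => le_max_right _ _
  have hLow : LowD (sy a) D := by
    intro x
    have h5 := hD0l x
    have h6 : ∑ u, D0 u * x u ^ 2 ≤ ∑ u, D u * x u ^ 2 :=
      sum_le_sum fun u _ => mul_le_mul_of_nonneg_right (hDge u) (sq_nonneg _)
    linarith
  set γ : ℝ := 20 * (1 + Real.log m) * G with hγd
  have hγ0 : 0 ≤ γ := by positivity
  have hDγ : ∑ u, D u ≤ γ := by
    have h5 : ∑ u, D u ≤ ∑ u, (D0 u + 1) :=
      sum_le_sum fun u _ => max_le (by linarith) (by linarith [hD0 u])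
    rw [sum_add_distrib, sum_const, card_univ, nsmul_eq_mul, mul_one] at h5
    rw [hγd]
    nlinarith
  have hee : ee (sy a) univ univ = 2 * m := by
    unfold ee
    have h5 : ∑ u, ∑ v, sy a u v = ∑ u, (dp a u + dm a u) := sum_congr rfl fun u _ => sy_deg a u
    rw [h5, sum_add_distrib, hdp]
    have h6 : ∑ u, dm a u = m := by
      rw [← hdp]
      unfold dp dm
      rw [sum_comm]
    rw [h6]; ring
  -- the class
  have hm13 : m ^ (1 / 3 : ℝ) * G = m := by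
    rw [hGd, ← Real.rpow_add hm0]
    norm_num
  have hcl : C1 * (1 + Real.log m) ^ 4 * γ ≤ m := by
    have h5 := hm2 m hmm2
    calc C1 * (1 + Real.log m) ^ 4 * γ = 20 * C1 * (1 + Real.log m) ^ 5 * G := by
          rw [hγd]; ring
      _ ≤ m ^ (1 / 3 : ℝ) * G := mul_le_mul_of_nonneg_right h5 hG0
      _ = m := hm13
  obtain ⟨c, d, K, hd1, hK1, hcc, hmE⟩ := hcls V (sy a) D γ m hDg.adj hLow hD1 hDγ hee hm1' hcl
  set E : ℝ := ee (sy a) c c with hEd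
  have hE0 : 0 < E := by
    by_contra h5
    have h6 : C1 * (1 + Real.log m) ^ 4 * E ≤ 0 :=
      mul_nonpos_of_nonneg_of_nonpos (by positivity) (not_lt.1 h5)
    linarith
  have hn0 : 0 < (c.card : ℝ) := by
    rcases Nat.eq_zero_or_pos c.card with h5 | h5
    · exfalso
      rw [card_eq_zero] at h5
      rw [hEd, h5] at hE0
      simp [ee] at hE0
    · exact_mod_cast h5
  have hKn : K * (c.card : ℝ) ≤ γ := by
    have h5 : ∑ u ∈ c, K ≤ ∑ u ∈ c, D u := sum_le_sum fun u hu => (hcc u hu).2.2.1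
    have h6 : ∑ u ∈ c, D u ≤ ∑ u, D u :=
      sum_le_sum_of_subset_of_nonneg (subset_univ _) fun u _ _ => by linarith [hD1 u]
    rw [sum_const, nsmul_eq_mul] at h5
    linarith
  have hdn : d * (c.card : ℝ) ≤ 2 * m := by
    have h5 : ∑ u ∈ c, d ≤ ∑ u ∈ c, ((nb (sy a) u).card : ℝ) :=
      sum_le_sum fun u hu => (hcc u hu).1
    have h6 : ∑ u ∈ c, ((nb (sy a) u).card : ℝ) ≤ ∑ u, ((nb (sy a) u).card : ℝ) :=
      sum_le_sum_of_subset_of_nonneg (subset_univ _) fun u _ _ => Nat.cast_nonneg _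
    have h7 : ∑ u, ((nb (sy a) u).card : ℝ) = ee (sy a) univ univ :=
      sum_congr rfl fun u _ => (hDg.adj.deg u).symm
    rw [sum_const, nsmul_eq_mul] at h5
    linarith
  have hγC : γ ≤ C * (1 + Real.log m) * m ^ (2 / 3 : ℝ) := by
    rw [hγd]
    refine mul_le_mul_of_nonneg_right ?_ hG0
    exact mul_le_mul_of_nonneg_right hC20 (by linarith)
  have hmE' : m ≤ C * (1 + Real.log m) ^ 4 * E := by
    refine hmE.trans ?_
    refine mul_le_mul_of_nonneg_right ?_ hE0.le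
    exact mul_le_mul_of_nonneg_right hCC1 (by positivity)
  obtain ⟨a0, q, R, W, ha0, hq, hR, hW, g1, g2, g3, g4, g5, g6⟩ :=
    hnum m (c.card : ℝ) γ E d K hmm1 hn0 hK1 hKn hγC hmE' hd1 hdn
      (fun W hW hWE => h3 V a pos G m W c hDg hG hdp hm0 hW hE0 hWE)
  exact hdig a0 ha0 V a pos D G m γ d K q R W c hDg hG hdp hm0 hLow hD1 hDγ hd1 hK1
    (fun u hu => ⟨(hcc u hu).2.1, (hcc u hu).2.2.2⟩) hE0 hR hW hq g1 g2 g3 g4 g5 g6

end Pool.Agent.HTwo
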