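import Mathlib
import Pool.Agent.HTwo.Targets

set_option autoImplicit false

namespace Pool.Agent.HTwo

open Finset Pool.Agent.HLow

lemma FIN3_sum {V : Type} [Fintype V] [DecidableEq V] (U : Finset V) (f : V → ℝ)
    (hf : ∀ u, u ∉ U → f u = 0) : ∑ u : {x // x ∈ U}, f u = ∑ u, f u := by
  rw [Finset.sum_coe_sort U f]
  apply Finset.sum_subset (Finset.subset_univ U)
  intro x _ hx
  exact hf x hx

lemma FIN3_sum2 {V : Type} [Fintype V] [DecidableEq V] (U : Finset V) (g : V → V → ℝ)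
    (hl : ∀ u v, u ∉ U → g u v = 0) (hr : ∀ u v, v ∉ U → g u v = 0) :
    ∑ u : {x // x ∈ U}, ∑ v : {x // x ∈ U}, g u v = ∑ u, ∑ v, g u v := by
  rw [← FIN3_sum U (fun u => ∑ v, g u v) (fun u hu => sum_eq_zero (fun v _ => hl u v hu))]
  exact sum_congr rfl (fun u _ => FIN3_sum U (fun v => g u v) (fun v hv => hr u v hv))

theorem p_FIN3 (h : T_FIN2) : T_FIN3 := by
  obtain ⟨m0, hm0, H⟩ := h
  refine ⟨m0, hm0, ?_⟩
  intro V _ _ a m h01 hm hmm D
  obtain ⟨pos, hp0, _, hp2⟩ := Dicut.exists_pos D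
  have hcard := Dicut.card_UU_le D
  set U := Dicut.UU a with hU
  have hl : ∀ u v, u ∉ U → a u v = 0 := by
    intro u v hu
    by_contra hne
    exact hu (Dicut.mem_UU_left hne)
  have hr : ∀ u v, v ∉ U → a u v = 0 := by
    intro u v hv
    by_contra hne
    exact hv (Dicut.mem_UU_right hne)
  have hDg : Dg (fun u v : {x // x ∈ U} => a u v) (fun u => pos u) :=
    ⟨fun u v => h01 u v, fun u v huv => hp0 u v huv,
      fun u v huv => Subtype.ext (hp2 u u.2 v v.2 huv)⟩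
  have hsum : ∑ u : {x // x ∈ U}, dp (fun u v : {x // x ∈ U} => a u v) u = m := by
    unfold dp
    rw [FIN3_sum2 U a hl hr]
    exact hm
  have hc : (Fintype.card {x // x ∈ U} : ℝ) ≤ 3 * m ^ (2 / 3 : ℝ) := by
    rw [Fintype.card_coe]; exact hcard
  refine H {x // x ∈ U} (fun u v => a u v) (fun u => pos u) m hDg hsum hmm hc ?_
  intro x hx
  have hx' : ∀ v, |(if hv : v ∈ U then x ⟨v, hv⟩ else 0 : ℝ)| ≤ 1 := by
    intro v
    by_cases hv : v ∈ U
    · simp only [hv, dif_pos]; exact hx _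
    · simp only [hv, dif_neg, not_false_iff]; norm_num
  have h1 := D.H (fun v => if hv : v ∈ U then x ⟨v, hv⟩ else 0) hx'
  refine le_trans (le_of_eq ?_) h1
  unfold Dicut.Gf
  rw [← FIN3_sum2 U (fun u v => a u v * ((if hv : u ∈ U then x ⟨u, hv⟩ else 0)
    - (if hv : v ∈ U then x ⟨v, hv⟩ else 0)
    - (if hv : u ∈ U then x ⟨u, hv⟩ else 0) * (if hv : v ∈ U then x ⟨v, hv⟩ else 0)))
    (fun u v hu => by rw [hl u v hu]; ring) (fun u v hv => by rw [hr u v hv]; ring)]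
  refine sum_congr rfl (fun u _ => sum_congr rfl (fun v _ => ?_))
  simp [u.2, v.2]

end Pool.Agent.HTwo
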