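import Pool.Agent.HTwo.Targets
import Pool.Agent.HLow.TR

set_option autoImplicit false

/-!
# HTW, FLAT: many vertices have large diagonal entry
-/

namespace Pool.Agent.HTwo

open Finset Pool.Agent.HLow

lemma FLAT_sq {V : Type} [Fintype V] [DecidableEq V] {A : V → V → ℝ} {K : ℝ}
    {lam : V → ℝ} {v : V → V → ℝ} (hA : Adj A) (hS : Spec A K lam v) (u : V) :
    ∑ i, lam i ^ 2 * v i u ^ 2 = ((nb A u).card : ℝ) := by
  have h1 : ∀ i, lam i ^ 2 * v i u ^ 2 = ∑ w, A u w * (lam i * (v i u * v i w)) := by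
    intro i
    have h2 : ∑ w, A u w * (lam i * (v i u * v i w)) = lam i * v i u * ∑ w, A u w * v i w := by
      rw [mul_sum]
      exact sum_congr rfl fun w _ => by ring
    rw [h2, TR_eig hS u i]
    ring
  rw [sum_congr rfl fun i _ => h1 i, sum_comm, ← hA.deg u]
  refine sum_congr rfl fun w _ => ?_
  rw [← mul_sum, ← hS.dec u w, hA.sq]

theorem p_FLAT : T_FLAT := by
  intro V _ _ A K lam v τ t0 hA hS hτ ht0 hT
  -- `τ lu u ≤ deg u`
  have hdeg : ∀ u, τ * lu lam v τ u ≤ ((nb A u).card : ℝ) := by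
    intro u
    rw [← FLAT_sq hA hS u]
    unfold lu
    rw [mul_sum]
    refine sum_le_sum fun i _ => ?_
    split_ifs with h
    · have h1 : τ * (lam i * v i u ^ 2) ≤ lam i * (lam i * v i u ^ 2) :=
        mul_le_mul_of_nonneg_right h (mul_nonneg (hτ.le.trans h) (sq_nonneg _))
      calc τ * (lam i * v i u ^ 2) ≤ lam i * (lam i * v i u ^ 2) := h1
        _ = lam i ^ 2 * v i u ^ 2 := by ring
    · rw [mul_zero]
      positivity
  -- sum of `lu`
  have hsum : ∑ u, lu lam v τ u = TT lam τ := by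
    unfold lu TT
    rw [sum_comm]
    refine sum_congr rfl fun i _ => ?_
    split_ifs with h
    · rw [← mul_sum]
      have h1 : ∑ u, v i u ^ 2 = 1 := by
        have := TR_one hS i
        rw [← this]
        exact sum_congr rfl fun u _ => by ring
      rw [h1, mul_one]
    · simp
  set U := univ.filter (fun u => t0 ≤ lu lam v τ u) with hU
  have hUsum : t0 * (Fintype.card V : ℝ) ≤ ∑ u ∈ U, lu lam v τ u := by
    have h1 : ∑ u ∈ U, lu lam v τ u + ∑ u ∈ univ.filter (fun u => ¬ t0 ≤ lu lam v τ u),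
        lu lam v τ u = TT lam τ := by
      rw [← hsum]
      exact sum_filter_add_sum_filter_not univ _ _
    have h2 : ∑ u ∈ univ.filter (fun u => ¬ t0 ≤ lu lam v τ u), lu lam v τ u ≤
        t0 * (Fintype.card V : ℝ) := by
      calc ∑ u ∈ univ.filter (fun u => ¬ t0 ≤ lu lam v τ u), lu lam v τ u
          ≤ ∑ u ∈ univ.filter (fun u => ¬ t0 ≤ lu lam v τ u), t0 := by
            refine sum_le_sum fun u hu => ?_
            have := (mem_filter.mp hu).2
            push Not at this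
            exact this.le
        _ = ((univ.filter (fun u => ¬ t0 ≤ lu lam v τ u)).card : ℝ) * t0 := by
            rw [sum_const, nsmul_eq_mul]
        _ ≤ (Fintype.card V : ℝ) * t0 := by
            apply mul_le_mul_of_nonneg_right _ ht0
            exact_mod_cast (card_le_univ _)
        _ = t0 * (Fintype.card V : ℝ) := mul_comm _ _
    linarith
  have hchain : t0 * (Fintype.card V : ℝ) * τ ≤ ∑ u ∈ U, ((nb A u).card : ℝ) := by
    calc t0 * (Fintype.card V : ℝ) * τ ≤ (∑ u ∈ U, lu lam v τ u) * τ :=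
          mul_le_mul_of_nonneg_right hUsum hτ.le
      _ = ∑ u ∈ U, τ * lu lam v τ u := by rw [mul_comm, mul_sum]
      _ ≤ ∑ u ∈ U, ((nb A u).card : ℝ) := sum_le_sum fun u _ => hdeg u
  have h0 : 0 ≤ t0 * (Fintype.card V : ℝ) * τ := by positivity
  calc (Fintype.card V : ℝ) ^ 2 * t0 ^ 2 * τ ^ 2 = (t0 * (Fintype.card V : ℝ) * τ) ^ 2 := by ring
    _ ≤ (∑ u ∈ U, ((nb A u).card : ℝ)) ^ 2 := pow_le_pow_left₀ h0 hchain 2
    _ ≤ (U.card : ℝ) * ∑ u ∈ U, ((nb A u).card : ℝ) ^ 2 := sq_sum_le_card_mul_sum_sq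
    _ ≤ (U.card : ℝ) * ∑ u, ((nb A u).card : ℝ) ^ 2 := by
        apply mul_le_mul_of_nonneg_left _ (Nat.cast_nonneg _)
        exact sum_le_sum_of_subset_of_nonneg (subset_univ _) (fun u _ _ => by positivity)
    _ = _ := mul_comm _ _

end Pool.Agent.HTwo
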