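import Pool.Agent.HTwo.Targets

set_option autoImplicit false

/-!
# HTW, GBD: from [0,1] to [-1,1]
-/

namespace Pool.Agent.HTwo

open Finset Pool.Agent.HLow

theorem p_GBD (hM : T_MAFF) : T_GBD := by
  intro V _ _ A p κ hA hp hT hee g hg
  have h1 := hM V A p κ hA hp hT (fun u => (1 + g u) / 2) (fun u => by
    have := abs_le.mp (hg u)
    constructor <;> linarith)
  have h2 := hM V A p κ hA hp hT (fun u => (1 - g u) / 2) (fun u => by
    have := abs_le.mp (hg u)
    constructor <;> linarith)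
  have h3 : ∑ u, ∑ w, A u w * ((1 + g u) / 2 * ((1 + g w) / 2)) +
      ∑ u, ∑ w, A u w * ((1 - g u) / 2 * ((1 - g w) / 2)) =
      (p * (Fintype.card V : ℝ) ^ 2 + ∑ u, ∑ w, A u w * (g u * g w)) / 2 := by
    rw [← hee]
    unfold ee
    rw [← sum_add_distrib, ← sum_add_distrib, sum_div]
    refine sum_congr rfl fun u _ => ?_
    rw [← sum_add_distrib, ← sum_add_distrib, sum_div]
    exact sum_congr rfl fun w _ => by ring
  have h4 : ∑ u, (1 + g u) / 2 = ((Fintype.card V : ℝ) + ∑ u, g u) / 2 := by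
    rw [← sum_div, sum_add_distrib]
    simp
  have h5 : ∑ u, (1 - g u) / 2 = ((Fintype.card V : ℝ) - ∑ u, g u) / 2 := by
    rw [← sum_div, sum_sub_distrib]
    simp
  rw [h4] at h1
  rw [h5] at h2
  have h6 : p * (((Fintype.card V : ℝ) + ∑ u, g u) / 2) ^ 2 +
      p * (((Fintype.card V : ℝ) - ∑ u, g u) / 2) ^ 2 =
      p * ((Fintype.card V : ℝ) ^ 2 + (∑ u, g u) ^ 2) / 2 := by ring
  linarith

end Pool.Agent.HTwo
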