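import Pool.Agent.HTwo.Targets
import Pool.Agent.HLow.IMB

set_option autoImplicit false

/-!
# GOOD: removal of the vertices with large imbalance or many long arcs
-/

namespace Pool.Agent.HTwo

open Finset Pool.Agent.HLow

lemma GOOD_cpos_mono {V : Type} [Fintype V] [DecidableEq V] (pos : V → ℕ) (c : Finset V)
    {u v : V} (h : pos u ≤ pos v) : cpos pos c u ≤ cpos pos c v := by
  unfold cpos
  refine card_le_card (fun w hw => ?_)
  rw [mem_filter] at hw ⊢
  exact ⟨hw.1, lt_of_lt_of_le hw.2 h⟩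

/-- total length, measured by the underlying graph -/
lemma GOOD_len (hL : T_LENC) {V : Type} [Fintype V] [DecidableEq V] (a : V → V → ℝ)
    (pos : V → ℕ) (G m : ℝ) (hD : Dg a pos)
    (hG : ∀ x : V → ℝ, (∀ v, |x v| ≤ 1) → Dicut.Gf a x ≤ G) (hm : ∑ u, dp a u = m)
    (hm0 : 0 < m) (c : Finset V) :
    ∑ u, ∑ v, sy a u v * |(cpos pos c u : ℝ) - (cpos pos c v : ℝ)|
      ≤ 2 * ((c.card : ℝ) * Real.sqrt (G * m)) := by
  have h1 := hL V a pos G m hD hG hm hm0 c
  have h2 : ∀ u v, a u v * |(cpos pos c u : ℝ) - (cpos pos c v : ℝ)| =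
      a u v * ((cpos pos c v : ℝ) - (cpos pos c u : ℝ)) := by
    intro u v
    by_cases h0 : a u v = 0
    · rw [h0, zero_mul, zero_mul]
    · have h3 := GOOD_cpos_mono pos c (hD.lt u v h0).le
      have h4 : (cpos pos c u : ℝ) ≤ (cpos pos c v : ℝ) := by exact_mod_cast h3
      rw [abs_of_nonpos (by linarith)]
      ring
  have h3 : ∑ u, ∑ v, sy a u v * |(cpos pos c u : ℝ) - (cpos pos c v : ℝ)| =
      2 * ∑ u, ∑ v, a u v * ((cpos pos c v : ℝ) - (cpos pos c u : ℝ)) := by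
    have h5 : ∑ u, ∑ v, a v u * |(cpos pos c u : ℝ) - (cpos pos c v : ℝ)| =
        ∑ u, ∑ v, a u v * ((cpos pos c v : ℝ) - (cpos pos c u : ℝ)) := by
      rw [sum_comm]
      refine sum_congr rfl (fun u _ => sum_congr rfl (fun v _ => ?_))
      rw [abs_sub_comm]
      exact h2 u v
    have h6 : ∑ u, ∑ v, a u v * |(cpos pos c u : ℝ) - (cpos pos c v : ℝ)| =
        ∑ u, ∑ v, a u v * ((cpos pos c v : ℝ) - (cpos pos c u : ℝ)) :=
      sum_congr rfl (fun u _ => sum_congr rfl (fun v _ => h2 u v))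
    unfold sy
    simp only [add_mul, sum_add_distrib]
    rw [h5, h6]
    ring
  rw [h3]
  linarith

/-- pairs lost by the removal of a set -/
lemma GOOD_lost {V : Type} [Fintype V] [DecidableEq V] (A : V → V → ℝ) (hA : Adj A)
    (c B : Finset V) (d : ℝ) (hB : B ⊆ c) (hd : ∀ u ∈ c, ((nb A u).card : ℝ) ≤ 2 * d) :
    ∑ u ∈ c, ∑ v ∈ c, (if u ∈ B then A u v else 0) ≤ (B.card : ℝ) * (2 * d) := by
  have h1 : ∑ u ∈ c, ∑ v ∈ c, (if u ∈ B then A u v else 0) = ∑ u ∈ B, ∑ v ∈ c, A u v := by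
    have h2 : ∀ u ∈ c, ∑ v ∈ c, (if u ∈ B then A u v else 0) =
        if u ∈ B then ∑ v ∈ c, A u v else 0 := by
      intro u _
      split_ifs <;> simp
    rw [sum_congr rfl h2, ← sum_filter]
    congr 1
    ext u
    rw [mem_filter]
    exact ⟨fun h => h.2, fun h => ⟨hB h, h⟩⟩
  rw [h1, ← nsmul_eq_mul]
  refine sum_le_card_nsmul _ _ _ (fun u hu => ?_)
  calc ∑ v ∈ c, A u v ≤ ∑ v, A u v :=
        sum_le_sum_of_subset_of_nonneg (subset_univ _) (fun v _ _ => hA.nonneg u v)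
    _ = ((nb A u).card : ℝ) := hA.deg u
    _ ≤ 2 * d := hd u (hB hu)

lemma GOOD_lost' {V : Type} [Fintype V] [DecidableEq V] (A : V → V → ℝ) (hA : Adj A)
    (c B : Finset V) (d : ℝ) (hB : B ⊆ c) (hd : ∀ u ∈ c, ((nb A u).card : ℝ) ≤ 2 * d) :
    ∑ u ∈ c, ∑ v ∈ c, (if v ∈ B then A u v else 0) ≤ (B.card : ℝ) * (2 * d) := by
  rw [sum_comm]
  refine le_trans (le_of_eq ?_) (GOOD_lost A hA c B d hB hd)
  refine sum_congr rfl (fun u _ => sum_congr rfl (fun v _ => ?_))
  rw [hA.sym]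

/-- vertices with many long arcs -/
lemma GOOD_B1 {V : Type} [Fintype V] [DecidableEq V] (A : V → V → ℝ) (hA : Adj A)
    (cp : V → ℕ) (R : ℕ) (B : Finset V) (s S : ℝ)
    (hS : ∑ u, ∑ v, A u v * |(cp u : ℝ) - (cp v : ℝ)| ≤ S)
    (hB : ∀ u ∈ B, s ≤ (long A cp R u : ℝ)) :
    (B.card : ℝ) * (R * s) ≤ S := by
  have h0 : ∀ u v, 0 ≤ A u v * |(cp u : ℝ) - (cp v : ℝ)| :=
    fun u v => mul_nonneg (hA.nonneg u v) (abs_nonneg _)
  refine le_trans ?_ hS
  have h1 : ∀ u ∈ B, (R : ℝ) * s ≤ ∑ v, A u v * |(cp u : ℝ) - (cp v : ℝ)| := by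
    intro u hu
    have h2 : (R : ℝ) * (long A cp R u : ℝ) ≤ ∑ v, A u v * |(cp u : ℝ) - (cp v : ℝ)| := by
      have h3 : ∑ v ∈ univ.filter (fun j => A u j ≠ 0 ∧ (R : ℝ) ≤ |(cp u : ℝ) - (cp j : ℝ)|),
          (R : ℝ) ≤ ∑ v, A u v * |(cp u : ℝ) - (cp v : ℝ)| := by
        refine le_trans (sum_le_sum (fun v hv => ?_))
          (sum_le_sum_of_subset_of_nonneg (filter_subset _ _) (fun v _ _ => h0 u v))
        rw [mem_filter] at hv
        rw [(hA.zo u v).resolve_left hv.2.1, one_mul]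
        exact hv.2.2
      rw [sum_const, nsmul_eq_mul] at h3
      unfold long
      rw [mul_comm]
      exact h3
    exact le_trans (mul_le_mul_of_nonneg_left (hB u hu) (Nat.cast_nonneg _)) h2
  have h2 : (B.card : ℝ) * (R * s) ≤ ∑ u ∈ B, ∑ v, A u v * |(cp u : ℝ) - (cp v : ℝ)| := by
    rw [← nsmul_eq_mul]
    exact card_nsmul_le_sum _ _ _ h1
  exact le_trans h2 (sum_le_sum_of_subset_of_nonneg (subset_univ _)
    (fun u _ _ => sum_nonneg (fun v _ => h0 u v)))

/-- far pairs -/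
lemma GOOD_far {V : Type} [Fintype V] [DecidableEq V] (A : V → V → ℝ) (hA : Adj A)
    (cp : V → ℕ) (W : ℕ) (c : Finset V) (S : ℝ)
    (hS : ∑ u, ∑ v, A u v * |(cp u : ℝ) - (cp v : ℝ)| ≤ S) :
    (∑ u ∈ c, ∑ v ∈ c, (if (W : ℝ) ≤ |(cp u : ℝ) - (cp v : ℝ)| then A u v else 0)) * W ≤ S := by
  have h0 : ∀ u v, 0 ≤ A u v * |(cp u : ℝ) - (cp v : ℝ)| :=
    fun u v => mul_nonneg (hA.nonneg u v) (abs_nonneg _)
  refine le_trans ?_ hS
  rw [sum_mul]
  refine le_trans (sum_le_sum (fun u _ => ?_)) (sum_le_sum_of_subset_of_nonneg (subset_univ c)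
    (fun u _ _ => sum_nonneg (fun v _ => h0 u v)))
  rw [sum_mul]
  refine le_trans (sum_le_sum (fun v _ => ?_)) (sum_le_sum_of_subset_of_nonneg (subset_univ c)
    (fun v _ _ => h0 u v))
  split_ifs with h
  · exact mul_le_mul_of_nonneg_left h (hA.nonneg u v)
  · rw [zero_mul]
    exact h0 u v

theorem p_GOOD : T_LENC → T_GOOD := by
  intro hL V _ _ a pos G m d q R W c hD hG hm hm0 hd hq hR hW hdeg hw1 hw2 hw3
  classical
  have hA := hD.adj
  set Lg : ℝ := (c.card : ℝ) * Real.sqrt (G * m) with hLg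
  have hLg0 : 0 ≤ Lg := by positivity
  have hS := GOOD_len hL a pos G m hD hG hm hm0 c
  rw [← hLg] at hS
  set E : ℝ := ee (sy a) c c with hE
  have hE0 : 0 ≤ E := ee_nonneg hA c c
  set B1 : Finset V := c.filter (fun u => q / 16 < (long (sy a) (cpos pos c) R u : ℝ)) with hB1
  set B2 : Finset V := c.filter (fun u => q / 16 < |dp a u - dm a u|) with hB2
  have hRpos : (0 : ℝ) < R := by exact_mod_cast hR
  have hWpos : (0 : ℝ) < W := by exact_mod_cast hW
  -- bound of B1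
  have b1 : (B1.card : ℝ) * (R * (q / 16)) ≤ 2 * Lg := by
    refine GOOD_B1 (sy a) hA (cpos pos c) R B1 (q / 16) _ hS (fun u hu => ?_)
    rw [hB1, mem_filter] at hu
    exact hu.2.le
  -- bound of B2
  have b2 : (B2.card : ℝ) * (q / 16) ^ 2 ≤ 2 * (2 * d) * G := by
    have h1 := p_IMB V a G (2 * d) hD.zo hG (by linarith)
    refine le_trans ?_ h1
    have h2 : (B2.card : ℝ) * (q / 16) ^ 2 ≤ ∑ u ∈ B2, (dp a u - dm a u) ^ 2 := by
      rw [← nsmul_eq_mul]
      refine card_nsmul_le_sum _ _ _ (fun u hu => ?_)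
      rw [hB2, mem_filter] at hu
      rw [← sq_abs (dp a u - dm a u)]
      have : 0 ≤ q / 16 := by positivity
      exact pow_le_pow_left₀ this hu.2.le 2
    refine le_trans h2 (sum_le_sum_of_subset_of_nonneg (fun u hu => ?_)
      (fun u _ _ => sq_nonneg _))
    rw [hB2, mem_filter] at hu
    rw [mem_filter]
    refine ⟨mem_univ _, ?_⟩
    rw [← sy_deg, hA.deg]
    exact hdeg u hu.1
  have hfar := GOOD_far (sy a) hA (cpos pos c) W c _ hS
  set F : ℝ := ∑ u ∈ c, ∑ v ∈ c, (if (W : ℝ) ≤ |(cpos pos c u : ℝ) - (cpos pos c v : ℝ)|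
    then sy a u v else 0) with hF
  have f1 : F ≤ E / 8 := by
    have h1 : F * W ≤ E / 8 * W := by nlinarith
    exact le_of_mul_le_mul_right h1 hWpos
  have f2 : (B1.card : ℝ) * (2 * d) ≤ E / 16 := by
    have h1 : (B1.card : ℝ) * (2 * d) * (R * (q / 16)) ≤ E / 16 * (R * (q / 16)) := by
      have h2 : (B1.card : ℝ) * (R * (q / 16)) * (2 * d) ≤ 2 * Lg * (2 * d) :=
        mul_le_mul_of_nonneg_right b1 (by linarith)
      nlinarith
    exact le_of_mul_le_mul_right h1 (by positivity)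
  have f3 : (B2.card : ℝ) * (2 * d) ≤ E / 16 := by
    have h1 : (B2.card : ℝ) * (2 * d) * (q / 16) ^ 2 ≤ E / 16 * (q / 16) ^ 2 := by
      have h2 : (B2.card : ℝ) * (q / 16) ^ 2 * (2 * d) ≤ 2 * (2 * d) * G * (2 * d) :=
        mul_le_mul_of_nonneg_right b2 (by linarith)
      nlinarith
    exact le_of_mul_le_mul_right h1 (by positivity)
  have g1 := GOOD_lost (sy a) hA c B1 d (filter_subset _ _) hdeg
  have g1' := GOOD_lost' (sy a) hA c B1 d (filter_subset _ _) hdeg
  have g2 := GOOD_lost (sy a) hA c B2 d (filter_subset _ _) hdeg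
  have g2' := GOOD_lost' (sy a) hA c B2 d (filter_subset _ _) hdeg
  refine ⟨c.filter (fun u => u ∉ B1 ∧ u ∉ B2), filter_subset _ _, ?_, ?_, ?_⟩
  · intro u hu
    rw [mem_filter] at hu
    by_contra hcon
    push Not at hcon
    exact hu.2.2 (by rw [hB2, mem_filter]; exact ⟨hu.1, hcon⟩)
  · intro u hu
    rw [mem_filter] at hu
    by_contra hcon
    push Not at hcon
    exact hu.2.1 (by rw [hB1, mem_filter]; exact ⟨hu.1, hcon⟩)
  · have key : E ≤ ∑ u ∈ c.filter (fun u => u ∉ B1 ∧ u ∉ B2),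
        ∑ v ∈ c.filter (fun u => u ∉ B1 ∧ u ∉ B2),
        (if |(cpos pos c u : ℝ) - (cpos pos c v : ℝ)| < W then sy a u v else 0) +
        F + ∑ u ∈ c, ∑ v ∈ c, (if u ∈ B1 then sy a u v else 0) +
        ∑ u ∈ c, ∑ v ∈ c, (if v ∈ B1 then sy a u v else 0) +
        ∑ u ∈ c, ∑ v ∈ c, (if u ∈ B2 then sy a u v else 0) +
        ∑ u ∈ c, ∑ v ∈ c, (if v ∈ B2 then sy a u v else 0) := by
      rw [hE, hF]
      unfold ee
      simp only [sum_filter]
      rw [← sum_add_distrib, ← sum_add_distrib, ← sum_add_distrib, ← sum_add_distrib,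
        ← sum_add_distrib]
      refine sum_le_sum (fun u _ => ?_)
      have hs : ∀ v, 0 ≤ sy a u v := fun v => hA.nonneg u v
      by_cases hu : u ∉ B1 ∧ u ∉ B2
      · rw [if_pos hu]
        rw [← sum_add_distrib, ← sum_add_distrib, ← sum_add_distrib, ← sum_add_distrib,
          ← sum_add_distrib]
        refine sum_le_sum (fun v _ => ?_)
        have hsv := hs v
        rw [if_neg hu.1, if_neg hu.2]
        by_cases hv1 : v ∈ B1
        · rw [if_pos hv1, if_neg (by tauto)]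
          split_ifs <;> linarith
        · by_cases hv2 : v ∈ B2
          · rw [if_pos hv2, if_neg (by tauto)]
            split_ifs <;> linarith
          · rw [if_pos ⟨hv1, hv2⟩]
            rcases lt_or_ge |(cpos pos c u : ℝ) - (cpos pos c v : ℝ)| (W : ℝ) with h | h
            · rw [if_pos h]
              split_ifs <;> linarith
            · rw [if_neg (not_lt.mpr h), if_pos h]
              split_ifs; linarith
      · rw [if_neg hu, zero_add]
        rw [← sum_add_distrib, ← sum_add_distrib, ← sum_add_distrib, ← sum_add_distrib]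
        refine sum_le_sum (fun v _ => ?_)
        have hsv := hs v
        have hor : u ∈ B1 ∨ u ∈ B2 := by tauto
        rcases hor with h | h
        · rw [if_pos h]
          split_ifs <;> linarith
        · rw [if_pos h]
          split_ifs <;> linarith
    linarith

end Pool.Agent.HTwo
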