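import Pool.Agent.HTwo.Targets
import Pool.Agent.HLow.ONB
import Pool.Agent.HLow.KEY

set_option autoImplicit false

/-!
# HTW, INIT: trace inequality
-/

namespace Pool.Agent.HTwo

open Finset Pool.Agent.HLow

lemma INIT_quad {V : Type} [Fintype V] [DecidableEq V] {A : V → V → ℝ} {K : ℝ}
    {lam : V → ℝ} {v : V → V → ℝ} (hS : Spec A K lam v) (x : V → ℝ) :
    ∑ u, ∑ w, A u w * (x u * x w) = ∑ i, lam i * (∑ u, x u * v i u) ^ 2 := by
  rw [KEY_q]
  exact sum_congr rfl fun u _ => sum_congr rfl fun w _ => by rw [← hS.dec u w]; ring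

lemma INIT_pars {V : Type} [Fintype V] [DecidableEq V] {A : V → V → ℝ} {K : ℝ}
    {lam : V → ℝ} {v : V → V → ℝ} (hS : Spec A K lam v) (x : V → ℝ) :
    ∑ i, (∑ u, x u * v i u) ^ 2 = ∑ u, x u ^ 2 := by
  have h1 := KEY_q (fun _ => (1 : ℝ)) v x
  simp only [one_mul] at h1
  rw [h1]
  refine sum_congr rfl fun u _ => ?_
  have h3 : ∀ w, x u * x w * ∑ i, v i u * v i w = if u = w then x u ^ 2 else 0 := by
    intro w
    rw [hS.col u w]
    split_ifs with huw
    · subst huw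
      ring
    · ring
  rw [sum_congr rfl fun w _ => h3 w]
  simp

theorem p_INIT (hKF : T_KF) : T_INIT := by
  intro V _ _ A K lam v r g hA hS hK hg
  obtain ⟨r', f, hr', hf1, hf2, hf3⟩ := p_ONB V (Fin r) g
  rw [Fintype.card_fin] at hr'
  set ω : V → ℝ := fun l => ∑ s, (∑ u, f s u * v l u) ^ 2 with hω
  have hrow : ∀ l, ∑ u, v l u ^ 2 = 1 := by
    intro l
    have h1 := hS.row l l
    rw [if_pos rfl] at h1
    rw [← h1]
    exact sum_congr rfl fun u _ => by ring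
  have hω01 : ∀ l, 0 ≤ ω l ∧ ω l ≤ 1 := by
    intro l
    refine ⟨sum_nonneg fun s _ => sq_nonneg _, ?_⟩
    have h1 := hf3 (v l)
    rw [hrow l] at h1
    exact h1
  have hωs : ∑ l, ω l = (r' : ℝ) := by
    rw [hω, sum_comm]
    have h1 : ∀ s : Fin r', ∑ l, (∑ u, f s u * v l u) ^ 2 = 1 := by
      intro s
      rw [INIT_pars hS (f s), hf1 s]
    rw [sum_congr rfl fun s _ => h1 s]
    simp
  obtain ⟨I, hI1, hI2, hI3⟩ := hKF V lam ω r hω01 (by
    rw [hωs]
    exact_mod_cast hr')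
  refine ⟨I, hI1, hI2, ?_⟩
  have h1 : ∑ k : Fin r, ∑ u, g k u ^ 2 = ∑ s : Fin r', ∑ k : Fin r, (∑ u, g k u * f s u) ^ 2 := by
    rw [sum_comm (s := (univ : Finset (Fin r'))) (t := (univ : Finset (Fin r)))]
    refine sum_congr rfl fun k _ => ?_
    rw [← hf2 k]
    have e : ∀ s : Fin r', ∑ u, f s u * g k u = ∑ u, g k u * f s u :=
      fun s => sum_congr rfl fun u _ => mul_comm _ _
    exact sum_congr rfl fun s _ => by rw [e s]
  have h2 : ∀ s : Fin r', ∑ k : Fin r, (∑ u, g k u * f s u) ^ 2 ≤ ∑ l, lam l * (∑ u, f s u * v l u) ^ 2 + K := by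
    intro s
    have h3 := hg (f s)
    rw [hf1 s, mul_one, INIT_quad hS (f s)] at h3
    exact h3
  have h3 : ∑ k, ∑ u, g k u ^ 2 ≤ ∑ l, lam l * ω l + K * r' := by
    rw [h1]
    calc ∑ s, ∑ k, (∑ u, g k u * f s u) ^ 2
        ≤ ∑ s : Fin r', (∑ l, lam l * (∑ u, f s u * v l u) ^ 2 + K) :=
          sum_le_sum fun s _ => h2 s
      _ = ∑ l, lam l * ω l + K * r' := by
          rw [sum_add_distrib, sum_const, card_univ, Fintype.card_fin, nsmul_eq_mul, sum_comm,
            mul_comm (r' : ℝ) K]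
          congr 1
          exact sum_congr rfl fun l _ => by rw [hω, mul_sum]
  have h4 : K * (r' : ℝ) ≤ K * r :=
    mul_le_mul_of_nonneg_left (by exact_mod_cast hr') (by linarith)
  linarith

end Pool.Agent.HTwo
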