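import Pool.Agent.HTwo.Targets

set_option autoImplicit false

/-!
# HTW, KF: Ky Fan inequality for a sequence
-/

namespace Pool.Agent.HTwo

open Finset Pool.Agent.HLow

theorem p_KF : T_KF := by
  intro V _ _ lam ω s hω hs
  set P : Finset V := univ.filter (fun i => 0 ≤ lam i) with hP
  rcases le_or_gt P.card s with hcard | hcard
  · refine ⟨P, hcard, fun i hi => (mem_filter.mp hi).2, ?_⟩
    rw [← sum_filter_add_sum_filter_not univ (fun i => 0 ≤ lam i) (fun i => lam i * ω i)]
    have h1 : ∑ i ∈ univ.filter (fun i => 0 ≤ lam i), lam i * ω i ≤ ∑ i ∈ P, lam i :=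
      sum_le_sum fun i hi => mul_le_of_le_one_right (mem_filter.mp hi).2 (hω i).2
    have h2 : ∑ i ∈ univ.filter (fun i => ¬ 0 ≤ lam i), lam i * ω i ≤ 0 := by
      refine sum_nonpos fun i hi => ?_
      have := (mem_filter.mp hi).2
      push Not at this
      exact mul_nonpos_of_nonpos_of_nonneg this.le (hω i).1
    linarith
  · obtain ⟨I, hI, hmax⟩ := exists_max_image (powersetCard s P) (fun I => ∑ i ∈ I, lam i)
      (powersetCard_nonempty.mpr hcard.le)
    obtain ⟨hIP, hIc⟩ := mem_powersetCard.mp hI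
    have hI0 : ∀ i ∈ I, 0 ≤ lam i := fun i hi => (mem_filter.mp (hIP hi)).2
    refine ⟨I, hIc.le, hI0, ?_⟩
    rcases Nat.eq_zero_or_pos s with h0 | hpos
    · have hω0 : ∀ i, ω i = 0 := by
        have h1 : ∑ i, ω i = 0 := by
          apply le_antisymm
          · rw [h0, Nat.cast_zero] at hs
            exact hs
          · exact sum_nonneg fun i _ => (hω i).1
        intro i
        exact (sum_eq_zero_iff_of_nonneg (fun i _ => (hω i).1)).mp h1 i (mem_univ i)
      have h2 : ∑ i, lam i * ω i = 0 := sum_eq_zero fun i _ => by rw [hω0 i, mul_zero]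
      rw [h2]
      exact sum_nonneg hI0
    · have hne : I.Nonempty := by
        rw [← card_pos, hIc]
        exact hpos
      obtain ⟨i0, hi0, hmin⟩ := exists_min_image I lam hne
      have hout : ∀ j, j ∉ I → lam j ≤ lam i0 := by
        intro j hj
        by_cases hjP : 0 ≤ lam j
        · by_contra hcon
          push Not at hcon
          have hjP' : j ∈ P := mem_filter.mpr ⟨mem_univ j, hjP⟩
          have hje : j ∉ I.erase i0 := fun h => hj (mem_of_mem_erase h)
          have hI' : insert j (I.erase i0) ∈ powersetCard s P := by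
            rw [mem_powersetCard]
            constructor
            · intro x hx
              rcases mem_insert.mp hx with h | h
              · rw [h]; exact hjP'
              · exact hIP (mem_of_mem_erase h)
            · rw [card_insert_of_notMem hje, card_erase_of_mem hi0, hIc]
              omega
          have h1 := hmax _ hI'
          rw [sum_insert hje] at h1
          have h2 : ∑ i ∈ I.erase i0, lam i + lam i0 = ∑ i ∈ I, lam i := sum_erase_add _ _ hi0
          linarith
        · push Not at hjP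
          exact hjP.le.trans (hI0 i0 hi0)
      have hθ : 0 ≤ lam i0 := hI0 i0 hi0
      have h1 : ∑ i, lam i * ω i = ∑ i ∈ I, lam i * ω i + ∑ i ∈ Iᶜ, lam i * ω i :=
        (sum_add_sum_compl I _).symm
      have h2 : ∑ i ∈ Iᶜ, lam i * ω i ≤ lam i0 * ∑ i ∈ Iᶜ, ω i := by
        rw [mul_sum]
        exact sum_le_sum fun i hi =>
          mul_le_mul_of_nonneg_right (hout i (mem_compl.mp hi)) (hω i).1
      have h3 : ∑ i ∈ I, ω i + ∑ i ∈ Iᶜ, ω i = ∑ i, ω i := sum_add_sum_compl I _
      have h4 : lam i0 * ∑ i ∈ Iᶜ, ω i ≤ lam i0 * ((s : ℝ) - ∑ i ∈ I, ω i) :=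
        mul_le_mul_of_nonneg_left (by linarith) hθ
      have h5 : lam i0 * ((s : ℝ) - ∑ i ∈ I, ω i) = ∑ i ∈ I, lam i0 * (1 - ω i) := by
        rw [← mul_sum, sum_sub_distrib, sum_const, hIc, nsmul_eq_mul, mul_one]
      have h6 : ∑ i ∈ I, lam i0 * (1 - ω i) ≤ ∑ i ∈ I, lam i * (1 - ω i) :=
        sum_le_sum fun i hi => mul_le_mul_of_nonneg_right (hmin i hi) (by linarith [(hω i).2])
      have h7 : ∑ i ∈ I, lam i * (1 - ω i) = ∑ i ∈ I, lam i - ∑ i ∈ I, lam i * ω i := by
        rw [← sum_sub_distrib]
        exact sum_congr rfl fun i _ => by ring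
      linarith

end Pool.Agent.HTwo
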