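import Mathlib
import Pool.Agent.HTwo.Targets

set_option autoImplicit false

namespace Pool.Agent.HTwo

open Finset Pool.Agent.HLow

variable {V : Type} [Fintype V] [DecidableEq V]

/-- arcs over the position `p` -/
noncomputable def LENC_cut (a : V → V → ℝ) (pos : V → ℕ) (p : ℕ) : ℝ :=
  ∑ u, ∑ v, (if pos u ≤ p ∧ p < pos v then a u v else 0)

omit [DecidableEq V] in
lemma LENC_sq {a : V → V → ℝ} {pos : V → ℕ} {G m : ℝ} (hD : Dg a pos)
    (hG : ∀ x : V → ℝ, (∀ v, |x v| ≤ 1) → Dicut.Gf a x ≤ G) (hm : ∑ u, dp a u = m) (hm0 : 0 < m)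
    (p : ℕ) : LENC_cut a pos p ^ 2 ≤ G * m := by
  have hnn : ∀ u v, 0 ≤ a u v := by
    intro u v
    rcases hD.zo u v with h | h
    · rw [h]
    · rw [h]; norm_num
  have hm' : ∑ u, ∑ v, a u v = m := hm
  obtain ⟨c, hc⟩ : ∃ c, c = LENC_cut a pos p := ⟨_, rfl⟩
  rw [← hc]
  have hc' : c = ∑ u, ∑ v, (if pos u ≤ p ∧ p < pos v then a u v else 0) := hc
  have hc0 : 0 ≤ c := by
    rw [hc']
    refine sum_nonneg fun u _ => sum_nonneg fun v _ => ?_
    split_ifs
    · exact hnn _ _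
    · exact le_refl _
  have hcw : c ≤ m := by
    rw [hc', ← hm']
    refine sum_le_sum fun u _ => sum_le_sum fun v _ => ?_
    split_ifs
    · exact le_refl _
    · exact hnn _ _
  obtain ⟨ε, hε⟩ : ∃ ε, ε = c / m := ⟨_, rfl⟩
  have hε0 : 0 ≤ ε := by rw [hε]; exact div_nonneg hc0 hm0.le
  have hε1 : ε ≤ 1 := by rw [hε]; exact (div_le_one hm0).mpr hcw
  have hH := hG (fun u => if pos u ≤ p then ε else -ε) (by
    intro v
    show |(if pos v ≤ p then ε else -ε)| ≤ 1
    split_ifs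
    · rw [abs_of_nonneg hε0]; exact hε1
    · rw [abs_neg, abs_of_nonneg hε0]; exact hε1)
  have hlow : 2 * ε * c - ε ^ 2 * m ≤ Dicut.Gf a (fun u => if pos u ≤ p then ε else -ε) := by
    unfold Dicut.Gf
    rw [hc', ← hm', mul_sum, mul_sum, ← sum_sub_distrib]
    refine sum_le_sum fun u _ => ?_
    rw [mul_sum, mul_sum, ← sum_sub_distrib]
    refine sum_le_sum fun v _ => ?_
    have ha := hnn u v
    by_cases h0 : a u v = 0
    · rw [h0]; simp
    · have hlt := hD.lt u v h0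
      by_cases h1 : pos u ≤ p
      · by_cases h2 : pos v ≤ p
        · rw [if_neg (by omega)]
          simp only [h1, h2, if_true]
          nlinarith
        · rw [if_pos ⟨h1, by omega⟩]
          simp only [h1, h2, if_true, if_false]
          nlinarith [mul_nonneg ha (sq_nonneg ε)]
      · have h2 : ¬ pos v ≤ p := by omega
        rw [if_neg (by omega)]
        simp only [h1, h2, if_false]
        nlinarith
  have h1 : 2 * ε * c - ε ^ 2 * m = c ^ 2 / m := by
    rw [hε]; field_simp; ring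
  rw [h1] at hlow
  have h2 : c ^ 2 / m ≤ G := le_trans hlow hH
  rwa [div_le_iff₀ hm0] at h2

omit [DecidableEq V] in
lemma LENC_le {a : V → V → ℝ} {pos : V → ℕ} {G m : ℝ} (hD : Dg a pos)
    (hG : ∀ x : V → ℝ, (∀ v, |x v| ≤ 1) → Dicut.Gf a x ≤ G) (hm : ∑ u, dp a u = m) (hm0 : 0 < m)
    (p : ℕ) : LENC_cut a pos p ≤ Real.sqrt (G * m) :=
  Real.le_sqrt_of_sq_le (LENC_sq hD hG hm hm0 p)

omit [Fintype V] [DecidableEq V] in
lemma LENC_pos (pos : V → ℕ) (c : Finset V) (u v : V) (h : pos u ≤ pos v) :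
    (cpos pos c v : ℝ) - (cpos pos c u : ℝ)
      = ∑ w ∈ c, (if pos u ≤ pos w ∧ pos w < pos v then (1 : ℝ) else 0) := by
  unfold cpos
  rw [card_filter, card_filter]
  push_cast
  rw [← sum_sub_distrib]
  refine sum_congr rfl fun w _ => ?_
  by_cases h1 : pos w < pos u
  · rw [if_pos (lt_of_lt_of_le h1 h), if_pos h1, if_neg (by omega)]
    norm_num
  · by_cases h2 : pos w < pos v
    · rw [if_pos h2, if_neg h1, if_pos ⟨by omega, h2⟩]
      norm_num
    · rw [if_neg h2, if_neg h1, if_neg (by omega)]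
      norm_num

theorem p_LENC : T_LENC := by
  intro V _ _ a pos G m hD hG hm hm0 c
  have e0 : ∑ u, ∑ v, a u v * ((cpos pos c v : ℝ) - (cpos pos c u : ℝ))
      = ∑ u, ∑ v, ∑ w ∈ c, (if pos u ≤ pos w ∧ pos w < pos v then a u v else 0) := by
    refine sum_congr rfl fun u _ => sum_congr rfl fun v _ => ?_
    by_cases h0 : a u v = 0
    · rw [h0]
      simp
    · rw [LENC_pos pos c u v (hD.lt u v h0).le, mul_sum]
      refine sum_congr rfl fun w _ => ?_
      split_ifs <;> ring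
  have e1 : ∑ u, ∑ v, a u v * ((cpos pos c v : ℝ) - (cpos pos c u : ℝ))
      = ∑ w ∈ c, LENC_cut a pos (pos w) := by
    rw [e0]
    unfold LENC_cut
    symm
    rw [sum_comm]
    refine sum_congr rfl fun u _ => ?_
    rw [sum_comm]
  rw [e1]
  calc ∑ w ∈ c, LENC_cut a pos (pos w) ≤ ∑ w ∈ c, Real.sqrt (G * m) :=
        sum_le_sum fun w _ => LENC_le hD hG hm hm0 _
    _ = (c.card : ℝ) * Real.sqrt (G * m) := by rw [sum_const, nsmul_eq_mul]

end Pool.Agent.HTwo
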