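import Pool.Agent.HTwo.Targets

set_option autoImplicit false

namespace Pool.Agent.HTwo

open Finset Pool.Agent.HLow

/-- LVL. -/
theorem p_LVL : T_LVL := by
  intro δ hδ hδ2
  set r : ℝ := (2 : ℝ) ^ (-δ) with hr
  have hr0 : 0 < r := Real.rpow_pos_of_pos (by norm_num) _
  have hr1 : r < 1 := Real.rpow_lt_one_of_one_lt_of_neg (by norm_num) (by linarith)
  have hri : ∀ i : ℕ, (2 : ℝ) ^ (-(δ * i)) = r ^ i := by
    intro i
    rw [hr, ← Real.rpow_natCast, ← Real.rpow_mul (by norm_num)]
    congr 1
    ring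
  refine ⟨(1 - r) / 4, by linarith, by linarith, ?_⟩
  intro V _ _ lam K p hV hK hp hlow hsum hsq hKp
  set N : ℝ := (Fintype.card V : ℝ) with hN
  have hN1 : 1 ≤ N := by
    rw [hN]
    exact_mod_cast hV
  have hN0 : 0 < N := by linarith
  set q : ℝ := p * N with hq
  have hq0 : 0 < q := by positivity
  set P2 : ℝ := p * N ^ 2 with hP2
  have hP20 : 0 < P2 := by positivity
  have hqN : q * N = P2 := by rw [hq, hP2]; ring
  -- cumulated mass
  set m : ℕ → ℝ := fun i => ∑ j, (if q / 2 ^ i ≤ lam j then lam j ^ 2 else 0) with hm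
  set L : ℕ → ℝ := fun i => Nat.casesOn i (m 0) (fun k => m (k + 1) - m k) with hL
  have hLs : ∀ n, ∑ i ∈ range (n + 1), L i = m n := by
    intro n
    induction n with
    | zero => simp [hL]
    | succ n ih =>
      rw [sum_range_succ, ih]
      simp only [hL]
      ring
  -- claim A
  have hA : ∃ i, (1 - r) / 2 * r ^ i * P2 ≤ L i := by
    by_contra hcon
    push Not at hcon
    obtain ⟨i0, hi0⟩ := pow_unbounded_of_one_lt (8 * K) (by norm_num : (1 : ℝ) < 2)
    have h1 : m i0 ≤ P2 / 2 := by
      rw [← hLs i0]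
      have h2 : ∑ i ∈ range (i0 + 1), L i ≤ ∑ i ∈ range (i0 + 1), (1 - r) / 2 * r ^ i * P2 :=
        sum_le_sum fun i _ => (hcon i).le
      have h3 : ∑ i ∈ range (i0 + 1), (1 - r) / 2 * r ^ i * P2 =
          P2 / 2 * ((1 - r) * ∑ i ∈ range (i0 + 1), r ^ i) := by
        rw [mul_sum, mul_sum]
        refine sum_congr rfl fun i _ => ?_
        ring
      rw [mul_neg_geom_sum] at h3
      have h4 : 0 < r ^ (i0 + 1) := by positivity
      have h5 : P2 / 2 * (1 - r ^ (i0 + 1)) ≤ P2 / 2 * 1 :=
        mul_le_mul_of_nonneg_left (by linarith) (by linarith)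
      linarith
    have h2 : ∀ j, lam j ^ 2 ≤ (if q / 2 ^ i0 ≤ lam j then lam j ^ 2 else 0) +
        q / (8 * K) * (lam j + K) + K ^ 2 := by
      intro j
      have hj := hlow j
      have h3 : 0 ≤ q / (8 * K) * (lam j + K) :=
        mul_nonneg (by positivity) (by linarith)
      by_cases h : q / 2 ^ i0 ≤ lam j
      · rw [if_pos h]
        have : 0 ≤ K ^ 2 := sq_nonneg K
        linarith
      · rw [if_neg h]
        push Not at h
        rcases le_or_gt 0 (lam j) with h4 | h4
        · have h5 : q / 2 ^ i0 ≤ q / (8 * K) :=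
            div_le_div_of_nonneg_left hq0.le (by positivity) hi0.le
          have h6 : lam j ^ 2 ≤ q / (8 * K) * lam j := by
            rw [sq]
            exact mul_le_mul_of_nonneg_right (by linarith) h4
          have h7 : 0 ≤ q / (8 * K) * K := by positivity
          have h8 : 0 ≤ K ^ 2 := sq_nonneg K
          nlinarith
        · have h5 : lam j ^ 2 ≤ K ^ 2 := by
            exact sq_le_sq' (by linarith) (by linarith)
          linarith
    have h3 := sum_le_sum (s := univ) fun j _ => h2 j
    rw [hsq, sum_add_distrib, sum_add_distrib, ← mul_sum, sum_add_distrib, hsum, sum_const,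
      sum_const, card_univ, nsmul_eq_mul, nsmul_eq_mul, ← hN] at h3
    have h4 : q / (8 * K) * (0 + N * K) = P2 / 8 := by
      rw [← hqN]
      field_simp
      ring
    have h5 : N * K ^ 2 ≤ P2 / 16 := by
      rw [← hqN]
      nlinarith
    have h6 : ∑ i, (if q / 2 ^ i0 ≤ lam i then lam i ^ 2 else 0) = m i0 := rfl
    rw [h4, h6] at h3
    linarith
  obtain ⟨i, hi⟩ := hA
  refine ⟨i, ?_, ?_⟩
  · rw [hri]
    have h1 : L i ≤ m i := by
      cases i with
      | zero => exact le_rfl
      | succ k =>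
        have : 0 ≤ m k := by
          simp only [hm]
          refine sum_nonneg fun j _ => ?_
          split_ifs
          · exact sq_nonneg _
          · exact le_rfl
        simp only [hL]
        linarith
    have h2 : 0 < (1 - r) * r ^ i * P2 := by
      have : 0 < 1 - r := by linarith
      positivity
    have h3 : (1 - r) / 4 * r ^ i * P2 ≤ (1 - r) / 2 * r ^ i * P2 := by nlinarith
    exact h3.trans (hi.trans h1)
  · intro hi0
    obtain ⟨k, rfl⟩ := Nat.exists_eq_succ_of_ne_zero hi0
    have h1 : L (k + 1) ≤ 2 * (q / 2 ^ (k + 1)) * TT lam (q / 2 ^ (k + 1)) := by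
      have e1 : L (k + 1) = m (k + 1) - m k := rfl
      rw [e1]
      simp only [hm]
      rw [← sum_sub_distrib, TT, mul_sum]
      refine sum_le_sum fun j _ => ?_
      have hpk : (0 : ℝ) < 2 ^ (k + 1) := by positivity
      have e2 : 2 * (q / 2 ^ (k + 1)) = q / 2 ^ k := by
        rw [pow_succ]
        field_simp
      rw [e2]
      have e3 : q / 2 ^ (k + 1) ≤ q / 2 ^ k :=
        div_le_div_of_nonneg_left hq0.le (by positivity)
          (pow_le_pow_right₀ (by norm_num) (Nat.le_succ k))
      by_cases h : q / 2 ^ (k + 1) ≤ lam j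
      · rw [if_pos h, if_pos h]
        have hlj : 0 ≤ lam j := le_trans (by positivity) h
        by_cases h' : q / 2 ^ k ≤ lam j
        · rw [if_pos h']
          have : 0 ≤ q / 2 ^ k * lam j := by positivity
          linarith
        · rw [if_neg h']
          push Not at h'
          rw [sub_zero, sq]
          exact mul_le_mul_of_nonneg_right h'.le hlj
      · rw [if_neg h, if_neg h, if_neg (fun h' => h (e3.trans h'))]
        simp
    have h2 : (1 - r) / 2 * r ^ (k + 1) * P2 ≤
        2 * (q / 2 ^ (k + 1)) * TT lam (q / 2 ^ (k + 1)) := hi.trans h1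
    have e4 : (2 : ℝ) ^ ((1 - δ) * ((k + 1 : ℕ) : ℝ)) = 2 ^ (k + 1) * r ^ (k + 1) := by
      rw [← hri (k + 1), ← Real.rpow_natCast 2 (k + 1), ← Real.rpow_add (by norm_num)]
      congr 1
      ring
    rw [e4]
    have hpk : (0 : ℝ) < 2 ^ (k + 1) := by positivity
    have h3 : (1 - r) / 4 * (2 ^ (k + 1) * r ^ (k + 1)) * N * (2 * (q / 2 ^ (k + 1))) =
        (1 - r) / 2 * r ^ (k + 1) * P2 := by
      rw [← hqN]
      field_simp
      ring
    have h4 : 0 < 2 * (q / 2 ^ (k + 1)) := by positivity
    have h5 : (1 - r) / 4 * (2 ^ (k + 1) * r ^ (k + 1)) * N * (2 * (q / 2 ^ (k + 1))) ≤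
        TT lam (q / 2 ^ (k + 1)) * (2 * (q / 2 ^ (k + 1))) := by
      rw [h3, mul_comm (TT lam (q / 2 ^ (k + 1)))]
      exact h2
    exact le_of_mul_le_mul_right h5 h4

end Pool.Agent.HTwo
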