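import Pool.Agent.HTwo.Targets

set_option autoImplicit false

/-!
# HTW-MAFF: rounding a multiaffine function
-/

namespace Pool.Agent.HTwo

open Finset Pool.Agent.HLow

variable {V : Type} [Fintype V] [DecidableEq V]

noncomputable def MAFF_Psi (B : V → V → ℝ) (c : V → ℝ) (f : V → ℝ) : ℝ :=
  ∑ u, ∑ w, B u w * (f u * f w) + ∑ u, c u * f u

lemma MAFF_affine (B : V → V → ℝ) (hB : ∀ u, B u u = 0) (c : V → ℝ) (g : V → ℝ) (b : V) :
    ∃ β : ℝ, ∀ t : ℝ, MAFF_Psi B c (fun u => g u + t * (if u = b then 1 else 0)) =
      MAFF_Psi B c g + t * β := by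
  refine ⟨∑ u, ∑ w, B u w * ((if u = b then 1 else 0) * g w) +
    ∑ u, ∑ w, B u w * (g u * (if w = b then 1 else 0)) +
    ∑ u, c u * (if u = b then 1 else 0), ?_⟩
  intro t
  have h0 : ∑ u, ∑ w, B u w * ((if u = b then (1 : ℝ) else 0) * (if w = b then 1 else 0)) = 0 := by
    apply sum_eq_zero
    intro u _
    apply sum_eq_zero
    intro w _
    by_cases hu : u = b
    · by_cases hw : w = b
      · subst hu; subst hw; simp [hB]
      · simp [hw]
    · simp [hu]
  have h1 : MAFF_Psi B c (fun u => g u + t * (if u = b then 1 else 0)) =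
      MAFF_Psi B c g + t * (∑ u, ∑ w, B u w * ((if u = b then 1 else 0) * g w) +
        ∑ u, ∑ w, B u w * (g u * (if w = b then 1 else 0)) +
        ∑ u, c u * (if u = b then 1 else 0)) +
      t ^ 2 * ∑ u, ∑ w, B u w * ((if u = b then (1 : ℝ) else 0) * (if w = b then 1 else 0)) := by
    unfold MAFF_Psi
    simp only [mul_add, mul_sum]
    simp only [← sum_add_distrib]
    have e1 : ∑ u, ∑ w, B u w * ((g u + t * (if u = b then (1 : ℝ) else 0)) *
          (g w + t * (if w = b then 1 else 0))) =
        ∑ u, ∑ w, (B u w * (g u * g w) + t * (B u w * ((if u = b then 1 else 0) * g w)) +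
          t * (B u w * (g u * (if w = b then 1 else 0))) +
          t ^ 2 * (B u w * ((if u = b then (1 : ℝ) else 0) * (if w = b then 1 else 0)))) := by
      apply sum_congr rfl; intro u _
      apply sum_congr rfl; intro w _
      ring
    have e2 : ∑ u, c u * (g u + t * (if u = b then (1 : ℝ) else 0)) =
        ∑ u, (c u * g u + t * (c u * (if u = b then 1 else 0))) := by
      apply sum_congr rfl; intro u _
      ring
    simp only [mul_add] at e1 e2 ⊢
    simp only [sum_add_distrib] at e1 e2 ⊢
    linarith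
  rw [h1, h0]
  ring

omit [Fintype V] in
lemma MAFF_update (g : V → ℝ) (b : V) (t : ℝ) :
    Function.update g b t = fun u => Function.update g b 0 u + t * (if u = b then 1 else 0) := by
  funext u
  by_cases h : u = b
  · subst h; simp
  · simp [h]

lemma MAFF_round (B : V → V → ℝ) (hB : ∀ u, B u u = 0) (c : V → ℝ) (G : ℝ)
    (hG : ∀ T : Finset V, MAFF_Psi B c (fun u => if u ∈ T then 1 else 0) ≤ G) :
    ∀ S : Finset V, ∀ f : V → ℝ, (∀ u, 0 ≤ f u ∧ f u ≤ 1) →
      (∀ u, u ∉ S → f u = 0 ∨ f u = 1) → MAFF_Psi B c f ≤ G := by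
  intro S
  induction S using Finset.induction_on with
  | empty =>
    intro f _ hf
    have h := hG (univ.filter (fun v => f v = 1))
    have h2 : (fun u => if u ∈ univ.filter (fun v => f v = 1) then (1 : ℝ) else 0) = f := by
      funext u
      rcases hf u (notMem_empty u) with e | e
      · rw [if_neg (by simp [e]), e]
      · rw [if_pos (by simp [e]), e]
    rw [h2] at h
    exact h
  | insert b S hb ih =>
    intro f hf1 hf
    obtain ⟨β, hβ⟩ := MAFF_affine B hB c (Function.update f b 0) b
    have hval : ∀ t, MAFF_Psi B c (Function.update f b t) =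
        MAFF_Psi B c (Function.update f b 0) + t * β := by
      intro t
      rw [MAFF_update f b t]
      exact hβ t
    have k : ∀ t : ℝ, (t = 0 ∨ t = 1) → MAFF_Psi B c (Function.update f b t) ≤ G := by
      intro t ht
      apply ih
      · intro v
        by_cases hv : v = b
        · subst hv
          rcases ht with rfl | rfl <;> simp
        · rw [Function.update_of_ne hv]; exact hf1 v
      · intro v hv
        by_cases hvb : v = b
        · subst hvb
          simpa using ht
        · rw [Function.update_of_ne hvb]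
          exact hf v (by simp [hvb, hv])
    have k0 := k 0 (Or.inl rfl)
    have k1 := k 1 (Or.inr rfl)
    rw [hval 1] at k1
    have hself : Function.update f b (f b) = f := Function.update_eq_self b f
    have h2 := hval (f b)
    rw [hself] at h2
    rw [h2]
    have h3 := hf1 b
    nlinarith [h3.1, h3.2]

theorem p_MAFF : T_MAFF := by
  intro V _ _ A p κ hA hp hT f hf
  set B : V → V → ℝ := fun u w => A u w - p + (if u = w then p else 0) with hBdef
  have hB : ∀ u, B u u = 0 := by
    intro u
    simp [hBdef, hA.dg u]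
  have hPsi : ∀ g : V → ℝ, MAFF_Psi B (fun _ => -p) g =
      ∑ u, ∑ w, A u w * (g u * g w) - p * (∑ u, g u) ^ 2 + p * ∑ u, g u ^ 2 - p * ∑ u, g u := by
    intro g
    unfold MAFF_Psi
    have e1 : ∑ u, ∑ w, B u w * (g u * g w) =
        ∑ u, ∑ w, A u w * (g u * g w) - p * (∑ u, g u) ^ 2 + p * ∑ u, g u ^ 2 := by
      have e2 : p * (∑ u, g u) ^ 2 = ∑ u, ∑ w, p * (g u * g w) := by
        rw [sq, sum_mul_sum, mul_sum]
        apply sum_congr rfl; intro u _
        rw [mul_sum]
      have e3 : p * ∑ u, g u ^ 2 = ∑ u, ∑ w, (if u = w then p else 0) * (g u * g w) := by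
        rw [mul_sum]
        apply sum_congr rfl; intro u _
        simp only [ite_mul, zero_mul, sum_ite_eq, mem_univ, if_true]
        ring
      rw [e2, e3, ← sum_sub_distrib, ← sum_add_distrib]
      apply sum_congr rfl; intro u _
      rw [← sum_sub_distrib, ← sum_add_distrib]
      apply sum_congr rfl; intro w _
      simp only [hBdef]
      ring
    rw [e1, ← mul_sum]
    ring
  have hG : ∀ T : Finset V, MAFF_Psi B (fun _ => -p) (fun u => if u ∈ T then 1 else 0) ≤ κ := by
    intro T
    rw [hPsi]
    have e1 : ∑ u, ∑ w, A u w * ((if u ∈ T then (1 : ℝ) else 0) * (if w ∈ T then 1 else 0)) =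
        ee A T T := by
      unfold ee
      rw [← sum_filter_add_sum_filter_not univ (fun u => u ∈ T)]
      have e2 : ∑ u ∈ univ.filter (fun u => ¬ u ∈ T),
          ∑ w, A u w * ((if u ∈ T then (1 : ℝ) else 0) * (if w ∈ T then 1 else 0)) = 0 := by
        apply sum_eq_zero
        intro u hu
        rw [mem_filter] at hu
        apply sum_eq_zero
        intro w _
        simp [hu.2]
      rw [e2, add_zero]
      have e3 : univ.filter (fun u => u ∈ T) = T := by ext u; simp
      rw [e3]
      apply sum_congr rfl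
      intro u hu
      simp only [hu, if_true, one_mul]
      simp only [mul_ite, mul_one, mul_zero]
      rw [← sum_filter, e3]
    have e4 : ∑ u, (if u ∈ T then (1 : ℝ) else 0) = (T.card : ℝ) := by simp
    have e5 : ∑ u, (if u ∈ T then (1 : ℝ) else 0) ^ 2 = (T.card : ℝ) := by
      simp
    rw [e1, e4, e5]
    have := hT T
    linarith
  have hmain := MAFF_round B hB (fun _ => -p) κ hG univ f hf (fun u hu => absurd (mem_univ u) hu)
  rw [hPsi] at hmain
  have hsum : ∑ u, f u - ∑ u, f u ^ 2 ≤ (Fintype.card V : ℝ) / 4 := by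
    rw [← sum_sub_distrib]
    have : ∑ u : V, (f u - f u ^ 2) ≤ ∑ u : V, (1 / 4 : ℝ) := by
      apply sum_le_sum
      intro u _
      nlinarith [sq_nonneg (f u - 1 / 2)]
    refine this.trans (le_of_eq ?_)
    rw [sum_const, card_univ, nsmul_eq_mul]
    ring
  have h6 : p * (∑ u, f u - ∑ u, f u ^ 2) ≤ p * ((Fintype.card V : ℝ) / 4) :=
    mul_le_mul_of_nonneg_left hsum hp
  linarith

end Pool.Agent.HTwo
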