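import Pool.Agent.HTwo.Targets

set_option autoImplicit false

/-!
# MINJ: a vertex outside a near clique has few neighbours or few non-neighbours in it
-/

open Finset

namespace Pool.Agent.HTwo

open Pool.Agent.HLow

private theorem MINJ_expand {V : Type} [Fintype V] [DecidableEq V] (A : V → V → ℝ) (hA : Adj A)
    (g : V → ℝ) (c : ℝ) (j : V) :
    ∑ u, ∑ v, A u v * ((g u - (if u = j then c else 0)) * (g v - (if v = j then c else 0))) =
      ∑ u, ∑ v, A u v * (g u * g v) - 2 * c * ∑ u, A j u * g u := by
  have h1 : ∀ u v, A u v * ((g u - (if u = j then c else 0)) * (g v - (if v = j then c else 0))) =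
      A u v * (g u * g v) - (if u = j then c * (A u v * g v) else 0)
        - (if v = j then c * (A u v * g u) else 0)
        + (if u = j then (if v = j then c ^ 2 * A u v else 0) else 0) := by
    intro u v
    split_ifs <;> ring
  simp only [h1, Finset.sum_add_distrib, Finset.sum_sub_distrib]
  have e1 : ∑ u, ∑ v, (if u = j then c * (A u v * g v) else 0) = c * ∑ u, A j u * g u := by
    rw [Finset.sum_comm]
    simp [Finset.mul_sum]
  have e2 : ∑ u, ∑ v, (if v = j then c * (A u v * g u) else 0) = c * ∑ u, A j u * g u := by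
    simp only [Finset.sum_ite_eq', Finset.mem_univ, if_true, Finset.mul_sum]
    exact Finset.sum_congr rfl fun u _ => by rw [hA.sym u j]
  have e3 : ∑ u, ∑ v, (if u = j then (if v = j then c ^ 2 * A u v else 0) else 0) = 0 := by
    refine Finset.sum_eq_zero fun u _ => Finset.sum_eq_zero fun v _ => ?_
    split_ifs with h h'
    · subst h; subst h'; rw [hA.dg]; ring
    · rfl
    · rfl
  rw [e1, e2, e3]
  ring

theorem p_MINJ : T_MINJ := by
  intro V _ _ A D K hA hD hK hD1 Q hQK hQ j hj
  by_contra hcon
  push Not at hcon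
  rw [lt_min_iff] at hcon
  obtain ⟨hy, hb⟩ := hcon
  set P : Finset V := Q.filter (fun z => A j z ≠ 0) with hP
  set R : Finset V := Q.filter (fun z => A j z = 0) with hR
  set y : ℝ := (P.card : ℝ) with hyd
  set b : ℝ := (R.card : ℝ) with hbd
  have hDj : 1 ≤ D j := hD1 j
  have hK2 : 1 ≤ K ^ 2 := one_le_pow₀ hK
  have h8 : 8 ≤ 8 * K ^ 2 * D j := by nlinarith
  have hy0 : 0 < y := by linarith
  have hb0 : 0 < b := by linarith
  have hPR : ∀ u, u ∈ P → u ∉ R := by
    intro u hu hu'
    rw [hP, Finset.mem_filter] at hu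
    rw [hR, Finset.mem_filter] at hu'
    exact hu.2 hu'.2
  set f : V → ℝ := fun u => if u ∈ P then 1 / y else if u ∈ R then -(1 / b) else 0 with hf
  have hfP : ∀ u ∈ P, f u = 1 / y := fun u hu => by simp only [hf]; rw [if_pos hu]
  have hfR : ∀ u ∈ R, f u = -(1 / b) := fun u hu => by
    simp only [hf]; rw [if_neg (fun h => hPR u h hu), if_pos hu]
  have hf0 : ∀ u, u ∉ P → u ∉ R → f u = 0 := fun u hu hu' => by
    simp only [hf]; rw [if_neg hu, if_neg hu']
  have hjP : j ∉ P := fun h => hj (Finset.mem_filter.mp h).1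
  have hjR : j ∉ R := fun h => hj (Finset.mem_filter.mp h).1
  have hfj : f j = 0 := hf0 j hjP hjR
  -- sums of functions of f
  have hsum : ∀ φ : V → ℝ → ℝ, (∀ u, φ u 0 = 0) →
      ∑ u, φ u (f u) = ∑ u ∈ P, φ u (1 / y) + ∑ u ∈ R, φ u (-(1 / b)) := by
    intro φ hφ
    have h1 : ∀ u, φ u (f u) = (if u ∈ P then φ u (1 / y) else 0) +
        (if u ∈ R then φ u (-(1 / b)) else 0) := by
      intro u
      by_cases h : u ∈ P
      · rw [hfP u h, if_pos h, if_neg (hPR u h), add_zero]
      · by_cases h' : u ∈ R
        · rw [hfR u h', if_neg h, if_pos h', zero_add]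
        · rw [hf0 u h h', if_neg h, if_neg h', hφ, add_zero]
    simp only [h1, Finset.sum_add_distrib]
    rw [Finset.sum_ite_mem, Finset.sum_ite_mem, Finset.univ_inter, Finset.univ_inter]
  have hsf : ∑ u, f u = 0 := by
    rw [hsum (fun _ t => t) (fun _ => rfl)]
    simp only [Finset.sum_const, nsmul_eq_mul]
    rw [← hyd, ← hbd]
    field_simp
    ring
  have hsf2 : ∑ u, f u ^ 2 = 1 / y + 1 / b := by
    rw [hsum (fun _ t => t ^ 2) (fun _ => by ring)]
    simp only [Finset.sum_const, nsmul_eq_mul]
    rw [← hyd, ← hbd]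
    field_simp
  have hAj : ∑ u, A j u * f u = 1 := by
    rw [hsum (fun u t => A j u * t) (fun _ => by ring)]
    have h1 : ∑ u ∈ P, A j u * (1 / y) = ∑ u ∈ P, (1 / y) := by
      refine Finset.sum_congr rfl fun u hu => ?_
      rw [hP, Finset.mem_filter] at hu
      rcases hA.zo j u with h | h
      · exact absurd h hu.2
      · rw [h, one_mul]
    have h2 : ∑ u ∈ R, A j u * (-(1 / b)) = 0 := by
      refine Finset.sum_eq_zero fun u hu => ?_
      rw [hR, Finset.mem_filter] at hu
      rw [hu.2, zero_mul]
    rw [h1, h2, Finset.sum_const, nsmul_eq_mul, ← hyd]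
    field_simp
    ring
  have hDf : ∑ u, D u * f u ^ 2 ≤ K * (1 / y + 1 / b) := by
    rw [← hsf2, Finset.mul_sum]
    refine Finset.sum_le_sum fun u _ => ?_
    by_cases h : u ∈ P
    · exact mul_le_mul_of_nonneg_right (hQK u (Finset.mem_filter.mp h).1) (sq_nonneg _)
    · by_cases h' : u ∈ R
      · exact mul_le_mul_of_nonneg_right (hQK u (Finset.mem_filter.mp h').1) (sq_nonneg _)
      · rw [hf0 u h h']; simp
  -- number of non-adjacent pairs
  set m : ℝ := ∑ u ∈ P, ∑ v ∈ R, (if A u v = 0 then (1 : ℝ) else 0) with hm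
  have hmle : m ≤ 2 * K ^ 2 * y := by
    have h1 : ∀ u ∈ P, ∑ v ∈ R, (if A u v = 0 then (1 : ℝ) else 0) ≤ 2 * K ^ 2 := by
      intro u hu
      have hu' : u ∈ Q := (Finset.mem_filter.mp hu).1
      refine le_trans ?_ (hQ u hu')
      rw [← Finset.sum_filter, Finset.sum_const, nsmul_eq_mul, mul_one]
      norm_cast
      refine Finset.card_le_card fun v hv => ?_
      rw [Finset.mem_filter] at hv ⊢
      refine ⟨(Finset.mem_filter.mp hv.1).1, ?_, hv.2⟩
      rintro rfl
      exact hPR v hu hv.1
    calc m ≤ ∑ u ∈ P, (2 * K ^ 2) := Finset.sum_le_sum h1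
      _ = _ := by rw [Finset.sum_const, nsmul_eq_mul, ← hyd]; ring
  have hAf : ∑ u, ∑ v, A u v * (f u * f v) ≤ -(1 / y + 1 / b) + 2 * m / (y * b) := by
    have hyb : 0 < 1 / (y * b) := by positivity
    set N1 : V → V → ℝ := fun u v => if u ∈ P then
      (if v ∈ R then (if A u v = 0 then 1 / (y * b) else 0) else 0) else 0 with hN
    have hN0 : ∀ u v, 0 ≤ N1 u v := by
      intro u v
      simp only [hN]
      split_ifs <;> first | exact hyb.le | exact le_rfl
    have hN1 : ∀ u v, u ∈ P → v ∈ R → A u v = 0 → N1 u v = 1 / (y * b) := by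
      intro u v h1 h2 h3
      simp only [hN]
      rw [if_pos h1, if_pos h2, if_pos h3]
    have hterm : ∀ u v, A u v * (f u * f v) ≤ f u * f v - (if u = v then f u * f v else 0)
        + N1 u v + N1 v u := by
      intro u v
      have n1 := hN0 u v
      have n2 := hN0 v u
      by_cases huv : u = v
      · subst huv
        rw [hA.dg, if_pos rfl, zero_mul]
        linarith
      · rw [if_neg huv]
        rcases hA.zo u v with h | h
        · have h' : A v u = 0 := by rw [hA.sym]; exact h
          by_cases hu : u ∈ P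
          · by_cases hv : v ∈ P
            · rw [h, zero_mul, hfP u hu, hfP v hv]
              have : 0 ≤ 1 / y * (1 / y) := mul_self_nonneg _
              linarith
            · by_cases hv' : v ∈ R
              · rw [hN1 u v hu hv' h, h, hfP u hu, hfR v hv', zero_mul]
                have : 1 / y * -(1 / b) = -(1 / (y * b)) := by
                  rw [mul_neg, ← one_div_mul_one_div]
                rw [this]
                linarith
              · rw [h, hf0 v hv hv']
                linarith
          · by_cases hu' : u ∈ R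
            · by_cases hv : v ∈ P
              · rw [hN1 v u hv hu' h', h, hfR u hu', hfP v hv, zero_mul]
                have : -(1 / b) * (1 / y) = -(1 / (y * b)) := by
                  rw [neg_mul, mul_comm (1 / b), one_div_mul_one_div]
                rw [this]
                linarith
              · by_cases hv' : v ∈ R
                · rw [h, hfR u hu', hfR v hv']
                  have : 0 ≤ -(1 / b) * -(1 / b) := mul_self_nonneg _
                  linarith
                · rw [h, hf0 v hv hv']
                  linarith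
            · rw [h, hf0 u hu hu']
              linarith
        · rw [h, one_mul]
          linarith
    have hrow : ∑ u, ∑ v, N1 u v = m / (y * b) := by
      rw [hm, Finset.sum_div, ← Finset.sum_filter_add_sum_filter_not univ (fun u => u ∈ P)]
      have e0 : ∑ u ∈ univ.filter (fun u => ¬ u ∈ P), ∑ v, N1 u v = 0 := by
        refine Finset.sum_eq_zero fun u hu => Finset.sum_eq_zero fun v _ => ?_
        rw [Finset.mem_filter] at hu
        simp only [hN]
        rw [if_neg hu.2]
      rw [e0, add_zero]
      have e1 : univ.filter (fun u => u ∈ P) = P := by ext u; simp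
      rw [e1]
      refine Finset.sum_congr rfl fun u hu => ?_
      rw [Finset.sum_div, ← Finset.sum_filter_add_sum_filter_not univ (fun v => v ∈ R)]
      have e2 : ∑ v ∈ univ.filter (fun v => ¬ v ∈ R), N1 u v = 0 := by
        refine Finset.sum_eq_zero fun v hv => ?_
        rw [Finset.mem_filter] at hv
        simp only [hN]
        rw [if_pos hu, if_neg hv.2]
      rw [e2, add_zero]
      have e3 : univ.filter (fun v => v ∈ R) = R := by ext u; simp
      rw [e3]
      refine Finset.sum_congr rfl fun v hv => ?_
      simp only [hN]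
      rw [if_pos hu, if_pos hv]
      split_ifs <;> simp
    calc ∑ u, ∑ v, A u v * (f u * f v)
        ≤ ∑ u, ∑ v, (f u * f v - (if u = v then f u * f v else 0) + N1 u v + N1 v u) :=
          Finset.sum_le_sum fun u _ => Finset.sum_le_sum fun v _ => hterm u v
      _ = (∑ u, f u) ^ 2 - ∑ u, f u ^ 2 + m / (y * b) + m / (y * b) := by
          simp only [Finset.sum_add_distrib, Finset.sum_sub_distrib]
          congr 1
          · congr 1
            congr 1
            · rw [sq, Finset.sum_mul_sum]
            · refine Finset.sum_congr rfl fun u _ => ?_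
              simp [sq]
          · rw [Finset.sum_comm]
            exact hrow
      _ = _ := by rw [hsf, hsf2]; ring
  -- the quadratic form
  have hq := hD (fun u => f u - (if u = j then 1 / D j else 0))
  rw [MINJ_expand A hA f (1 / D j) j, hAj] at hq
  have hdiag : ∑ u, D u * (f u - (if u = j then 1 / D j else 0)) ^ 2 =
      ∑ u, D u * f u ^ 2 + 1 / D j := by
    have h1 : ∀ u, D u * (f u - (if u = j then 1 / D j else 0)) ^ 2 =
        D u * f u ^ 2 + (if u = j then 1 / D j else 0) := by
      intro u
      split_ifs with h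
      · subst h
        rw [hfj]
        have : D u ≠ 0 := by linarith
        field_simp
        ring
      · ring
    simp only [h1, Finset.sum_add_distrib]
    simp
  rw [hdiag] at hq
  have hDpos : 0 < D j := by linarith
  have hm2 : 2 * m / (y * b) ≤ 4 * K ^ 2 / b := by
    rw [div_le_div_iff₀ (by positivity) hb0]
    nlinarith
  have hmain : 1 / D j ≤ (K - 1) * (1 / y + 1 / b) + 4 * K ^ 2 / b := by
    have : 2 * (1 / D j) = 2 * (1 / D j) * 1 := by ring
    nlinarith
  have hz : 0 < 8 * K ^ 2 * D j := by linarith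
  have i1 : 1 / y ≤ 1 / (8 * K ^ 2 * D j) := one_div_le_one_div_of_le hz hy.le
  have i2 : 1 / b ≤ 1 / (8 * K ^ 2 * D j) := one_div_le_one_div_of_le hz hb.le
  have i3 : 4 * K ^ 2 / b ≤ 1 / 2 * (1 / D j) := by
    have : 4 * K ^ 2 / b = 4 * K ^ 2 * (1 / b) := by ring
    rw [this]
    calc 4 * K ^ 2 * (1 / b) ≤ 4 * K ^ 2 * (1 / (8 * K ^ 2 * D j)) :=
          mul_le_mul_of_nonneg_left i2 (by positivity)
      _ = _ := by field_simp; norm_num
  have i4 : (K - 1) * (1 / y + 1 / b) ≤ 1 / 4 * (1 / D j) := by
    have h1 : 1 / y + 1 / b ≤ 2 * (1 / (8 * K ^ 2 * D j)) := by linarith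
    calc (K - 1) * (1 / y + 1 / b) ≤ (K - 1) * (2 * (1 / (8 * K ^ 2 * D j))) :=
          mul_le_mul_of_nonneg_left h1 (by linarith)
      _ = (K - 1) / K ^ 2 * (1 / 4 * (1 / D j)) := by field_simp; ring
      _ ≤ 1 * (1 / 4 * (1 / D j)) := by
          refine mul_le_mul_of_nonneg_right ?_ (by positivity)
          rw [div_le_one (by positivity)]
          nlinarith
      _ = _ := one_mul _
  have : 0 < 1 / D j := by positivity
  linarith

end Pool.Agent.HTwo
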