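import Pool.Agent.HTwo.Targets
import Pool.Agent.HLow.CLQ

set_option autoImplicit false

namespace Pool.Agent.HTwo

open Finset Pool.Agent.HLow

/-- weighted arithmetic-geometric mean inequality used for the subsets -/
lemma NC_amgm {N t M : ℝ} (hN : 0 ≤ N) (ht : 0 ≤ t) (hM : 1 ≤ M) :
    N ^ (1 / M) * t ^ (2 - 1 / M) ≤ N ^ 2 / (2 * M) + t ^ 2 := by
  have hM0 : 0 < M := by linarith
  have hw1 : 0 ≤ 1 / (2 * M) := by positivity
  have hw2 : 0 ≤ 1 - 1 / (2 * M) := by
    have : 1 / (2 * M) ≤ 1 := by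
      rw [div_le_one (by positivity)]
      linarith
    linarith
  have h := Real.geom_mean_le_arith_mean2_weighted hw1 hw2 (sq_nonneg N) (sq_nonneg t) (by ring)
  have e1 : (N ^ 2) ^ (1 / (2 * M)) = N ^ (1 / M) := by
    rw [← Real.rpow_natCast, ← Real.rpow_mul hN]
    congr 1
    push_cast
    field_simp
  have e2 : (t ^ 2) ^ (1 - 1 / (2 * M)) = t ^ (2 - 1 / M) := by
    rw [← Real.rpow_natCast, ← Real.rpow_mul ht]
    congr 1
    push_cast
    field_simp
  rw [e1, e2] at h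
  refine h.trans ?_
  have e3 : 1 / (2 * M) * N ^ 2 = N ^ 2 / (2 * M) := by ring
  have e4 : (1 - 1 / (2 * M)) * t ^ 2 ≤ t ^ 2 := by
    have : 0 ≤ 1 / (2 * M) * t ^ 2 := by positivity
    linarith
  linarith

/-- the hypothesis on `K` in the second stage -/
lemma NC_root {K N ε : ℝ} (hK : 1 ≤ K) (hε : 0 < ε) (hN : K ^ (4 + ε) ≤ N) :
    K ≤ (Real.sqrt (N * 4) / K) ^ (1 / (1 + ε / 2)) := by
  have hK0 : 0 < K := by linarith
  have h1 : K ^ (2 + ε / 2) ≤ Real.sqrt (N * 4) := by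
    apply Real.le_sqrt_of_sq_le
    have e1 : (K ^ (2 + ε / 2)) ^ 2 = K ^ (4 + ε) := by
      rw [← Real.rpow_natCast, ← Real.rpow_mul hK0.le]
      congr 1
      push_cast
      ring
    rw [e1]
    have : 0 ≤ K ^ (4 + ε) := Real.rpow_nonneg hK0.le _
    linarith
  have h2 : K ^ (1 + ε / 2) ≤ Real.sqrt (N * 4) / K := by
    rw [le_div_iff₀ hK0]
    calc K ^ (1 + ε / 2) * K = K ^ (1 + ε / 2) * K ^ (1 : ℝ) := by rw [Real.rpow_one]
      _ = K ^ (2 + ε / 2) := by
          rw [← Real.rpow_add hK0]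
          congr 1
          ring
      _ ≤ _ := h1
  calc K = (K ^ (1 + ε / 2)) ^ (1 / (1 + ε / 2)) := by
        rw [← Real.rpow_mul hK0.le, mul_one_div_cancel (by positivity), Real.rpow_one]
    _ ≤ _ := Real.rpow_le_rpow (Real.rpow_nonneg hK0.le _) h2 (by positivity)

theorem p_NC (hSEL : T_SEL) (hNC1 : T_NC1) (hDNS : T_DNS) (hNCL : T_NCL) (hBOOT : T_BOOT) :
    T_NC := by
  intro a ε ha hε
  obtain ⟨C1, pst, hC1, hpst0, hpst1, H1⟩ := hNC1 a ε ha hε
  have hη0 : 0 < 1 / (1 + ε / 2) := by positivity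
  have hη1 : 1 / (1 + ε / 2) < 1 := by
    rw [div_lt_one (by positivity)]
    linarith
  obtain ⟨M, C2, hM, hC2, H2⟩ := hDNS (1 / (1 + ε / 2)) pst hη0 hη1 hpst0 hpst1
  have hM0 : 0 < M := by linarith
  have hpM : 0 < pst ^ M := Real.rpow_pos_of_pos hpst0 M
  have hpM1 : pst ^ M ≤ 1 := Real.rpow_le_one hpst0.le hpst1.le hM0.le
  refine ⟨C1 + (4000 + C2) / pst ^ M, ?_, ?_⟩
  · have : 0 ≤ (4000 + C2) / pst ^ M := by positivity
    linarith
  intro V _ _ A K hA hLow hK W hW hWE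
  have hK0 : 0 < K := by linarith
  have hCbig : 0 ≤ (4000 + C2) / pst ^ M := by positivity
  have hexp : 4 + ε ≤ (4 * a - 3) / (a - 1) + ε := by
    have : 4 ≤ (4 * a - 3) / (a - 1) := by
      rw [le_div_iff₀ (by linarith)]
      linarith
    linarith
  set E : ℝ := (4 * a - 3) / (a - 1) + ε with hE
  have hKE : K ^ (4 + ε) ≤ K ^ E := Real.rpow_le_rpow_of_exponent_le hK hexp
  have hKE0 : 0 < K ^ E := Real.rpow_pos_of_pos hK0 _
  obtain ⟨S, hSW, hSne, hSee, hφ, hdens, hmx⟩ := hSEL V A a hA ha.le W hW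
  have cS : (0 : ℝ) < S.card := by exact_mod_cast hSne.card_pos
  set p : ℝ := ee A S S / (S.card : ℝ) ^ 2 with hp
  have hp0 : 0 < p := by positivity
  have hp1 : p ≤ 1 := by
    rw [hp, div_le_one (by positivity), pow_two]
    exact ee_le hA S S
  have hcardS : (Fintype.card S : ℝ) = (S.card : ℝ) := by rw [Fintype.card_coe]
  have heeS : ee (fun u v : S => A u v) univ univ = ee A S S := by rw [CLQ_ee, CLQ_univ]
  have hCtx : Ctx (fun u v : S => A u v) K p a := by
    refine ⟨CLQ_adj A hA S, CLQ_low A K hLow S, ?_, hK, ha, hp0, ?_, ?_⟩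
    · rw [Fintype.card_coe]
      exact hSne.card_pos
    · rw [heeS, hcardS, hp]
      field_simp
    · intro T
      rw [CLQ_ee, hcardS]
      have := hmx (T.map (Function.Embedding.subtype _)) (by
        intro v hv
        rw [mem_map] at hv
        obtain ⟨w, _, rfl⟩ := hv
        exact w.2)
      rwa [card_map] at this
  have hφ1 : C1 * K ^ E ≤ p ^ a * (S.card : ℝ) := by
    refine le_trans ?_ (hWE.trans hφ)
    apply mul_le_mul_of_nonneg_right _ hKE0.le
    linarith
  have hpstp : pst ≤ p := H1 S _ K p hCtx (by rw [hcardS]; exact hφ1)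
  have hφS : (ee A W W / (W.card : ℝ) ^ 2) ^ a * (W.card : ℝ) ≤ (S.card : ℝ) := by
    refine hφ.trans ?_
    have : p ^ a ≤ 1 := Real.rpow_le_one hp0.le hp1 (by linarith)
    calc p ^ a * (S.card : ℝ) ≤ 1 * (S.card : ℝ) := mul_le_mul_of_nonneg_right this cS.le
      _ = _ := one_mul _
  -- second selection
  obtain ⟨S', hSS', hSne', hSee', hφ', hdens', hmx'⟩ := hSEL V A M hA hM S hSee
  have cS' : (0 : ℝ) < S'.card := by exact_mod_cast hSne'.card_pos
  set p' : ℝ := ee A S' S' / (S'.card : ℝ) ^ 2 with hp'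
  have hp'0 : 0 < p' := by positivity
  have hp'1 : p' ≤ 1 := by
    rw [hp', div_le_one (by positivity), pow_two]
    exact ee_le hA S' S'
  have hpp' : p ≤ p' := hdens'
  have hsize : pst ^ M * (S.card : ℝ) ≤ (S'.card : ℝ) := by
    calc pst ^ M * (S.card : ℝ) ≤ p ^ M * (S.card : ℝ) :=
          mul_le_mul_of_nonneg_right (Real.rpow_le_rpow hpst0.le hpstp hM0.le) cS.le
      _ ≤ p' ^ M * (S'.card : ℝ) := hφ'
      _ ≤ 1 * (S'.card : ℝ) :=
          mul_le_mul_of_nonneg_right (Real.rpow_le_one hp'0.le hp'1 hM0.le) cS'.le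
      _ = _ := one_mul _
  have hbig : (4000 + C2) * K ^ (4 + ε) ≤ (S'.card : ℝ) := by
    refine le_trans ?_ hsize
    have h1 : (4000 + C2) / pst ^ M * K ^ (4 + ε) ≤ (S.card : ℝ) := by
      refine le_trans ?_ (hWE.trans hφS)
      apply mul_le_mul _ hKE (Real.rpow_nonneg hK0.le _)
      · have : 0 ≤ (4000 + C2) / pst ^ M := by positivity
        linarith
      · linarith
    calc (4000 + C2) * K ^ (4 + ε) = pst ^ M * ((4000 + C2) / pst ^ M * K ^ (4 + ε)) := by
          field_simp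
      _ ≤ _ := mul_le_mul_of_nonneg_left h1 hpM.le
  have hKp : 0 ≤ K ^ (4 + ε) := Real.rpow_nonneg hK0.le _
  have hK4 : K ^ 4 ≤ K ^ (4 + ε) := by
    rw [← Real.rpow_natCast]
    apply Real.rpow_le_rpow_of_exponent_le hK
    push_cast
    linarith
  have hK34 : K ^ 3 ≤ K ^ 4 := pow_le_pow_right₀ hK (by norm_num)
  have hK24 : K ^ 2 ≤ K ^ 4 := pow_le_pow_right₀ hK (by norm_num)
  have hK20 : 0 ≤ K ^ 2 := by positivity
  have hcardS' : (Fintype.card S' : ℝ) = (S'.card : ℝ) := by rw [Fintype.card_coe]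
  have heeS' : ee (fun u v : S' => A u v) univ univ = ee A S' S' := by rw [CLQ_ee, CLQ_univ]
  have hC2K : C2 * K ^ (4 + ε) ≥ 0 := by positivity
  have hN4000 : 4000 * K ^ 4 ≤ (S'.card : ℝ) := by nlinarith
  have hN1 : K ^ (4 + ε) ≤ (S'.card : ℝ) := by nlinarith
  have hp'd : 1 - 1 / 400 ≤ p' := by
    refine H2 S' (fun u v : S' => A u v) K p' (CLQ_adj A hA S') (CLQ_low A K hLow S') hK ?_ ?_ ?_
      ?_ ?_ (hpstp.trans hpp')
    · rw [Fintype.card_coe]
      exact hSne'.card_pos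
    · rw [heeS', hcardS', hp']
      field_simp
    · intro T
      rw [CLQ_ee, hcardS']
      have h1 := hmx' (T.map (Function.Embedding.subtype _)) (by
        intro v hv
        rw [mem_map] at hv
        obtain ⟨w, _, rfl⟩ := hv
        exact w.2)
      rw [card_map] at h1
      refine h1.trans ?_
      have h2 := NC_amgm (N := (S'.card : ℝ)) (t := (T.card : ℝ)) (M := M) cS'.le
        (Nat.cast_nonneg _) hM
      calc p' * (S'.card : ℝ) ^ (1 / M) * (T.card : ℝ) ^ (2 - 1 / M)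
          = p' * ((S'.card : ℝ) ^ (1 / M) * (T.card : ℝ) ^ (2 - 1 / M)) := by ring
        _ ≤ p' * ((S'.card : ℝ) ^ 2 / (2 * M) + (T.card : ℝ) ^ 2) :=
            mul_le_mul_of_nonneg_left h2 hp'0.le
        _ = p' * (T.card : ℝ) ^ 2 + p' * ((S'.card : ℝ) ^ 2 / (2 * M)) := by ring
        _ ≤ p' * (T.card : ℝ) ^ 2 + (S'.card : ℝ) ^ 2 / M := by
            have h3 : (S'.card : ℝ) ^ 2 / (2 * M) ≤ (S'.card : ℝ) ^ 2 / M := by
              apply div_le_div_of_nonneg_left (by positivity) hM0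
              linarith
            have h4 : 0 ≤ (S'.card : ℝ) ^ 2 / (2 * M) := by positivity
            have h5 : p' * ((S'.card : ℝ) ^ 2 / (2 * M)) ≤ 1 * ((S'.card : ℝ) ^ 2 / (2 * M)) :=
              mul_le_mul_of_nonneg_right hp'1 h4
            linarith
    · rw [hcardS']
      exact NC_root hK hε hN1
    · rw [hcardS']
      have h3 : C2 * K ^ 2 ≤ C2 * K ^ (4 + ε) := mul_le_mul_of_nonneg_left
        (hK24.trans hK4) (by linarith)
      have h4 : 0 ≤ 4000 * K ^ (4 + ε) := by positivity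
      linarith
  obtain ⟨S'', hS''c, hS''n⟩ := hNCL S' (fun u v : S' => A u v) K (CLQ_adj A hA S')
    (CLQ_low A K hLow S') hK (by rw [hcardS']; linarith [pow_nonneg hK0.le 4]) (by
      rw [heeS', hcardS']
      have : ee A S' S' = p' * (S'.card : ℝ) ^ 2 := by
        rw [hp']
        field_simp
      rw [this]
      exact mul_le_mul_of_nonneg_right hp'd (sq_nonneg _))
  rw [hcardS'] at hS''c
  have hB := hBOOT S' (fun u v : S' => A u v) K (CLQ_adj A hA S') (CLQ_low A K hLow S') hK S''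
    hS''n (by linarith)
  refine ⟨S''.map (Function.Embedding.subtype _), ?_, ?_, ?_⟩
  · intro v hv
    rw [mem_map] at hv
    obtain ⟨w, _, rfl⟩ := hv
    exact hSW (hSS' w.2)
  · rw [card_map]
    have cQ : (0 : ℝ) ≤ (S''.card : ℝ) := Nat.cast_nonneg _
    have h1 : (S.card : ℝ) ≤ 4 / pst ^ M * (S''.card : ℝ) := by
      have : (S.card : ℝ) ≤ (S'.card : ℝ) / pst ^ M := by
        rw [le_div_iff₀ hpM, mul_comm]
        exact hsize
      refine this.trans ?_
      rw [div_mul_eq_mul_div]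
      apply div_le_div_of_nonneg_right _ hpM.le
      exact hS''c
    refine hφS.trans (h1.trans ?_)
    apply mul_le_mul_of_nonneg_right _ cQ
    have h2 : 4 / pst ^ M ≤ (4000 + C2) / pst ^ M := by
      apply div_le_div_of_nonneg_right _ hpM.le
      linarith
    linarith
  · intro u hu
    rw [mem_map] at hu
    obtain ⟨u', hu', rfl⟩ := hu
    have h1 := hB u' hu'
    refine le_trans (le_of_eq ?_) h1
    rw [filter_map, card_map]
    have h2 : ∀ z : S', (z ≠ u' ∧ A (u' : V) z = 0) ↔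
        ((fun z : V => z ≠ (Function.Embedding.subtype _) u' ∧
          A ((Function.Embedding.subtype _) u') z = 0) ∘ (Function.Embedding.subtype _)) z := by
      intro z
      simp only [Function.comp_apply, Function.Embedding.coe_subtype, ne_eq, Subtype.ext_iff]
    exact congrArg (fun n : ℕ => (n : ℝ)) (congrArg card (filter_congr (fun z _ => (h2 z).symm)))

end Pool.Agent.HTwo
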