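import Pool.Agent.HTwo.Targets
import Pool.Agent.HLow.SPEC
import Pool.Agent.HLow.TR
import Pool.Agent.HLow.BD

set_option autoImplicit false

namespace Pool.Agent.HTwo

open Finset Pool.Agent.HLow

lemma NC1_E (a ε : ℝ) (ha : 1 < a) (hε : 0 < ε) : 4 ≤ (4 * a - 3) / (a - 1) + ε := by
  have h0 : 0 < a - 1 := by linarith
  have h : (4 * a - 3) / (a - 1) = 4 + 1 / (a - 1) := by
    field_simp
    ring
  have h2 : 0 < 1 / (a - 1) := by positivity
  linarith

lemma NC1_TT {V : Type} [Fintype V] [DecidableEq V] (lam : V → ℝ) (τ N : ℝ)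
    (h : ∀ i, lam i ≤ N) : TT lam τ ≤ N * RR lam τ := by
  unfold TT RR
  rw [mul_sum]
  refine sum_le_sum (fun i _ => ?_)
  by_cases hi : τ ≤ lam i
  · rw [if_pos hi, if_pos hi]; linarith [h i]
  · rw [if_neg hi, if_neg hi]; simp

lemma NC1_lam {V : Type} [Fintype V] [DecidableEq V] (lam : V → ℝ) (N : ℝ) (hN : 0 ≤ N)
    (h : ∑ i, lam i ^ 2 ≤ N ^ 2) (i : V) : lam i ≤ N := by
  have h1 : lam i ^ 2 ≤ ∑ j, lam j ^ 2 :=
    single_le_sum (f := fun j => lam j ^ 2) (fun j _ => sq_nonneg _) (mem_univ i)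
  exact le_trans (le_abs_self _) (abs_le_of_sq_le_sq (le_trans h1 h) hN)

theorem p_NC1 (h1 : T_NREG) (h2 : T_SCALE) (h3 : T_FLAT) (h4 : T_CHAINU) (h5 : T_NUM1) :
    T_NC1 := by
  intro a ε ha hε
  obtain ⟨δ, hδ0, hδ1, hnum⟩ := h5 a ε ha hε
  obtain ⟨c, hc0, hc1, hscale⟩ := h2 a δ ha hδ0 hδ1
  obtain ⟨C2, hC2, hnreg⟩ := h1 a ha
  have hC20 : 0 < C2 := by linarith
  have hcc0 : 0 < min c (c ^ 2 / (4 * C2)) := lt_min hc0 (by positivity)
  have hcc1 : min c (c ^ 2 / (4 * C2)) ≤ 1 := le_trans (min_le_left _ _) hc1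
  obtain ⟨C, pst, hC, hp0, hp1, hmain⟩ := hnum _ hcc0 hcc1
  refine ⟨max C 16, pst, le_trans hC (le_max_left _ _), hp0, hp1, ?_⟩
  intro V _ _ A K p hctx hbig
  set N : ℝ := (Fintype.card V : ℝ) with hNdef
  have hN : 1 ≤ N := by rw [hNdef]; exact_mod_cast hctx.hN
  have hN0 : 0 < N := by linarith
  have hK := hctx.hK
  have hK0 : 0 < K := by linarith
  have hp := hctx.hp
  have hple : p ≤ 1 := hctx.p_le
  have hE := NC1_E a ε ha hε
  set E : ℝ := (4 * a - 3) / (a - 1) + ε with hEdef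
  have hKE : K ^ 4 ≤ K ^ E := by
    have := Real.rpow_le_rpow_of_exponent_le hK hE
    rwa [show (4 : ℝ) = ((4 : ℕ) : ℝ) by norm_num, Real.rpow_natCast] at this
  have hKE0 : 0 ≤ K ^ E := by positivity
  have h16 : 16 * K ^ 4 ≤ p ^ a * N := by
    have : 16 * K ^ E ≤ max C 16 * K ^ E :=
      mul_le_mul_of_nonneg_right (le_max_right _ _) hKE0
    linarith
  have hK4 : (0 : ℝ) < K ^ 4 := by positivity
  have hK4' : K ^ 4 ≤ p ^ a * N := by linarith
  have hpa : p ^ a ≤ p := by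
    have := Real.rpow_le_rpow_of_exponent_ge hp hple ha.le
    rwa [Real.rpow_one] at this
  have hpN : p ^ a * N ≤ p * N := mul_le_mul_of_nonneg_right hpa hN0.le
  have hK2 : K ^ 2 ≤ K ^ 4 := pow_le_pow_right₀ hK (by norm_num)
  have hK1 : K ≤ K ^ 4 := by
    calc K = K ^ 1 := (pow_one K).symm
      _ ≤ K ^ 4 := pow_le_pow_right₀ hK (by norm_num)
  have h16' : 16 * K ^ 2 ≤ p * N := by linarith
  have hKa : K ≤ p ^ a * N := by linarith
  obtain ⟨lam, v, hsp⟩ := p_SPEC V A K hctx.adj.sym hctx.low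
  obtain ⟨τ, hτ, hτ1, hτ2⟩ := hscale V A K p lam v hctx hsp hK4' h16'
  have htr := p_TR V A K lam v hctx.adj hsp
  have hbd := p_BD V lam K hK0.le hsp.low htr.1
  obtain ⟨hTT0, hTTK⟩ := hbd.1 τ hτ
  obtain ⟨hRR0, hRRτ⟩ := hbd.2.1 τ hτ
  have hreg := hnreg V A K p hctx hKa
  rw [← hNdef] at hτ1 hτ2 hTTK hreg
  set T : ℝ := TT lam τ / N with hT
  have hTN : TT lam τ = T * N := by rw [hT]; field_simp
  have hTpos : 0 < T := by
    have : 0 < c * p ^ (-((a - 1) / a - δ)) := by positivity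
    linarith
  have hTK : T ≤ K := by
    rw [hT, div_le_iff₀ hN0]; exact hTTK
  set r : ℝ := RR lam τ with hr
  have hlamN : ∀ i, lam i ≤ N := by
    refine NC1_lam lam N hN0.le ?_
    rw [htr.2.1, hctx.he, ← hNdef]
    have : 0 ≤ N ^ 2 := by positivity
    nlinarith
  have hTr : T ≤ r := by
    have := NC1_TT lam τ N hlamN
    rw [hTN] at this
    have h' : T * N ≤ r * N := by rw [hr]; linarith
    exact le_of_mul_le_mul_right h' hN0
  set U := univ.filter (fun u => T / 2 ≤ lu lam v τ u) with hU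
  set m : ℝ := max T 1 with hm
  have hm1 : 1 ≤ m := le_max_right _ _
  have hm0 : 0 < m := by linarith
  have hmT : T ≤ m := le_max_left _ _
  have hflat := h3 V A K lam v τ (T / 2) hctx.adj hsp hτ (by positivity) (by
    rw [hTN, ← hNdef]; linarith)
  rw [← hNdef, ← hU] at hflat
  have hU0 : (0 : ℝ) ≤ (U.card : ℝ) := Nat.cast_nonneg _
  have hcp : c * (p * N) ≤ τ * m ^ (1 + δ) := hτ2
  have hmd0 : 0 < m ^ (1 + δ) := by positivity
  refine hmain p K N T r (U.card : ℝ) hp hple hK hN hRR0 hU0 ?_ hTK ?_ ?_ ?_ ?_ ?_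
  · refine le_trans ?_ hτ1
    exact mul_le_mul_of_nonneg_right (min_le_left _ _) (by positivity)
  · -- c' p r ≤ m^(2+δ)
    have e1 : m ^ (2 + δ) = m * m ^ (1 + δ) := by
      rw [show 2 + δ = 1 + (1 + δ) by ring, Real.rpow_add hm0, Real.rpow_one]
    have e2 : min c (c ^ 2 / (4 * C2)) * p * r ≤ c * p * r := by
      have : 0 ≤ p * r := by positivity
      have h' := mul_le_mul_of_nonneg_right (min_le_left c (c ^ 2 / (4 * C2))) this
      linarith
    refine le_trans e2 ?_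
    have e3 : c * p * r * N ≤ m * m ^ (1 + δ) * N := by
      calc c * p * r * N = c * (p * N) * r := by ring
        _ ≤ τ * m ^ (1 + δ) * r := mul_le_mul_of_nonneg_right hcp hRR0
        _ = τ * r * m ^ (1 + δ) := by ring
        _ ≤ TT lam τ * m ^ (1 + δ) := mul_le_mul_of_nonneg_right hRRτ hmd0.le
        _ = T * m ^ (1 + δ) * N := by rw [hTN]; ring
        _ ≤ m * m ^ (1 + δ) * N := by
            refine mul_le_mul_of_nonneg_right ?_ hN0.le
            exact mul_le_mul_of_nonneg_right hmT hmd0.le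
    rw [e1]
    exact le_of_mul_le_mul_right e3 hN0
  · linarith
  · -- c' N T^2 ≤ nU m^(2+2δ)
    have e1 : m ^ (2 + 2 * δ) = (m ^ (1 + δ)) ^ 2 := by
      rw [show 2 + 2 * δ = (1 + δ) * 2 by ring, Real.rpow_mul hm0.le,
        show (2 : ℝ) = ((2 : ℕ) : ℝ) by norm_num, Real.rpow_natCast]
    rw [e1]
    set w : ℝ := m ^ (1 + δ) with hw
    have e2 : (c * (p * N)) ^ 2 ≤ (τ * w) ^ 2 :=
      pow_le_pow_left₀ (by positivity) hcp 2
    have e3 : N ^ 2 * (T / 2) ^ 2 * τ ^ 2 ≤ C2 * p ^ 2 * N ^ 3 * (U.card : ℝ) :=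
      le_trans hflat (mul_le_mul_of_nonneg_right hreg hU0)
    have e4 : N ^ 2 * (T / 2) ^ 2 * (c * (p * N)) ^ 2
        ≤ C2 * p ^ 2 * N ^ 3 * (U.card : ℝ) * w ^ 2 := by
      calc N ^ 2 * (T / 2) ^ 2 * (c * (p * N)) ^ 2 ≤ N ^ 2 * (T / 2) ^ 2 * (τ * w) ^ 2 :=
            mul_le_mul_of_nonneg_left e2 (by positivity)
        _ = N ^ 2 * (T / 2) ^ 2 * τ ^ 2 * w ^ 2 := by ring
        _ ≤ C2 * p ^ 2 * N ^ 3 * (U.card : ℝ) * w ^ 2 :=
            mul_le_mul_of_nonneg_right e3 (by positivity)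
    have e5 : c ^ 2 / (4 * C2) * N * T ^ 2 ≤ (U.card : ℝ) * w ^ 2 := by
      have hpos : 0 < C2 * p ^ 2 * N ^ 3 := by positivity
      have : C2 * p ^ 2 * N ^ 3 * (c ^ 2 / (4 * C2) * N * T ^ 2)
          ≤ C2 * p ^ 2 * N ^ 3 * ((U.card : ℝ) * w ^ 2) := by
        calc C2 * p ^ 2 * N ^ 3 * (c ^ 2 / (4 * C2) * N * T ^ 2)
            = N ^ 2 * (T / 2) ^ 2 * (c * (p * N)) ^ 2 := by field_simp; norm_num
          _ ≤ C2 * p ^ 2 * N ^ 3 * (U.card : ℝ) * w ^ 2 := e4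
          _ = _ := by ring
      exact le_of_mul_le_mul_left this hpos
    refine le_trans ?_ e5
    have h' := mul_le_mul_of_nonneg_right (min_le_right c (c ^ 2 / (4 * C2)))
      (show 0 ≤ N * T ^ 2 by positivity)
    linarith
  · intro j hj hjj
    have hcard : 1 ≤ U.card := by
      by_contra hcon
      have h0 : U.card = 0 := by omega
      rw [h0] at hjj
      have hrpos : 0 < r := lt_of_lt_of_le hTpos hTr
      have : 0 < K ^ 2 * r ^ j := by positivity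
      simp at hjj
      linarith
    have := h4 V A K (T / 2) τ lam v hctx.adj hctx.low hsp hK hτ (by positivity)
      (by rw [← hr]; linarith) j hj hcard
    rw [← hU, ← hr, show T / 2 / 2 = T / 4 by ring] at this
    exact this hjj
  · refine le_trans ?_ hbig
    exact mul_le_mul_of_nonneg_right (le_max_left _ _) hKE0

end Pool.Agent.HTwo
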