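import Pool.Agent.HTwo.Targets
import Pool.Agent.HLow.SPEC
import Pool.Agent.HLow.CUBE
import Pool.Agent.HLow.DNA
import Pool.Agent.HLow.DNB
import Pool.Agent.HLow.DENSE

set_option autoImplicit false

namespace Pool.Agent.HTwo

open Finset Pool.Agent.HLow

/-- Markov: in a graph with few non-adjacent pairs, most vertices have few non-neighbours -/
lemma NCL_markov {V : Type} [Fintype V] [DecidableEq V] (A : V → V → ℝ) (K : ℝ) (hA : Adj A)
    (hK : 1 ≤ K)
    (hE : (Fintype.card V : ℝ) ^ 2 - ee A univ univ ≤ 5 * K ^ 3 * (Fintype.card V : ℝ)) :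
    ∃ W : Finset V, (Fintype.card V : ℝ) / 2 ≤ (W.card : ℝ) ∧
      ∀ u ∈ W, ((univ.filter (fun z => A u z = 0)).card : ℝ) ≤ 10 * K ^ 3 := by
  classical
  set N : ℝ := (Fintype.card V : ℝ) with hN
  have hK3 : 0 < K ^ 3 := by positivity
  set W : Finset V := univ.filter (fun u => N - ((nb A u).card : ℝ) ≤ 10 * K ^ 3) with hW
  have hsum : ∑ u : V, (N - ((nb A u).card : ℝ)) = N ^ 2 - ee A univ univ := by
    rw [sum_sub_distrib, sum_const, card_univ, nsmul_eq_mul, ← hN]
    unfold ee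
    rw [sum_congr rfl (fun u _ => hA.deg u)]
    ring
  have hpos : ∀ u : V, 0 ≤ N - ((nb A u).card : ℝ) := by
    intro u
    rw [hN, ← DNB_card hA u]
    positivity
  have hWc : (10 * K ^ 3) * ((univ \ W).card : ℝ) ≤ 5 * K ^ 3 * N := by
    have h1 : (10 * K ^ 3) * ((univ \ W).card : ℝ) ≤ ∑ u ∈ univ \ W, (N - ((nb A u).card : ℝ)) := by
      rw [mul_comm, ← nsmul_eq_mul]
      refine card_nsmul_le_sum _ _ _ ?_
      intro u hu
      rw [mem_sdiff, hW, mem_filter] at hu
      have := hu.2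
      push Not at this
      exact (this (mem_univ _)).le
    have h2 : ∑ u ∈ univ \ W, (N - ((nb A u).card : ℝ)) ≤ ∑ u : V, (N - ((nb A u).card : ℝ)) :=
      sum_le_sum_of_subset_of_nonneg (subset_univ _) (fun u _ _ => hpos u)
    linarith
  have hWN : N / 2 ≤ (W.card : ℝ) := by
    have h1 : (univ \ W).card + W.card = Fintype.card V := by
      rw [card_sdiff_add_card_eq_card (subset_univ _), card_univ]
    have h2 : ((univ \ W).card : ℝ) + (W.card : ℝ) = N := by rw [hN]; exact_mod_cast h1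
    have h3 : ((univ \ W).card : ℝ) ≤ N / 2 := by
      by_contra hlt
      push Not at hlt
      nlinarith
    linarith
  refine ⟨W, hWN, ?_⟩
  intro u hu
  rw [DNB_card hA u, ← hN]
  rw [hW, mem_filter] at hu
  exact hu.2

theorem p_NCL : T_NCL := by
  classical
  have h1 : T_DNA := p_DNA (p_CUBE p_SPEC)
  intro V _ _ A K hA hL hK hN hE
  set N : ℝ := (Fintype.card V : ℝ) with hNdef
  have hK3 : 1 ≤ K ^ 3 := one_le_pow₀ hK
  have hKK3 : K ≤ K ^ 3 := by nlinarith [sq_nonneg (K - 1), hK]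
  have hNpos : 0 < N := by linarith
  -- the good vertices
  set S : Finset V := univ.filter (fun u => N - ((nb A u).card : ℝ) ≤ N / 20) with hS
  have hEsum : ee A univ univ = ∑ u, ((nb A u).card : ℝ) := by
    unfold ee
    exact Finset.sum_congr rfl fun u _ => hA.deg u
  have hdegle : ∀ u, ((nb A u).card : ℝ) ≤ N := by
    intro u
    rw [hNdef]
    exact_mod_cast Finset.card_le_univ _
  have hdef : ∑ u : V, (N - ((nb A u).card : ℝ)) ≤ N ^ 2 / 400 := by
    rw [Finset.sum_sub_distrib, ← hEsum, Finset.sum_const, Finset.card_univ, nsmul_eq_mul,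
      ← hNdef]
    nlinarith
  have hmem : ∀ u, u ∈ S ↔ N - ((nb A u).card : ℝ) ≤ N / 20 := by
    intro u
    rw [hS, Finset.mem_filter]
    exact ⟨fun h => h.2, fun h => ⟨Finset.mem_univ _, h⟩⟩
  have hScompl : ((Sᶜ).card : ℝ) ≤ N / 20 := by
    have h3 : ((Sᶜ).card : ℝ) * (N / 20) ≤ ∑ u : V, (N - ((nb A u).card : ℝ)) := by
      calc ((Sᶜ).card : ℝ) * (N / 20)
          = ∑ u ∈ Sᶜ, (N / 20) := by
            rw [Finset.sum_const, nsmul_eq_mul]
        _ ≤ ∑ u ∈ Sᶜ, (N - ((nb A u).card : ℝ)) := by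
            refine Finset.sum_le_sum fun u hu => ?_
            rw [Finset.mem_compl, hmem] at hu
            exact (not_le.1 hu).le
        _ ≤ ∑ u : V, (N - ((nb A u).card : ℝ)) :=
            Finset.sum_le_univ_sum_of_nonneg fun u => by linarith [hdegle u]
    have h4 := h3.trans hdef
    have h5 : 0 < N / 20 := by positivity
    by_contra hcon
    rw [not_le] at hcon
    have h6 : N / 20 * (N / 20) < ((Sᶜ).card : ℝ) * (N / 20) :=
      mul_lt_mul_of_pos_right hcon h5
    nlinarith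
  have hcard : (S.card : ℝ) + ((Sᶜ).card : ℝ) = N := by
    rw [Finset.card_compl, Nat.cast_sub (Finset.card_le_univ S), ← hNdef]
    ring
  have hSge : 19 / 20 * N ≤ (S.card : ℝ) := by linarith
  -- the subtype
  have hcW : (Fintype.card {u // u ∈ S} : ℝ) = (S.card : ℝ) := by
    rw [Fintype.card_coe]
  have hA' : Adj (fun u v : {u // u ∈ S} => A u.1 v.1) :=
    ⟨fun u v => hA.zo _ _, fun u v => hA.sym _ _, fun u => hA.dg _⟩
  have hL' := DENSE_low S hL
  have hdeg' : ∀ u : {u // u ∈ S}, ((nb A u.1).card : ℝ) ≤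
      ((nb (fun u v : {u // u ∈ S} => A u.1 v.1) u).card : ℝ) + (N - (S.card : ℝ)) := by
    intro u
    rw [← hA'.deg u, ← hA.deg u.1, DENSE_sum S fun v => A u.1 v]
    have h3 : ∑ v, A u.1 v = ∑ v ∈ S, A u.1 v + ∑ v ∈ Sᶜ, A u.1 v :=
      (Finset.sum_add_sum_compl S _).symm
    have h4 : ∑ v ∈ Sᶜ, A u.1 v ≤ ∑ v ∈ Sᶜ, (1 : ℝ) :=
      Finset.sum_le_sum fun v _ => hA.le_one _ _
    have h5 : ∑ v ∈ Sᶜ, (1 : ℝ) = N - (S.card : ℝ) := by
      rw [Finset.sum_const, nsmul_eq_mul, mul_one, Finset.card_compl,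
        Nat.cast_sub (Finset.card_le_univ S), ← hNdef]
    linarith
  have hb1 : 100 * K ≤ (Fintype.card {u // u ∈ S} : ℝ) := by
    rw [hcW]
    linarith
  have hb2 : ∀ u : {u // u ∈ S}, (Fintype.card {u // u ∈ S} : ℝ) -
      ((nb (fun u v : {u // u ∈ S} => A u.1 v.1) u).card : ℝ) ≤
      (Fintype.card {u // u ∈ S} : ℝ) / 19 := by
    intro u
    rw [hcW]
    have h3 := hdeg' u
    have h4 : N - ((nb A u.1).card : ℝ) ≤ N / 20 := (hmem u.1).1 u.2
    linarith
  have h3 := h1 {u // u ∈ S} (fun u v => A u.1 v.1) K hA' hL' hK hb1 hb2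
  obtain ⟨W, hW1, hW2⟩ := NCL_markov (fun u v : {u // u ∈ S} => A u.1 v.1) K hA' hK h3
  rw [hcW] at hW1
  refine ⟨W.map (Function.Embedding.subtype _), ?_, ?_⟩
  · rw [Finset.card_map]
    linarith
  · intro u hu
    rw [Finset.mem_map] at hu
    obtain ⟨u', hu', rfl⟩ := hu
    refine le_trans ?_ (hW2 u' hu')
    have h5 : ((W.map (Function.Embedding.subtype _)).filter
        (fun z => A ((Function.Embedding.subtype _) u') z = 0)).card ≤
        (univ.filter (fun z : {u // u ∈ S} => A u'.1 z.1 = 0)).card := by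
      rw [Finset.filter_map, Finset.card_map]
      refine Finset.card_le_card ?_
      intro z hz
      rw [Finset.mem_filter] at hz ⊢
      exact ⟨Finset.mem_univ _, hz.2⟩
    exact_mod_cast h5

end Pool.Agent.HTwo
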