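import Mathlib
import Pool.Agent.HTwo.Targets

set_option autoImplicit false

/-!
# NREG: near regularity (dyadic sum)
-/

namespace Pool.Agent.HTwo

open Finset Pool.Agent.HLow

lemma NREG_dyad (d s : ℝ) (hd : 0 ≤ d) (_hs : 0 ≤ s) : ∀ n : ℕ, d ≤ 2 ^ n * s →
    d ^ 2 ≤ s ^ 2 + ∑ k ∈ range n, (if 2 ^ k * s ≤ d then 4 ^ (k + 1) * s ^ 2 else 0) := by
  intro n
  induction n with
  | zero =>
    intro h
    rw [pow_zero, one_mul] at h
    rw [range_zero, sum_empty, add_zero]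
    exact pow_le_pow_left₀ hd h 2
  | succ n ih =>
    intro h
    rw [sum_range_succ]
    have hnn : 0 ≤ ∑ k ∈ range n, (if 2 ^ k * s ≤ d then 4 ^ (k + 1) * s ^ 2 else (0 : ℝ)) := by
      refine sum_nonneg fun k _ => ?_
      split_ifs
      · positivity
      · exact le_rfl
    by_cases h1 : 2 ^ n * s ≤ d
    · rw [if_pos h1]
      have h2 : d ^ 2 ≤ (2 ^ (n + 1) * s) ^ 2 := pow_le_pow_left₀ hd h 2
      have h3 : ((2 : ℝ) ^ (n + 1) * s) ^ 2 = 4 ^ (n + 1) * s ^ 2 := by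
        rw [mul_pow, ← pow_mul, mul_comm (n + 1) 2, pow_mul]
        norm_num
      rw [h3] at h2
      have h4 : 0 ≤ s ^ 2 := sq_nonneg s
      linarith
    · rw [if_neg h1]
      push Not at h1
      have := ih h1.le
      linarith

lemma NREG_geo (r : ℝ) (h0 : 0 ≤ r) (h1 : r < 1) (n : ℕ) :
    ∑ k ∈ range n, r ^ k ≤ 1 / (1 - r) := by
  have h2 : 0 < 1 - r := by linarith
  rw [le_div_iff₀ h2]
  have h3 := geom_sum_mul_neg r n
  rw [h3]
  have : 0 ≤ r ^ n := pow_nonneg h0 n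
  linarith

theorem p_NREG (hUH : T_UH) : T_NREG := by
  intro a ha
  set r : ℝ := (4 : ℝ) ^ (1 - a) with hr
  have hr0 : 0 < r := Real.rpow_pos_of_pos (by norm_num) _
  have hr1 : r < 1 := by
    rw [hr]
    exact Real.rpow_lt_one_of_one_lt_of_neg (by norm_num) (by linarith)
  have hlog2 : 0 < Real.log 2 := Real.log_pos (by norm_num)
  have ha1 : 0 < a - 1 := by linarith
  refine ⟨1 + 4 ^ (a + 1) * (1 / (1 - r)) + 16 * (1 + 1 / ((a - 1) * Real.log 2)), ?_, ?_⟩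
  · have h1 : 0 ≤ (4 : ℝ) ^ (a + 1) * (1 / (1 - r)) := by
      have : 0 < 1 - r := by linarith
      positivity
    have h2 : 0 ≤ 16 * (1 + 1 / ((a - 1) * Real.log 2)) := by positivity
    linarith
  intro V _ _ A K p hctx hKp
  have hp := hctx.hp
  have hp1 := hctx.p_le
  set N : ℝ := (Fintype.card V : ℝ) with hN
  have hN1 : 1 ≤ N := by rw [hN]; exact_mod_cast hctx.hN
  have hN0 : 0 < N := by linarith
  have hK1 := hctx.hK
  have hpa : p ^ a ≤ p := by
    have := Real.rpow_le_rpow_of_exponent_ge hp hp1 ha.le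
    rwa [Real.rpow_one] at this
  have hKpN : K ≤ p * N := hKp.trans (mul_le_mul_of_nonneg_right hpa hN0.le)
  -- the number of levels
  obtain ⟨n0, hn1, hn2⟩ : ∃ n0 : ℕ, 1 / p ≤ 2 ^ n0 ∧ (n0 : ℝ) ≤ Real.log (1 / p) / Real.log 2 + 1 := by
    have hq : 1 ≤ 1 / p := by rw [le_div_iff₀ hp]; linarith
    have hq0 : 0 ≤ Real.log (1 / p) / Real.log 2 := div_nonneg (Real.log_nonneg hq) hlog2.le
    refine ⟨⌈Real.log (1 / p) / Real.log 2⌉₊, ?_, (Nat.ceil_lt_add_one hq0).le⟩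
    have h1 := Nat.le_ceil (Real.log (1 / p) / Real.log 2)
    rw [div_le_iff₀ hlog2] at h1
    have h2 : Real.log (1 / p) ≤ Real.log (2 ^ ⌈Real.log (1 / p) / Real.log 2⌉₊) := by
      rw [Real.log_pow]
      exact h1
    exact (Real.log_le_log_iff (by linarith) (by positivity)).1 h2
  set s : ℝ := p * N with hs
  have hs0 : 0 < s := by positivity
  have hdN : ∀ u : V, ((nb A u).card : ℝ) ≤ 2 ^ n0 * s := by
    intro u
    have h1 : ((nb A u).card : ℝ) ≤ N := by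
      rw [hN]
      exact_mod_cast card_le_univ _
    have h2 : N ≤ 2 ^ n0 * s := by
      have h3 : 1 ≤ 2 ^ n0 * p := by
        rw [div_le_iff₀ hp] at hn1
        exact hn1
      calc N = 1 * N := (one_mul N).symm
        _ ≤ (2 ^ n0 * p) * N := mul_le_mul_of_nonneg_right h3 hN0.le
        _ = 2 ^ n0 * s := by rw [hs]; ring
    exact h1.trans h2
  have hsum : ∑ u : V, ((nb A u).card : ℝ) ^ 2 ≤ N * s ^ 2 + ∑ k ∈ range n0,
      4 ^ (k + 1) * s ^ 2 *
        ((univ.filter (fun u => (2 : ℝ) ^ k * p * N ≤ ((nb A u).card : ℝ))).card : ℝ) := by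
    calc ∑ u : V, ((nb A u).card : ℝ) ^ 2
        ≤ ∑ u : V, (s ^ 2 + ∑ k ∈ range n0,
          (if 2 ^ k * s ≤ ((nb A u).card : ℝ) then 4 ^ (k + 1) * s ^ 2 else 0)) :=
          sum_le_sum fun u _ => NREG_dyad _ s (Nat.cast_nonneg _) hs0.le n0 (hdN u)
      _ = N * s ^ 2 + ∑ k ∈ range n0, ∑ u : V,
          (if 2 ^ k * s ≤ ((nb A u).card : ℝ) then 4 ^ (k + 1) * s ^ 2 else 0) := by
          rw [sum_add_distrib, sum_comm, sum_const, card_univ, nsmul_eq_mul]
      _ = _ := by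
          congr 1
          refine sum_congr rfl fun k _ => ?_
          rw [← sum_filter, sum_const, nsmul_eq_mul, mul_comm]
          have h1 : (2 : ℝ) ^ k * s = 2 ^ k * p * N := by rw [hs]; ring
          rw [h1]
  have hterm : ∀ k ∈ range n0, 4 ^ (k + 1) * s ^ 2 *
        ((univ.filter (fun u => (2 : ℝ) ^ k * p * N ≤ ((nb A u).card : ℝ))).card : ℝ)
      ≤ 4 ^ (a + 1) * s ^ 2 * N * r ^ k + 16 * p * K * N ^ 2 := by
    intro k _
    have h1 := hUH V A K p a hctx hKpN (2 ^ k) (by positivity)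
    have hsq : ((2 : ℝ) ^ k) ^ 2 = 4 ^ k := by
      rw [← pow_mul, mul_comm k 2, pow_mul]
      norm_num
    rw [hsq] at h1
    have h4k : (0 : ℝ) < 4 ^ k := by positivity
    have hA : 4 ^ (k + 1) * s ^ 2 * ((4 / 4 ^ k) ^ a * N) = 4 ^ (a + 1) * s ^ 2 * N * r ^ k := by
      have e1 : ((4 : ℝ) / 4 ^ k) ^ a = 4 ^ a * ((4 : ℝ) ^ (-a)) ^ k := by
        rw [Real.div_rpow (by norm_num) h4k.le, ← Real.rpow_natCast (4 : ℝ) k,
          ← Real.rpow_mul (by norm_num), ← Real.rpow_natCast ((4 : ℝ) ^ (-a)) k,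
          ← Real.rpow_mul (by norm_num), div_eq_mul_inv, ← Real.rpow_neg (by norm_num)]
        congr 2
        ring
      have e2 : r ^ k = 4 ^ k * ((4 : ℝ) ^ (-a)) ^ k := by
        rw [hr, sub_eq_add_neg, Real.rpow_add (by norm_num), Real.rpow_one, mul_pow]
      have e3 : (4 : ℝ) ^ (a + 1) = 4 ^ a * 4 := by
        rw [Real.rpow_add (by norm_num), Real.rpow_one]
      rw [e1, e2, e3, pow_succ]
      ring
    have hB : 4 ^ (k + 1) * s ^ 2 * (4 * K / (4 ^ k * p)) = 16 * p * K * N ^ 2 := by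
      rw [hs, pow_succ]
      field_simp
      ring
    have hpos1 : 0 ≤ 4 ^ (a + 1) * s ^ 2 * N * r ^ k := by positivity
    have hpos2 : 0 ≤ 16 * p * K * N ^ 2 := by positivity
    have hpos3 : 0 ≤ (4 : ℝ) ^ (k + 1) * s ^ 2 := by positivity
    rcases h1 with h1 | h1
    · have := mul_le_mul_of_nonneg_left h1 hpos3
      rw [hA] at this
      linarith
    · have := mul_le_mul_of_nonneg_left h1 hpos3
      rw [hB] at this
      linarith
  have hfin := sum_le_sum hterm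
  rw [sum_add_distrib, ← mul_sum, sum_const, card_range, nsmul_eq_mul] at hfin
  have hgeo := NREG_geo r hr0.le hr1 n0
  have hP : 0 ≤ 4 ^ (a + 1) * s ^ 2 * N := by positivity
  have hgeo2 := mul_le_mul_of_nonneg_left hgeo hP
  -- the last term
  have hlast : (n0 : ℝ) * (16 * p * K * N ^ 2)
      ≤ 16 * (1 + 1 / ((a - 1) * Real.log 2)) * (p ^ 2 * N ^ 3) := by
    have e1 : (n0 : ℝ) * (16 * p * K * N ^ 2) ≤ (n0 : ℝ) * (16 * p * (p ^ a * N) * N ^ 2) := by
      apply mul_le_mul_of_nonneg_left _ (Nat.cast_nonneg _)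
      apply mul_le_mul_of_nonneg_right _ (by positivity)
      exact mul_le_mul_of_nonneg_left hKp (by positivity)
    have e2 : p ^ a = p * p ^ (a - 1) := by
      rw [mul_comm, ← Real.rpow_add_one hp.ne']
      congr 1
      ring
    have e3 : (n0 : ℝ) * p ^ (a - 1) ≤ 1 + 1 / ((a - 1) * Real.log 2) := by
      have hpp : 0 < p ^ (a - 1) := Real.rpow_pos_of_pos hp _
      have hpp1 : p ^ (a - 1) ≤ 1 := Real.rpow_le_one hp.le hp1 ha1.le
      have f1 : (n0 : ℝ) * p ^ (a - 1) ≤ (Real.log (1 / p) / Real.log 2 + 1) * p ^ (a - 1) :=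
        mul_le_mul_of_nonneg_right hn2 hpp.le
      have f2 : Real.log (1 / p) ≤ (1 / p) ^ (a - 1) / (a - 1) :=
        Real.log_le_rpow_div (by positivity) ha1
      have f3 : (1 / p) ^ (a - 1) * p ^ (a - 1) = 1 := by
        rw [← Real.mul_rpow (by positivity) hp.le, one_div_mul_cancel hp.ne', Real.one_rpow]
      have f4 : Real.log (1 / p) * p ^ (a - 1) ≤ 1 / (a - 1) := by
        calc Real.log (1 / p) * p ^ (a - 1) ≤ (1 / p) ^ (a - 1) / (a - 1) * p ^ (a - 1) :=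
              mul_le_mul_of_nonneg_right f2 hpp.le
          _ = ((1 / p) ^ (a - 1) * p ^ (a - 1)) / (a - 1) := by ring
          _ = 1 / (a - 1) := by rw [f3]
      have f5 : Real.log (1 / p) / Real.log 2 * p ^ (a - 1) ≤ 1 / ((a - 1) * Real.log 2) := by
        calc Real.log (1 / p) / Real.log 2 * p ^ (a - 1)
            = (Real.log (1 / p) * p ^ (a - 1)) / Real.log 2 := by ring
          _ ≤ (1 / (a - 1)) / Real.log 2 := div_le_div_of_nonneg_right f4 hlog2.le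
          _ = 1 / ((a - 1) * Real.log 2) := by rw [div_div]
      calc (n0 : ℝ) * p ^ (a - 1)
          ≤ (Real.log (1 / p) / Real.log 2 + 1) * p ^ (a - 1) := f1
        _ = Real.log (1 / p) / Real.log 2 * p ^ (a - 1) + p ^ (a - 1) := by ring
        _ ≤ 1 + 1 / ((a - 1) * Real.log 2) := by linarith
    calc (n0 : ℝ) * (16 * p * K * N ^ 2) ≤ (n0 : ℝ) * (16 * p * (p ^ a * N) * N ^ 2) := e1
      _ = 16 * ((n0 : ℝ) * p ^ (a - 1)) * (p ^ 2 * N ^ 3) := by rw [e2]; ring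
      _ ≤ 16 * (1 + 1 / ((a - 1) * Real.log 2)) * (p ^ 2 * N ^ 3) := by
          apply mul_le_mul_of_nonneg_right _ (by positivity)
          exact mul_le_mul_of_nonneg_left e3 (by norm_num)
  calc ∑ u : V, ((nb A u).card : ℝ) ^ 2
      ≤ N * s ^ 2 + ∑ k ∈ range n0, 4 ^ (k + 1) * s ^ 2 *
        ((univ.filter (fun u => (2 : ℝ) ^ k * p * N ≤ ((nb A u).card : ℝ))).card : ℝ) := hsum
    _ ≤ N * s ^ 2 + (4 ^ (a + 1) * s ^ 2 * N * (1 / (1 - r))
        + 16 * (1 + 1 / ((a - 1) * Real.log 2)) * (p ^ 2 * N ^ 3)) := by linarith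
    _ = (1 + 4 ^ (a + 1) * (1 / (1 - r)) + 16 * (1 + 1 / ((a - 1) * Real.log 2)))
        * p ^ 2 * N ^ 3 := by
        rw [hs]; ring

end Pool.Agent.HTwo
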