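import Pool.Agent.HTwo.Targets

set_option autoImplicit false

/-! HTW-NUM1: the exponents of the first stage (real numbers only). -/

namespace Pool.Agent.HTwo

/-- the choice of `δ` -/
lemma NUM1_delta (a ε : ℝ) (ha : 1 < a) (hε : 0 < ε) : ∃ δ : ℝ, 0 < δ ∧ δ ≤ 1 / 4 ∧
    δ ≤ (a - 1) / a / 2 ∧ δ ≤ (a - 1) / 3 ∧ 4 * δ ≤ ε / 2 ∧
    δ + 1 / ((a - 1) / a - δ) ≤ 1 / ((a - 1) / a) + ε / 2 := by
  set β : ℝ := (a - 1) / a with hβ
  have hβ0 : 0 < β := div_pos (by linarith) (by linarith)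
  have h1 : 0 < (ε / 2) / (1 + 2 / β ^ 2) := by positivity
  refine ⟨min (1 / 4) (min (β / 2) (min ((a - 1) / 3) (min (ε / 8)
    ((ε / 2) / (1 + 2 / β ^ 2))))), ?_, min_le_left _ _, ?_, ?_, ?_, ?_⟩
  · refine lt_min (by norm_num) (lt_min (by linarith) (lt_min (by linarith)
      (lt_min (by linarith) h1)))
  · exact (min_le_right _ _).trans (min_le_left _ _)
  · exact (min_le_right _ _).trans ((min_le_right _ _).trans (min_le_left _ _))
  · have : min (1 / 4) (min (β / 2) (min ((a - 1) / 3) (min (ε / 8)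
        ((ε / 2) / (1 + 2 / β ^ 2))))) ≤ ε / 8 :=
      (min_le_right _ _).trans ((min_le_right _ _).trans ((min_le_right _ _).trans
        (min_le_left _ _)))
    linarith
  · set δ := min (1 / 4) (min (β / 2) (min ((a - 1) / 3) (min (ε / 8)
        ((ε / 2) / (1 + 2 / β ^ 2))))) with hδ
    have hδ0 : 0 < δ := lt_min (by norm_num) (lt_min (by linarith) (lt_min (by linarith)
      (lt_min (by linarith) h1)))
    have h2 : δ ≤ β / 2 := (min_le_right _ _).trans (min_le_left _ _)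
    have h3 : δ ≤ (ε / 2) / (1 + 2 / β ^ 2) :=
      (min_le_right _ _).trans ((min_le_right _ _).trans ((min_le_right _ _).trans
        (min_le_right _ _)))
    rw [le_div_iff₀ (by positivity)] at h3
    have h4 : 1 / (β - δ) ≤ 1 / β + δ * (2 / β ^ 2) := by
      have h5 : 0 < β - δ := by linarith
      rw [div_le_iff₀ h5]
      have h6 : (1 / β + δ * (2 / β ^ 2)) * (β - δ) = 1 + δ * (β - 2 * δ) / β ^ 2 := by
        field_simp
        ring
      rw [h6]
      have : 0 ≤ δ * (β - 2 * δ) / β ^ 2 := by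
        apply div_nonneg (mul_nonneg hδ0.le (by linarith)) (by positivity)
      linarith
    linarith

/-- the final inequality -/
lemma NUM1_fin (a ε δ g x k q Λ y E lC : ℝ) (ha : 1 < a) (hδ0 : 0 < δ)
    (hδ4 : δ ≤ 1 / 4) (hδa : δ ≤ (a - 1) / 3) (hδε : 4 * δ ≤ ε / 2) (hg0 : 0 < g)
    (hg : a ≤ (a - 1) * g) (hE1 : 3 + δ + g + ε / 2 ≤ E) (hE2 : 4 + ε ≤ E)
    (hΛ : 0 < Λ) (hq : 0 ≤ q) (hy : 1 ≤ y) (hx0 : 0 ≤ x) (hxk : x ≤ k)
    (hqx : q ≤ g * (x + Λ)) (hyx : y * x ≤ k + y * Λ)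
    (hky : y * (Λ * (5 + 3 * g)) ≤ ε / 2 * k) (hC : 0 ≤ lC)
    (h : lC + E * k < 2 * k + Λ + 2 * δ * x + (y + 1) * (Λ + (1 + δ) * x) + (y + 1 - a) * q) :
    False := by
  have hk0 : 0 ≤ k := hx0.trans hxk
  have hyx0 : 0 ≤ y * x := by positivity
  rcases le_total a (y + 1) with hc | hc
  · have h1 : (y + 1 - a) * q ≤ (y + 1 - a) * (g * (x + Λ)) :=
      mul_le_mul_of_nonneg_left hqx (by linarith)
    have h2 : (1 + 3 * δ + (1 - a) * g) * x ≤ 0 := by
      apply mul_nonpos_of_nonpos_of_nonneg _ hx0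
      nlinarith
    have h3 : (y * x) * (1 + δ + g) ≤ (k + y * Λ) * (1 + δ + g) :=
      mul_le_mul_of_nonneg_right hyx (by linarith)
    have h4 : (3 + δ + g + ε / 2) * k ≤ E * k := mul_le_mul_of_nonneg_right hE1 hk0
    have h5 : 0 ≤ a * g * Λ := by positivity
    -- Λ (y + 2) + (y + 1) g Λ + y Λ (1 + δ + g) ≤ y Λ (5 + 3 g)
    have h6 : Λ * (y + 2) + (y + 1) * g * Λ + y * Λ * (1 + δ + g) ≤ y * (Λ * (5 + 3 * g)) := by
      have e1 : 0 ≤ Λ * (y - 1) := mul_nonneg hΛ.le (by linarith)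
      have e2 : 0 ≤ g * (Λ * (y - 1)) := mul_nonneg hg0.le e1
      have e3 : 0 ≤ y * Λ * (1 / 4 - δ) := mul_nonneg (by positivity) (by linarith)
      have e4 : 0 ≤ y * Λ := by positivity
      linarith
    linarith
  · have h1 : (y + 1 - a) * q ≤ 0 := mul_nonpos_of_nonpos_of_nonneg (by linarith) hq
    have h2 : (4 + ε) * k ≤ E * k := mul_le_mul_of_nonneg_right hE2 hk0
    have h3 : (y * x) * (1 + δ) ≤ (k + y * Λ) * (1 + δ) :=
      mul_le_mul_of_nonneg_right hyx (by linarith)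
    have h4 : (1 + 3 * δ) * x ≤ (1 + 3 * δ) * k := mul_le_mul_of_nonneg_left hxk (by linarith)
    have h5 : 4 * δ * k ≤ ε / 2 * k := mul_le_mul_of_nonneg_right hδε hk0
    have h6 : Λ * (y + 2) + y * Λ * (1 + δ) ≤ y * (Λ * (5 + 3 * g)) := by
      have e1 : 0 ≤ Λ * (y - 1) := mul_nonneg hΛ.le (by linarith)
      have e2 : 0 ≤ y * Λ * g := by positivity
      have e3 : 0 ≤ y * Λ * (1 / 4 - δ) := mul_nonneg (by positivity) (by linarith)
      have e4 : 0 ≤ y * Λ := by positivity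
      linarith
    nlinarith

theorem p_NUM1 : T_NUM1 := by
  intro a ε ha hε
  obtain ⟨δ, hδ0, hδ4, hδβ, hδa, hδε, hδg⟩ := NUM1_delta a ε ha hε
  refine ⟨δ, hδ0, hδ4, ?_⟩
  intro c hc0 hc1
  have ha0 : 0 < a := by linarith
  have hβ0 : 0 < (a - 1) / a := div_pos (by linarith) ha0
  have hβδ : 0 < (a - 1) / a - δ := by linarith
  set g : ℝ := 1 / ((a - 1) / a - δ) with hgdef
  have hg0 : 0 < g := by positivity
  have hga : a ≤ (a - 1) * g := by
    rw [hgdef, mul_one_div, le_div_iff₀ hβδ, mul_sub, mul_div_cancel₀ _ ha0.ne']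
    nlinarith [mul_pos ha0 hδ0]
  have hE : (4 * a - 3) / (a - 1) = 3 + 1 / ((a - 1) / a) := by
    have : a - 1 ≠ 0 := by linarith
    field_simp
    ring
  have hE' : 1 ≤ 1 / ((a - 1) / a) := by
    rw [le_div_iff₀ hβ0, one_mul, div_le_one ha0]
    linarith
  set E : ℝ := (4 * a - 3) / (a - 1) + ε with hEdef
  have hlc : Real.log c ≤ 0 := Real.log_nonpos hc0.le hc1
  have hl4 : 0 < Real.log 4 := Real.log_pos (by norm_num)
  set Λ : ℝ := Real.log 4 - Real.log c with hΛdef
  have hΛ : 0 < Λ := by linarith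
  set X0 : ℝ := Real.log 4 + 2 * (Λ * (5 + 3 * g)) / ε with hX0
  have hX04 : Real.log 4 < X0 := by
    have : 0 < 2 * (Λ * (5 + 3 * g)) / ε := by positivity
    linarith
  refine ⟨Real.exp (2 * Λ), Real.exp (-(g * (X0 + Λ))), Real.one_le_exp (by linarith),
    Real.exp_pos _, ?_, ?_⟩
  · rw [Real.exp_lt_one_iff]
    have : 0 < g * (X0 + Λ) := mul_pos hg0 (by linarith)
    linarith
  intro p K N T r nU hp0 hp1 hK hN hr hnU hT1 hTK hr2 hTr hn2 hj hCK
  by_contra hpst
  push Not at hpst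
  have hK0 : 0 < K := by linarith
  have hN0 : 0 < N := by linarith
  have hT0 : 0 < T := lt_of_lt_of_le (mul_pos hc0 (Real.rpow_pos_of_pos hp0 _)) hT1
  -- logarithms
  set q : ℝ := -Real.log p with hq
  have hq0 : 0 ≤ q := by
    have := Real.log_nonpos hp0.le hp1
    linarith
  have hqlow : g * (X0 + Λ) < q := by
    have := Real.log_lt_log hp0 hpst
    rw [Real.log_exp] at this
    linarith
  have l1 : Real.log c + ((a - 1) / a - δ) * q ≤ Real.log T := by
    have h := Real.log_le_log (mul_pos hc0 (Real.rpow_pos_of_pos hp0 _)) hT1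
    rw [Real.log_mul hc0.ne' (Real.rpow_pos_of_pos hp0 _).ne', Real.log_rpow hp0] at h
    rw [hq]
    linarith
  have hqx : q ≤ g * (Real.log T + Λ) := by
    rw [hgdef, one_div, ← div_eq_inv_mul, le_div_iff₀ hβδ]
    linarith
  have hxX : X0 < Real.log T := by
    have h2 : g * (X0 + Λ) < g * (Real.log T + Λ) := lt_of_lt_of_le hqlow hqx
    have := lt_of_mul_lt_mul_left h2 hg0.le
    linarith
  have hx4 : Real.log 4 < Real.log T := hX04.trans hxX
  have hT4 : 4 < T := (Real.log_lt_log_iff (by norm_num) hT0).1 hx4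
  have hmax : max T 1 = T := max_eq_left (by linarith)
  rw [hmax] at hr2 hn2
  have hr0 : 0 < r := by linarith
  have hnU0 : 0 < nU := by
    rcases hnU.lt_or_eq with h | h
    · exact h
    · rw [← h, zero_mul] at hn2
      have : 0 < c * N * T ^ 2 := by positivity
      linarith
  have hx0 : 0 ≤ Real.log T := by linarith
  have hxk : Real.log T ≤ Real.log K := Real.log_le_log hT0 hTK
  have l2 : Real.log c - q + Real.log r ≤ (2 + δ) * Real.log T := by
    have h := Real.log_le_log (by positivity) hr2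
    rw [Real.log_mul (by positivity) hr0.ne', Real.log_mul hc0.ne' hp0.ne',
      Real.log_rpow hT0] at h
    rw [hq]
    linarith
  have l3 : Real.log c + Real.log N + 2 * Real.log T ≤
      Real.log nU + (2 + 2 * δ) * Real.log T := by
    have h := Real.log_le_log (by positivity) hn2
    rw [Real.log_mul (by positivity) (by positivity), Real.log_mul hc0.ne' hN0.ne',
      Real.log_pow, Real.log_mul hnU0.ne' (Real.rpow_pos_of_pos hT0 _).ne',
      Real.log_rpow hT0] at h
    push_cast at h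
    linarith
  have l4 : 2 * Λ + E * Real.log K ≤ -(a * q) + Real.log N := by
    have h := Real.log_le_log (mul_pos (Real.exp_pos _) (Real.rpow_pos_of_pos hK0 _)) hCK
    rw [Real.log_mul (Real.exp_pos _).ne' (Real.rpow_pos_of_pos hK0 _).ne', Real.log_exp,
      Real.log_rpow hK0, Real.log_mul (Real.rpow_pos_of_pos hp0 _).ne' hN0.ne',
      Real.log_rpow hp0] at h
    rw [hq]
    linarith
  have hk0 : 0 ≤ Real.log K := hx0.trans hxk
  have hT40 : 0 < T / 4 := by linarith
  have hlT4 : Real.log (T / 4) = Real.log T - Real.log 4 :=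
    Real.log_div hT0.ne' (by norm_num)
  -- the inequality in logarithmic form
  have hiff : ∀ j : ℕ, K ^ 2 * r ^ j ≤ (T / 4) ^ j * nU ↔
      2 * Real.log K + j * Real.log r ≤ j * (Real.log T - Real.log 4) + Real.log nU := by
    intro j
    rw [← Real.log_le_log_iff (by positivity) (by positivity),
      Real.log_mul (by positivity) (by positivity), Real.log_mul (by positivity) hnU0.ne',
      Real.log_pow, Real.log_pow, Real.log_pow, hlT4]
    push_cast
    rfl
  have hex : ∃ j : ℕ, 1 ≤ j ∧ ¬ K ^ 2 * r ^ j ≤ (T / 4) ^ j * nU := by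
    by_contra hcon
    push Not at hcon
    have h1 : ∀ j : ℕ, 1 ≤ j → (T / 4) ^ j ≤ K := fun j h => hj j h (hcon j h)
    obtain ⟨n, hn⟩ := pow_unbounded_of_one_lt K (by linarith : 1 < T / 4)
    have h2 : (T / 4) ^ n ≤ (T / 4) ^ (n + 1) := pow_le_pow_right₀ (by linarith) (Nat.le_succ n)
    have h3 := h1 (n + 1) (by omega)
    linarith
  classical
  have hfind := Nat.find_spec hex
  have hmin := fun m (hm : m < Nat.find hex) => Nat.find_min hex hm
  set j := Nat.find hex with hjdef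
  obtain ⟨hj1, hjn⟩ := hfind
  have hEk : (4 + ε) * Real.log K ≤ E * Real.log K :=
    mul_le_mul_of_nonneg_right (by rw [hEdef, hE]; linarith) hk0
  have hj2 : j ≠ 1 := by
    intro h
    rw [h] at hjn
    apply hjn
    rw [hiff 1]
    push_cast
    have e1 : (1 + 3 * δ) * Real.log T ≤ 2 * Real.log K := by
      have e2 : (1 + 3 * δ) * Real.log T ≤ 2 * Real.log T :=
        mul_le_mul_of_nonneg_right (by linarith) hx0
      linarith
    have e3 : 0 ≤ ε * Real.log K := mul_nonneg hε.le hk0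
    have e4 : 0 ≤ (a - 1) * q := mul_nonneg (by linarith) hq0
    linarith
  obtain ⟨J, hJ⟩ : ∃ J, j = J + 1 := ⟨j - 1, by omega⟩
  have hJ1 : 1 ≤ J := by omega
  have hJK : (T / 4) ^ J ≤ K := by
    have h1 := hmin J (by omega)
    push Not at h1
    exact hj J hJ1 (h1 hJ1)
  have hJlog : (J : ℝ) * (Real.log T - Real.log 4) ≤ Real.log K := by
    have h := Real.log_le_log (by positivity) hJK
    rw [Real.log_pow, hlT4] at h
    exact h
  rw [hJ, hiff (J + 1)] at hjn
  push Not at hjn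
  push_cast at hjn
  have hy : (1 : ℝ) ≤ J := by exact_mod_cast hJ1
  have hl4Λ : Real.log 4 ≤ Λ := by linarith
  refine NUM1_fin a ε δ g (Real.log T) (Real.log K) q Λ J E (2 * Λ) ha hδ0 hδ4 hδa hδε hg0 hga
    ?_ ?_ hΛ hq0 hy hx0 hxk hqx ?_ ?_ (by linarith) ?_
  · rw [hEdef, hE]
    linarith
  · rw [hEdef, hE]
    linarith
  · have : (J : ℝ) * Real.log 4 ≤ J * Λ := mul_le_mul_of_nonneg_left hl4Λ (by linarith)
    linarith
  · have h1 : 2 * (Λ * (5 + 3 * g)) / ε ≤ Real.log T - Real.log 4 := by linarith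
    rw [div_le_iff₀ hε] at h1
    have h2 : (J : ℝ) * (2 * (Λ * (5 + 3 * g))) ≤ J * ((Real.log T - Real.log 4) * ε) :=
      mul_le_mul_of_nonneg_left h1 (by linarith)
    have h3 : ε * ((J : ℝ) * (Real.log T - Real.log 4)) ≤ ε * Real.log K :=
      mul_le_mul_of_nonneg_left hJlog hε.le
    linarith
  · have h1 : ((J : ℝ) + 1) * (Real.log c - q + Real.log r) ≤
        ((J : ℝ) + 1) * ((2 + δ) * Real.log T) :=
      mul_le_mul_of_nonneg_left l2 (by linarith)
    have h2 : -Real.log c ≤ Λ := by linarith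
    rw [hΛdef] at *
    linarith

end Pool.Agent.HTwo
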