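import Pool.Agent.HTwo.Targets

set_option autoImplicit false

/-!
# NUM2: choice of the parameters
-/

namespace Pool.Agent.HTwo

open Finset Pool.Agent.HLow

theorem num2_pow (m : ℝ) (hm : 0 < m) (k : ℕ) (r : ℝ) (h : (k : ℝ) / 36 = r) :
    m ^ r = (m ^ (1 / 36 : ℝ)) ^ k := by
  rw [← Real.rpow_natCast, ← Real.rpow_mul hm.le, ← h]
  congr 1
  ring

theorem num2_sqrt (m : ℝ) (hm : 0 < m) :
    Real.sqrt (m ^ (2 / 3 : ℝ) * m) = (m ^ (1 / 36 : ℝ)) ^ 30 := by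
  have h1 : m ^ (2 / 3 : ℝ) * m = ((m ^ (1 / 36 : ℝ)) ^ 30) ^ 2 := by
    rw [num2_pow m hm 24 (2 / 3) (by norm_num), ← pow_mul]
    nth_rewrite 2 [← Real.rpow_one m]
    rw [num2_pow m hm 36 1 (by norm_num), ← pow_add]
  rw [h1, Real.sqrt_sq (by positivity)]

/-- pure inequalities -/
theorem num2_ineq (C C' L M n γ E d K t q Φ : ℝ) (W R : ℕ) (hC : 1 ≤ C) (hC' : 1 ≤ C')
    (hL : 1 ≤ L) (hM : 1 ≤ M) (hn : 0 < n) (hK : 1 ≤ K) (hd : 1 ≤ d) (hE : 0 < E) (hγ : 0 ≤ γ)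
    (hmE : M ^ 36 ≤ C * L ^ 4 * E) (hdn : d * n ≤ 2 * M ^ 36) (ht1 : 1 ≤ t) (hKt : K ≤ t)
    (ht : t ≤ C' * L ^ 5 * M ^ 3) (hγd : γ * d ≤ 2 * M ^ 36 * t) (hdt : d ≤ 2 * M ^ 12 * t)
    (hWt : (W : ℝ) * t ≤ C' * L ^ 5 * M ^ 18) (hΦ : q = Φ / C)
    (hq : 400 * C ^ 2 * C' * L ^ 75 * (t * M ^ 10) ≤ Φ)
    (hR : (R : ℝ) ≤ 1024 * d * n * M ^ 30 / (q * E) + 1) :
    0 < q ∧ 32768 * d ^ 2 * M ^ 24 ≤ q ^ 2 * E ∧ C * K ^ 2 * ((W : ℝ) + R) * γ * d ≤ q ^ 2 * E := by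
  have hC0 : 0 < C := by linarith
  have hC'0 : 0 < C' := by linarith
  have hL0 : 0 < L := by linarith
  have hM0 : 0 < M := by linarith
  have ht0 : 0 < t := by linarith
  have hd0 : 0 < d := by linarith
  have hK0 : 0 < K := by linarith
  set B : ℝ := 400 * C * C' with hB
  have hBpos : 0 < B := by positivity
  have hqB : B * L ^ 75 * (t * M ^ 10) ≤ q := by
    rw [hΦ, le_div_iff₀ hC0]
    calc B * L ^ 75 * (t * M ^ 10) * C = 400 * C ^ 2 * C' * L ^ 75 * (t * M ^ 10) := by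
          rw [hB]; ring
      _ ≤ Φ := hq
  have hq0 : 0 < q := lt_of_lt_of_le (by positivity) hqB
  have hLp : ∀ k : ℕ, 1 ≤ L ^ k := fun k => one_le_pow₀ hL
  -- lower bound for `q ^ 2 E`
  have hq2 : B ^ 2 * L ^ 150 * (t ^ 2 * M ^ 20) ≤ q ^ 2 := by
    have := pow_le_pow_left₀ (by positivity) hqB 2
    calc B ^ 2 * L ^ 150 * (t ^ 2 * M ^ 20) = (B * L ^ 75 * (t * M ^ 10)) ^ 2 := by ring
      _ ≤ q ^ 2 := this
  have hX : B ^ 2 * L ^ 146 * (t ^ 2 * M ^ 56) ≤ C * (q ^ 2 * E) := by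
    calc B ^ 2 * L ^ 146 * (t ^ 2 * M ^ 56) = (B ^ 2 * L ^ 146 * (t ^ 2 * M ^ 20)) * M ^ 36 := by
          ring
      _ ≤ (B ^ 2 * L ^ 146 * (t ^ 2 * M ^ 20)) * (C * L ^ 4 * E) := by gcongr
      _ = C * (B ^ 2 * L ^ 150 * (t ^ 2 * M ^ 20)) * E := by ring
      _ ≤ C * q ^ 2 * E := by gcongr
      _ = C * (q ^ 2 * E) := by ring
  have hB2 : 160000 * C * C' ^ 2 * L ^ 146 * (t ^ 2 * M ^ 56) ≤ q ^ 2 * E := by
    have e : B ^ 2 * L ^ 146 * (t ^ 2 * M ^ 56) =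
        C * (160000 * C * C' ^ 2 * L ^ 146 * (t ^ 2 * M ^ 56)) := by
      rw [hB]; ring
    rw [e] at hX
    exact le_of_mul_le_mul_left hX hC0
  have hgen : ∀ (c0 : ℝ) (j k : ℕ), 0 ≤ c0 → c0 ≤ 160000 → j ≤ 146 → k ≤ 56 →
      c0 * C * C' * L ^ j * (t ^ 2 * M ^ k) ≤ q ^ 2 * E := by
    intro c0 j k h0 h1 hj hk
    refine le_trans ?_ hB2
    have e1 : L ^ j ≤ L ^ 146 := pow_le_pow_right₀ hL hj
    have e2 : M ^ k ≤ M ^ 56 := pow_le_pow_right₀ hM hk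
    have e3 : C' ≤ C' ^ 2 := by nlinarith
    gcongr
  refine ⟨hq0, ?_, ?_⟩
  · have h1 : d ^ 2 ≤ (2 * M ^ 12 * t) ^ 2 := pow_le_pow_left₀ hd0.le hdt 2
    have h2 : 32768 * d ^ 2 * M ^ 24 ≤ 131072 * (t ^ 2 * M ^ 48) := by
      calc 32768 * d ^ 2 * M ^ 24 ≤ 32768 * (2 * M ^ 12 * t) ^ 2 * M ^ 24 := by gcongr
        _ = 131072 * (t ^ 2 * M ^ 48) := by ring
    have h3 : 131072 * (t ^ 2 * M ^ 48) ≤ 131072 * C * C' * L ^ 0 * (t ^ 2 * M ^ 48) := by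
      have : 1 ≤ C * C' := by nlinarith
      have h4 : 0 ≤ 131072 * (t ^ 2 * M ^ 48) := by positivity
      calc 131072 * (t ^ 2 * M ^ 48) = 131072 * (t ^ 2 * M ^ 48) * 1 := by ring
        _ ≤ 131072 * (t ^ 2 * M ^ 48) * (C * C') := by gcongr
        _ = 131072 * C * C' * L ^ 0 * (t ^ 2 * M ^ 48) := by ring
    exact h2.trans (h3.trans (hgen 131072 0 48 (by norm_num) (by norm_num) (by norm_num)
      (by norm_num)))
  · set X := q ^ 2 * E with hXd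
    have hK2 : K ^ 2 ≤ t ^ 2 := pow_le_pow_left₀ hK0.le hKt 2
    have hγd0 : 0 ≤ γ * d := by positivity
    -- the part with `W`
    have hw : C * K ^ 2 * (W : ℝ) * (γ * d) ≤ X / 2 := by
      have h1 : C * K ^ 2 * (W : ℝ) * (γ * d) ≤ C * t ^ 2 * (W : ℝ) * (2 * M ^ 36 * t) := by
        gcongr
      have h2 : C * t ^ 2 * (W : ℝ) * (2 * M ^ 36 * t) ≤ 2 * C * C' * L ^ 5 * (t ^ 2 * M ^ 54) := by
        calc C * t ^ 2 * (W : ℝ) * (2 * M ^ 36 * t) = 2 * C * t ^ 2 * M ^ 36 * ((W : ℝ) * t) := by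
              ring
          _ ≤ 2 * C * t ^ 2 * M ^ 36 * (C' * L ^ 5 * M ^ 18) := by gcongr
          _ = 2 * C * C' * L ^ 5 * (t ^ 2 * M ^ 54) := by ring
      have h3 := hgen 4 5 54 (by norm_num) (by norm_num) (by norm_num) (by norm_num)
      have h4 : 2 * C * C' * L ^ 5 * (t ^ 2 * M ^ 54) * 2 =
          4 * C * C' * L ^ 5 * (t ^ 2 * M ^ 54) := by ring
      linarith
    -- the part with `1`
    have h1p : C * K ^ 2 * 1 * (γ * d) ≤ X / 4 := by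
      have h1 : C * K ^ 2 * 1 * (γ * d) ≤ C * t ^ 2 * 1 * (2 * M ^ 36 * t) := by
        gcongr
      have h2 : C * t ^ 2 * 1 * (2 * M ^ 36 * t) ≤ 2 * C * C' * L ^ 5 * (t ^ 2 * M ^ 39) := by
        calc C * t ^ 2 * 1 * (2 * M ^ 36 * t) = 2 * C * t ^ 2 * M ^ 36 * t := by
              ring
          _ ≤ 2 * C * t ^ 2 * M ^ 36 * (C' * L ^ 5 * M ^ 3) := by gcongr
          _ = 2 * C * C' * L ^ 5 * (t ^ 2 * M ^ 39) := by ring
      have h3 := hgen 8 5 39 (by norm_num) (by norm_num) (by norm_num) (by norm_num)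
      have h4 : 2 * C * C' * L ^ 5 * (t ^ 2 * M ^ 39) * 4 =
          8 * C * C' * L ^ 5 * (t ^ 2 * M ^ 39) := by ring
      linarith
    -- the part with the quotient
    have hqp : C * K ^ 2 * (1024 * d * n * M ^ 30 / (q * E)) * (γ * d) ≤ X / 4 := by
      have hqE : 0 < q * E := by positivity
      have h1 : C * K ^ 2 * (1024 * d * n * M ^ 30 / (q * E)) * (γ * d) ≤
          4096 * C * (t ^ 3 * M ^ 102) / (q * E) := by
        have e : C * K ^ 2 * (1024 * d * n * M ^ 30 / (q * E)) * (γ * d) =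
            (C * K ^ 2 * (1024 * (d * n) * M ^ 30) * (γ * d)) / (q * E) := by
          ring
        rw [e]
        apply div_le_div_of_nonneg_right _ hqE.le
        calc C * K ^ 2 * (1024 * (d * n) * M ^ 30) * (γ * d)
            ≤ C * t ^ 2 * (1024 * (2 * M ^ 36) * M ^ 30) * (2 * M ^ 36 * t) := by gcongr
          _ = 4096 * C * (t ^ 3 * M ^ 102) := by ring
      refine h1.trans ?_
      rw [div_le_div_iff₀ hqE (by norm_num)]
      -- 4096 C t^3 M^102 * 4 ≤ X * (q E)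
      have hq3 : B ^ 3 * L ^ 225 * (t ^ 3 * M ^ 30) ≤ q ^ 3 := by
        have := pow_le_pow_left₀ (by positivity) hqB 3
        calc B ^ 3 * L ^ 225 * (t ^ 3 * M ^ 30) = (B * L ^ 75 * (t * M ^ 10)) ^ 3 := by ring
          _ ≤ q ^ 3 := this
      have hE2 : M ^ 72 ≤ C ^ 2 * L ^ 8 * E ^ 2 := by
        have := pow_le_pow_left₀ (by positivity) hmE 2
        calc M ^ 72 = (M ^ 36) ^ 2 := by ring
          _ ≤ (C * L ^ 4 * E) ^ 2 := this
          _ = C ^ 2 * L ^ 8 * E ^ 2 := by ring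
      have h2 : B ^ 3 * L ^ 217 * (t ^ 3 * M ^ 102) ≤ C ^ 2 * (q ^ 3 * E ^ 2) := by
        calc B ^ 3 * L ^ 217 * (t ^ 3 * M ^ 102) = (B ^ 3 * L ^ 217 * (t ^ 3 * M ^ 30)) * M ^ 72 := by
              ring
          _ ≤ (B ^ 3 * L ^ 217 * (t ^ 3 * M ^ 30)) * (C ^ 2 * L ^ 8 * E ^ 2) := by gcongr
          _ = C ^ 2 * (B ^ 3 * L ^ 225 * (t ^ 3 * M ^ 30)) * E ^ 2 := by ring
          _ ≤ C ^ 2 * q ^ 3 * E ^ 2 := by gcongr
          _ = C ^ 2 * (q ^ 3 * E ^ 2) := by ring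
      have h3 : C ^ 2 * (16384 * C * (t ^ 3 * M ^ 102)) ≤ B ^ 3 * L ^ 217 * (t ^ 3 * M ^ 102) := by
        have e1 : 16384 * C ^ 3 ≤ B ^ 3 := by
          have : (400 * C) ^ 3 ≤ B ^ 3 := by
            apply pow_le_pow_left₀ (by positivity)
            rw [hB]
            have : 400 * C * 1 ≤ 400 * C * C' := by gcongr
            linarith
          have h5 : 16384 * C ^ 3 ≤ (400 * C) ^ 3 := by
            have : (400 * C) ^ 3 = 64000000 * C ^ 3 := by ring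
            rw [this]
            have : 0 < C ^ 3 := by positivity
            linarith
          linarith
        calc C ^ 2 * (16384 * C * (t ^ 3 * M ^ 102)) = (16384 * C ^ 3) * 1 * (t ^ 3 * M ^ 102) := by
              ring
          _ ≤ B ^ 3 * L ^ 217 * (t ^ 3 * M ^ 102) := by
              have := hLp 217
              gcongr
      have h4 := le_of_mul_le_mul_left (h3.trans h2) (by positivity)
      calc 4096 * C * (t ^ 3 * M ^ 102) * 4 = 16384 * C * (t ^ 3 * M ^ 102) := by ring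
        _ ≤ q ^ 3 * E ^ 2 := h4
        _ = X * (q * E) := by rw [hXd]; ring
    have hsum : C * K ^ 2 * ((W : ℝ) + R) * γ * d ≤
        C * K ^ 2 * ((W : ℝ) + (1024 * d * n * M ^ 30 / (q * E) + 1)) * γ * d := by
      gcongr
    have e : C * K ^ 2 * ((W : ℝ) + (1024 * d * n * M ^ 30 / (q * E) + 1)) * γ * d =
        C * K ^ 2 * (W : ℝ) * (γ * d) + C * K ^ 2 * (1024 * d * n * M ^ 30 / (q * E)) * (γ * d) +
          C * K ^ 2 * 1 * (γ * d) := by ring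
    rw [e] at hsum
    linarith

theorem p_NUM2 (hA : T_NUMA) (hB : T_NUMB) : T_NUM2 := by
  intro C hC
  obtain ⟨C', m1, hC', hm1, HA⟩ := hA C hC
  obtain ⟨m2, hm2, HB⟩ := hB (400 * C ^ 2 * C' ^ 2) (by nlinarith [mul_pos (by positivity : (0 : ℝ) < C ^ 2) (by positivity : (0:ℝ) < C' ^ 2), one_le_pow₀ (n := 2) hC, one_le_pow₀ (n := 2) hC'])
  refine ⟨max m1 m2, le_trans hm1 (le_max_left _ _), ?_⟩
  intro m n γ E d K hm hn hK hKn hγ hmE hd hdn hgap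
  have hma : m1 ≤ m := le_trans (le_max_left _ _) hm
  have hmb : m2 ≤ m := le_trans (le_max_right _ _) hm
  have hm1' : 1 ≤ m := hm1.trans hma
  have hm0 : 0 < m := by linarith
  obtain ⟨t, W, hW1, ht1, hKt, ht, hWE, hγd, hdt, hWt, hΦ⟩ := HA m n γ E d K hma hn hK hKn hγ hmE
    hd hdn hgap
  obtain ⟨a0, ha0, hb1, hb2⟩ := HB m t hmb ht1
  have ha : 1 ≤ a0 ∧ a0 ≤ 3 ∧ 0 ≤ (4 * a0 - 3) / (a0 - 1) + 1 / 100 := by
    rcases ha0 with h | h | h | h <;> rw [h] <;> norm_num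
  have hL : 1 ≤ 1 + Real.log m := by
    have := Real.log_nonneg hm1'
    linarith
  set L := 1 + Real.log m with hLd
  have hL0 : 0 < L := by linarith
  set M := m ^ (1 / 36 : ℝ) with hM
  have hM1 : 1 ≤ M := Real.one_le_rpow hm1' (by norm_num)
  have hC0 : 0 < C := by linarith
  have hC'0 : 0 < C' := by linarith
  have ht0 : 0 < t := by linarith
  have hE : 0 < E := by
    by_contra hcon
    rw [not_lt] at hcon
    have : C * L ^ 4 * E ≤ 0 := mul_nonpos_of_nonneg_of_nonpos (by positivity) hcon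
    linarith
  have hmM : m = M ^ 36 := by
    have := num2_pow m hm0 36 1 (by norm_num)
    rwa [Real.rpow_one] at this
  have hS : Real.sqrt (m ^ (2 / 3 : ℝ) * m) = M ^ 30 := num2_sqrt m hm0
  have hm23 : m ^ (2 / 3 : ℝ) = M ^ 24 := num2_pow m hm0 24 _ (by norm_num)
  have hm13 : m ^ (1 / 3 : ℝ) = M ^ 12 := num2_pow m hm0 12 _ (by norm_num)
  have hm112 : m ^ (1 / 12 : ℝ) = M ^ 3 := num2_pow m hm0 3 _ (by norm_num)
  have hm12 : m ^ (1 / 2 : ℝ) = M ^ 18 := num2_pow m hm0 18 _ (by norm_num)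
  have hm518 : m ^ (5 / 18 : ℝ) = M ^ 10 := num2_pow m hm0 10 _ (by norm_num)
  set Φ := (E / (16 * n)) ^ a0 * (2 * (W : ℝ)) ^ (1 - a0) with hΦd
  have hPhi := hΦ a0 ha.1 ha.2.1
  -- lower bounds for Phi
  have hlow : ∀ y : ℝ, 0 ≤ y → 400 * C ^ 2 * C' ^ 2 * L ^ 100 * y ≤ C' * L ^ 25 * Φ →
      400 * C ^ 2 * C' * L ^ 75 * y ≤ Φ := by
    intro y hy h
    have e : 400 * C ^ 2 * C' ^ 2 * L ^ 100 * y = C' * L ^ 25 * (400 * C ^ 2 * C' * L ^ 75 * y) := by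
      ring
    rw [e] at h
    exact le_of_mul_le_mul_left h (by positivity)
  have hPhi1 : 400 * C ^ 2 * C' * L ^ 75 * t ^ ((4 * a0 - 3) / (a0 - 1) + 1 / 100) ≤ Φ :=
    hlow _ (by positivity) (hb1.trans hPhi)
  have hPhi2 : 400 * C ^ 2 * C' * L ^ 75 * (t * M ^ 10) ≤ Φ := by
    have := hb2.trans hPhi
    rw [hm518] at this
    exact hlow _ (by positivity) this
  have hγ0 : 0 ≤ γ := by
    have : 0 < K * n := by positivity
    linarith
  have hq0 : 0 < Φ / C := by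
    have : 0 < 400 * C ^ 2 * C' * L ^ 75 * (t * M ^ 10) := by positivity
    exact div_pos (by linarith) hC0
  set R : ℕ := ⌈1024 * d * n * M ^ 30 / (Φ / C * E)⌉₊ with hR
  have hxpos : 0 < 1024 * d * n * M ^ 30 / (Φ / C * E) := by positivity
  have hR1 : 1 ≤ R := Nat.ceil_pos.2 hxpos
  have hRle : (R : ℝ) ≤ 1024 * d * n * M ^ 30 / (Φ / C * E) + 1 :=
    (Nat.ceil_lt_add_one hxpos.le).le
  have hRge : 1024 * d * n * M ^ 30 / (Φ / C * E) ≤ (R : ℝ) := Nat.le_ceil _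
  have hmE' : M ^ 36 ≤ C * L ^ 4 * E := by rw [← hmM]; exact hmE
  have hdn' : d * n ≤ 2 * M ^ 36 := by rw [← hmM]; exact hdn
  rw [hm112] at ht
  rw [hm12] at hWt
  rw [hm13] at hdt
  have hγd' : γ * d ≤ 2 * M ^ 36 * t := by rw [← hmM]; exact hγd
  obtain ⟨hqp, hg3, hg6⟩ := num2_ineq C C' L M n γ E d K t (Φ / C) Φ W R hC hC' hL hM1 hn hK hd hE
    hγ0 hmE' hdn' ht1 hKt ht hγd' hdt hWt rfl hPhi2 hRle
  refine ⟨a0, Φ / C, R, W, ha0, hq0, hR1, hW1, hWE, ?_, ?_, ?_, ?_, hg6⟩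
  · rw [hS]
    rw [div_le_iff₀ (by positivity)] at hRge
    linarith
  · rw [hm23]
    exact hg3
  · rw [mul_div_cancel₀ _ hC0.ne']
  · have h1 : K ^ ((4 * a0 - 3) / (a0 - 1) + 1 / 100) ≤
        t ^ ((4 * a0 - 3) / (a0 - 1) + 1 / 100) :=
      Real.rpow_le_rpow (by linarith) hKt ha.2.2
    have h2 : C * t ^ ((4 * a0 - 3) / (a0 - 1) + 1 / 100) ≤
        400 * C ^ 2 * C' * L ^ 75 * t ^ ((4 * a0 - 3) / (a0 - 1) + 1 / 100) := by
      have h3 : C ≤ 400 * C ^ 2 * C' * L ^ 75 := by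
        have hLp : 1 ≤ L ^ 75 := one_le_pow₀ hL
        calc C = C * 1 * 1 * 1 := by ring
          _ ≤ (400 * C ^ 2) * 1 * C' * L ^ 75 := by
              have : C ≤ 400 * C ^ 2 := by nlinarith
              gcongr
          _ = 400 * C ^ 2 * C' * L ^ 75 := by ring
      gcongr
    calc C * K ^ ((4 * a0 - 3) / (a0 - 1) + 1 / 100)
        ≤ C * t ^ ((4 * a0 - 3) / (a0 - 1) + 1 / 100) := by gcongr
      _ ≤ _ := h2
      _ ≤ Φ := hPhi1

end Pool.Agent.HTwo
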