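import Pool.Agent.HTwo.Targets

set_option autoImplicit false

/-!
# HTwo, NUMA: size of the window (real numbers only)
-/

namespace Pool.Agent.HTwo

theorem NUMA_m0 (C : ℝ) (m : ℝ) (hm : (32 * C ^ 2 * 31 ^ 5 + 1) ^ 6 ≤ m) :
    32 * C ^ 2 * (1 + Real.log m) ^ 5 < m ^ (1 / 3 : ℝ) := by
  have h1 : 1 ≤ 32 * C ^ 2 * 31 ^ 5 + 1 := by
    have : 0 ≤ 32 * C ^ 2 * 31 ^ 5 := by positivity
    linarith
  have hm1 : 1 ≤ m := le_trans (one_le_pow₀ h1) hm
  have hm0 : 0 < m := by linarith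
  have hy0 : 0 < m ^ (1 / 30 : ℝ) := Real.rpow_pos_of_pos hm0 _
  have hy1 : 1 ≤ m ^ (1 / 30 : ℝ) := Real.one_le_rpow hm1 (by norm_num)
  have hym : (m ^ (1 / 30 : ℝ)) ^ 30 = m := by
    rw [← Real.rpow_natCast, ← Real.rpow_mul hm0.le]
    norm_num
  have hy10 : m ^ (1 / 3 : ℝ) = (m ^ (1 / 30 : ℝ)) ^ 10 := by
    rw [← Real.rpow_natCast, ← Real.rpow_mul hm0.le]
    norm_num
  have hlog : Real.log m ≤ m ^ (1 / 30 : ℝ) / (1 / 30) :=
    Real.log_le_rpow_div hm0.le (by norm_num)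
  rw [hy10]
  generalize m ^ (1 / 30 : ℝ) = y at hy0 hy1 hym hlog ⊢
  have hL : 1 + Real.log m ≤ 31 * y := by
    have h2 : y / (1 / 30) = 30 * y := by ring
    rw [h2] at hlog
    linarith
  have hL0 : 0 ≤ 1 + Real.log m := by
    have := Real.log_nonneg hm1
    linarith
  have h5 : (1 + Real.log m) ^ 5 ≤ (31 * y) ^ 5 := pow_le_pow_left₀ hL0 hL 5
  have h6 : 32 * C ^ 2 * 31 ^ 5 + 1 ≤ y ^ 5 := by
    have h7 : (32 * C ^ 2 * 31 ^ 5 + 1) ^ 6 ≤ (y ^ 5) ^ 6 := by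
      have h8 : (y ^ 5) ^ 6 = y ^ 30 := by ring
      rw [h8, hym]
      exact hm
    exact (pow_le_pow_iff_left₀ (by linarith) (by positivity) (by norm_num)).1 h7
  have h7 : 0 < y ^ 5 := by positivity
  calc 32 * C ^ 2 * (1 + Real.log m) ^ 5 ≤ 32 * C ^ 2 * (31 * y) ^ 5 := by gcongr
    _ = (32 * C ^ 2 * 31 ^ 5) * y ^ 5 := by ring
    _ < y ^ 5 * y ^ 5 := by nlinarith
    _ = y ^ 10 := by ring

theorem NUMA_alg (C L M n γ E d K : ℝ) (hC : 1 ≤ C) (hL : 1 ≤ L) (hM : 1 ≤ M)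
    (h3 : 32 * C ^ 2 * L ^ 5 < M ^ 4) (hn : 0 < n) (hK : 1 ≤ K) (hKn : K * n ≤ γ)
    (hγ : γ ≤ C * L * M ^ 8) (hmE : M ^ 12 ≤ C * L ^ 4 * E) (hd : 1 ≤ d)
    (hdn : d * n ≤ 2 * M ^ 12)
    (hW : ∀ W : ℕ, 1 ≤ W → 16 * n * M ^ 10 ≤ E * W → E ≤ 32 * n * W) :
    ∃ (t : ℝ) (W : ℕ), 1 ≤ W ∧ 1 ≤ t ∧ K ≤ t ∧ t ≤ 32 * C ^ 2 * L ^ 5 * M ∧
      16 * n * M ^ 10 ≤ E * W ∧ γ * d ≤ 2 * M ^ 12 * t ∧ d ≤ 2 * M ^ 4 * t ∧
      W * t ≤ 32 * C ^ 2 * L ^ 5 * M ^ 6 ∧ 0 < E ∧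
      M ^ 4 * t ≤ 16 * C ^ 2 * L ^ 5 * (E / (16 * n)) := by
  have hC0 : 0 < C := by linarith
  have hL0 : 0 < L := by linarith
  have hM0 : 0 < M := by linarith
  have hCL : 1 ≤ C * L := by nlinarith
  have hE : 0 < E := by
    by_contra h
    have h1 : C * L ^ 4 * E ≤ 0 := mul_nonpos_of_nonneg_of_nonpos (by positivity) (not_lt.1 h)
    have h2 : 0 < M ^ 12 := by positivity
    linarith
  have hn' : n ≤ C * L * M ^ 8 := by nlinarith
  set t : ℝ := C * L * M ^ 8 / n with ht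
  have htn : t * n = C * L * M ^ 8 := by
    rw [ht]
    field_simp
  have ht1 : 1 ≤ t := (one_le_div hn).2 hn'
  have hKt : K ≤ t := (le_div_iff₀ hn).2 (hKn.trans hγ)
  have hX : 0 < 16 * n * M ^ 10 / E := by positivity
  set W : ℕ := ⌈16 * n * M ^ 10 / E⌉₊ with hWd
  have hWle : 16 * n * M ^ 10 / E ≤ W := Nat.le_ceil _
  have hW1 : 1 ≤ W := Nat.ceil_pos.2 hX
  have hWE : 16 * n * M ^ 10 ≤ E * W := by
    rw [div_le_iff₀ hE] at hWle
    linarith
  have hEW := hW W hW1 hWE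
  have hbig : 1 ≤ 16 * n * M ^ 10 / E := by
    by_contra h
    have h4 : W ≤ 1 := by
      rw [hWd]
      apply Nat.ceil_le.2
      push_cast
      exact (not_le.1 h).le
    have h5 : W = 1 := le_antisymm h4 hW1
    rw [h5] at hEW
    push_cast at hEW
    have h6 : C * L ^ 4 * E ≤ C * L ^ 4 * (32 * (C * L * M ^ 8)) :=
      mul_le_mul_of_nonneg_left (by linarith) (by positivity)
    have h7 : 32 * C ^ 2 * L ^ 5 * M ^ 8 < M ^ 4 * M ^ 8 :=
      mul_lt_mul_of_pos_right h3 (by positivity)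
    have h8 : C * L ^ 4 * (32 * (C * L * M ^ 8)) = 32 * C ^ 2 * L ^ 5 * M ^ 8 := by ring
    have h9 : M ^ 4 * M ^ 8 = M ^ 12 := by ring
    linarith
  have hW2 : (W : ℝ) * E ≤ 32 * n * M ^ 10 := by
    have h4 : (W : ℝ) < 16 * n * M ^ 10 / E + 1 := Nat.ceil_lt_add_one hX.le
    have h5 : (W : ℝ) ≤ 32 * n * M ^ 10 / E := by
      have h6 : 32 * n * M ^ 10 / E = 16 * n * M ^ 10 / E + 16 * n * M ^ 10 / E := by ring
      linarith
    rwa [le_div_iff₀ hE] at h5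
  have hE5 : E ≤ 32 * n * M ^ 5 := by
    have h4 : E ^ 2 ≤ (32 * n * M ^ 5) ^ 2 := by
      calc E ^ 2 = E * E := by ring
        _ ≤ 32 * n * W * E := mul_le_mul_of_nonneg_right hEW hE.le
        _ = 32 * n * (W * E) := by ring
        _ ≤ 32 * n * (32 * n * M ^ 10) := mul_le_mul_of_nonneg_left hW2 (by positivity)
        _ = _ := by ring
    exact (pow_le_pow_iff_left₀ hE.le (by positivity) (by norm_num)).1 h4
  refine ⟨t, W, hW1, ht1, hKt, ?_, hWE, ?_, ?_, ?_, hE, ?_⟩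
  · -- upper bound for `t`
    have h4 : M ^ 7 * M ^ 5 ≤ 32 * C * L ^ 4 * n * M ^ 5 := by
      calc M ^ 7 * M ^ 5 = M ^ 12 := by ring
        _ ≤ C * L ^ 4 * E := hmE
        _ ≤ C * L ^ 4 * (32 * n * M ^ 5) := mul_le_mul_of_nonneg_left hE5 (by positivity)
        _ = _ := by ring
    have h5 : M ^ 7 ≤ 32 * C * L ^ 4 * n := le_of_mul_le_mul_right h4 (by positivity)
    have h6 : t * n ≤ 32 * C ^ 2 * L ^ 5 * M * n := by
      rw [htn]
      calc C * L * M ^ 8 = C * L * M * M ^ 7 := by ring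
        _ ≤ C * L * M * (32 * C * L ^ 4 * n) := mul_le_mul_of_nonneg_left h5 (by positivity)
        _ = _ := by ring
    exact le_of_mul_le_mul_right h6 hn
  · calc γ * d ≤ t * n * d := by
          rw [htn]
          exact mul_le_mul_of_nonneg_right hγ (by linarith)
      _ = d * n * t := by ring
      _ ≤ 2 * M ^ 12 * t := mul_le_mul_of_nonneg_right hdn (by linarith)
  · have h4 : d * n ≤ 2 * M ^ 4 * t * n := by
      calc d * n ≤ 2 * M ^ 12 := hdn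
        _ ≤ C * L * (2 * M ^ 12) := by
          have : 0 ≤ 2 * M ^ 12 := by positivity
          nlinarith
        _ = 2 * M ^ 4 * (C * L * M ^ 8) := by ring
        _ = 2 * M ^ 4 * t * n := by rw [← htn]; ring
    exact le_of_mul_le_mul_right h4 hn
  · have h4 : W * t * (n * E) ≤ 32 * C ^ 2 * L ^ 5 * M ^ 6 * (n * E) := by
      calc W * t * (n * E) = (W * E) * (t * n) := by ring
        _ ≤ 32 * n * M ^ 10 * (t * n) :=
            mul_le_mul_of_nonneg_right hW2 (by rw [htn]; positivity)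
        _ = 32 * n * C * L * M ^ 6 * M ^ 12 := by rw [htn]; ring
        _ ≤ 32 * n * C * L * M ^ 6 * (C * L ^ 4 * E) :=
            mul_le_mul_of_nonneg_left hmE (by positivity)
        _ = _ := by ring
    exact le_of_mul_le_mul_right h4 (by positivity)
  · have h4 : M ^ 4 * t * n ≤ 16 * C ^ 2 * L ^ 5 * (E / (16 * n)) * n := by
      calc M ^ 4 * t * n = M ^ 4 * (t * n) := by ring
        _ = C * L * M ^ 12 := by rw [htn]; ring
        _ ≤ C * L * (C * L ^ 4 * E) := mul_le_mul_of_nonneg_left hmE (by positivity)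
        _ = 16 * C ^ 2 * L ^ 5 * (E / (16 * n)) * n := by
            field_simp
    exact le_of_mul_le_mul_right h4 hn

theorem NUMA_pow (m t A B Q a : ℝ) (hm : 0 < m) (ht : 0 < t) (hA0 : 0 < A) (hB0 : 0 < B)
    (hQ : 1 ≤ Q) (ha1 : 1 ≤ a) (ha3 : a ≤ 3) (hA : m ^ (1 / 3 : ℝ) * t ≤ Q * A)
    (hB : B * t ≤ Q * m ^ (1 / 2 : ℝ)) :
    m ^ (1 / 2 - a / 6 : ℝ) * t ^ (2 * a - 1) ≤ Q ^ 5 * (A ^ a * B ^ (1 - a)) := by
  have hQ0 : 0 < Q := by linarith
  have hlQ : 0 ≤ Real.log Q := Real.log_nonneg hQ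
  have h1 : 1 / 3 * Real.log m + Real.log t ≤ Real.log Q + Real.log A := by
    have h2 := Real.log_le_log (by positivity) hA
    rw [Real.log_mul (by positivity) ht.ne', Real.log_mul hQ0.ne' hA0.ne',
      Real.log_rpow hm] at h2
    exact h2
  have h2 : Real.log B + Real.log t ≤ Real.log Q + 1 / 2 * Real.log m := by
    have h3 := Real.log_le_log (by positivity) hB
    rw [Real.log_mul hB0.ne' ht.ne', Real.log_mul hQ0.ne' (by positivity),
      Real.log_rpow hm] at h3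
    exact h3
  have hl : 0 < m ^ (1 / 2 - a / 6 : ℝ) * t ^ (2 * a - 1) := by positivity
  have hr : 0 < Q ^ 5 * (A ^ a * B ^ (1 - a)) := by positivity
  rw [← Real.log_le_log_iff hl hr, Real.log_mul (by positivity) (by positivity),
    Real.log_mul (by positivity) (by positivity), Real.log_mul (by positivity) (by positivity),
    Real.log_rpow hm, Real.log_rpow ht, Real.log_rpow hA0, Real.log_rpow hB0, Real.log_pow]
  push_cast
  have h3 := mul_le_mul_of_nonneg_left h1 (by linarith : 0 ≤ a)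
  have h4 := mul_le_mul_of_nonneg_left h2 (by linarith : 0 ≤ a - 1)
  have h5 := mul_le_mul_of_nonneg_right (by linarith : 2 * a - 1 ≤ 5) hlQ
  nlinarith

theorem p_NUMA : T_NUMA := by
  intro C hC
  have hCp : (1 : ℝ) ≤ 64 ^ 5 * C ^ 10 :=
    one_le_mul_of_one_le_of_one_le (by norm_num) (one_le_pow₀ hC)
  have h0 : 1 ≤ 32 * C ^ 2 * 31 ^ 5 + 1 := by
    have : 0 ≤ 32 * C ^ 2 * 31 ^ 5 := by positivity
    linarith
  refine ⟨64 ^ 5 * C ^ 10, (32 * C ^ 2 * 31 ^ 5 + 1) ^ 6, hCp, one_le_pow₀ h0, ?_⟩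
  intro m n γ E d K hm hn hK hKn hγ hmE hd hdn hW
  have hm1 : 1 ≤ m := le_trans (one_le_pow₀ h0) hm
  have hm0 : 0 < m := by linarith
  have hL1 : 1 ≤ 1 + Real.log m := by
    have := Real.log_nonneg hm1
    linarith
  have h3 := NUMA_m0 C m hm
  have hM1 : 1 ≤ m ^ (1 / 12 : ℝ) := Real.one_le_rpow hm1 (by norm_num)
  have e12 : m = (m ^ (1 / 12 : ℝ)) ^ 12 := by
    rw [← Real.rpow_natCast, ← Real.rpow_mul hm0.le]
    norm_num
  have e8 : m ^ (2 / 3 : ℝ) = (m ^ (1 / 12 : ℝ)) ^ 8 := by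
    rw [← Real.rpow_natCast, ← Real.rpow_mul hm0.le]
    norm_num
  have e4 : m ^ (1 / 3 : ℝ) = (m ^ (1 / 12 : ℝ)) ^ 4 := by
    rw [← Real.rpow_natCast, ← Real.rpow_mul hm0.le]
    norm_num
  have e6 : m ^ (1 / 2 : ℝ) = (m ^ (1 / 12 : ℝ)) ^ 6 := by
    rw [← Real.rpow_natCast, ← Real.rpow_mul hm0.le]
    norm_num
  have esq : Real.sqrt (m ^ (2 / 3 : ℝ) * m) = (m ^ (1 / 12 : ℝ)) ^ 10 := by
    have h4 : m ^ (2 / 3 : ℝ) * m = ((m ^ (1 / 12 : ℝ)) ^ 10) ^ 2 := by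
      calc m ^ (2 / 3 : ℝ) * m = (m ^ (1 / 12 : ℝ)) ^ 8 * (m ^ (1 / 12 : ℝ)) ^ 12 := by
            rw [← e8, ← e12]
        _ = _ := by ring
    rw [h4, Real.sqrt_sq (by positivity)]
  rw [esq] at hW ⊢
  obtain ⟨t, W, hW1, ht1, hKt, htM, hWE, hγd, hdt, hWt, hE, hMt⟩ :=
    NUMA_alg C (1 + Real.log m) (m ^ (1 / 12 : ℝ)) n γ E d K hC hL1 hM1 (by rw [← e4]; exact h3)
      hn hK hKn (by rw [← e8]; exact hγ) (by rw [← e12]; exact hmE) hd
      (by rw [← e12]; exact hdn) hW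
  have hCC : 32 * C ^ 2 ≤ 64 ^ 5 * C ^ 10 := by
    exact mul_le_mul (by norm_num) (pow_le_pow_right₀ hC (by norm_num)) (by positivity)
      (by norm_num)
  have hL5 : 0 < (1 + Real.log m) ^ 5 := by positivity
  have hMp : 0 < m ^ (1 / 12 : ℝ) := by positivity
  refine ⟨t, W, hW1, ht1, hKt, ?_, hWE, ?_, ?_, ?_, ?_⟩
  · refine htM.trans ?_
    exact mul_le_mul_of_nonneg_right (mul_le_mul_of_nonneg_right hCC hL5.le) hMp.le
  · rw [← e12] at hγd
    exact hγd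
  · rw [e4]
    exact hdt
  · rw [e6]
    refine hWt.trans ?_
    exact mul_le_mul_of_nonneg_right (mul_le_mul_of_nonneg_right hCC hL5.le) (by positivity)
  · intro a ha1 ha3
    have hWp : (0 : ℝ) < 2 * W := by
      have : (1 : ℝ) ≤ W := by exact_mod_cast hW1
      linarith
    have hA0 : 0 < E / (16 * n) := by positivity
    have hQ : 1 ≤ 64 * C ^ 2 * (1 + Real.log m) ^ 5 := by
      exact one_le_mul_of_one_le_of_one_le
        (one_le_mul_of_one_le_of_one_le (by norm_num) (one_le_pow₀ hC)) (one_le_pow₀ hL1)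
    have h6 := NUMA_pow m t (E / (16 * n)) (2 * W) (64 * C ^ 2 * (1 + Real.log m) ^ 5) a hm0
      (by linarith) hA0 hWp hQ ha1 ha3 (by
        rw [e4]
        refine hMt.trans ?_
        have h7 : 0 ≤ (1 + Real.log m) ^ 5 := hL5.le
        generalize (1 + Real.log m) ^ 5 = l5 at h7
        have h8 : 16 * C ^ 2 ≤ 64 * C ^ 2 := by nlinarith [sq_nonneg C]
        exact mul_le_mul_of_nonneg_right (mul_le_mul_of_nonneg_right h8 h7) hA0.le) (by
        rw [e6]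
        have h7 : 2 * (W : ℝ) * t = 2 * (W * t) := by ring
        rw [h7]
        generalize (1 + Real.log m) ^ 5 = l5 at hWt
        have h8 : 64 * C ^ 2 * l5 * (m ^ (1 / 12 : ℝ)) ^ 6 =
          2 * (32 * C ^ 2 * l5 * (m ^ (1 / 12 : ℝ)) ^ 6) := by ring
        rw [h8]
        exact mul_le_mul_of_nonneg_left hWt (by norm_num))
    refine h6.trans (le_of_eq ?_)
    rw [mul_pow, mul_pow, ← pow_mul, ← pow_mul]

end Pool.Agent.HTwo
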