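import Pool.Agent.HTwo.Targets

set_option autoImplicit false

/-!
# NUMB: choice of the exponent
-/

namespace Pool.Agent.HTwo

open Finset Pool.Agent.HLow

theorem numb_log (C s : ℝ) (hC : 1 ≤ C) (hs : 0 < s) : ∃ m0 : ℝ, 1 ≤ m0 ∧ ∀ m : ℝ, m0 ≤ m →
    C * (1 + Real.log m) ^ 100 ≤ m ^ s := by
  have h1 := isLittleO_log_rpow_rpow_atTop (100 : ℝ) hs
  have h2 := h1.def (c := 1 / (C * 2 ^ 100)) (by positivity)
  rw [Filter.eventually_atTop] at h2
  obtain ⟨N, hN⟩ := h2
  refine ⟨max N (Real.exp 1), ?_, ?_⟩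
  · exact le_trans (by have := Real.add_one_le_exp (1 : ℝ); linarith) (le_max_right _ _)
  intro m hm
  have hmN : N ≤ m := le_trans (le_max_left _ _) hm
  have hme : Real.exp 1 ≤ m := le_trans (le_max_right _ _) hm
  have hm0 : 0 < m := lt_of_lt_of_le (Real.exp_pos 1) hme
  have hlog : 1 ≤ Real.log m := by
    rw [Real.le_log_iff_exp_le hm0]
    exact hme
  have h3 := hN m hmN
  rw [Real.norm_eq_abs, Real.norm_eq_abs, abs_of_nonneg (Real.rpow_nonneg (by linarith) _),
    abs_of_nonneg (Real.rpow_nonneg hm0.le _)] at h3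
  have h4 : Real.log m ^ (100 : ℝ) = Real.log m ^ (100 : ℕ) := by
    rw [← Real.rpow_natCast]
    norm_num
  rw [h4] at h3
  have h5 : (1 + Real.log m) ^ 100 ≤ 2 ^ 100 * Real.log m ^ 100 := by
    rw [← mul_pow]
    exact pow_le_pow_left₀ (by linarith) (by linarith) _
  have h6 : C * (1 + Real.log m) ^ 100 ≤ C * (2 ^ 100 * Real.log m ^ 100) :=
    mul_le_mul_of_nonneg_left h5 (by linarith)
  have h7 : C * (2 ^ 100 * Real.log m ^ 100) ≤ m ^ s := by
    have hpos : 0 < C * 2 ^ 100 := by positivity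
    have := mul_le_mul_of_nonneg_left h3 hpos.le
    have e : C * 2 ^ 100 * (1 / (C * 2 ^ 100) * m ^ s) = m ^ s := by
      field_simp
    rw [e] at this
    linarith
  exact h6.trans h7

theorem numb_cmp (m t B p q p' q' : ℝ) (hm : 0 < m) (ht : 0 < t) (hB : B ≤ m ^ (1 / 10000 : ℝ))
    (h : Real.log m * (1 / 10000) + Real.log m * p + Real.log t * q ≤
      Real.log m * p' + Real.log t * q') :
    B * (m ^ p * t ^ q) ≤ m ^ p' * t ^ q' := by
  have h1 : B * (m ^ p * t ^ q) ≤ m ^ (1 / 10000 : ℝ) * (m ^ p * t ^ q) :=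
    mul_le_mul_of_nonneg_right hB (by positivity)
  refine h1.trans ?_
  rw [Real.rpow_def_of_pos hm, Real.rpow_def_of_pos hm, Real.rpow_def_of_pos hm,
    Real.rpow_def_of_pos ht, Real.rpow_def_of_pos ht, ← Real.exp_add, ← Real.exp_add,
    ← Real.exp_add]
  exact Real.exp_le_exp.2 (by linarith)

theorem p_NUMB : T_NUMB := by
  intro C hC
  obtain ⟨m0, hm0, H⟩ := numb_log C (1 / 10000) hC (by norm_num)
  refine ⟨m0, hm0, ?_⟩
  intro m t hm ht
  have hB := H m hm
  have hm1 : 1 ≤ m := hm0.trans hm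
  have hmp : 0 < m := by linarith
  have htp : 0 < t := by linarith
  have hx : 0 ≤ Real.log m := Real.log_nonneg hm1
  have hy : 0 ≤ Real.log t := Real.log_nonneg ht
  set x := Real.log m with hxd
  set y := Real.log t with hyd
  have key : ∀ a : ℝ, (x * (1 / 10000) + x * 0 + y * ((4 * a - 3) / (a - 1) + 1 / 100) ≤
      x * (1 / 2 - a / 6) + y * (2 * a - 1)) → (x * (1 / 10000) + x * (5 / 18) + y * 1 ≤
      x * (1 / 2 - a / 6) + y * (2 * a - 1)) →
      C * (1 + Real.log m) ^ 100 * t ^ ((4 * a - 3) / (a - 1) + 1 / 100)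
        ≤ m ^ (1 / 2 - a / 6 : ℝ) * t ^ (2 * a - 1) ∧
      C * (1 + Real.log m) ^ 100 * (t * m ^ (5 / 18 : ℝ))
        ≤ m ^ (1 / 2 - a / 6 : ℝ) * t ^ (2 * a - 1) := by
    intro a h1 h2
    constructor
    · have := numb_cmp m t _ 0 ((4 * a - 3) / (a - 1) + 1 / 100) (1 / 2 - a / 6) (2 * a - 1)
        hmp htp hB h1
      rw [Real.rpow_zero, one_mul] at this
      exact this
    · have := numb_cmp m t _ (5 / 18) 1 (1 / 2 - a / 6) (2 * a - 1) hmp htp hB h2
      rw [Real.rpow_one, mul_comm (m ^ (5 / 18 : ℝ))] at this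
      exact this
  rcases le_total y (45 / 1000 * x) with h1 | h1
  · refine ⟨13 / 10, Or.inl rfl, key _ ?_ ?_⟩
    · norm_num
      linarith
    · norm_num
      linarith
  rcases le_total y (6 / 100 * x) with h2 | h2
  · refine ⟨3 / 2, Or.inr (Or.inl rfl), key _ ?_ ?_⟩
    · norm_num
      linarith
    · norm_num
      linarith
  rcases le_total y (8 / 100 * x) with h3 | h3
  · refine ⟨2, Or.inr (Or.inr (Or.inl rfl)), key _ ?_ ?_⟩
    · norm_num
      linarith
    · norm_num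
      linarith
  · refine ⟨3, Or.inr (Or.inr (Or.inr rfl)), key _ ?_ ?_⟩
    · norm_num
      linarith
    · norm_num
      linarith

end Pool.Agent.HTwo
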