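import Pool.Agent.HTwo.Targets
import Pool.Agent.HLow.ONB
import Pool.Agent.HLow.KEY

set_option autoImplicit false

namespace Pool.Agent.HTwo

open Finset Pool.Agent.HLow

/-- the quadratic form of the Schur square -/
lemma PROD_quad {V : Type} [Fintype V] [DecidableEq V] {A : V → V → ℝ} {K : ℝ}
    {lam : V → ℝ} {v : V → V → ℝ} (hA : Adj A) (hS : Spec A K lam v) (f : V → ℝ) :
    ∑ i, (lam i + K) * (∑ u, ∑ w, A u w * ((f u * v i u) * (f w * v i w)) +
        K * ∑ u, (f u * v i u) ^ 2) =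
      (∑ u, ∑ w, f u * f w * A u w) + K ^ 2 * ∑ u, f u ^ 2 := by
  have h1 : ∑ i, (lam i + K) * (∑ u, ∑ w, A u w * ((f u * v i u) * (f w * v i w))) =
      ∑ u, ∑ w, f u * f w * A u w := by
    have e1 : ∀ i, (lam i + K) * (∑ u, ∑ w, A u w * ((f u * v i u) * (f w * v i w))) =
        ∑ u, ∑ w, (A u w * (f u * f w)) * ((lam i + K) * (v i u * v i w)) := by
      intro i
      rw [mul_sum]
      refine sum_congr rfl fun u _ => ?_
      rw [mul_sum]
      exact sum_congr rfl fun w _ => by ring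
    rw [sum_congr rfl fun i _ => e1 i, sum_comm]
    refine sum_congr rfl fun u _ => ?_
    rw [sum_comm]
    refine sum_congr rfl fun w _ => ?_
    rw [← mul_sum, KEY_M hS]
    by_cases huw : u = w
    · subst huw
      rw [hA.dg]
      ring
    · rw [if_neg huw]
      have := hA.sq u w
      linear_combination (f u * f w) * this
  have h2 : ∑ i, (lam i + K) * (K * ∑ u, (f u * v i u) ^ 2) = K ^ 2 * ∑ u, f u ^ 2 := by
    have e1 : ∀ i, (lam i + K) * (K * ∑ u, (f u * v i u) ^ 2) =
        ∑ u, (K * f u ^ 2) * ((lam i + K) * (v i u * v i u)) := by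
      intro i
      rw [mul_sum, mul_sum]
      exact sum_congr rfl fun u _ => by ring
    rw [sum_congr rfl fun i _ => e1 i, sum_comm, mul_sum]
    refine sum_congr rfl fun u _ => ?_
    rw [← mul_sum, KEY_M hS, hA.dg]
    simp
    ring
  rw [← h1, ← h2, ← sum_add_distrib]
  exact sum_congr rfl fun i _ => by ring

theorem p_PROD (hKF : T_KF) : T_PROD := by
  intro V _ _ A K t0 lam v r g I hA hS hK hg ht0 htg hI
  obtain ⟨r', f, hr', hf, hpar, hbes⟩ := p_ONB V (Fin r × {i // i ∈ I})
    (fun p u => g p.1 u * v p.2 u)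
  have hrI : r' ≤ r * I.card := by
    refine hr'.trans (le_of_eq ?_)
    rw [Fintype.card_prod, Fintype.card_coe, Fintype.card_fin]
  have hrI' : (r' : ℝ) ≤ ((r * I.card : ℕ) : ℝ) := by exact_mod_cast hrI
  set ww : V → ℝ := fun i => ∑ s, (∑ u, f s u * v i u) ^ 2 with hww
  have hww0 : ∀ i, 0 ≤ ww i := fun i => sum_nonneg fun k _ => sq_nonneg _
  have hww1 : ∀ i, ww i ≤ 1 := by
    intro i
    refine (hbes (v i)).trans (le_of_eq ?_)
    have := hS.row i i
    rw [if_pos rfl] at this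
    rw [← this]
    exact sum_congr rfl fun u _ => by ring
  have hwsum : ∑ i, ww i = r' := by
    rw [hww, sum_comm]
    have e1 : ∀ k : Fin r', ∑ i, (∑ u, f k u * v i u) ^ 2 = 1 := by
      intro k
      have h2 := KEY_q (fun _ => 1) v (f k)
      simp only [one_mul] at h2
      rw [h2, ← hf k]
      refine sum_congr rfl fun u _ => ?_
      have h3 : ∀ w, f k u * f k w * ∑ i, v i u * v i w = if u = w then f k u ^ 2 else 0 := by
        intro w
        rw [hS.col u w]
        split_ifs with huw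
        · subst huw
          ring
        · ring
      rw [sum_congr rfl fun w _ => h3 w]
      simp
    rw [sum_congr rfl fun k _ => e1 k]
    simp
  obtain ⟨I', hI'c, hI'0, hI's⟩ := hKF V lam ww (r * I.card) (fun i => ⟨hww0 i, hww1 i⟩)
    (by rw [hwsum]; exact hrI')
  refine ⟨I', hI'c, hI'0, le_trans ?_ hI's⟩
  -- the quadratic form
  have hq : ∑ s, (∑ u, ∑ w, f s u * f s w * A u w) = ∑ i, lam i * ww i := by
    have e1 : ∀ s, (∑ u, ∑ w, f s u * f s w * A u w) =
        ∑ i, lam i * (∑ u, f s u * v i u) ^ 2 := by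
      intro s
      rw [KEY_q]
      exact sum_congr rfl fun u _ => sum_congr rfl fun w _ => by rw [← hS.dec u w]
    rw [sum_congr rfl fun s _ => e1 s, sum_comm]
    refine sum_congr rfl fun i _ => ?_
    rw [hww, mul_sum]
  have hc : ∀ s, ∑ i, (lam i + K) * ∑ k, (∑ u, f s u * (g k u * v i u)) ^ 2 ≤
      (∑ u, ∑ w, f s u * f s w * A u w) + K ^ 2 * ∑ u, f s u ^ 2 := by
    intro s
    rw [← PROD_quad hA hS (f s)]
    refine sum_le_sum fun i _ => ?_
    have h1 := hS.low i
    apply mul_le_mul_of_nonneg_left _ (by linarith)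
    have h2 := hg (fun u => f s u * v i u)
    refine le_trans (le_of_eq ?_) h2
    refine sum_congr rfl fun k _ => ?_
    congr 1
    exact sum_congr rfl fun u _ => by ring
  set S : V → Fin r → ℝ := fun i k => ∑ s, (∑ u, f s u * (g k u * v i u)) ^ 2 with hSdef
  have hS0 : ∀ i k, 0 ≤ S i k := fun i k => sum_nonneg fun s _ => sq_nonneg _
  have hA1 : t0 * ∑ i ∈ I, lam i ≤ ∑ i ∈ I, lam i * ∑ k, S i k := by
    rw [mul_sum]
    refine sum_le_sum fun i hi => ?_
    have h1 : ∀ k, S i k = ∑ u, (g k u * v i u) ^ 2 := fun k => hpar (k, ⟨i, hi⟩)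
    have h2 : ∑ k, S i k = ∑ u, (∑ k, g k u ^ 2) * (v i u * v i u) := by
      rw [sum_congr rfl fun k _ => h1 k, sum_comm]
      refine sum_congr rfl fun u _ => ?_
      rw [sum_mul]
      exact sum_congr rfl fun k _ => by ring
    have h3 : t0 ≤ ∑ k, S i k := by
      rw [h2]
      have h4 : t0 = ∑ u, t0 * (v i u * v i u) := by
        rw [← mul_sum, hS.row i i, if_pos rfl, mul_one]
      rw [h4]
      refine sum_le_sum fun u _ => ?_
      exact mul_le_mul_of_nonneg_right (htg u) (mul_self_nonneg _)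
    rw [mul_comm t0]
    exact mul_le_mul_of_nonneg_left h3 (hI i hi)
  have hA2 : ∑ i ∈ I, lam i * ∑ k, S i k ≤ ∑ i, (lam i + K) * ∑ k, S i k := by
    calc ∑ i ∈ I, lam i * ∑ k, S i k ≤ ∑ i ∈ I, (lam i + K) * ∑ k, S i k := by
          refine sum_le_sum fun i _ => ?_
          refine mul_le_mul_of_nonneg_right (by linarith) (sum_nonneg fun k _ => hS0 i k)
      _ ≤ _ := by
          refine sum_le_univ_sum_of_nonneg fun i => ?_
          have h1 := hS.low i
          exact mul_nonneg (by linarith) (sum_nonneg fun k _ => hS0 i k)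
  have hA3 : ∑ i, (lam i + K) * ∑ k, S i k =
      ∑ s, ∑ i, (lam i + K) * ∑ k, (∑ u, f s u * (g k u * v i u)) ^ 2 := by
    have e1 : ∀ i, (lam i + K) * ∑ k, S i k =
        ∑ s, (lam i + K) * ∑ k, (∑ u, f s u * (g k u * v i u)) ^ 2 := by
      intro i
      rw [← mul_sum, hSdef, sum_comm]
    rw [sum_congr rfl fun i _ => e1 i, sum_comm]
  have hA4 : ∑ i, (lam i + K) * ∑ k, S i k ≤ ∑ i, lam i * ww i + K ^ 2 * r' := by
    rw [hA3]
    refine (sum_le_sum fun s _ => hc s).trans (le_of_eq ?_)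
    rw [sum_add_distrib, hq]
    congr 1
    rw [sum_congr rfl fun s _ => by rw [hf s, mul_one]]
    simp [mul_comm]
  have hA5 : K ^ 2 * (r' : ℝ) ≤ K ^ 2 * ((r * I.card : ℕ) : ℝ) :=
    mul_le_mul_of_nonneg_left hrI' (sq_nonneg K)
  linarith

end Pool.Agent.HTwo
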