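import Pool.Agent.HTwo.Targets

set_option autoImplicit false

namespace Pool.Agent.HTwo

open Finset Pool.Agent.HLow

private theorem RANK_aux (V : Type) [Fintype V] [DecidableEq V] (pos : V → ℕ)
    (hpos : Function.Injective pos) (F : Finset V) : ∀ n : ℕ, ∀ Q : Finset V, Q.card = n → Q ⊆ F →
    ((n : ℝ) ^ 2 - 1) / 2 ≤ ∑ i ∈ Q, |((F.filter (fun j => pos i < pos j)).card : ℝ)
      - ((F.filter (fun j => pos j < pos i)).card : ℝ)| := by
  intro n
  induction n using Nat.strong_induction_on with
  | _ n ih =>
    intro Q hQ hQF
    have hnn : ∀ i ∈ Q, 0 ≤ |((F.filter (fun j => pos i < pos j)).card : ℝ)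
      - ((F.filter (fun j => pos j < pos i)).card : ℝ)| := fun i _ => abs_nonneg _
    rcases Nat.lt_or_ge n 2 with hn | hn
    · have h0 := Finset.sum_nonneg hnn
      have h1 : (n : ℝ) ≤ 1 := by exact_mod_cast Nat.lt_succ_iff.mp hn
      have h2 : (0 : ℝ) ≤ n := Nat.cast_nonneg n
      nlinarith
    · have hne : Q.Nonempty := by
        rw [← Finset.card_pos]
        omega
      obtain ⟨i0, hi0, hmin⟩ := Finset.exists_min_image Q pos hne
      obtain ⟨i1, hi1, hmax⟩ := Finset.exists_max_image Q pos hne
      have hlt : pos i0 < pos i1 := by
        by_contra hcon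
        have h1 : ∀ i ∈ Q, i = i0 := by
          intro i hi
          apply hpos
          have := hmin i hi
          have := hmax i hi
          omega
        have h2 : Q.card ≤ 1 := Finset.card_le_one.2 (fun a ha b hb => (h1 a ha).trans (h1 b hb).symm)
        omega
      have hi01 : i1 ≠ i0 := by
        intro h
        rw [h] at hlt
        exact lt_irrefl _ hlt
      have hi1' : i1 ∈ Q.erase i0 := Finset.mem_erase.2 ⟨hi01, hi1⟩
      have hcard : ((Q.erase i0).erase i1).card = n - 2 := by
        rw [Finset.card_erase_of_mem hi1', Finset.card_erase_of_mem hi0, hQ]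
        omega
      have hih := ih (n - 2) (by omega) ((Q.erase i0).erase i1) hcard
        (fun x hx => hQF (Finset.mem_of_mem_erase (Finset.mem_of_mem_erase hx)))
      rw [← Finset.add_sum_erase Q _ hi0, ← Finset.add_sum_erase (Q.erase i0) _ hi1']
      -- counts
      have hsplit : ∀ i ∈ F, (F.filter (fun j => pos i < pos j)).card +
          (F.filter (fun j => pos j < pos i)).card + 1 = F.card := by
        intro i hi
        have e1 : F.filter (fun j => ¬ pos i < pos j) =
            insert i (F.filter (fun j => pos j < pos i)) := by
          ext j
          simp only [Finset.mem_filter, Finset.mem_insert]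
          constructor
          · rintro ⟨h1, h2⟩
            rcases Nat.lt_or_ge (pos j) (pos i) with h3 | h3
            · exact Or.inr ⟨h1, h3⟩
            · left
              apply hpos
              omega
          · rintro (h | ⟨h1, h2⟩)
            · subst h
              exact ⟨hi, lt_irrefl _⟩
            · exact ⟨h1, by omega⟩
        have e2 := Finset.card_filter_add_card_filter_not (s := F) (fun j => pos i < pos j)
        rw [e1, Finset.card_insert_of_notMem (by simp)] at e2
        omega
      have hr : (F.filter (fun j => pos j < pos i0)).card + (n - 1) ≤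
          (F.filter (fun j => pos j < pos i1)).card := by
        have hd : Disjoint (F.filter (fun j => pos j < pos i0)) (Q.erase i1) := by
          rw [Finset.disjoint_left]
          intro x hx hx'
          rw [Finset.mem_filter] at hx
          have := hmin x (Finset.mem_of_mem_erase hx')
          omega
        have hs : F.filter (fun j => pos j < pos i0) ∪ Q.erase i1 ⊆
            F.filter (fun j => pos j < pos i1) := by
          intro x hx
          rw [Finset.mem_union] at hx
          rw [Finset.mem_filter]
          rcases hx with hx | hx
          · rw [Finset.mem_filter] at hx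
            exact ⟨hx.1, by omega⟩
          · have h1 := Finset.mem_of_mem_erase hx
            refine ⟨hQF h1, ?_⟩
            have h2 := hmax x h1
            rcases Nat.lt_or_ge (pos x) (pos i1) with h3 | h3
            · exact h3
            · exfalso
              have : x = i1 := hpos (by omega)
              exact Finset.ne_of_mem_erase hx this
        have := Finset.card_le_card hs
        rw [Finset.card_union_of_disjoint hd, Finset.card_erase_of_mem hi1, hQ] at this
        exact this
      have s0 := hsplit i0 (hQF hi0)
      have s1 := hsplit i1 (hQF hi1)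
      have s0' : ((F.filter (fun j => pos i0 < pos j)).card : ℝ) +
          ((F.filter (fun j => pos j < pos i0)).card : ℝ) + 1 = F.card := by exact_mod_cast s0
      have s1' : ((F.filter (fun j => pos i1 < pos j)).card : ℝ) +
          ((F.filter (fun j => pos j < pos i1)).card : ℝ) + 1 = F.card := by exact_mod_cast s1
      have hr' : ((F.filter (fun j => pos j < pos i0)).card : ℝ) + ((n : ℝ) - 1) ≤
          ((F.filter (fun j => pos j < pos i1)).card : ℝ) := by
        have : ((n - 1 : ℕ) : ℝ) = (n : ℝ) - 1 := by
          rw [Nat.cast_sub (by omega)]
          simp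
        rw [← this]
        exact_mod_cast hr
      have hn2 : ((n - 2 : ℕ) : ℝ) = (n : ℝ) - 2 := by
        rw [Nat.cast_sub hn]
        simp
      rw [hn2] at hih
      have a0 := le_abs_self (((F.filter (fun j => pos i0 < pos j)).card : ℝ)
        - ((F.filter (fun j => pos j < pos i0)).card : ℝ))
      have a1 := neg_abs_le (((F.filter (fun j => pos i1 < pos j)).card : ℝ)
        - ((F.filter (fun j => pos j < pos i1)).card : ℝ))
      nlinarith

theorem p_RANK : T_RANK := by
  intro V _ _ pos hpos Q F hQF
  exact RANK_aux V pos hpos F Q.card Q rfl hQF

end Pool.Agent.HTwo
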