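import Mathlib
import Pool.Agent.HTwo.Targets
import Pool.Agent.HLow.TR
import Pool.Agent.HLow.BD

set_option autoImplicit false
set_option linter.unusedSectionVars false
set_option linter.unusedVariables false

namespace Pool.Agent.HTwo

open Finset Pool.Agent.HLow

/-- powers of `q` against powers of `M` -/
lemma SCALE_q {c1 q M d s t : ℝ} (hc : 0 < c1) (hq : 1 ≤ q)
    (hG : c1 * q ^ (1 - d) ≤ M) (hs : 0 ≤ s) (hst : t ≤ (1 - d) * s) :
    q ^ t ≤ (M / c1) ^ s := by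
  have hq0 : 0 < q := by linarith
  have h1 : q ^ (1 - d) ≤ M / c1 := by
    rw [le_div_iff₀ hc]
    linarith
  calc q ^ t ≤ q ^ ((1 - d) * s) := Real.rpow_le_rpow_of_exponent_le hq hst
    _ = (q ^ (1 - d)) ^ s := Real.rpow_mul hq0.le _ _
    _ ≤ (M / c1) ^ s := Real.rpow_le_rpow (by positivity) h1 hs

/-- the second conclusion -/
lemma SCALE_c2 {c1 q M δ : ℝ} (hc : 0 < c1) (hc1 : c1 ≤ 1) (hq : 1 ≤ q) (hM : 1 ≤ M)
    (hδ : 0 < δ) (hδ1 : δ ≤ 1 / 4) (hG : c1 * q ^ (1 - δ / 4) ≤ M) :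
    c1 ^ 2 * q ≤ M ^ (1 + δ) := by
  have h1 : q ^ (1 : ℝ) ≤ (M / c1) ^ (1 + δ) :=
    SCALE_q hc hq hG (by linarith) (by nlinarith)
  rw [Real.rpow_one, Real.div_rpow (by linarith) hc.le, le_div_iff₀ (by positivity)] at h1
  have h2 : c1 ^ 2 ≤ c1 ^ (1 + δ) := by
    rw [← Real.rpow_natCast]
    exact Real.rpow_le_rpow_of_exponent_ge hc hc1 (by push_cast; linarith)
  have h3 : c1 ^ 2 * q ≤ c1 ^ (1 + δ) * q := mul_le_mul_of_nonneg_right h2 (by linarith)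
  linarith

/-- the first conclusion -/
lemma SCALE_c1 {c1 C q T δ β p : ℝ} (hc : 0 < c1) (hc1 : c1 ≤ 1) (hC : 1 ≤ C) (hq : 1 ≤ q)
    (hδ : 0 < δ) (hδ1 : δ ≤ 1 / 4) (hp : 0 < p) (hp1 : p ≤ 1) (hβ : 0 ≤ β) (hβ1 : β ≤ 1)
    (hT : 0 ≤ T) (hG : c1 * q ^ (1 - δ / 4) ≤ max T 1)
    (hG2 : c1 ^ 2 / C * p ^ (-β) ≤ q ^ (δ / 2) * T) :
    c1 ^ 3 / C * p ^ (-(β - δ)) ≤ T := by
  have h1 : q ^ (δ / 2) ≤ (max T 1 / c1) ^ (3 * (δ / 4)) :=
    SCALE_q hc hq hG (by positivity) (by nlinarith)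
  have hM : 1 ≤ max T 1 := le_max_right _ _
  have hC0 : 0 < C := by linarith
  -- `c3 p^(-β) ≤ M^(3δ/4) T`
  have h2 : c1 ^ 3 / C * p ^ (-β) ≤ (max T 1) ^ (3 * (δ / 4)) * T := by
    rw [Real.div_rpow (by linarith) hc.le] at h1
    have h3 : c1 ≤ c1 ^ (3 * (δ / 4)) := by
      calc c1 = c1 ^ (1 : ℝ) := (Real.rpow_one _).symm
        _ ≤ c1 ^ (3 * (δ / 4)) := Real.rpow_le_rpow_of_exponent_ge hc hc1 (by linarith)
    have h4 : q ^ (δ / 2) * T ≤ (max T 1) ^ (3 * (δ / 4)) / c1 ^ (3 * (δ / 4)) * T :=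
      mul_le_mul_of_nonneg_right h1 hT
    have h5 : (max T 1) ^ (3 * (δ / 4)) / c1 ^ (3 * (δ / 4)) * T
        ≤ (max T 1) ^ (3 * (δ / 4)) / c1 * T := by
      apply mul_le_mul_of_nonneg_right _ hT
      exact div_le_div_of_nonneg_left (by positivity) hc h3
    have h6 : c1 ^ 2 / C * p ^ (-β) ≤ (max T 1) ^ (3 * (δ / 4)) / c1 * T := by linarith
    have h7 := mul_le_mul_of_nonneg_left h6 hc.le
    have h8 : c1 * ((max T 1) ^ (3 * (δ / 4)) / c1 * T) = (max T 1) ^ (3 * (δ / 4)) * T := by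
      field_simp
    have h9 : c1 * (c1 ^ 2 / C * p ^ (-β)) = c1 ^ 3 / C * p ^ (-β) := by ring
    rw [h8, h9] at h7
    exact h7
  have hc3 : 0 < c1 ^ 3 / C := by positivity
  have hc31 : c1 ^ 3 / C ≤ 1 := by
    rw [div_le_one hC0]
    have : c1 ^ 3 ≤ 1 := pow_le_one₀ hc.le hc1
    linarith
  by_contra hcon
  push Not at hcon
  rcases le_total 1 T with hT1 | hT1
  · rw [max_eq_left hT1] at h2
    have e1 : T ^ (3 * (δ / 4)) * T = T ^ (1 + 3 * (δ / 4)) := by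
      rw [Real.rpow_add (by linarith), Real.rpow_one]; ring
    rw [e1] at h2
    have e2 : T ^ (1 + 3 * (δ / 4)) < (c1 ^ 3 / C * p ^ (-(β - δ))) ^ (1 + 3 * (δ / 4)) :=
      Real.rpow_lt_rpow hT hcon (by positivity)
    rw [Real.mul_rpow hc3.le (by positivity), ← Real.rpow_mul hp.le] at e2
    have e3 : (c1 ^ 3 / C) ^ (1 + 3 * (δ / 4)) ≤ c1 ^ 3 / C := by
      calc (c1 ^ 3 / C) ^ (1 + 3 * (δ / 4)) ≤ (c1 ^ 3 / C) ^ (1 : ℝ) :=
            Real.rpow_le_rpow_of_exponent_ge hc3 hc31 (by linarith)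
        _ = c1 ^ 3 / C := Real.rpow_one _
    have e4 : p ^ (-(β - δ) * (1 + 3 * (δ / 4))) ≤ p ^ (-β) :=
      Real.rpow_le_rpow_of_exponent_ge hp hp1 (by nlinarith)
    have e5 : (c1 ^ 3 / C) ^ (1 + 3 * (δ / 4)) * p ^ (-(β - δ) * (1 + 3 * (δ / 4)))
        ≤ c1 ^ 3 / C * p ^ (-β) := mul_le_mul e3 e4 (by positivity) hc3.le
    linarith
  · rw [max_eq_right hT1, Real.one_rpow, one_mul] at h2
    have e4 : p ^ (-(β - δ)) ≤ p ^ (-β) :=
      Real.rpow_le_rpow_of_exponent_ge hp hp1 (by linarith)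
    have e5 := mul_le_mul_of_nonneg_left e4 hc3.le
    linarith

section

variable {V : Type} [Fintype V] [DecidableEq V]

/-- Cauchy-Schwarz above `τ` -/
lemma SCALE_cs (lam : V → ℝ) {τ : ℝ} (hτ : 0 < τ) :
    (∑ j, (if τ ≤ lam j then lam j ^ 2 else 0)) ^ 2
      ≤ (∑ j, (if τ ≤ lam j then lam j ^ 3 else 0)) * TT lam τ := by
  unfold TT
  apply Finset.sum_sq_le_sum_mul_sum_of_sq_le_mul
  · intro i _
    by_cases h : τ ≤ lam i
    · rw [if_pos h]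
      have : 0 ≤ lam i := hτ.le.trans h
      positivity
    · rw [if_neg h]
  · intro i _
    by_cases h : τ ≤ lam i
    · rw [if_pos h]
      exact hτ.le.trans h
    · rw [if_neg h]
  · intro i _
    by_cases h : τ ≤ lam i
    · rw [if_pos h, if_pos h, if_pos h]
      exact le_of_eq (by ring)
    · rw [if_neg h, if_neg h, if_neg h]
      exact le_of_eq (by ring)

lemma SCALE_cube (lam : V → ℝ) {τ K : ℝ} (hK : 0 ≤ K) (hlow : ∀ i, -K ≤ lam i) (hτ : 0 < τ) :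
    ∑ j, (if τ ≤ lam j then lam j ^ 3 else 0)
      ≤ ∑ j, lam j ^ 3 + K ^ 3 * (Fintype.card V : ℝ) := by
  have h1 : K ^ 3 * (Fintype.card V : ℝ) = ∑ _j : V, K ^ 3 := by
    rw [sum_const, card_univ, nsmul_eq_mul, mul_comm]
  rw [h1, ← sum_add_distrib]
  refine sum_le_sum fun i _ => ?_
  have hK3 : 0 ≤ K ^ 3 := by positivity
  by_cases h : τ ≤ lam i
  · rw [if_pos h]; linarith
  · rw [if_neg h]
    have h2 : (-K) ^ 3 ≤ lam i ^ 3 := by
      have : Odd 3 := by decide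
      exact (Odd.pow_le_pow this).2 (hlow i)
    have h3 : (-K) ^ 3 = -K ^ 3 := by ring
    rw [h3] at h2
    linarith

end

/-- the error term -/
lemma SCALE_err {a p K N : ℝ} (ha : 1 < a) (hp : 0 < p) (hp1 : p ≤ 1) (hK : 1 ≤ K)
    (hN : 1 ≤ N) (h : K ^ 4 ≤ p ^ a * N) : K ^ 3 * N ≤ p ^ (3 - 1 / a) * N ^ 3 := by
  have hN0 : 0 < N := by linarith
  have h1 : K ^ 3 ≤ p ^ a * N := by
    refine le_trans ?_ h
    exact pow_le_pow_right₀ hK (by norm_num)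
  have h2 : 1 ≤ p ^ a * N := by
    refine le_trans ?_ h
    exact one_le_pow₀ hK
  -- `p ^ (-a) ≤ N`
  have h3 : p ^ (-a) ≤ N := by
    rw [Real.rpow_neg hp.le]
    have : 0 < p ^ a := by positivity
    rw [inv_le_iff_one_le_mul₀ this]
    linarith
  have h4 : p ^ a ≤ p ^ (3 - 1 / a) * N := by
    have e1 : p ^ (3 - 1 / a) * p ^ (-a) ≤ p ^ (3 - 1 / a) * N :=
      mul_le_mul_of_nonneg_left h3 (by positivity)
    rw [← Real.rpow_add hp] at e1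
    refine le_trans ?_ e1
    apply Real.rpow_le_rpow_of_exponent_ge hp hp1
    have ha0 : 0 < a := by linarith
    have e2 : 1 / a * a = 1 := by field_simp
    have e3 : 0 < 1 / a := by positivity
    by_contra hcon
    push Not at hcon
    have e4 : a * a < (3 - 1 / a + -a) * a := mul_lt_mul_of_pos_right hcon ha0
    nlinarith
  have h5 : p ^ a * N ≤ p ^ (3 - 1 / a) * N * N := mul_le_mul_of_nonneg_right h4 hN0.le
  have h6 : K ^ 3 * N ≤ p ^ (3 - 1 / a) * N * N * N :=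
    mul_le_mul_of_nonneg_right (h1.trans h5) hN0.le
  calc K ^ 3 * N ≤ p ^ (3 - 1 / a) * N * N * N := h6
    _ = p ^ (3 - 1 / a) * N ^ 3 := by ring

theorem p_SCALE (hNREG : T_NREG) (hTHIRD : T_THIRD) (hLVL : T_LVL) : T_SCALE := by
  intro a δ ha hδ hδ1
  obtain ⟨C0, hC0, hNR⟩ := hNREG a ha
  obtain ⟨C1, hC1, hTH⟩ := hTHIRD a C0 ha hC0
  obtain ⟨c1, hc1, hc11, hLV⟩ := hLVL (δ / 4) (by linarith) (by linarith)
  have hC : 1 ≤ C1 + 1 := by linarith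
  have hCp : 0 < C1 + 1 := by linarith
  refine ⟨c1 ^ 3 / (C1 + 1), by positivity, ?_, ?_⟩
  · rw [div_le_one hCp]
    have : c1 ^ 3 ≤ 1 := pow_le_one₀ hc1.le hc11
    linarith
  intro V _ _ A K p lam v hX hS hK4 hK16
  obtain ⟨htr1, htr2, htr3⟩ := p_TR V A K lam v hX.adj hS
  rw [hX.he] at htr2
  have hp := hX.hp
  have hp1 := hX.p_le
  have hK := hX.hK
  have hBD := p_BD V lam K (by linarith) hS.low htr1
  obtain ⟨i, hi1, hi2⟩ := hLV V lam K p hX.hN hX.hK hX.hp hS.low htr1 htr2 hK16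
  have hN1 : (1 : ℝ) ≤ (Fintype.card V : ℝ) := by exact_mod_cast hX.hN
  have hpa : 0 < p ^ a := by positivity
  have hKa : K ≤ p ^ a * (Fintype.card V : ℝ) := by
    refine le_trans ?_ hK4
    calc K = K ^ 1 := (pow_one K).symm
      _ ≤ K ^ 4 := pow_le_pow_right₀ hK (by norm_num)
  have hY := hTH V A K p hX (hNR V A K p hX hKa)
  have herr := SCALE_err ha hp hp1 hK hN1 hK4
  set N : ℝ := (Fintype.card V : ℝ) with hN
  have hN0 : 0 < N := by linarith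
  set q : ℝ := 2 ^ i with hq
  have hq1 : 1 ≤ q := one_le_pow₀ (by norm_num)
  have hq0 : 0 < q := by linarith
  have hτ : 0 < p * N / q := by positivity
  set τ : ℝ := p * N / q with hτd
  have hTT0 := (hBD.1 τ hτ).1
  set T : ℝ := TT lam τ / N with hT
  have hTN : TT lam τ = T * N := by rw [hT]; field_simp
  have hT0 : 0 ≤ T := by positivity
  -- powers of two
  have hpow : ∀ s : ℝ, (2 : ℝ) ^ (s * i) = q ^ s := by
    intro s
    rw [hq, mul_comm, Real.rpow_mul (by norm_num), Real.rpow_natCast]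
  have hG : c1 * q ^ (1 - δ / 4) ≤ max T 1 := by
    by_cases h0 : i = 0
    · rw [hq, h0, pow_zero, Real.one_rpow, mul_one]
      exact hc11.trans (le_max_right _ _)
    · have h1 := hi2 h0
      rw [hpow, hTN] at h1
      exact (le_of_mul_le_mul_right h1 hN0).trans (le_max_left _ _)
  have hF1 : c1 * q ^ (-(δ / 4)) * (p * N ^ 2)
      ≤ ∑ j, (if τ ≤ lam j then lam j ^ 2 else 0) := by
    have h1 := hi1
    rw [← neg_mul, hpow] at h1
    exact h1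
  have hcs := SCALE_cs lam hτ
  have hcube := SCALE_cube lam (by linarith : 0 ≤ K) hS.low hτ
  rw [htr3, ← hN] at hcube
  have hcube2 : ∑ j, (if τ ≤ lam j then lam j ^ 3 else 0)
      ≤ (C1 + 1) * p ^ (3 - 1 / a) * N ^ 3 := by linarith
  have hF3 : (c1 * q ^ (-(δ / 4)) * (p * N ^ 2)) ^ 2
      ≤ (C1 + 1) * p ^ (3 - 1 / a) * N ^ 3 * (T * N) := by
    have e1 : (c1 * q ^ (-(δ / 4)) * (p * N ^ 2)) ^ 2
        ≤ (∑ j, (if τ ≤ lam j then lam j ^ 2 else 0)) ^ 2 :=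
      pow_le_pow_left₀ (by positivity) hF1 2
    have e2 : (∑ j, (if τ ≤ lam j then lam j ^ 3 else 0)) * TT lam τ
        ≤ (C1 + 1) * p ^ (3 - 1 / a) * N ^ 3 * TT lam τ :=
      mul_le_mul_of_nonneg_right hcube2 hTT0
    rw [← hTN]
    linarith
  have ha0 : 0 < a := by linarith
  have hβ : 0 ≤ (a - 1) / a := div_nonneg (by linarith) ha0.le
  have hβ1 : (a - 1) / a ≤ 1 := by
    rw [div_le_one ha0]; linarith
  have hG2 : c1 ^ 2 / (C1 + 1) * p ^ (-((a - 1) / a)) ≤ q ^ (δ / 2) * T := by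
    have e1 : (q ^ (-(δ / 4))) ^ 2 * q ^ (δ / 2) = 1 := by
      rw [← Real.rpow_natCast, ← Real.rpow_mul hq0.le, ← Real.rpow_add hq0]
      have : -(δ / 4) * ((2 : ℕ) : ℝ) + δ / 2 = 0 := by push_cast; ring
      rw [this, Real.rpow_zero]
    have e3 : p ^ 2 = p ^ (3 - 1 / a) * p ^ (-((a - 1) / a)) := by
      rw [← Real.rpow_natCast, ← Real.rpow_add hp]
      congr 1
      push_cast
      field_simp
      ring
    have e4 : (c1 * q ^ (-(δ / 4)) * (p * N ^ 2)) ^ 2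
        = c1 ^ 2 * (q ^ (-(δ / 4))) ^ 2 * (p ^ 2) * N ^ 4 := by ring
    rw [e4, e3] at hF3
    have hP : 0 < p ^ (3 - 1 / a) := by positivity
    have e5 : c1 ^ 2 * (q ^ (-(δ / 4))) ^ 2 * (p ^ (3 - 1 / a) * p ^ (-((a - 1) / a))) * N ^ 4
        = (p ^ (3 - 1 / a) * N ^ 4) * (c1 ^ 2 * (q ^ (-(δ / 4))) ^ 2 * p ^ (-((a - 1) / a))) := by
      ring
    have e6 : (C1 + 1) * p ^ (3 - 1 / a) * N ^ 3 * (T * N)
        = (p ^ (3 - 1 / a) * N ^ 4) * ((C1 + 1) * T) := by ring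
    rw [e5, e6] at hF3
    have e7 := le_of_mul_le_mul_left hF3 (by positivity)
    have e8 := mul_le_mul_of_nonneg_right e7 (by positivity : 0 ≤ q ^ (δ / 2))
    have e9 : c1 ^ 2 * (q ^ (-(δ / 4))) ^ 2 * p ^ (-((a - 1) / a)) * q ^ (δ / 2)
        = c1 ^ 2 * p ^ (-((a - 1) / a)) * ((q ^ (-(δ / 4))) ^ 2 * q ^ (δ / 2)) := by ring
    rw [e9, e1, mul_one] at e8
    rw [div_mul_eq_mul_div, div_le_iff₀ hCp]
    linarith
  refine ⟨τ, hτ, ?_, ?_⟩
  · exact SCALE_c1 hc1 hc11 hC hq1 hδ hδ1 hp hp1 hβ hβ1 hT0 hG hG2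
  · have h1 := SCALE_c2 hc1 hc11 hq1 (le_max_right T 1) hδ hδ1 hG
    have h2 : c1 ^ 3 / (C1 + 1) ≤ c1 ^ 2 := by
      rw [div_le_iff₀ hCp]
      have e1 : c1 ^ 3 ≤ c1 ^ 2 := pow_le_pow_of_le_one hc1.le hc11 (by norm_num)
      have e2 : 0 ≤ c1 ^ 2 := sq_nonneg _
      nlinarith
    have h3 : c1 ^ 3 / (C1 + 1) * q ≤ (max T 1) ^ (1 + δ) :=
      (mul_le_mul_of_nonneg_right h2 hq0.le).trans h1
    have h4 := mul_le_mul_of_nonneg_left h3 hτ.le
    calc c1 ^ 3 / (C1 + 1) * (p * N) = τ * (c1 ^ 3 / (C1 + 1) * q) := by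
          rw [hτd]; field_simp
      _ ≤ τ * (max T 1) ^ (1 + δ) := h4

end Pool.Agent.HTwo
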