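import Mathlib
import Pool.Agent.HTwo.Targets

set_option autoImplicit false

namespace Pool.Agent.HTwo

open Finset Pool.Agent.HLow

lemma SEL_root {x t a : ℝ} (hx : 0 ≤ x) (ht : 0 ≤ t) (ha : 0 < a) :
    (x ^ a * t) ^ (1 / a) = x * t ^ (1 / a) := by
  rw [Real.mul_rpow (Real.rpow_nonneg hx a) ht, ← Real.rpow_mul hx, mul_one_div_cancel ha.ne',
    Real.rpow_one]

theorem p_SEL : T_SEL := by
  intro V _ _ A a hA ha W hW
  have ha0 : 0 < a := by linarith
  set φ : Finset V → ℝ := fun S => (ee A S S / (S.card : ℝ) ^ 2) ^ a * (S.card : ℝ) with hφ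
  obtain ⟨S, hS, hmax⟩ := exists_max_image (W.powerset.filter (fun S => 0 < ee A S S)) φ
    ⟨W, by simp [hW]⟩
  rw [mem_filter, mem_powerset] at hS
  obtain ⟨hSW, hS0⟩ := hS
  have hne : ∀ T : Finset V, 0 < ee A T T → T.Nonempty := by
    intro T hT
    rw [nonempty_iff_ne_empty]
    rintro rfl
    simp [ee] at hT
  have hSne := hne S hS0
  have hWne := hne W hW
  have cS : (0 : ℝ) < S.card := by exact_mod_cast hSne.card_pos
  have cW : (0 : ℝ) < W.card := by exact_mod_cast hWne.card_pos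
  have hSWc : (S.card : ℝ) ≤ W.card := by exact_mod_cast card_le_card hSW
  have h1 : φ W ≤ φ S := hmax W (by simp [hW])
  have hDS : 0 < ee A S S / (S.card : ℝ) ^ 2 := by positivity
  have hDW : 0 < ee A W W / (W.card : ℝ) ^ 2 := by positivity
  refine ⟨S, hSW, hSne, hS0, h1, ?_, ?_⟩
  · have h2 : (ee A W W / (W.card : ℝ) ^ 2) ^ a * (W.card : ℝ)
        ≤ (ee A S S / (S.card : ℝ) ^ 2) ^ a * (W.card : ℝ) :=
      h1.trans (mul_le_mul_of_nonneg_left hSWc (Real.rpow_nonneg hDS.le a))
    have h3 := le_of_mul_le_mul_right h2 cW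
    exact (Real.rpow_le_rpow_iff hDW.le hDS.le ha0).1 h3
  · intro T hT
    by_cases hT0 : 0 < ee A T T
    · have hTne := hne T hT0
      have cT : (0 : ℝ) < T.card := by exact_mod_cast hTne.card_pos
      have h2 : φ T ≤ φ S := hmax T (by
        rw [mem_filter, mem_powerset]
        exact ⟨hT.trans hSW, hT0⟩)
      have hDT : 0 < ee A T T / (T.card : ℝ) ^ 2 := by positivity
      have h3 : (φ T) ^ (1 / a) ≤ (φ S) ^ (1 / a) :=
        Real.rpow_le_rpow (mul_nonneg (Real.rpow_nonneg hDT.le a) cT.le) h2 (by positivity)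
      simp only [hφ] at h3
      rw [SEL_root hDT.le cT.le ha0, SEL_root hDS.le cS.le ha0] at h3
      have h4 : ee A T T = ee A T T / (T.card : ℝ) ^ 2 * (T.card : ℝ) ^ (1 / a)
          * (T.card : ℝ) ^ (2 - 1 / a) := by
        rw [mul_assoc, ← Real.rpow_add cT]
        have : 1 / a + (2 - 1 / a) = ((2 : ℕ) : ℝ) := by push_cast; ring
        rw [this, Real.rpow_natCast]
        field_simp
      rw [h4]
      exact mul_le_mul_of_nonneg_right h3 (Real.rpow_nonneg cT.le _)
    · push Not at hT0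
      refine hT0.trans ?_
      positivity

end Pool.Agent.HTwo
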