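import Mathlib
import Pool.Agent.HTwo.Targets

set_option autoImplicit false

namespace Pool.Agent.HTwo

open Finset Pool.Agent.HLow

/-- weighted arithmetic-geometric mean inequality at the scale `α` -/
lemma THIRD_amgm {α d θ : ℝ} (hα : 0 < α) (hd : 0 ≤ d) (hθ : 0 ≤ θ) (hθ1 : θ ≤ 1) :
    d ^ (2 - θ) ≤ α ^ (2 - θ) * (θ * (d / α) + (1 - θ) * (d ^ 2 / α ^ 2)) := by
  have hx : 0 ≤ d / α := div_nonneg hd hα.le
  have h1 := Real.geom_mean_le_arith_mean2_weighted hθ (sub_nonneg.2 hθ1) hx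
    (sq_nonneg (d / α)) (add_sub_cancel θ 1)
  have h2 : ((d / α) ^ 2) ^ (1 - θ) = (d / α) ^ (2 * (1 - θ)) := by
    rw [← Real.rpow_natCast, ← Real.rpow_mul hx]
    norm_num
  have h3 : (d / α) ^ θ * (d / α) ^ (2 * (1 - θ)) = (d / α) ^ (2 - θ) := by
    rw [← Real.rpow_add_of_nonneg hx hθ (by linarith)]
    congr 1
    ring
  rw [h2, h3, div_pow] at h1
  have h4 : d ^ (2 - θ) = α ^ (2 - θ) * (d / α) ^ (2 - θ) := by
    rw [← Real.mul_rpow hα.le hx, mul_div_cancel₀ _ hα.ne']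
  rw [h4]
  exact mul_le_mul_of_nonneg_left h1 (Real.rpow_nonneg hα.le _)

/-- few triangles -/
theorem p_THIRD : T_THIRD := by
  intro a C0 ha hC0
  refine ⟨C0, hC0, ?_⟩
  intro V _ _ A K p hctx hsq
  set N : ℝ := (Fintype.card V : ℝ) with hN
  have hN1 : 1 ≤ N := by rw [hN]; exact_mod_cast hctx.hN
  have hN0 : 0 < N := by linarith
  have hp := hctx.hp
  set θ : ℝ := 1 / a with hθ
  have hθ0 : 0 ≤ θ := by positivity
  have hθ1 : θ ≤ 1 := by
    rw [hθ, div_le_one (by linarith)]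
    exact ha.le
  have hα : 0 < p * N := mul_pos hp hN0
  have hdeg : ∑ u, ((nb A u).card : ℝ) = p * N ^ 2 := by
    rw [← hctx.he]
    exact (sum_congr rfl fun u _ => hctx.adj.deg u).symm
  -- the sum of the powers of the degrees
  have hpow : ∑ u, ((nb A u).card : ℝ) ^ (2 - θ) ≤ (p * N) ^ (2 - θ) * (C0 * N) := by
    calc ∑ u, ((nb A u).card : ℝ) ^ (2 - θ)
        ≤ ∑ u, (p * N) ^ (2 - θ) * (θ * (((nb A u).card : ℝ) / (p * N)) +
            (1 - θ) * (((nb A u).card : ℝ) ^ 2 / (p * N) ^ 2)) :=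
          sum_le_sum fun u _ => THIRD_amgm hα (Nat.cast_nonneg _) hθ0 hθ1
      _ = (p * N) ^ (2 - θ) * (θ * ((∑ u, ((nb A u).card : ℝ)) / (p * N)) +
            (1 - θ) * ((∑ u, ((nb A u).card : ℝ) ^ 2) / (p * N) ^ 2)) := by
          rw [← mul_sum, sum_add_distrib, ← mul_sum, ← mul_sum, ← sum_div, ← sum_div]
      _ ≤ (p * N) ^ (2 - θ) * (C0 * N) := by
          refine mul_le_mul_of_nonneg_left ?_ (Real.rpow_nonneg hα.le _)
          have h1 : (∑ u, ((nb A u).card : ℝ)) / (p * N) = N := by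
            rw [hdeg]
            field_simp
          have h2 : (∑ u, ((nb A u).card : ℝ) ^ 2) / (p * N) ^ 2 ≤ C0 * N := by
            rw [div_le_iff₀ (by positivity)]
            refine hsq.trans (le_of_eq ?_)
            ring
          rw [h1]
          have h3 : N ≤ C0 * N := le_mul_of_one_le_left hN0.le hC0
          have h4 : θ * N ≤ θ * (C0 * N) := mul_le_mul_of_nonneg_left h3 hθ0
          have h5 : (1 - θ) * ((∑ u, ((nb A u).card : ℝ) ^ 2) / (p * N) ^ 2) ≤
              (1 - θ) * (C0 * N) := mul_le_mul_of_nonneg_left h2 (by linarith)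
          linarith
  calc ∑ u, ee A (nb A u) (nb A u)
      ≤ ∑ u, p * N ^ θ * ((nb A u).card : ℝ) ^ (2 - θ) := sum_le_sum fun u _ => hctx.mx _
    _ = p * N ^ θ * ∑ u, ((nb A u).card : ℝ) ^ (2 - θ) := by rw [mul_sum]
    _ ≤ p * N ^ θ * ((p * N) ^ (2 - θ) * (C0 * N)) :=
        mul_le_mul_of_nonneg_left hpow (by positivity)
    _ = C0 * p ^ (3 - θ) * N ^ 3 := by
        have h1 : p ^ (3 - θ) = p * p ^ (2 - θ) := by
          rw [← Real.rpow_one_add' hp.le (by linarith)]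
          congr 1
          ring
        have h2 : N ^ θ * N ^ (2 - θ) = N ^ 2 := by
          rw [← Real.rpow_add hN0, ← Real.rpow_natCast]
          congr 1
          push_cast
          ring
        rw [Real.mul_rpow hp.le hN0.le, h1]
        calc p * N ^ θ * (p ^ (2 - θ) * N ^ (2 - θ) * (C0 * N))
            = C0 * (p * p ^ (2 - θ)) * ((N ^ θ * N ^ (2 - θ)) * N) := by ring
          _ = _ := by rw [h2]; ring

end Pool.Agent.HTwo
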