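import Mathlib
import Pool.Agent.HTwo.Targets
import Pool.Agent.HLow.TR
import Pool.Agent.HLow.BD
import Pool.Agent.HLow.ONB
import Pool.Agent.HLow.KEY
import Pool.Agent.HLow.ABS

set_option autoImplicit false

namespace Pool.Agent.HTwo

open Finset Pool.Agent.HLow

theorem TX2_tail (t tl : ℝ → ℝ) (K η : ℝ) (hη : 0 < η) (hη1 : η < 1)
    (h1 : ∀ x, 1 ≤ x → t x ≤ 2 * (4 * x) ^ η)
    (h2 : ∀ x, 1 ≤ x → tl x ≤ t (2 * x) / x + tl (2 * x))
    (h3 : ∀ x, 1 ≤ x → tl x ≤ K / x) :
    ∀ x, 1 ≤ x → tl x ≤ 16 / (1 - (2 : ℝ) ^ (η - 1)) * x ^ (η - 1) := by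
  have hq1 : (2 : ℝ) ^ (η - 1) < 1 :=
    Real.rpow_lt_one_of_one_lt_of_neg (by norm_num) (by linarith)
  have hq0 : 0 < (2 : ℝ) ^ (η - 1) := Real.rpow_pos_of_pos (by norm_num) _
  have hd : 0 < 1 - (2 : ℝ) ^ (η - 1) := by linarith
  have key : ∀ n : ℕ, ∀ x : ℝ, 1 ≤ x →
      tl x ≤ 16 / (1 - (2 : ℝ) ^ (η - 1)) * x ^ (η - 1) + K / x / 2 ^ n := by
    intro n
    induction n with
    | zero =>
      intro x hx
      have h4 := h3 x hx
      have h5 : 0 ≤ 16 / (1 - (2 : ℝ) ^ (η - 1)) * x ^ (η - 1) :=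
        mul_nonneg (by positivity) (Real.rpow_nonneg (by linarith) _)
      simp only [pow_zero, div_one]
      linarith
    | succ n ih =>
      intro x hx
      have hx0 : 0 < x := by linarith
      have h4 := h2 x hx
      have h5 := h1 (2 * x) (by linarith)
      have h6 := ih (2 * x) (by linarith)
      have e1 : (4 * (2 * x)) ^ η = 8 ^ η * x ^ η := by
        rw [show 4 * (2 * x) = 8 * x by ring, Real.mul_rpow (by norm_num) hx0.le]
      have e2 : (8 : ℝ) ^ η ≤ 8 := by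
        calc (8 : ℝ) ^ η ≤ 8 ^ (1 : ℝ) :=
              Real.rpow_le_rpow_of_exponent_le (by norm_num) hη1.le
          _ = 8 := Real.rpow_one 8
      have e3 : x ^ (η - 1) = x ^ η / x := by
        rw [Real.rpow_sub_one hx0.ne']
      have hxη : 0 ≤ x ^ η := Real.rpow_nonneg hx0.le _
      have h7 : t (2 * x) / x ≤ 16 * x ^ (η - 1) := by
        rw [e3, mul_div_assoc']
        apply div_le_div_of_nonneg_right _ hx0.le
        rw [e1] at h5
        nlinarith
      have e4 : (2 * x) ^ (η - 1) = 2 ^ (η - 1) * x ^ (η - 1) :=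
        Real.mul_rpow (by norm_num) hx0.le
      have e5 : K / (2 * x) / 2 ^ n = K / x / 2 ^ (n + 1) := by
        rw [pow_succ]
        field_simp
      rw [e4, e5] at h6
      have e6 : 16 * x ^ (η - 1)
          + 16 / (1 - (2 : ℝ) ^ (η - 1)) * (2 ^ (η - 1) * x ^ (η - 1))
          = 16 / (1 - (2 : ℝ) ^ (η - 1)) * x ^ (η - 1) := by
        field_simp
        ring
      linarith
  intro x hx
  have hlim : Filter.Tendsto (fun n : ℕ =>
      16 / (1 - (2 : ℝ) ^ (η - 1)) * x ^ (η - 1) + K / x / 2 ^ n) Filter.atTop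
      (nhds (16 / (1 - (2 : ℝ) ^ (η - 1)) * x ^ (η - 1) + 0)) := by
    refine Filter.Tendsto.const_add _ ?_
    exact Filter.Tendsto.div_atTop tendsto_const_nhds
      (tendsto_pow_atTop_atTop_of_one_lt (by norm_num))
  rw [add_zero] at hlim
  exact ge_of_tendsto hlim (Filter.Eventually.of_forall fun n => key n x hx)

theorem p_TX2 : T_TX2 := by
  intro V _ _ A K η lam v hA hS hK hV hη hη1 hKN
  obtain ⟨htr, -, -⟩ := p_TR V A K lam v hA hS
  have hK0 : (0 : ℝ) ≤ K := le_trans zero_le_one hK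
  obtain ⟨b1, b2, b3, b4, -⟩ := p_BD V lam K hK0 hS.low htr
  have key := p_KEY p_ONB V A K lam v hA hS hK0
  have hN : (0 : ℝ) < (Fintype.card V : ℝ) := by
    have : (0 : ℕ) < Fintype.card V := hV
    exact_mod_cast this
  generalize hNdef : (Fintype.card V : ℝ) = N at *
  have hpos : ∀ x : ℝ, 1 ≤ x → 0 < N / x := fun x hx => div_pos hN (by linarith)
  have ht01 : ∀ x : ℝ, 1 ≤ x → 0 ≤ TT lam (N / x) / N ∧ TT lam (N / x) / N ≤ K := by
    intro x hx
    obtain ⟨c1, c2⟩ := b1 (N / x) (hpos x hx)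
    refine ⟨div_nonneg c1 hN.le, ?_⟩
    rw [div_le_iff₀ hN]
    exact c2
  have hstep : ∀ x x' : ℝ, 1 ≤ x → 1 ≤ x' →
      (TT lam (N / x) / N) ^ 2 ≤ TT lam (N / x') / N
        + (1 / x' + K ^ 2 / N) * (x * (TT lam (N / x) / N)) ^ 2 := by
    intro x x' hx hx'
    have hx0 : (0 : ℝ) < x := by linarith
    have hx0' : (0 : ℝ) < x' := by linarith
    have k1 := key (N / x) (N / x') (hpos x hx) (hpos x' hx').le
    obtain ⟨r1, r2⟩ := b2 (N / x) (hpos x hx)
    have r3 : RR lam (N / x) ≤ x * (TT lam (N / x) / N) := by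
      have e : x * (TT lam (N / x) / N) = TT lam (N / x) / (N / x) := by
        field_simp
      rw [e, le_div_iff₀ (hpos x hx)]
      linarith
    have r4 : RR lam (N / x) ^ 2 ≤ (x * (TT lam (N / x) / N)) ^ 2 :=
      pow_le_pow_left₀ r1 r3 2
    have c0 : 0 ≤ 1 / x' + K ^ 2 / N := by positivity
    have e1 : (TT lam (N / x) / N) ^ 2 = TT lam (N / x) ^ 2 / N ^ 2 := by rw [div_pow]
    have e2 : N * (TT lam (N / x') + (N / x' + K ^ 2) * RR lam (N / x) ^ 2) / N ^ 2
        = TT lam (N / x') / N + (1 / x' + K ^ 2 / N) * RR lam (N / x) ^ 2 := by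
      field_simp
    calc (TT lam (N / x) / N) ^ 2 = TT lam (N / x) ^ 2 / N ^ 2 := e1
      _ ≤ N * (TT lam (N / x') + (N / x' + K ^ 2) * RR lam (N / x) ^ 2) / N ^ 2 :=
          div_le_div_of_nonneg_right k1 (by positivity)
      _ = TT lam (N / x') / N + (1 / x' + K ^ 2 / N) * RR lam (N / x) ^ 2 := e2
      _ ≤ _ := by
          have := mul_le_mul_of_nonneg_left r4 c0
          linarith
  have first : ∀ x : ℝ, 1 ≤ x → TT lam (N / x) / N ≤ 2 * (4 * x) ^ η := by
    intro x hx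
    have h := p_ABS (fun x => TT lam (N / x) / N) K N 4 η hK hN (by norm_num) hη ht01 hstep
      hKN x hx
    have e : (1 - 2 / (4 : ℝ))⁻¹ = 2 := by norm_num
    rw [e] at h
    exact h
  refine ⟨?_, ?_⟩
  · intro x hx
    have := first x hx
    rw [div_le_iff₀ hN] at this
    linarith
  · intro x hx
    have g2 : ∀ x : ℝ, 1 ≤ x → TL lam (N / x) / N ^ 2
        ≤ (TT lam (N / (2 * x)) / N) / x + TL lam (N / (2 * x)) / N ^ 2 := by
      intro x hx
      have hx0 : (0 : ℝ) < x := by linarith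
      have hx2 : (1 : ℝ) ≤ 2 * x := by linarith
      have hle : N / (2 * x) ≤ N / x := by
        apply div_le_div_of_nonneg_left hN.le hx0
        linarith
      have q := b4 (N / x) (N / (2 * x)) (hpos _ hx2) hle
      have q2 := div_le_div_of_nonneg_right q (by positivity : (0 : ℝ) ≤ N ^ 2)
      have e : (N / x * TT lam (N / (2 * x)) + TL lam (N / (2 * x))) / N ^ 2
          = (TT lam (N / (2 * x)) / N) / x + TL lam (N / (2 * x)) / N ^ 2 := by
        field_simp
      rw [e] at q2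
      exact q2
    have g3 : ∀ x : ℝ, 1 ≤ x → TL lam (N / x) / N ^ 2 ≤ K / x := by
      intro x hx
      have hx0 : (0 : ℝ) < x := by linarith
      obtain ⟨-, q⟩ := b3 (N / x) (hpos x hx)
      have q2 := div_le_div_of_nonneg_right q (by positivity : (0 : ℝ) ≤ N ^ 2)
      have e : N / x * (K * N) / N ^ 2 = K / x := by field_simp
      rw [e] at q2
      exact q2
    have fin := TX2_tail (fun x => TT lam (N / x) / N) (fun x => TL lam (N / x) / N ^ 2) K
      η hη hη1 first g2 g3 x hx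
    have hN2 : (0 : ℝ) < N ^ 2 := by positivity
    rw [div_le_iff₀ hN2] at fin
    linarith

end Pool.Agent.HTwo
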