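import Pool.Agent.HTwo.Targets

set_option autoImplicit false

/-!
# HTW: few vertices of large degree
-/

namespace Pool.Agent.HTwo

open Finset Pool.Agent.HLow

theorem UH_real {N x p h a K : ℝ} (hN : 1 ≤ N) (hx : 0 < x) (hp : 0 < p) (hh : 0 < h)
    (ha : 1 < a) (hK : K ≤ p * N)
    (hcs : (h * p * N * x) ^ 2 ≤
      (p * N ^ (1 / a) * x ^ (2 - 1 / a) + K * x) * (p * N ^ 2 + K * N))
    (hE : 0 ≤ p * N ^ (1 / a) * x ^ (2 - 1 / a) + K * x) :
    x ≤ (4 / h ^ 2) ^ a * N ∨ x ≤ 4 * K / (h ^ 2 * p) := by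
  have h1 : (h * p * N * x) ^ 2 ≤
      (p * N ^ (1 / a) * x ^ (2 - 1 / a) + K * x) * (2 * p * N ^ 2) := by
    refine hcs.trans (mul_le_mul_of_nonneg_left ?_ hE)
    nlinarith
  have h2 : h ^ 2 * p * x ^ 2 ≤ 2 * (p * N ^ (1 / a) * x ^ (2 - 1 / a)) + 2 * (K * x) := by
    have h3 : 0 < p * N ^ 2 := by positivity
    have h4 : (p * N ^ 2) * (h ^ 2 * p * x ^ 2) ≤
        (p * N ^ 2) * (2 * (p * N ^ (1 / a) * x ^ (2 - 1 / a)) + 2 * (K * x)) := by
      calc (p * N ^ 2) * (h ^ 2 * p * x ^ 2) = (h * p * N * x) ^ 2 := by ring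
        _ ≤ _ := h1
        _ = _ := by ring
    exact le_of_mul_le_mul_left h4 h3
  rcases le_total (h ^ 2 * p * x ^ 2 / 2) (2 * (K * x)) with h3 | h3
  · right
    rw [le_div_iff₀ (by positivity)]
    have h4 : x * (x * (h ^ 2 * p)) ≤ x * (4 * K) := by nlinarith
    exact le_of_mul_le_mul_left h4 hx
  · left
    have h4 : h ^ 2 * p * x ^ 2 ≤ 4 * (p * N ^ (1 / a) * x ^ (2 - 1 / a)) := by linarith
    have h5 : x ^ 2 = x ^ (2 - 1 / a) * x ^ (1 / a) := by
      rw [← Real.rpow_add hx, sub_add_cancel]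
      norm_cast
    have h6 : 0 < x ^ (2 - 1 / a) := Real.rpow_pos_of_pos hx _
    have h7 : h ^ 2 * x ^ (1 / a) ≤ 4 * N ^ (1 / a) := by
      have h8 : (p * x ^ (2 - 1 / a)) * (h ^ 2 * x ^ (1 / a)) ≤
          (p * x ^ (2 - 1 / a)) * (4 * N ^ (1 / a)) := by
        calc (p * x ^ (2 - 1 / a)) * (h ^ 2 * x ^ (1 / a)) =
            h ^ 2 * p * (x ^ (2 - 1 / a) * x ^ (1 / a)) := by ring
          _ = h ^ 2 * p * x ^ 2 := by rw [← h5]
          _ ≤ _ := h4
          _ = _ := by ring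
      exact le_of_mul_le_mul_left h8 (by positivity)
    have h9 : x ^ (1 / a) ≤ (4 / h ^ 2) * N ^ (1 / a) := by
      rw [div_mul_eq_mul_div, le_div_iff₀ (by positivity)]
      linarith
    have ha0 : 0 < a := by linarith
    have h10 : (x ^ (1 / a)) ^ a ≤ ((4 / h ^ 2) * N ^ (1 / a)) ^ a :=
      Real.rpow_le_rpow (Real.rpow_nonneg hx.le _) h9 ha0.le
    rw [← Real.rpow_mul hx.le, one_div_mul_cancel ha0.ne', Real.rpow_one,
      Real.mul_rpow (by positivity) (Real.rpow_nonneg (by linarith) _),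
      ← Real.rpow_mul (by linarith : (0 : ℝ) ≤ N), one_div_mul_cancel ha0.ne',
      Real.rpow_one] at h10
    exact h10

theorem p_UH (h1 : T_CS) : T_UH := by
  intro V _ _ A K p a hC hKN h hh
  set N : ℝ := (Fintype.card V : ℝ) with hN
  set U : Finset V := univ.filter (fun u => h * p * N ≤ ((nb A u).card : ℝ)) with hU
  have hN1 : 1 ≤ N := by rw [hN]; exact_mod_cast hC.hN
  have hp := hC.hp
  rcases Nat.eq_zero_or_pos U.card with h0 | h0
  · left
    rw [h0, Nat.cast_zero]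
    have : 0 ≤ (4 / h ^ 2) ^ a := Real.rpow_nonneg (by positivity) _
    positivity
  · have hx : (0 : ℝ) < (U.card : ℝ) := by exact_mod_cast h0
    have hcs := h1 V A (fun _ => K) hC.adj.sym (LowD.of_low hC.low) U univ
    simp only [inter_univ, sum_const, nsmul_eq_mul, card_univ] at hcs
    rw [hC.he, ← hN] at hcs
    have hdeg : h * p * N * (U.card : ℝ) ≤ ee A U univ := by
      have : ∀ u ∈ U, h * p * N ≤ ∑ v ∈ (univ : Finset V), A u v := by
        intro u hu
        rw [hU, mem_filter] at hu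
        rw [hC.adj.deg u]
        exact hu.2
      have h2 := card_nsmul_le_sum U _ _ this
      rw [nsmul_eq_mul] at h2
      unfold ee
      linarith
    have hE0 : 0 ≤ ee A U U := by
      unfold ee
      refine sum_nonneg fun u _ => sum_nonneg fun v _ => ?_
      rcases hC.adj.zo u v with h3 | h3 <;> rw [h3]
      exact zero_le_one
    have hmx := hC.mx U
    rw [← hN] at hmx
    have hK1 := hC.hK
    have hKx : 0 ≤ K * (U.card : ℝ) := by positivity
    have h3 : (h * p * N * (U.card : ℝ)) ^ 2 ≤ (ee A U univ + (U.card : ℝ) * K) ^ 2 := by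
      apply pow_le_pow_left₀ (by positivity)
      linarith
    have h4 : 0 ≤ p * N ^ 2 + K * N := by positivity
    refine UH_real hN1 hx hp hh hC.ha hKN ?_ ?_
    · refine h3.trans (hcs.trans ?_)
      have h5 : (Fintype.card V : ℝ) = N := rfl
      calc (ee A U U + (U.card : ℝ) * K) * (p * N ^ 2 + N * K) =
          (ee A U U + K * (U.card : ℝ)) * (p * N ^ 2 + K * N) := by ring
        _ ≤ _ := mul_le_mul_of_nonneg_right (by linarith) h4
    · have : 0 ≤ p * N ^ (1 / a) * (U.card : ℝ) ^ (2 - 1 / a) := by positivity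
      linarith

end Pool.Agent.HTwo
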