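import Pool.Agent.HTwo.Targets

set_option autoImplicit false

/-!
# HTW, target WIN: choice of a window
-/

namespace Pool.Agent.HTwo

open Finset Pool.Agent.HLow

/-- exchange of the order of summation and the multiplicity bound -/
theorem WIN_mult {V : Type} [Fintype V] [DecidableEq V] (T : Finset ℕ) (C : Finset V)
    (P : ℕ → V → Prop) [∀ s u, Decidable (P s u)] (D : V → ℝ) (c : ℝ) (hD : ∀ u, 0 ≤ D u)
    (hc : ∀ u ∈ C, ((T.filter (fun s => P s u)).card : ℝ) ≤ c) :
    ∑ s ∈ T, ∑ u ∈ C.filter (fun u => P s u), D u ≤ c * ∑ u ∈ C, D u := by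
  have h1 : ∑ s ∈ T, ∑ u ∈ C.filter (fun u => P s u), D u =
      ∑ u ∈ C, ((T.filter (fun s => P s u)).card : ℝ) * D u := by
    simp only [Finset.sum_filter]
    rw [Finset.sum_comm]
    refine Finset.sum_congr rfl (fun u _ => ?_)
    rw [← Finset.sum_filter, Finset.sum_const, nsmul_eq_mul]
  rw [h1, Finset.mul_sum]
  exact Finset.sum_le_sum (fun u hu => mul_le_mul_of_nonneg_right (hc u hu) (hD u))

/-- number of `s` with `s W ≤ x + R`, `x < (s+2) W + R` -/
theorem WIN_count (T : Finset ℕ) (W R x : ℕ) (hW : 1 ≤ W) (Q : ℕ → Prop) [DecidablePred Q]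
    (hQ : ∀ s, Q s → s * W ≤ x + R ∧ x < (s + 2) * W + R) :
    ((T.filter Q).card : ℝ) ≤ 3 + 2 * (R : ℝ) / W := by
  set S := T.filter Q with hS
  have hWr : (0 : ℝ) < W := by exact_mod_cast hW
  rcases S.eq_empty_or_nonempty with h | h
  · rw [h]
    simp only [Finset.card_empty, Nat.cast_zero]
    positivity
  · have hmin := S.min'_mem h
    have hmax := S.max'_mem h
    set a := S.min' h
    set b := S.max' h
    have hsub : S ⊆ Finset.Icc a b := by
      intro s hs
      rw [Finset.mem_Icc]
      exact ⟨S.min'_le s hs, S.le_max' s hs⟩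
    have hcard := Finset.card_le_card hsub
    rw [Nat.card_Icc] at hcard
    have hab : a ≤ b := S.min'_le b hmax
    have h1 := (hQ _ (Finset.mem_filter.1 hmin).2).2
    have h2 := (hQ _ (Finset.mem_filter.1 hmax).2).1
    have h3 : b * W < (a + 2) * W + 2 * R := by omega
    have h3r : (b : ℝ) * W < ((a : ℝ) + 2) * W + 2 * R := by exact_mod_cast h3
    have h4 : (b : ℝ) - a < 2 + 2 * (R : ℝ) / W := by
      have h5 : ((b : ℝ) - a - 2) < 2 * (R : ℝ) / W := by
        rw [lt_div_iff₀ hWr]
        nlinarith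
      linarith
    have h6 : (S.card : ℝ) ≤ (b : ℝ) - a + 1 := by
      have h7 : S.card + a ≤ b + 1 := by omega
      have h8 : (S.card : ℝ) + a ≤ (b : ℝ) + 1 := by exact_mod_cast h7
      linarith
    linarith

/-- number of `s` with `s W ≤ x`, `x < (s+2) W` -/
theorem WIN_count2 (T : Finset ℕ) (W x : ℕ) (hW : 1 ≤ W) (Q : ℕ → Prop) [DecidablePred Q]
    (hQ : ∀ s, Q s → s * W ≤ x ∧ x < (s + 2) * W) :
    ((T.filter Q).card : ℝ) ≤ 2 := by
  have hsub : T.filter Q ⊆ Finset.Ioc (x / W - 2) (x / W) ∪
      (if x / W ≤ 1 then {0} else ∅) := by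
    intro s hs
    rw [Finset.mem_filter] at hs
    obtain ⟨h1, h2⟩ := hQ s hs.2
    have h3 : s ≤ x / W := (Nat.le_div_iff_mul_le hW).2 h1
    have h4 : x / W < s + 2 := (Nat.div_lt_iff_lt_mul hW).2 h2
    rw [Finset.mem_union, Finset.mem_Ioc]
    by_cases h5 : x / W ≤ 1
    · rw [if_pos h5, Finset.mem_singleton]
      omega
    · left
      omega
  have hcard := Finset.card_le_card hsub
  have h1 : (Finset.Ioc (x / W - 2) (x / W) ∪ (if x / W ≤ 1 then {0} else ∅)).card ≤ 2 := by
    refine (Finset.card_union_le _ _).trans ?_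
    rw [Nat.card_Ioc]
    split_ifs with h
    · rw [Finset.card_singleton]
      omega
    · rw [Finset.card_empty]
      omega
  exact_mod_cast hcard.trans h1

/-- target WIN -/
theorem p_WIN : T_WIN := by
  intro V _ _ A cp D C0 W R E n γ hA hD hinj hW hE hn hγ hC hDg hsum
  have hWr : (0 : ℝ) < W := by exact_mod_cast hW
  have hA0 : ∀ u v, 0 ≤ A u v := by
    intro u v
    rcases hA.zo u v with h | h <;> rw [h]
    exact zero_le_one
  set B : ℕ := ∑ u, cp u with hB
  have hcpB : ∀ u, cp u ≤ B := fun u =>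
    Finset.single_le_sum (f := cp) (fun _ _ => Nat.zero_le _) (Finset.mem_univ u)
  set T : Finset ℕ := Finset.range (B + 1) with hT
  set P : ℕ → V → Prop := fun s u => s * W ≤ cp u ∧ cp u < (s + 2) * W with hP
  set P' : ℕ → V → Prop := fun s u => s * W ≤ cp u + R ∧ cp u < (s + 2) * W + R with hP'
  haveI : ∀ s u, Decidable (P s u) := fun s u => by rw [hP]; infer_instance
  haveI : ∀ s u, Decidable (P' s u) := fun s u => by rw [hP']; infer_instance
  set I : ℕ → Finset V := fun s => C0.filter (fun u => P s u) with hI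
  set J : ℕ → Finset V := fun s => univ.filter (fun u => P' s u) with hJ
  set c : ℝ := 3 + 2 * (R : ℝ) / W with hc
  have hcpos : 0 < c := by positivity
  -- the energy
  have key1 : E ≤ ∑ s ∈ T, ee A (I s) (I s) := by
    refine hsum.trans ?_
    have h1 : ∑ s ∈ T, ee A (I s) (I s) =
        ∑ u ∈ C0, ∑ v ∈ C0, ∑ s ∈ T, (if P s u ∧ P s v then A u v else 0) := by
      have h2 : ∀ s ∈ T, ee A (I s) (I s) =
          ∑ u ∈ C0, ∑ v ∈ C0, (if P s u ∧ P s v then A u v else 0) := by
        intro s _
        unfold ee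
        simp only [hI, Finset.sum_filter]
        refine Finset.sum_congr rfl (fun u _ => ?_)
        by_cases hu : P s u
        · simp only [hu, if_true, true_and]
        · simp only [hu, if_false, false_and, Finset.sum_const_zero]
      rw [Finset.sum_congr rfl h2, Finset.sum_comm]
      refine Finset.sum_congr rfl (fun u _ => ?_)
      rw [Finset.sum_comm]
    rw [h1]
    refine Finset.sum_le_sum (fun u _ => Finset.sum_le_sum (fun v _ => ?_))
    have hnn : 0 ≤ ∑ s ∈ T, (if P s u ∧ P s v then A u v else 0) := by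
      refine Finset.sum_nonneg (fun s _ => ?_)
      split_ifs
      · exact hA0 u v
      · exact le_refl _
    split_ifs with hlt
    · set s0 : ℕ := min (cp u) (cp v) / W with hs0
      have hs0T : s0 ∈ T := by
        rw [hT, Finset.mem_range]
        have h3 : s0 ≤ min (cp u) (cp v) := Nat.div_le_self _ _
        have h4 := hcpB u
        omega
      have h5 : s0 * W ≤ min (cp u) (cp v) := Nat.div_mul_le_self _ _
      have h6 : min (cp u) (cp v) < (s0 + 1) * W := by
        have h := Nat.div_add_mod (min (cp u) (cp v)) W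
        have h' := Nat.mod_lt (min (cp u) (cp v)) hW
        rw [← hs0] at h
        have h'' : (s0 + 1) * W = W * s0 + W := by ring
        omega
      have h7 : cp u < cp v + W ∧ cp v < cp u + W := by
        rw [abs_lt] at hlt
        constructor
        · have : (cp u : ℝ) < (cp v : ℝ) + W := by linarith [hlt.2]
          exact_mod_cast this
        · have : (cp v : ℝ) < (cp u : ℝ) + W := by linarith [hlt.1]
          exact_mod_cast this
      have h8 : (s0 + 2) * W = (s0 + 1) * W + W := by ring
      have hPu : P s0 u := by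
        refine ⟨?_, ?_⟩ <;> omega
      have hPv : P s0 v := by
        refine ⟨?_, ?_⟩ <;> omega
      have h9 := Finset.single_le_sum (f := fun s => if P s u ∧ P s v then A u v else 0)
        (s := T) (fun s _ => by
          split_ifs
          · exact hA0 u v
          · exact le_refl _) hs0T
      simpa [hPu, hPv] using h9
    · exact hnn
  -- the cardinalities
  have key2 : ∑ s ∈ T, ((I s).card : ℝ) ≤ 2 * n := by
    have h1 := WIN_mult T C0 P (fun _ => (1 : ℝ)) 2 (fun _ => zero_le_one)
      (fun u _ => WIN_count2 T W (cp u) hW _ (fun s h => h))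
    simp only [Finset.sum_const, nsmul_eq_mul, mul_one] at h1
    linarith
  have key3 : ∑ s ∈ T, ∑ j ∈ J s, D j ≤ c * γ := by
    have h1 := WIN_mult T univ P' D c hD (fun u _ => WIN_count T W R (cp u) hW _ (fun s h => h))
    exact h1.trans (mul_le_mul_of_nonneg_left hDg hcpos.le)
  -- a good index
  have key4 : 0 < ∑ s ∈ T, (ee A (I s) (I s) - E / (8 * n) * ((I s).card : ℝ) -
      E / (8 * c * γ) * ∑ j ∈ J s, D j) := by
    rw [Finset.sum_sub_distrib, Finset.sum_sub_distrib, ← Finset.mul_sum, ← Finset.mul_sum]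
    have h1 : E / (8 * n) * ∑ s ∈ T, ((I s).card : ℝ) ≤ E / (8 * n) * (2 * n) :=
      mul_le_mul_of_nonneg_left key2 (by positivity)
    have h2 : E / (8 * n) * (2 * n) = E / 4 := by field_simp; ring
    have h3 : E / (8 * c * γ) * ∑ s ∈ T, ∑ j ∈ J s, D j ≤ E / (8 * c * γ) * (c * γ) :=
      mul_le_mul_of_nonneg_left key3 (by positivity)
    have h4 : E / (8 * c * γ) * (c * γ) = E / 8 := by field_simp
    linarith
  obtain ⟨s, hs⟩ : ∃ s, 0 < ee A (I s) (I s) - E / (8 * n) * ((I s).card : ℝ) -
      E / (8 * c * γ) * ∑ j ∈ J s, D j := by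
    by_contra hcon
    push Not at hcon
    exact absurd key4 (not_lt.2 (Finset.sum_nonpos (fun s _ => hcon s)))
  have hD0 : 0 ≤ ∑ j ∈ J s, D j := Finset.sum_nonneg (fun j _ => hD j)
  have hc1 : 0 ≤ E / (8 * n) * ((I s).card : ℝ) := by positivity
  have hc2 : 0 ≤ E / (8 * c * γ) * ∑ j ∈ J s, D j := by positivity
  refine ⟨I s, J s, Finset.filter_subset _ _, ?_, ?_, by linarith, ?_, by linarith, ?_⟩
  · intro u hu
    have hu2 : P s u := (Finset.mem_filter.1 hu).2
    rw [hJ, Finset.mem_filter]
    refine ⟨Finset.mem_univ _, ?_, ?_⟩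
    · have := hu2.1
      omega
    · have := hu2.2
      omega
  · have h1 : (I s).card ≤ (Finset.Ico (s * W) ((s + 2) * W)).card := by
      refine Finset.card_le_card_of_injOn cp ?_ ?_
      · intro u hu
        have hu2 : P s u := (Finset.mem_filter.1 hu).2
        simp only [Finset.coe_Ico, Set.mem_Ico]
        exact hu2
      · intro u hu v hv huv
        exact hinj u (Finset.mem_filter.1 hu).1 v (Finset.mem_filter.1 hv).1 huv
    rw [Nat.card_Ico] at h1
    have h2 : (s + 2) * W - s * W = 2 * W := by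
      have : (s + 2) * W = s * W + 2 * W := by ring
      omega
    rw [h2] at h1
    exact_mod_cast h1
  · intro i hi j hj
    have hi2 : P s i := (Finset.mem_filter.1 hi).2
    have hj2 : ¬ P' s j := fun h => hj (Finset.mem_filter.2 ⟨Finset.mem_univ _, h⟩)
    have h1 : s * W ≤ cp i := hi2.1
    have h2 : cp i < (s + 2) * W := hi2.2
    have h3 : cp j + R < s * W ∨ (s + 2) * W + R ≤ cp j := by
      by_contra hcon
      push Not at hcon
      exact hj2 ⟨hcon.1, hcon.2⟩
    rcases h3 with h3 | h3
    · have h4 : cp j + R ≤ cp i := by omega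
      have h5 : (cp j : ℝ) + R ≤ cp i := by exact_mod_cast h4
      exact le_trans (by linarith) (le_abs_self _)
    · have h4 : cp i + R ≤ cp j := by omega
      have h5 : (cp i : ℝ) + R ≤ cp j := by exact_mod_cast h4
      exact le_trans (by linarith) (neg_le_abs _)
  · have h1 : E / (8 * c * γ) * ∑ j ∈ J s, D j ≤ ee A (I s) (I s) := by linarith
    rw [div_mul_eq_mul_div, div_le_iff₀ (by positivity)] at h1
    linarith

end Pool.Agent.HTwo
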